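import Pool.Agent.BPD.Defs

/-!
# Cellular automata on cylinders and their one-dimensional systems: definitions

An automaton has a finite set of symbols; every symbol has a phase (modulo three) and two marks
`fst`, `tA`. A cell of the row `k` and the column `c` of a cylinder with `s` columns is determined by
the two cells before it in the same column (rows `k - 1`, `k - 2`), by the next cell of the row
`k - 1` and by the preceding cell (column `c - 1` of the row `k`, or column `s - 1` of the row `k - 1`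
if `c = 0`). The column `0` is the only one with mark `fst`, exactly `N` columns have the mark `tA`.

The system `sys A s N` of rules on the line encodes the automaton: the cell with the symbol `y` in the
row `k` and the column `c` is the site `k * tt + (position of the column) + s * hh y`.
-/

set_option autoImplicit false

namespace Pool.Agent.BPD

/-- Cellular automata. In `rel ρ σ τ ω υ` the symbol `υ` is the new one, `ρ`, `σ` are the symbols of
the same column, `τ` is the symbol of the next column, `ω` the one of the preceding column. -/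
structure Auto where
  S : Type
  [fin : Fintype S]
  fst : S → Bool
  tA : S → Bool
  ph : S → ZMod 3
  rel : S → S → S → S → S → Prop
  det : ∀ {ρ σ τ ω υ υ' : S}, rel ρ σ τ ω υ → rel ρ σ τ ω υ' → υ = υ'
  fst_eq : ∀ {ρ σ τ ω υ : S}, rel ρ σ τ ω υ → fst ρ = fst υ ∧ fst σ = fst υ
  tA_eq : ∀ {ρ σ τ ω υ : S}, rel ρ σ τ ω υ → tA ρ = tA υ ∧ tA σ = tA υ
  ph_eq : ∀ {ρ σ τ ω υ : S}, rel ρ σ τ ω υ → ph σ = ph ρ + 1 ∧ ph υ = ph σ + 1

attribute [instance] Auto.fin

variable (A : Auto)

/-- The code of a symbol: a power of two. -/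
noncomputable def hh (x : A.S) : ℤ := 2 ^ (Fintype.equivFin A.S x : ℕ)

/-- Bound for the codes. -/
noncomputable def hb : ℤ := 2 ^ Fintype.card A.S

/-- The distance of two columns. -/
noncomputable def dl (s : ℕ) : ℤ := s * (hb A + 1) + 1

/-- The additional distance before a column with mark `tA`, divided by `s`. -/
noncomputable def ww (s : ℕ) : ℤ := s * dl A s + 1

/-- The step to a column whose symbols have the marks of `x`. -/
noncomputable def st (s N : ℕ) (x : A.S) : ℤ :=
  dl A s + (if A.tA x then s * ww A s else 0) - (if A.fst x then s * dl A s + s * ww A s * N else 0)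

/-- Bound for the steps. -/
noncomputable def qq (s N : ℕ) : ℤ := dl A s + s * dl A s + s * ww A s * (N + 1)

/-- The distance of two rows. -/
noncomputable def tt (s N : ℕ) : ℤ := s * ((s + 2) * qq A s N + 6 * s * hb A + 1)

/-- The offsets of the four sites of a rule. -/
noncomputable def o0 (s N : ℕ) (ρ υ : A.S) : ℤ := -2 * tt A s N + s * (hh A ρ - hh A υ)

@[inherit_doc o0]
noncomputable def o1 (s N : ℕ) (σ υ : A.S) : ℤ := -tt A s N + s * (hh A σ - hh A υ)

@[inherit_doc o0]
noncomputable def o2 (s N : ℕ) (τ υ : A.S) : ℤ := -tt A s N + st A s N τ + s * (hh A τ - hh A υ)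

@[inherit_doc o0]
noncomputable def o3 (s N : ℕ) (ω υ : A.S) : ℤ :=
  -st A s N υ - (if A.fst υ then tt A s N else 0) + s * (hh A ω - hh A υ)

/-- The rule of five symbols. -/
noncomputable def rul (s N : ℕ) (x : A.S × A.S × A.S × A.S × A.S) : Finset ℤ :=
  {o0 A s N x.1 x.2.2.2.2, o1 A s N x.2.1 x.2.2.2.2, o2 A s N x.2.2.1 x.2.2.2.2,
    o3 A s N x.2.2.2.1 x.2.2.2.2}

open Classical in
/-- The system of rules of the automaton. -/
noncomputable def sys (s N : ℕ) : Finset (Finset ℤ) :=
  (Finset.univ.filter fun x : A.S × A.S × A.S × A.S × A.S =>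
    A.rel x.1 x.2.1 x.2.2.1 x.2.2.2.1 x.2.2.2.2).image (rul A s N)

theorem mem_sys {s N : ℕ} {X : Finset ℤ} : X ∈ sys A s N ↔
    ∃ ρ σ τ ω υ : A.S, A.rel ρ σ τ ω υ ∧
      X = {o0 A s N ρ υ, o1 A s N σ υ, o2 A s N τ υ, o3 A s N ω υ} := by
  classical
  unfold sys
  rw [Finset.mem_image]
  constructor
  · rintro ⟨⟨ρ, σ, τ, ω, υ⟩, h, rfl⟩
    exact ⟨ρ, σ, τ, ω, υ, (Finset.mem_filter.1 h).2, rfl⟩
  · rintro ⟨ρ, σ, τ, ω, υ, h, rfl⟩
    exact ⟨(ρ, σ, τ, ω, υ), Finset.mem_filter.2 ⟨Finset.mem_univ _, h⟩, rfl⟩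

/-- Infinite runs of the automaton on the cylinder with `s` columns, `N` of them with the mark
`tA`. -/
structure Run (s N : ℕ) (X : ℕ → ℕ → A.S) : Prop where
  rel : ∀ k, 2 ≤ k → ∀ c < s, A.rel (X (k - 2) c) (X (k - 1) c) (X (k - 1) ((c + 1) % s))
    (if c = 0 then X (k - 1) (s - 1) else X k (c - 1)) (X k c)
  fst : ∀ k, ∀ c < s, (A.fst (X k c) = true ↔ c = 0)
  cnt : ∀ k, ((Finset.range s).filter fun c => A.tA (X k c) = true).card = N

/-- The closure of `Z` has infinitely many elements in every class modulo `s`, and `Z` has exactly two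
elements in every class. -/
structure Two (s N : ℕ) (Z : Set ℤ) : Prop where
  fin : Z.Finite
  inf : ∀ c : ZMod s, {p : ℤ | p ∈ clo1 (sys A s N) Z ∧ (p : ZMod s) = c}.Infinite
  two : ∀ c : ZMod s, ∃ a b : ℤ, a < b ∧ ∀ p : ℤ, (p ∈ Z ∧ (p : ZMod s) = c) ↔ p = a ∨ p = b

/-- `x c` enumerates the sites of the column `c`; the site with the number `k + 2` is given by a rule
applied to the two preceding ones and to sites of the two neighbouring columns. -/
structure Enum (s N : ℕ) (x : ZMod s → ℕ → ℤ) : Prop where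
  mono : ∀ c, StrictMono (x c)
  inst : ∀ c k, ∃ (ρ σ τ ω υ : A.S) (j j' : ℕ), A.rel ρ σ τ ω υ ∧
    x c k = x c (k + 2) + o0 A s N ρ υ ∧ x c (k + 1) = x c (k + 2) + o1 A s N σ υ ∧
    x (c + 1) j = x c (k + 2) + o2 A s N τ υ ∧ x (c - 1) j' = x c (k + 2) + o3 A s N ω υ

/-- The symbols of the columns: from the number `2` on the site `x c k` is
`f c + k * tt + s * hh (Y c k)`. -/
structure Symb (s N : ℕ) (x : ZMod s → ℕ → ℤ) (f : ZMod s → ℤ) (Y : ZMod s → ℕ → A.S) :
    Prop where
  mono : ∀ c, StrictMono (x c)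
  eq : ∀ c k, 2 ≤ k → x c k = f c + k * tt A s N + s * hh A (Y c k)
  inst : ∀ c k, 4 ≤ k → ∃ (τ ω : A.S) (j j' : ℕ),
    A.rel (Y c (k - 2)) (Y c (k - 1)) τ ω (Y c k) ∧
    x (c + 1) j = x c k + o2 A s N τ (Y c k) ∧ x (c - 1) j' = x c k + o3 A s N ω (Y c k)

/-- Runs on a cylinder cut open in every column: the column `c + 1` is shifted by `e c` against the
column `c`. -/
structure Screw (s N : ℕ) [NeZero s] (Y : ZMod s → ℤ → A.S) (e : ZMod s → ℤ) (K : ℤ)
    (F G : ZMod s → Bool) : Prop where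
  rel : ∀ c k, K ≤ k → A.rel (Y c (k - 2)) (Y c (k - 1)) (Y (c + 1) (k - 1 + e c))
    (Y (c - 1) (k - e (c - 1) - if F c then 1 else 0)) (Y c k)
  fst : ∀ c k, K ≤ k → A.fst (Y c k) = F c
  tA : ∀ c k, K ≤ k → A.tA (Y c k) = G c
  sum : ∑ c, e c = 0
  one : ∃ c₀, ∀ c, F c = true ↔ c = c₀
  cnt : (Finset.univ.filter fun c => G c = true).card = N

end Pool.Agent.BPD
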