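import Pool.Agent.BPD.Defs

/-!
# Closures (two-dimensional and one-dimensional)

PROOFS. `subset_clo`: the term `t = 0` of the union. The iterates `(upd U)^[t] A` increase with `t`
(`A ⊆ upd U A`, and `upd U` is monotone). `clo_rule`: `X` is finite, so there is one `t` with
`x + y ∈ (upd U)^[t] A` for all `y ∈ X` (induction over the finite set, or the maximum of chosen
indices); then `x ∈ (upd U)^[t + 1] A` (`Function.iterate_succ_apply'`). `clo_least`: induction on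
`t`: `(upd U)^[t] A ⊆ P`. `clo_mono`: `clo_least` with `P = clo U B`. `clo_cases`: let `P` be the set
of the `x ∈ clo U A` with the property on the right; apply `clo_least` (if `x + y ∈ P ⊆ clo U A` for
all `y ∈ X` then `x ∈ clo U A` by `clo_rule`). The same for `upd1`, `clo1`. `clo1_ind`: `clo1_least`
with the set of the `x ∈ clo1 R A` with `P x`. `clo1_lower`: `clo1_least` with `P = {x | m ≤ x}`: the
rules are nonempty and negative. `a1_le`, `le_a1`: `iInf₂_le`, `le_iInf₂`. `exists_a1`: otherwise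
`n + 1 ≤ Z.encard` for all `Z` with infinite closure, so `n + 1 ≤ a1 R ≤ n`.
-/

set_option autoImplicit false

namespace Pool.Agent.BPD

open Set

/-- one step, general version -/
private def cloAU {G : Type*} [Add G] (U : Finset (Finset G)) (A : Set G) : Set G :=
  A ∪ {x | ∃ X ∈ U, ∀ y ∈ X, x + y ∈ A}

/-- the closure, general version -/
private def cloAC {G : Type*} [Add G] (U : Finset (Finset G)) (A : Set G) : Set G :=
  ⋃ t : ℕ, (cloAU U)^[t] A

private theorem cloA_step {G : Type*} [Add G] (U : Finset (Finset G)) (A : Set G) (t : ℕ) :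
    (cloAU U)^[t] A ⊆ (cloAU U)^[t + 1] A := by
  rw [Function.iterate_succ_apply']
  exact Set.subset_union_left

private theorem cloA_mono_t {G : Type*} [Add G] (U : Finset (Finset G)) (A : Set G) :
    Monotone fun t : ℕ => (cloAU U)^[t] A :=
  monotone_nat_of_le_succ (cloA_step U A)

private theorem cloA_sub {G : Type*} [Add G] (U : Finset (Finset G)) (A : Set G) :
    A ⊆ cloAC U A := Set.subset_iUnion (fun t : ℕ => (cloAU U)^[t] A) 0

private theorem cloA_rule {G : Type*} [Add G] {U : Finset (Finset G)} {A : Set G} {X : Finset G}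
    {x : G} (hX : X ∈ U) (h : ∀ y ∈ X, x + y ∈ cloAC U A) : x ∈ cloAC U A := by
  have h1 : ∃ t : ℕ, ∀ y ∈ X, x + y ∈ (cloAU U)^[t] A := by
    clear hX
    classical
    induction X using Finset.induction_on with
    | empty => exact ⟨0, fun y hy => absurd hy (Finset.notMem_empty y)⟩
    | insert a X ha ih =>
      obtain ⟨t, ht⟩ := ih fun y hy => h y (Finset.mem_insert_of_mem hy)
      obtain ⟨s, hs⟩ := Set.mem_iUnion.1 (h a (Finset.mem_insert_self a X))
      refine ⟨max t s, fun y hy => ?_⟩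
      rcases Finset.mem_insert.1 hy with rfl | hy
      · exact cloA_mono_t U A (le_max_right t s) hs
      · exact cloA_mono_t U A (le_max_left t s) (ht y hy)
  obtain ⟨t, ht⟩ := h1
  refine Set.mem_iUnion.2 ⟨t + 1, ?_⟩
  rw [Function.iterate_succ_apply']
  exact Or.inr ⟨X, hX, ht⟩

private theorem cloA_least {G : Type*} [Add G] {U : Finset (Finset G)} {A P : Set G} (hA : A ⊆ P)
    (hP : ∀ X ∈ U, ∀ x, (∀ y ∈ X, x + y ∈ P) → x ∈ P) : cloAC U A ⊆ P := by
  refine Set.iUnion_subset fun t => ?_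
  induction t with
  | zero => exact hA
  | succ t ih =>
    rw [Function.iterate_succ_apply']
    rintro x (hx | ⟨X, hX, hx⟩)
    · exact ih hx
    · exact hP X hX x fun y hy => ih (hx y hy)

private theorem cloA_mono {G : Type*} [Add G] {U : Finset (Finset G)} {A B : Set G} (h : A ⊆ B) :
    cloAC U A ⊆ cloAC U B :=
  cloA_least (h.trans (cloA_sub U B)) fun _ hX _ hx => cloA_rule hX hx

private theorem cloA_cases {G : Type*} [Add G] {U : Finset (Finset G)} {A : Set G} {x : G}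
    (h : x ∈ cloAC U A) : x ∈ A ∨ ∃ X ∈ U, ∀ y ∈ X, x + y ∈ cloAC U A := by
  have h1 : cloAC U A ⊆ {x | x ∈ cloAC U A ∧ (x ∈ A ∨ ∃ X ∈ U, ∀ y ∈ X, x + y ∈ cloAC U A)} := by
    apply cloA_least
    · intro a ha
      exact ⟨cloA_sub U A ha, Or.inl ha⟩
    · intro X hX a ha
      exact ⟨cloA_rule hX fun y hy => (ha y hy).1, Or.inr ⟨X, hX, fun y hy => (ha y hy).1⟩⟩
  exact (h1 h).2

theorem subset_clo (U : Fam) (A : Set (ℤ × ℤ)) : A ⊆ clo U A := cloA_sub U A

theorem clo_rule {U : Fam} {A : Set (ℤ × ℤ)} {X : Finset (ℤ × ℤ)} {x : ℤ × ℤ} (hX : X ∈ U)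
    (h : ∀ y ∈ X, x + y ∈ clo U A) : x ∈ clo U A := cloA_rule hX h

theorem clo_least {U : Fam} {A P : Set (ℤ × ℤ)} (hA : A ⊆ P)
    (hP : ∀ X ∈ U, ∀ x, (∀ y ∈ X, x + y ∈ P) → x ∈ P) : clo U A ⊆ P := cloA_least hA hP

theorem clo_mono {U : Fam} {A B : Set (ℤ × ℤ)} (h : A ⊆ B) : clo U A ⊆ clo U B := cloA_mono h

theorem clo_cases {U : Fam} {A : Set (ℤ × ℤ)} {x : ℤ × ℤ} (h : x ∈ clo U A) :
    x ∈ A ∨ ∃ X ∈ U, ∀ y ∈ X, x + y ∈ clo U A := cloA_cases h

theorem subset_clo1 (R : Finset (Finset ℤ)) (A : Set ℤ) : A ⊆ clo1 R A := cloA_sub R A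

theorem clo1_rule {R : Finset (Finset ℤ)} {A : Set ℤ} {X : Finset ℤ} {x : ℤ} (hX : X ∈ R)
    (h : ∀ t ∈ X, x + t ∈ clo1 R A) : x ∈ clo1 R A := cloA_rule hX h

theorem clo1_least {R : Finset (Finset ℤ)} {A P : Set ℤ} (hA : A ⊆ P)
    (hP : ∀ X ∈ R, ∀ x, (∀ t ∈ X, x + t ∈ P) → x ∈ P) : clo1 R A ⊆ P := cloA_least hA hP

theorem clo1_mono {R : Finset (Finset ℤ)} {A B : Set ℤ} (h : A ⊆ B) : clo1 R A ⊆ clo1 R B :=
  cloA_mono h

theorem clo1_cases {R : Finset (Finset ℤ)} {A : Set ℤ} {x : ℤ} (h : x ∈ clo1 R A) :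
    x ∈ A ∨ ∃ X ∈ R, ∀ t ∈ X, x + t ∈ clo1 R A := cloA_cases h

theorem clo1_ind {R : Finset (Finset ℤ)} {A : Set ℤ} {P : ℤ → Prop} (hA : ∀ x ∈ A, P x)
    (hP : ∀ X ∈ R, ∀ x, (∀ t ∈ X, x + t ∈ clo1 R A) → (∀ t ∈ X, P (x + t)) → P x) :
    ∀ x ∈ clo1 R A, P x := by
  have h1 : clo1 R A ⊆ {x | x ∈ clo1 R A ∧ P x} := by
    apply clo1_least
    · intro a ha
      exact ⟨subset_clo1 R A ha, hA a ha⟩
    · intro X hX a ha
      exact ⟨clo1_rule hX fun y hy => (ha y hy).1,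
        hP X hX a (fun y hy => (ha y hy).1) fun y hy => (ha y hy).2⟩
  exact fun x hx => (h1 hx).2

theorem clo1_lower {R : Finset (Finset ℤ)} {A : Set ℤ} (hR : Neg1 R) {m : ℤ}
    (hm : ∀ a ∈ A, m ≤ a) : ∀ x ∈ clo1 R A, m ≤ x := by
  have h1 : clo1 R A ⊆ {x | m ≤ x} := by
    apply clo1_least
    · exact hm
    · intro X hX x hx
      obtain ⟨⟨t, ht⟩, h2⟩ := hR X hX
      have h3 : m ≤ x + t := hx t ht
      have h4 := h2 t ht
      change m ≤ x
      omega
  exact h1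

theorem a1_le {R : Finset (Finset ℤ)} {Z : Set ℤ} (h : (clo1 R Z).Infinite) :
    a1 R ≤ Z.encard := iInf₂_le Z h

theorem le_a1 {R : Finset (Finset ℤ)} {n : ℕ∞}
    (h : ∀ Z : Set ℤ, (clo1 R Z).Infinite → n ≤ Z.encard) : n ≤ a1 R := le_iInf₂ h

theorem exists_a1 {R : Finset (Finset ℤ)} {n : ℕ} (h : a1 R ≤ n) :
    ∃ Z : Set ℤ, (clo1 R Z).Infinite ∧ Z.encard ≤ n := by
  by_contra hcon
  push Not at hcon
  have h1 : (n : ℕ∞) + 1 ≤ a1 R := by
    apply le_a1
    intro Z hZ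
    exact Order.add_one_le_of_lt (hcon Z hZ)
  have h2 : (n : ℕ∞) + 1 ≤ n := h1.trans h
  have h3 : ((n + 1 : ℕ) : ℕ∞) ≤ (n : ℕ∞) := by exact_mod_cast h2
  have h4 : n + 1 ≤ n := by exact_mod_cast h3
  omega

end Pool.Agent.BPD
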