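import Pool.Agent.BPD.Par

/-!
# At most `2 s` seeds with infinite closure: exactly two seeds in every column

The column of a site `p : ℤ` is the class `(p : ZMod s)`. A rule of `sys A s N` applied at the site `x`
reads the sites `x + o0 < x + o1` in the column of `x`, the site `x + o2` in the next column, the
site `x + o3` in the preceding column (`o0_cast`, ..., `o3_cast`); all are smaller than `x`
(`neg1_sys`).

PROOFS. `inst_of_mem`: `clo1_cases` and `mem_sys`. `o0_lt_o1`: `tt_big`, `hh_pos`, `hh_lt`.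

`two_of_encard`. Let `C = clo1 (sys A s N) Z` be infinite, `Z.encard ≤ 2 s`. `Z` is finite, so `C` is
bounded below (`clo1_lower`). Infinitely many sites of `C` are in one column `c` (there are finitely many
columns). If the column `c` contains infinitely many elements of `C` then so do the columns `c + 1`,
`c - 1`: an infinite set of integers which is bounded below contains arbitrarily large elements; all
but finitely many are not in `Z`, and the offsets `o2`, `o3` take only finitely many values (the set of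
symbols is finite), so the elements `x + o2`, `x + o3` are arbitrarily large. Hence (iterate) every
column has infinitely many elements of `C` (`inf`). Two seeds in every column: let `p` be the least
element of `C` in the column `c`, `q` the second one (least element larger than `p`). If `p ∉ Z`, then
`x + o0 < p` is in `C` in the same column, impossible. If `q ∉ Z` then `q + o0 < q + o1 < q` are in `C`
in the same column, impossible. So `Z` has at least two elements in every one of the `s` columns, at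
least `2 s` in total, hence exactly two in every column: otherwise there would be at least
`2 s + 1` elements (`Finset.card_eq_sum_card_fiberwise` or `Finset.card_eq_sum_card_fiberwise` with the map
to `ZMod s`, `ZMod.card`).

`Two.seeds_least`: as before the two smallest elements `a < b` of `C` in the column (it has infinitely
many, `h.inf`, and `C` is bounded below) are in `Z`; by `h.two` they are the only elements of `Z` in the
column, so `q = a` or `q = b`, and `p < q` gives `q = b`, `p = a`.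
-/

set_option autoImplicit false

namespace Pool.Agent.BPD

variable {A : Auto} {s N : ℕ}

theorem o0_lt_o1 (hs : 1 ≤ s) (ρ σ υ υ' : A.S) : o0 A s N ρ υ < o1 A s N σ υ' := by
  have h1 := tt_big (A := A) (N := N) hs
  have hq := qq_nonneg (A := A) (s := s) (N := N)
  have hs0 : (0 : ℤ) ≤ (s : ℤ) := Int.natCast_nonneg s
  have hsq : (0 : ℤ) ≤ s * qq A s N := mul_nonneg hs0 hq
  have h2 := hh_lt (A := A) ρ
  have h3 := hh_pos (A := A) υ
  have h4 := hh_pos (A := A) σ
  have h5 := hh_lt (A := A) υ'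
  have h6 : (s : ℤ) * (hh A ρ - hh A υ - hh A σ + hh A υ') ≤ s * (2 * hb A) :=
    mul_le_mul_of_nonneg_left (by linarith) hs0
  have h8 := hh_pos (A := A) υ'
  have h7 : (0 : ℤ) ≤ s * hb A := mul_nonneg hs0 (by linarith)
  unfold o0 o1
  nlinarith

theorem inst_of_mem {Z : Set ℤ} {p : ℤ} (hp : p ∈ clo1 (sys A s N) Z) (hZ : p ∉ Z) :
    ∃ ρ σ τ ω υ : A.S, A.rel ρ σ τ ω υ ∧
      p + o0 A s N ρ υ ∈ clo1 (sys A s N) Z ∧ p + o1 A s N σ υ ∈ clo1 (sys A s N) Z ∧
      p + o2 A s N τ υ ∈ clo1 (sys A s N) Z ∧ p + o3 A s N ω υ ∈ clo1 (sys A s N) Z := by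
  rcases clo1_cases hp with h | ⟨X, hX, h⟩
  · exact absurd h hZ
  · obtain ⟨ρ, σ, τ, ω, υ, hr, rfl⟩ := (mem_sys A).1 hX
    exact ⟨ρ, σ, τ, ω, υ, hr, h _ (by simp), h _ (by simp), h _ (by simp), h _ (by simp)⟩

/-- The set of the sites of a column. -/
private def coluC (A : Auto) (s N : ℕ) (Z : Set ℤ) (c : ZMod s) : Set ℤ :=
  {p : ℤ | p ∈ clo1 (sys A s N) Z ∧ (p : ZMod s) = c}

/-- The two smallest sites of a column are seeds. -/
private theorem colu_least (hs : 1 ≤ s) {Z : Set ℤ} (hfin : Z.Finite) {c : ZMod s}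
    (hinf : (coluC A s N Z c).Infinite) :
    ∃ p q : ℤ, p < q ∧ (p ∈ Z ∧ (p : ZMod s) = c) ∧ (q ∈ Z ∧ (q : ZMod s) = c) ∧
      ∀ r ∈ coluC A s N Z c, r = p ∨ q ≤ r := by
  obtain ⟨m, hm⟩ := hfin.bddBelow
  have hlow : ∀ x ∈ clo1 (sys A s N) Z, m ≤ x :=
    clo1_lower (neg1_sys hs) fun a ha => hm ha
  obtain ⟨p, hp, hpl⟩ := Int.exists_least_of_bdd (P := fun x => x ∈ coluC A s N Z c)
    ⟨m, fun z hz => hlow z hz.1⟩ hinf.nonempty
  have hinf2 : (coluC A s N Z c \ {p}).Infinite := hinf.sdiff (Set.finite_singleton p)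
  obtain ⟨q, hq, hql⟩ := Int.exists_least_of_bdd (P := fun x => x ∈ coluC A s N Z c \ {p})
    ⟨m, fun z hz => hlow z hz.1.1⟩ hinf2.nonempty
  have hqp : q ≠ p := fun h => hq.2 h
  have hpq : p < q := lt_of_le_of_ne (hpl q hq.1) (Ne.symm hqp)
  have hneg : ∀ {ρ σ τ ω υ : A.S}, A.rel ρ σ τ ω υ → o0 A s N ρ υ < 0 ∧ o1 A s N σ υ < 0 := by
    intro ρ σ τ ω υ h
    have h1 := (neg1_sys (A := A) (N := N) hs) _ (rule_mem_sys (s := s) (N := N) h)
    exact ⟨h1.2 _ (by simp), h1.2 _ (by simp)⟩
  refine ⟨p, q, hpq, ⟨?_, hp.2⟩, ⟨?_, hq.1.2⟩, ?_⟩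
  · by_contra hZ
    obtain ⟨ρ, σ, τ, ω, υ, hr, h0, -, -, -⟩ := inst_of_mem hp.1 hZ
    have h2 : p + o0 A s N ρ υ ∈ coluC A s N Z c := by
      refine ⟨h0, ?_⟩
      rw [Int.cast_add, o0_cast, add_zero]
      exact hp.2
    have h3 := hpl _ h2
    have h4 := (hneg hr).1
    omega
  · by_contra hZ
    obtain ⟨ρ, σ, τ, ω, υ, hr, h0, h1, -, -⟩ := inst_of_mem hq.1.1 hZ
    have h2 : q + o0 A s N ρ υ ∈ coluC A s N Z c := by
      refine ⟨h0, ?_⟩
      rw [Int.cast_add, o0_cast, add_zero]
      exact hq.1.2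
    have h3 : q + o1 A s N σ υ ∈ coluC A s N Z c := by
      refine ⟨h1, ?_⟩
      rw [Int.cast_add, o1_cast, add_zero]
      exact hq.1.2
    have h4 := hneg hr
    have h5 := o0_lt_o1 (A := A) (s := s) (N := N) hs ρ σ υ υ
    have h6 : q + o0 A s N ρ υ = p := by
      by_contra hne
      have := hql _ ⟨h2, hne⟩
      omega
    have h7 : q + o1 A s N σ υ = p := by
      by_contra hne
      have := hql _ ⟨h3, hne⟩
      omega
    omega
  · intro r hr
    by_cases h : r = p
    · exact Or.inl h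
    · exact Or.inr (hql r ⟨hr, h⟩)

theorem two_of_encard (hs : 2 ≤ s) {Z : Set ℤ} (hZ : (clo1 (sys A s N) Z).Infinite)
    (hc : Z.encard ≤ (2 * s : ℕ)) : Two A s N Z := by
  classical
  have hs1 : 1 ≤ s := by omega
  have : NeZero s := ⟨by omega⟩
  have hfin : Z.Finite := Set.finite_of_encard_le_coe hc
  -- one column is infinite
  have h1 : ∃ c, (coluC A s N Z c).Infinite := by
    by_contra hcon
    push Not at hcon
    apply hZ
    refine (Set.finite_iUnion fun c => hcon c).subset ?_
    intro p hp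
    exact Set.mem_iUnion.2 ⟨(p : ZMod s), hp, rfl⟩
  -- the next column
  have h2 : ∀ c, (coluC A s N Z c).Infinite → (coluC A s N Z (c + 1)).Infinite := by
    intro c hinf hfin'
    have h3 : (coluC A s N Z c \ Z).Infinite := hinf.sdiff hfin
    apply h3
    refine (Set.finite_iUnion fun x : A.S × A.S =>
      hfin'.image fun r => r - o2 A s N x.1 x.2).subset ?_
    rintro p ⟨hp, hpZ⟩
    obtain ⟨ρ, σ, τ, ω, υ, hr, -, -, h4, -⟩ := inst_of_mem hp.1 hpZ
    refine Set.mem_iUnion.2 ⟨(τ, υ), p + o2 A s N τ υ, ⟨h4, ?_⟩, ?_⟩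
    · rw [Int.cast_add, o2_cast, hp.2]
    · change p + o2 A s N τ υ - o2 A s N τ υ = p
      ring
  have h3 : ∀ c, (coluC A s N Z c).Infinite := by
    obtain ⟨c₀, hc₀⟩ := h1
    have h4 : ∀ n : ℕ, (coluC A s N Z (c₀ + n)).Infinite := by
      intro n
      induction n with
      | zero => simpa using hc₀
      | succ n ih =>
        have := h2 _ ih
        rw [Nat.cast_succ, ← add_assoc]
        exact this
    intro c
    have h5 := h4 (c - c₀).val
    rw [ZMod.natCast_zmod_val, add_sub_cancel] at h5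
    exact h5
  refine ⟨hfin, h3, ?_⟩
  -- counting
  have hcard : hfin.toFinset.card ≤ 2 * s := by
    rw [hfin.encard_eq_coe_toFinset_card] at hc
    exact_mod_cast hc
  have hsum : hfin.toFinset.card =
      ∑ c : ZMod s, (hfin.toFinset.filter fun p : ℤ => (p : ZMod s) = c).card :=
    Finset.card_eq_sum_card_fiberwise fun x _ => Finset.mem_univ _
  have htwo : ∀ c : ZMod s, 2 ≤ (hfin.toFinset.filter fun p : ℤ => (p : ZMod s) = c).card := by
    intro c
    obtain ⟨p, q, hpq, hp, hq, -⟩ := colu_least (A := A) (N := N) hs1 hfin (h3 c)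
    have h5 : ({p, q} : Finset ℤ) ⊆ hfin.toFinset.filter fun p : ℤ => (p : ZMod s) = c := by
      intro x hx
      rcases Finset.mem_insert.1 hx with rfl | hx
      · exact Finset.mem_filter.2 ⟨hfin.mem_toFinset.2 hp.1, hp.2⟩
      · rw [Finset.mem_singleton.1 hx]
        exact Finset.mem_filter.2 ⟨hfin.mem_toFinset.2 hq.1, hq.2⟩
    have h6 := Finset.card_le_card h5
    rwa [Finset.card_pair hpq.ne] at h6
  have hconst : ∑ _c : ZMod s, 2 = 2 * s := by
    rw [Finset.sum_const, Finset.card_univ, ZMod.card, smul_eq_mul, mul_comm]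
  have heq : ∀ c : ZMod s, 2 = (hfin.toFinset.filter fun p : ℤ => (p : ZMod s) = c).card := by
    have h7 : ∑ _c : ZMod s, 2 =
        ∑ c : ZMod s, (hfin.toFinset.filter fun p : ℤ => (p : ZMod s) = c).card := by
      apply le_antisymm
      · exact Finset.sum_le_sum fun c _ => htwo c
      · rw [hconst, ← hsum]
        exact hcard
    have h8 := (Finset.sum_eq_sum_iff_of_le (s := Finset.univ) fun c _ => htwo c).1 h7
    exact fun c => h8 c (Finset.mem_univ c)
  intro c
  obtain ⟨p, q, hpq, hp, hq, -⟩ := colu_least (A := A) (N := N) hs1 hfin (h3 c)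
  have h5 : ({p, q} : Finset ℤ) ⊆ hfin.toFinset.filter fun p : ℤ => (p : ZMod s) = c := by
    intro x hx
    rcases Finset.mem_insert.1 hx with rfl | hx
    · exact Finset.mem_filter.2 ⟨hfin.mem_toFinset.2 hp.1, hp.2⟩
    · rw [Finset.mem_singleton.1 hx]
      exact Finset.mem_filter.2 ⟨hfin.mem_toFinset.2 hq.1, hq.2⟩
  have h6 : ({p, q} : Finset ℤ) = hfin.toFinset.filter fun p : ℤ => (p : ZMod s) = c := by
    apply Finset.eq_of_subset_of_card_le h5
    rw [← heq c, Finset.card_pair hpq.ne]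
  refine ⟨p, q, hpq, fun r => ?_⟩
  have h7 : r ∈ ({p, q} : Finset ℤ) ↔ r ∈ Z ∧ (r : ZMod s) = c := by
    rw [h6, Finset.mem_filter, hfin.mem_toFinset]
  rw [← h7, Finset.mem_insert, Finset.mem_singleton]

/-- In a column the seeds are the two smallest sites. -/
theorem Two.seeds_least (hs : 2 ≤ s) {Z : Set ℤ} (h : Two A s N Z) {p q : ℤ}
    (hp : p ∈ clo1 (sys A s N) Z) (hq : q ∈ Z) (hpq : (p : ZMod s) = (q : ZMod s)) (hlt : p < q) :
    p ∈ Z := by
  obtain ⟨a, b, hab, ha, hb, hleast⟩ := colu_least (A := A) (N := N) (by omega : 1 ≤ s) h.fin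
    (h.inf (p : ZMod s))
  obtain ⟨a', b', hab', htwo⟩ := h.two (p : ZMod s)
  have h1 := (htwo a).1 ha
  have h2 := (htwo b).1 hb
  have h3 := (htwo q).1 ⟨hq, hpq.symm⟩
  rcases hleast p ⟨hp, rfl⟩ with h4 | h4
  · rw [h4]
    exact ha.1
  · exfalso
    omega

end Pool.Agent.BPD
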