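import Pool.Agent.BPD.Gap

/-!
# The enumeration of the columns

Let `H = s hb`, `T = tt`, `C = clo1 (sys A s N) Z`; `T > 6 H` (`tt_big`, `qq_nonneg`).

PROOF of `exists_enum`. `C` is bounded below (`h.fin`, `clo1_lower`, `neg1_sys`). For every column `c` the
set `P c` of the `p ∈ C` in the column `c` is infinite and bounded below; let `x c : ℕ → ℤ` be its
increasing enumeration (`Nat.nth` or `Nat.Subtype.orderIsoOfNat` for the set of the `n : ℕ` with
`m + n ∈ P c`). So `x c` is strictly monotone and its range is `P c`.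

`x c (k + 2) ∉ Z`: otherwise `x c k` and `x c (k + 1)` are in `Z` (`Two.seeds_least`), three elements of
`Z` in one column, against `h.two`. Take the symbols `ρ, σ, τ, ω, υ` of `inst_of_mem` for
`q = x c (k + 2)`. `q + o1` is in `P c` and smaller than `q`, so `q + o1 ≤ x c (k + 1)`; if it is smaller
then (`gap` twice) `q - (q + o1) ≥ 2 (T - H)`, but `- o1 = T - s (hh σ - hh υ) < T + H < 2 (T - H)`. So
`q + o1 = x c (k + 1)`. `q + o0 < q + o1` (`o0_lt_o1`), so `q + o0 ≤ x c k`; if it is smaller then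
`q - (q + o0) ≥ 3 (T - H)`, but `- o0 < 2 T + H < 3 (T - H)`. So `q + o0 = x c k`. The site
`q + o2` is in `P (c + 1)` and `q + o3` is in `P (c - 1)` (`o2_cast`, `o3_cast`), which gives `j`,
`j'`.
-/

set_option autoImplicit false

namespace Pool.Agent.BPD

/-- an infinite set of integers which is bounded below has an increasing enumeration -/
private theorem enumB_set {P : Set ℤ} (hP : P.Infinite) {m : ℤ} (hm : ∀ p ∈ P, m ≤ p) :
    ∃ x : ℕ → ℤ, StrictMono x ∧ ∀ p, p ∈ P ↔ ∃ k, x k = p := by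
  obtain ⟨f, hf⟩ : ∃ f : ℕ → Prop, f = fun n : ℕ => m + (n : ℤ) ∈ P := ⟨_, rfl⟩
  have h1 : {n : ℕ | f n}.Infinite := by
    intro hfin
    apply hP
    refine (hfin.image fun n : ℕ => m + (n : ℤ)).subset fun p hp => ?_
    have h2 := hm p hp
    have h3 : m + ((p - m).toNat : ℤ) = p := by
      rw [Int.toNat_of_nonneg (by omega)]
      ring
    refine ⟨(p - m).toNat, ?_, h3⟩
    rw [hf]
    change m + ((p - m).toNat : ℤ) ∈ P
    rw [h3]
    exact hp
  refine ⟨fun k => m + (Nat.nth f k : ℤ), fun a b hab => ?_, fun p => ⟨fun hp => ?_, ?_⟩⟩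
  · have h2 : Nat.nth f a < Nat.nth f b := Nat.nth_strictMono h1 hab
    change m + (Nat.nth f a : ℤ) < m + (Nat.nth f b : ℤ)
    omega
  · have h2 := hm p hp
    have h3 : m + ((p - m).toNat : ℤ) = p := by
      rw [Int.toNat_of_nonneg (by omega)]
      ring
    have h4 : (p - m).toNat ∈ Set.range (Nat.nth f) := by
      rw [Nat.range_nth_of_infinite h1]
      rw [hf]
      change m + ((p - m).toNat : ℤ) ∈ P
      rw [h3]
      exact hp
    obtain ⟨k, hk⟩ := h4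
    refine ⟨k, ?_⟩
    change m + (Nat.nth f k : ℤ) = p
    rw [hk, h3]
  · rintro ⟨k, rfl⟩
    have h2 : f (Nat.nth f k) := Nat.nth_mem_of_infinite h1 k
    rw [hf] at h2
    rw [hf]
    exact h2

private theorem enumB_bound {A : Auto} {s : ℕ} (hs : 2 ≤ s) (x y : A.S) :
    (s : ℤ) * (hh A x - hh A y) < s * hb A ∧ -(s * hb A) < (s : ℤ) * (hh A x - hh A y) := by
  have h1 := hh_pos (A := A) x
  have h2 := hh_pos (A := A) y
  have h3 := hh_lt (A := A) x
  have h4 := hh_lt (A := A) y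
  have h5 : (0 : ℤ) < s := by omega
  constructor
  · exact mul_lt_mul_of_pos_left (by omega) h5
  · have h6 : (s : ℤ) * (-(hb A)) < s * (hh A x - hh A y) :=
      mul_lt_mul_of_pos_left (by omega) h5
    linarith [h6, mul_neg (s : ℤ) (hb A)]

theorem exists_enum {A : Auto} {s N : ℕ} (hs : 2 ≤ s) {Z : Set ℤ} (h : Two A s N Z) :
    ∃ x : ZMod s → ℕ → ℤ, Enum A s N x := by
  obtain ⟨m, hm⟩ := h.fin.bddBelow
  have hlow := clo1_lower (neg1_sys (A := A) (N := N) (by omega : 1 ≤ s)) (A := Z) (m := m)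
    fun a ha => hm ha
  have hx : ∀ c : ZMod s, ∃ x : ℕ → ℤ, StrictMono x ∧
      ∀ p : ℤ, p ∈ {p : ℤ | p ∈ clo1 (sys A s N) Z ∧ (p : ZMod s) = c} ↔ ∃ k, x k = p :=
    fun c => enumB_set (h.inf c) fun p hp => hlow p hp.1
  choose x hx1 hx2 using hx
  have hxC : ∀ c k, x c k ∈ clo1 (sys A s N) Z ∧ ((x c k : ℤ) : ZMod s) = c := fun c k =>
    (hx2 c (x c k)).2 ⟨k, rfl⟩
  have hT := tt_big (A := A) (s := s) (N := N) (by omega)
  have hq0 := qq_nonneg (A := A) (s := s) (N := N)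
  have hsq : (0 : ℤ) ≤ s * qq A s N := mul_nonneg (by omega) hq0
  have hb1 := hb_pos (A := A)
  have hH : (0 : ℤ) < s * hb A := mul_pos (by omega) (by omega)
  refine ⟨x, hx1, fun c k => ?_⟩
  have e0 : x c k < x c (k + 1) := hx1 c (by omega)
  have e1 : x c (k + 1) < x c (k + 2) := hx1 c (by omega)
  have hnZ : x c (k + 2) ∉ Z := by
    intro hqZ
    have h0 : x c k ∈ Z := h.seeds_least hs (hxC c k).1 hqZ
      ((hxC c k).2.trans (hxC c (k + 2)).2.symm) (e0.trans e1)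
    have h1 : x c (k + 1) ∈ Z := h.seeds_least hs (hxC c (k + 1)).1 hqZ
      ((hxC c (k + 1)).2.trans (hxC c (k + 2)).2.symm) e1
    obtain ⟨a, b, hab, hab2⟩ := h.two c
    have f0 := (hab2 _).1 ⟨h0, (hxC c k).2⟩
    have f1 := (hab2 _).1 ⟨h1, (hxC c (k + 1)).2⟩
    have f2 := (hab2 _).1 ⟨hqZ, (hxC c (k + 2)).2⟩
    omega
  obtain ⟨ρ, σ, τ, ω, υ, hrel, h0, h1, h2, h3⟩ := inst_of_mem (hxC c (k + 2)).1 hnZ
  obtain ⟨i0, hi0⟩ := (hx2 c (x c (k + 2) + o0 A s N ρ υ)).1 ⟨h0, by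
    rw [Int.cast_add, (hxC c (k + 2)).2, o0_cast, add_zero]⟩
  obtain ⟨i1, hi1⟩ := (hx2 c (x c (k + 2) + o1 A s N σ υ)).1 ⟨h1, by
    rw [Int.cast_add, (hxC c (k + 2)).2, o1_cast, add_zero]⟩
  obtain ⟨j, hj⟩ := (hx2 (c + 1) (x c (k + 2) + o2 A s N τ υ)).1 ⟨h2, by
    rw [Int.cast_add, (hxC c (k + 2)).2, o2_cast]⟩
  obtain ⟨j', hj'⟩ := (hx2 (c - 1) (x c (k + 2) + o3 A s N ω υ)).1 ⟨h3, by
    rw [Int.cast_add, (hxC c (k + 2)).2, o3_cast, sub_eq_add_neg]⟩
  have b0 := enumB_bound hs ρ υ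
  have b1 := enumB_bound hs σ υ
  have d0 : o0 A s N ρ υ = -2 * tt A s N + s * (hh A ρ - hh A υ) := rfl
  have d1 : o1 A s N σ υ = -tt A s N + s * (hh A σ - hh A υ) := rfl
  have hgap : ∀ a b : ℕ, a < b → tt A s N - s * hb A ≤ x c b - x c a := fun a b hab =>
    gap hs h (hxC c a).1 (hxC c b).1 ((hxC c a).2.trans (hxC c b).2.symm) (hx1 c hab)
  have g1 := hgap (k + 1) (k + 2) (by omega)
  have g0 := hgap k (k + 1) (by omega)
  -- the number of the second site
  have k1 : i1 = k + 1 := by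
    have h4 : x c i1 < x c (k + 2) := by omega
    have h5 : i1 < k + 2 := (hx1 c).lt_iff_lt.1 h4
    by_contra h6
    have g := hgap i1 (k + 1) (by omega)
    omega
  have k0 : i0 = k := by
    have h4 : x c i0 < x c (k + 1) := by
      rw [← k1, hi0, hi1]
      have h7 := o0_lt_o1 (A := A) (N := N) (by omega : 1 ≤ s) ρ σ υ υ
      omega
    have h5 : i0 < k + 1 := (hx1 c).lt_iff_lt.1 h4
    by_contra h6
    have g := hgap i0 k (by omega)
    omega
  refine ⟨ρ, σ, τ, ω, υ, j, j', hrel, ?_, ?_, hj, hj'⟩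
  · rw [← hi0, k0]
  · rw [← hi1, k1]


end Pool.Agent.BPD
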