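import Pool.Agent.BPD.Par

/-!
# Neighbouring columns

Let `T = tt`, `H = s hb`; `T > s qq + 2 qq + 6 H` (`tt_big`), `|s (hh x - hh y)| < H` (`hh_pos`,
`hh_lt`), `|st x| ≤ qq` (`st_abs`).

PROOF of `exists_horiz`. It is enough to find `e c` and `K` for every column `c` (the maximum of the
finitely many `K` works for all columns: `NeZero s`, `ZMod s` is finite) with the properties (B),
and then (C).

For `k ≥ 4` let `τ k, ω k, j k, j' k` be the data of `h.inst c k`. By `h.eq` and the definition of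
`o2`: `x (c + 1) (j k) = f c + (k - 1) T + st (τ k) + s hh (τ k)`. The right side tends to infinity
with `k`, so `j k ≥ 2` for `k ≥ K₁` (`x (c + 1) 0`, `x (c + 1) 1` are two numbers), and then with `e
k = j k - k + 1` and `h.eq (c + 1) (j k)`:
(A) `f (c + 1) - f c = - e k * T + st (τ k) + s (hh (τ k) - hh (Y (c + 1) (j k)))`. For `k, k' ≥
K₁`: `|(e k - e k') T| ≤ 2 qq + 2 H < T`, so `e k = e k'`; call it `e c`. By (A) `st (τ k) - st (τ
k')` has absolute value `< 2 H`, so `st (τ k) = st (τ k')` by `st_eq_or`. Hence `hh (τ k) - hh (Y (c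
+ 1) (k - 1 + e c))` is constant for `k ≥ K₁`. For `k` and `k + 1`: `hh (τ k) + hh (Y (c + 1) (k + e
c)) = hh (τ (k + 1)) + hh (Y (c + 1) (k - 1 + e c))`. By `hh_sidon`, `τ k = Y (c + 1) (k - 1 + e
c)`, or `Y (c + 1) (k + e c) = Y (c + 1) (k - 1 + e c)`, which is impossible by the phases
(`A.ph_eq` for `h.inst (c + 1) _`, if the index is at least `4`; this is so for all `k ≥ K₂`). So
for `k ≥ K₂` (write `j = k - 1 + e c`):
(B) `τ k = Y (c + 1) j`, `x (c + 1) j = x c k + o2 ..`, and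
`f (c + 1) - f c = - e c * T + st (Y (c + 1) j)`.

(C) Now `ω`. For large `k`: `x (c - 1) (j' k) = f c + k T - st (Y c k) - [fst] T + s hh (ω k)`
(`h.eq`, definition of `o3`; `[fst]` is `1` or `0`), so `j' k` tends to infinity and `j' k ≥ 2` for
large `k`, `x (c - 1) (j' k) = f (c - 1) + (j' k) T + s hh (Y (c - 1) (j' k))`. (B) for the column
`c - 1`: `f c - f (c - 1) = - e (c - 1) T + st (Y c i)` for all large `i`, in particular for `i = k`
(take `k' = k + 1 - e (c - 1)`, which is large if `k` is large). Together: `(k - [fst] - e (c - 1) -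
j' k) T = s (hh (Y (c - 1) (j' k)) - hh (ω k))`, of absolute value `< H < T`, so both sides are
zero: `j' k = k - [fst] - e (c - 1)` and `ω k = Y (c - 1) (j' k)` (`hh_inj`).
-/

set_option autoImplicit false

namespace Pool.Agent.BPD

private theorem horiz_zero {e T r : ℤ} (hT : 0 < T) (h : e * T = r) (h1 : -T < r) (h2 : r < T) :
    e = 0 := by
  by_contra h0
  rcases lt_or_gt_of_ne h0 with h3 | h3
  · have h4 : e ≤ -1 := by omega
    nlinarith
  · have h4 : 1 ≤ e := by omega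
    nlinarith

private theorem horiz_bound {s : ℕ} [NeZero s] (g : ZMod s → ℤ) :
    ∃ M : ℕ, ∀ c, |g c| ≤ M := by
  refine ⟨∑ c, (g c).natAbs, fun c => ?_⟩
  rw [Int.abs_eq_natAbs]
  exact_mod_cast Finset.single_le_sum (f := fun c => (g c).natAbs) (fun _ _ => Nat.zero_le _)
    (Finset.mem_univ c)

theorem exists_horiz {A : Auto} {s N : ℕ} [NeZero s] (hs : 2 ≤ s) {x : ZMod s → ℕ → ℤ}
    {f : ZMod s → ℤ} {Y : ZMod s → ℕ → A.S} (h : Symb A s N x f Y) :
    ∃ (e : ZMod s → ℤ) (K : ℕ), 4 ≤ K ∧ ∀ c k, K ≤ k → ∃ j j' : ℕ,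
      (j : ℤ) = k - 1 + e c ∧
      (j' : ℤ) = k - e (c - 1) - (if A.fst (Y c k) then 1 else 0) ∧
      A.rel (Y c (k - 2)) (Y c (k - 1)) (Y (c + 1) j) (Y (c - 1) j') (Y c k) ∧
      f (c + 1) - f c = - e c * tt A s N + st A s N (Y (c + 1) j) := by
  have hbig := tt_big (A := A) (N := N) (s := s) (by omega)
  have hq0 := qq_nonneg (A := A) (s := s) (N := N)
  have hs0 : (2 : ℤ) ≤ s := by exact_mod_cast hs
  have hsq : 0 ≤ (s : ℤ) * qq A s N := mul_nonneg (by omega) hq0
  have hg : ∀ a : A.S, 0 < (s : ℤ) * hh A a ∧ (s : ℤ) * hh A a < s * hb A := by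
    intro a
    have h1 := hh_pos a
    have h2 := hh_lt a
    exact ⟨by nlinarith, mul_lt_mul_of_pos_left h2 (by omega)⟩
  have hst : ∀ a : A.S, -qq A s N ≤ st A s N a ∧ st A s N a ≤ qq A s N := fun a =>
    abs_le.1 (st_abs a)
  have hH : 0 < (s : ℤ) * hb A := by
    have h1 := hb_pos (A := A)
    nlinarith
  have hT : 0 < tt A s N := by linarith
  obtain ⟨M₁, hM₁⟩ := horiz_bound fun c => x c 3
  obtain ⟨M₂, hM₂⟩ := horiz_bound f
  set K₁ : ℕ := M₁ + M₂ + (qq A s N).natAbs + 10 with hK₁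
  have hK₁' : (K₁ : ℤ) = M₁ + M₂ + qq A s N + 10 := by
    rw [hK₁]
    push_cast
    rw [abs_of_nonneg hq0]
  -- large values have large numbers
  have hlarge : ∀ c (k : ℕ) (j : ℕ) (r : ℤ), K₁ ≤ k →
      x c j = r → -(M₂ : ℤ) + (k - 1) * tt A s N - qq A s N ≤ r → 4 ≤ j := by
    intro c k j r hk hj hr
    by_contra hc
    have h1 : x c j ≤ x c 3 := (h.mono c).monotone (by omega)
    have h2 := (abs_le.1 (hM₁ c)).2
    have h3 : ((k : ℤ) - 1) ≤ (k - 1) * tt A s N := by
      have : (0 : ℤ) ≤ k - 1 := by omega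
      nlinarith
    have h4 : (K₁ : ℤ) ≤ k := by exact_mod_cast hk
    linarith
  -- part A
  have hA : ∀ c (k : ℕ) (τ : A.S) (j : ℕ), K₁ ≤ k →
      x (c + 1) j = x c k + o2 A s N τ (Y c k) → 4 ≤ j ∧
      f (c + 1) - f c = -((j : ℤ) - k + 1) * tt A s N + st A s N τ +
        (s * hh A τ - s * hh A (Y (c + 1) j)) := by
    intro c k τ j hk hj
    rw [h.eq c k (by omega), o2] at hj
    have h0 := (abs_le.1 (hM₂ c)).1
    have h1 := hg τ
    have h2 := hst τ
    have h4 : 4 ≤ j := by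
      refine hlarge (c + 1) k j _ hk hj ?_
      linarith
    refine ⟨h4, ?_⟩
    rw [h.eq (c + 1) j (by omega)] at hj
    linear_combination hj
  have hAA : ∀ c (k k' : ℕ) (τ τ' : A.S) (j j' : ℕ), K₁ ≤ k → K₁ ≤ k' →
      x (c + 1) j = x c k + o2 A s N τ (Y c k) →
      x (c + 1) j' = x c k' + o2 A s N τ' (Y c k') →
      (j : ℤ) - k = j' - k' ∧
      hh A τ - hh A (Y (c + 1) j) = hh A τ' - hh A (Y (c + 1) j') := by
    intro c k k' τ τ' j j' hk hk' hj hj'
    obtain ⟨-, e1⟩ := hA c k τ j hk hj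
    obtain ⟨-, e2⟩ := hA c k' τ' j' hk' hj'
    have a1 := hg τ
    have a2 := hg τ'
    have a3 := hg (Y (c + 1) j)
    have a4 := hg (Y (c + 1) j')
    have b1 := hst τ
    have b2 := hst τ'
    have e3 : (((j : ℤ) - k) - (j' - k')) * tt A s N = st A s N τ - st A s N τ' +
        (s * hh A τ - s * hh A (Y (c + 1) j)) - (s * hh A τ' - s * hh A (Y (c + 1) j')) := by
      linear_combination e1 - e2
    have e4 := horiz_zero hT e3 (by linarith) (by linarith)
    refine ⟨by linarith, ?_⟩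
    rw [e4, zero_mul] at e3
    have e5 : st A s N τ = st A s N τ' := by
      rcases st_eq_or (N := N) hs τ τ' with h5 | h5
      · exact h5
      · exfalso
        rcases lt_abs.1 h5 with h6 | h6 <;> linarith
    rw [e5] at e3
    have e6 : (s : ℤ) * (hh A τ - hh A (Y (c + 1) j)) =
        s * (hh A τ' - hh A (Y (c + 1) j')) := by linear_combination -e3
    exact mul_left_cancel₀ (by omega) e6
  -- part B
  have hB : ∀ c (k : ℕ) (τ : A.S) (j : ℕ), K₁ ≤ k →
      x (c + 1) j = x c k + o2 A s N τ (Y c k) → τ = Y (c + 1) j := by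
    intro c k τ j hk hj
    obtain ⟨τ', ω', j', -, hr', hj', -⟩ := h.inst c (k + 1) (by omega)
    obtain ⟨e1, e2⟩ := hAA c k (k + 1) τ τ' j j' hk (by omega) hj hj'
    obtain ⟨j4, -⟩ := hA c k τ j hk hj
    have e3 : j' = j + 1 := by
      push_cast at e1
      omega
    subst e3
    rcases hh_sidon (show hh A τ + hh A (Y (c + 1) (j + 1)) = hh A τ' + hh A (Y (c + 1) j) by
      linarith) with h5 | h5
    · exfalso
      obtain ⟨_, _, _, _, hr, -, -⟩ := h.inst (c + 1) (j + 1) (by omega)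
      have h6 := (A.ph_eq hr).2
      rw [show j + 1 - 1 = j from rfl, h5.2] at h6
      have h7 : (1 : ZMod 3) = 0 := by linear_combination -h6
      exact absurd h7 (by decide)
    · exact h5.1
  have hE : ∀ c, ∃ e : ℤ, ∀ (k : ℕ) (τ : A.S) (j : ℕ), K₁ ≤ k →
      x (c + 1) j = x c k + o2 A s N τ (Y c k) → (j : ℤ) = k - 1 + e ∧ τ = Y (c + 1) j ∧
      f (c + 1) - f c = - e * tt A s N + st A s N (Y (c + 1) j) := by
    intro c
    obtain ⟨τ₀, -, j₀, -, -, hj₀, -⟩ := h.inst c K₁ (by omega)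
    refine ⟨(j₀ : ℤ) - K₁ + 1, fun k τ j hk hj => ?_⟩
    obtain ⟨e1, -⟩ := hAA c k K₁ τ τ₀ j j₀ hk le_rfl hj hj₀
    have e2 := hB c k τ j hk hj
    obtain ⟨-, e3⟩ := hA c k τ j hk hj
    refine ⟨by linarith, e2, ?_⟩
    rw [← e2, sub_self, add_zero] at e3
    rw [← e2, e3, e1]
  choose e he using hE
  obtain ⟨M₃, hM₃⟩ := horiz_bound e
  refine ⟨e, K₁ + M₃ + 1, by omega, fun c k hk => ?_⟩
  obtain ⟨τ, ω, j, j', hr, hj, hj'⟩ := h.inst c k (by omega)
  obtain ⟨b1, b2, b3⟩ := he c k τ j (by omega) hj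
  subst b2
  -- the step from the preceding column
  have hC : f c - f (c - 1) = - e (c - 1) * tt A s N + st A s N (Y c k) := by
    have h1 := abs_le.1 (hM₃ (c - 1))
    have h2 : K₁ ≤ ((k : ℤ) + 1 - e (c - 1)).toNat := by omega
    obtain ⟨τ₁, -, i, -, -, hi, -⟩ := h.inst (c - 1) ((k : ℤ) + 1 - e (c - 1)).toNat (by omega)
    obtain ⟨d1, -, d3⟩ := he (c - 1) _ τ₁ i h2 hi
    have h3 : i = k := by omega
    rw [h3, sub_add_cancel] at d3
    exact d3
  have b4 : 4 ≤ j' ∧ ((k : ℤ) - (if A.fst (Y c k) then 1 else 0) - e (c - 1) - j') * tt A s N =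
      s * hh A (Y (c - 1) j') - s * hh A ω := by
    rw [h.eq c k (by omega), o3] at hj'
    have h0 := (abs_le.1 (hM₂ c)).1
    have h1 := hg ω
    have h2 := hst (Y c k)
    have h3 : (if A.fst (Y c k) then tt A s N else 0) =
        (if A.fst (Y c k) then 1 else 0) * tt A s N := by
      split_ifs <;> simp
    have h3' : (if A.fst (Y c k) then tt A s N else 0) ≤ tt A s N := by
      split_ifs <;> linarith
    have h4 : 4 ≤ j' := by
      refine hlarge (c - 1) k j' _ (by omega) hj' ?_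
      linarith
    refine ⟨h4, ?_⟩
    rw [h.eq (c - 1) j' (by omega), h3] at hj'
    linear_combination -hj' - hC
  obtain ⟨-, b5⟩ := b4
  have c1 := hg ω
  have c2 := hg (Y (c - 1) j')
  have b6 := horiz_zero hT b5 (by linarith) (by linarith)
  rw [b6, zero_mul] at b5
  have b7 : hh A (Y (c - 1) j') = hh A ω := by
    have : (s : ℤ) * hh A (Y (c - 1) j') = s * hh A ω := by linarith
    exact mul_left_cancel₀ (by omega) this
  have b8 := hh_inj b7
  subst b8
  exact ⟨j, j', b1, by linarith, hr, b3⟩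

end Pool.Agent.BPD
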