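import Pool.Agent.BPD.Par

/-!
# Around the ring

PROOF of `exists_screw`. Take `e`, `K` as in the hypothesis and `Z c k = Y c k.toNat` for `k : ℤ`. The marks
of `Y c k` are constant for `k ≥ K - 2` (`A.fst_eq`, `A.tA_eq`): let `F c = A.fst (Y c K)`,
`G c = A.tA (Y c K)`. With the new bound `K' = K` (or larger, such that all occurring indices are
nonnegative) `rel`, `fst`, `tA` of `Screw` follow from the hypothesis.

The step `st (Y (c + 1) j)` of the hypothesis has the marks `F (c + 1)`, `G (c + 1)` if `k` is large (take `k`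
so large that `j ≥ K`); call it `a (c + 1)`; it does not depend on `k` (`st_congr`). Sum over all
columns: `∑ c, (f (c + 1) - f c) = 0` (`Equiv.sum_comp (Equiv.addRight 1)`), so
`(∑ c, e c) * tt = ∑ c, a c`, of absolute value `≤ s qq < tt` (`st_abs`, `tt_big`, `ZMod.card`). Hence
`∑ c, e c = 0` and `∑ c, a c = 0`. Let `m` be the number of columns with `F c = true` and `n` the number of
columns with `G c = true`; `m, n ≤ s`. By the definition of `st`:
`0 = s dl + n s ww - m (s dl + s ww N)`, so `dl (1 - m) = ww (m N - n)` (divide by `s > 0`). As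
`|dl (1 - m)| ≤ s dl < ww = s dl + 1`, both sides are zero (`Int.eq_zero_of_abs_lt_dvd` or `nlinarith`):
`m = 1` (`dl > 0`) and `n = N` (`ww > 0`).
-/

set_option autoImplicit false

namespace Pool.Agent.BPD

private theorem Ring_sum {A : Auto} {s N : ℕ} [NeZero s] (x : ZMod s → A.S) :
    ∑ c, st A s N (x c) = s * dl A s +
      ((Finset.univ.filter fun c => A.tA (x c) = true).card : ℤ) * (s * ww A s) -
      ((Finset.univ.filter fun c => A.fst (x c) = true).card : ℤ) *
        (s * dl A s + s * ww A s * N) := by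
  unfold st
  rw [Finset.sum_sub_distrib, Finset.sum_add_distrib, Finset.sum_const, Finset.card_univ,
    ZMod.card, ← Finset.sum_filter, ← Finset.sum_filter, Finset.sum_const, Finset.sum_const,
    nsmul_eq_mul, nsmul_eq_mul, nsmul_eq_mul]

private theorem Ring_arith {s d w m n N : ℤ} (hs : 0 < s) (hd : 0 < d) (hw : s * d < w)
    (hm0 : 0 ≤ m) (hms : m ≤ s) (h : s * d + n * (s * w) - m * (s * d + s * w * N) = 0) :
    m = 1 ∧ n = N := by
  have h1 : d * (1 - m) = w * (m * N - n) := by
    have h2 : s * (d * (1 - m) - w * (m * N - n)) = 0 := by linear_combination h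
    rcases mul_eq_zero.1 h2 with h3 | h3
    · omega
    · linarith
  have hsd : 0 < s * d := mul_pos hs hd
  have h4 : |d * (1 - m)| < w := by
    refine lt_of_le_of_lt ?_ hw
    rw [abs_mul, abs_of_pos hd, mul_comm]
    refine mul_le_mul_of_nonneg_right ?_ hd.le
    rw [abs_le]
    constructor <;> linarith
  have h5 : d * (1 - m) = 0 := Int.eq_zero_of_abs_lt_dvd ⟨m * N - n, h1⟩ h4
  have h6 : m = 1 := by
    rcases mul_eq_zero.1 h5 with h7 | h7
    · omega
    · linarith
  refine ⟨h6, ?_⟩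
  rw [h5, h6] at h1
  rcases mul_eq_zero.1 h1.symm with h7 | h7
  · linarith
  · linarith

theorem exists_screw {A : Auto} {s N : ℕ} [NeZero s] (hs : 2 ≤ s) {f : ZMod s → ℤ}
    {Y : ZMod s → ℕ → A.S} {e : ZMod s → ℤ} {K : ℕ} (hK : 4 ≤ K)
    (h : ∀ c k, K ≤ k → ∃ j j' : ℕ, (j : ℤ) = k - 1 + e c ∧
      (j' : ℤ) = k - e (c - 1) - (if A.fst (Y c k) then 1 else 0) ∧
      A.rel (Y c (k - 2)) (Y c (k - 1)) (Y (c + 1) j) (Y (c - 1) j') (Y c k) ∧
      f (c + 1) - f c = - e c * tt A s N + st A s N (Y (c + 1) j)) :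
    ∃ (Z : ZMod s → ℤ → A.S) (K' : ℤ) (F G : ZMod s → Bool), Screw A s N Z e K' F G := by
  have hF : ∀ c k, K ≤ k → A.fst (Y c k) = A.fst (Y c K) ∧ A.tA (Y c k) = A.tA (Y c K) := by
    intro c k hk
    induction k, hk using Nat.le_induction with
    | base => exact ⟨rfl, rfl⟩
    | succ k hk ih =>
      obtain ⟨j, j', -, -, hr, -⟩ := h c (k + 1) (by omega)
      have e1 : k + 1 - 1 = k := by omega
      rw [e1] at hr
      exact ⟨(A.fst_eq hr).2.symm.trans ih.1, (A.tA_eq hr).2.symm.trans ih.2⟩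
  have hstep : ∀ c, f (c + 1) - f c = - e c * tt A s N + st A s N (Y (c + 1) K) := by
    intro c
    obtain ⟨j, j', hj, -, -, hs'⟩ := h c (K + 1 + (e c).natAbs) (by omega)
    have hjK : K ≤ j := by
      have h1 : ((K : ℤ)) ≤ j := by
        rw [hj]
        push_cast
        have := neg_abs_le (e c)
        linarith
      exact_mod_cast h1
    have h2 := hF (c + 1) j hjK
    rw [hs', st_congr h2.1 h2.2]
  have hs1 : 1 ≤ s := by omega
  have hsum : (∑ c, e c) * tt A s N = ∑ c, st A s N (Y c K) := by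
    have h1 : ∑ c, (f (c + 1) - f c) = 0 := by
      rw [Finset.sum_sub_distrib, sub_eq_zero]
      exact Equiv.sum_comp (Equiv.addRight (1 : ZMod s)) f
    have h2 : ∑ c, st A s N (Y (c + 1) K) = ∑ c, st A s N (Y c K) :=
      Equiv.sum_comp (Equiv.addRight (1 : ZMod s)) fun c => st A s N (Y c K)
    simp_rw [hstep] at h1
    rw [Finset.sum_add_distrib, h2, ← Finset.sum_mul, Finset.sum_neg_distrib] at h1
    linarith
  have hbig := tt_big (A := A) (s := s) (N := N) hs1
  have hq := qq_nonneg (A := A) (s := s) (N := N)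
  have hbp := hb_pos (A := A)
  have hsp : (0 : ℤ) < s := by exact_mod_cast hs1
  have hshb : (0 : ℤ) < s * hb A := mul_pos hsp (by linarith)
  have habs : |∑ c, st A s N (Y c K)| ≤ s * qq A s N := by
    refine (Finset.abs_sum_le_sum_abs _ _).trans ?_
    have h1 : ∑ c : ZMod s, |st A s N (Y c K)| ≤ ∑ _c : ZMod s, qq A s N :=
      Finset.sum_le_sum fun c _ => st_abs _
    rw [Finset.sum_const, Finset.card_univ, ZMod.card, nsmul_eq_mul] at h1
    exact h1
  have h0 : ∑ c, st A s N (Y c K) = 0 := by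
    refine Int.eq_zero_of_abs_lt_dvd (m := tt A s N) ⟨∑ c, e c, ?_⟩ ?_
    · rw [← hsum, mul_comm]
    · linarith
  have he : ∑ c, e c = 0 := by
    rw [h0] at hsum
    rcases mul_eq_zero.1 hsum with h1 | h1
    · exact h1
    · exfalso
      have h2 : 0 ≤ (s : ℤ) * qq A s N := mul_nonneg hsp.le hq
      linarith
  have hdl : 0 < dl A s := by
    unfold dl
    have : 0 ≤ (s : ℤ) * (hb A + 1) := mul_nonneg hsp.le (by linarith)
    linarith
  have hww : (s : ℤ) * dl A s < ww A s := by
    unfold ww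
    linarith
  rw [Ring_sum] at h0
  obtain ⟨hm, hn⟩ := Ring_arith hsp hdl hww (by positivity) (by
    have h1 : (Finset.univ.filter fun c => A.fst (Y c K) = true).card ≤ s := by
      refine (Finset.card_le_univ _).trans ?_
      rw [ZMod.card]
    exact_mod_cast h1) h0
  refine ⟨fun c k => Y c k.toNat, K, fun c => A.fst (Y c K), fun c => A.tA (Y c K),
    ⟨?_, ?_, ?_, he, ?_, ?_⟩⟩
  · intro c k hk
    obtain ⟨n, rfl⟩ : ∃ n : ℕ, k = n := ⟨k.toNat, by omega⟩
    have hn : K ≤ n := by omega
    obtain ⟨j, j', hj, hj', hr, -⟩ := h c n hn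
    have e1 : ((n : ℤ) - 2).toNat = n - 2 := by omega
    have e2 : ((n : ℤ) - 1).toNat = n - 1 := by omega
    have e3 : ((n : ℤ) - 1 + e c).toNat = j := by omega
    have e4 : ((n : ℤ) - e (c - 1) - if A.fst (Y c K) then 1 else 0).toNat = j' := by
      rw [← (hF c n hn).1, ← hj', Int.toNat_natCast]
    have e5 : (n : ℤ).toNat = n := Int.toNat_natCast n
    simp only [e1, e2, e3, e4, e5]
    exact hr
  · intro c k hk
    exact (hF c k.toNat (by omega)).1
  · intro c k hk
    exact (hF c k.toNat (by omega)).2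
  · have h1 : (Finset.univ.filter fun c => A.fst (Y c K) = true).card = 1 := by
      exact_mod_cast hm
    obtain ⟨c₀, hc₀⟩ := Finset.card_eq_one.1 h1
    refine ⟨c₀, fun c => ?_⟩
    have h2 : c ∈ (Finset.univ.filter fun c => A.fst (Y c K) = true) ↔ c = c₀ := by
      rw [hc₀, Finset.mem_singleton]
    rw [Finset.mem_filter] at h2
    exact ⟨fun h => h2.1 ⟨Finset.mem_univ c, h⟩, fun h => (h2.2 h).2⟩
  · exact_mod_cast hn

end Pool.Agent.BPD
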