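import Pool.Agent.BPD.Par

/-!
# The symbols of the columns

PROOF of `exists_symb`. Fix the column `c`. For every `k` let `ρ k, σ k, τ k, ω k, υ k` be the symbols
of `h.inst c k`, which belong to the site `x c (k + 2)`; let `Y c (k + 2) = υ k` (and `Y c 0`, `Y c 1` arbitrary,
for instance `υ 0`). With `T = tt`:
`x c (k + 2) - x c (k + 1) = T + s (hh (υ k) - hh (σ k))`,
`x c (k + 2) - x c k = 2 T + s (hh (υ k) - hh (ρ k))`.
Add the first equation for `k + 1` and for `k` and compare with the second one for `k + 1`: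
`hh (υ k) + hh (ρ (k + 1)) = hh (σ (k + 1)) + hh (σ k)` (divide by `s > 0`). By `hh_sidon` and since
`υ k ≠ σ k` (`A.ph_eq`: `ph (υ k) = ph (σ k) + 1` in `ZMod 3`): `υ k = σ (k + 1)` and
`ρ (k + 1) = σ k`. So for `k ≥ 1`: `σ k = υ (k - 1)`, and for `k ≥ 2`: `ρ k = σ (k - 1) = υ (k - 2)`.
Hence for `k ≥ 3`: `x c k - s hh (Y c k) = x c (k - 1) - s hh (Y c (k - 1)) + T`, so with
`f c = x c 2 - 2 T - s hh (Y c 2)` we get `eq`. `inst` for `k ≥ 4` is `h.inst c (k - 2)`, where
`ρ (k - 2) = Y c (k - 2)`, `σ (k - 2) = Y c (k - 1)`, `υ (k - 2) = Y c k`.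
-/

set_option autoImplicit false

namespace Pool.Agent.BPD

theorem exists_symb {A : Auto} {s N : ℕ} (hs : 2 ≤ s) {x : ZMod s → ℕ → ℤ} (h : Enum A s N x) :
    ∃ (f : ZMod s → ℤ) (Y : ZMod s → ℕ → A.S), Symb A s N x f Y := by
  choose ρ σ τ ω υ j j' hrel h0 h1 h2 h3 using h.inst
  have hs0 : (s : ℤ) ≠ 0 := by
    have : (0 : ℤ) < s := by exact_mod_cast (by omega : 0 < s)
    exact this.ne'
  have hone : (1 : ZMod 3) ≠ 0 := by decide
  have key : ∀ c k, σ c (k + 1) = υ c k ∧ ρ c (k + 1) = σ c k := by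
    intro c k
    have e1 := h1 c k
    have e2 := h1 c (k + 1)
    have e3 := h0 c (k + 1)
    unfold o0 at e3
    unfold o1 at e1 e2
    have e4 : (s : ℤ) * ((hh A (υ c k) + hh A (ρ c (k + 1))) -
        (hh A (σ c (k + 1)) + hh A (σ c k))) = 0 := by
      have e5 : x c (k + 1 + 1) = x c (k + 2) := rfl
      rw [e5] at e2
      linear_combination e1 + e2 - e3
    have e6 := (mul_eq_zero.1 e4).resolve_left hs0
    rcases hh_sidon (sub_eq_zero.1 e6) with h4 | h4
    · exact ⟨h4.1.symm, h4.2⟩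
    · have h5 := (A.ph_eq (hrel c k)).2
      rw [h4.1] at h5
      exact absurd (left_eq_add.1 h5) hone
  have hx : ∀ c m, x c (m + 2) = x c 2 + m * tt A s N +
      s * (hh A (υ c m) - hh A (υ c 0)) := by
    intro c m
    induction m with
    | zero =>
      rw [Nat.zero_add]
      push_cast
      ring
    | succ m ih =>
      have e1 := h1 c (m + 1)
      unfold o1 at e1
      rw [(key c m).1] at e1
      have e2 : x c (m + 1 + 1) = x c (m + 2) := rfl
      rw [e2, ih] at e1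
      push_cast
      linear_combination -e1
  refine ⟨fun c => x c 2 - 2 * tt A s N - s * hh A (υ c 0), fun c k => υ c (k - 2),
    h.mono, fun c k hk => ?_, fun c k hk => ?_⟩
  · obtain ⟨m, rfl⟩ := Nat.exists_eq_add_of_le' hk
    rw [hx c m]
    have e1 : m + 2 - 2 = m := rfl
    rw [e1]
    push_cast
    ring
  · obtain ⟨m, rfl⟩ := Nat.exists_eq_add_of_le' hk
    refine ⟨τ c (m + 2), ω c (m + 2), j c (m + 2), j' c (m + 2), ?_, h2 c (m + 2), h3 c (m + 2)⟩
    have e1 := hrel c (m + 2)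
    have e2 : ρ c (m + 2) = υ c m := by
      rw [(key c (m + 1)).2, (key c m).1]
    rw [e2, (key c (m + 1)).1] at e1
    exact e1

end Pool.Agent.BPD
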