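import Pool.Agent.BPD.Auto

/-!
# Unrolling a screw

PROOF of `exists_run`. Let `c₀` be the column with the mark `F` (`h.one`). For `c : ℕ` put
`g c = ∑ i ∈ range c, e (c₀ + i)`; `g 0 = 0`, `g s = 0` (`h.sum`; the map `i ↦ c₀ + i` is a bijection from
`range s` to `ZMod s`). Choose `K' : ℤ` with `K + 1 ≤ K' + g c` for all `c ≤ s`, and let
`X k c = Y (c₀ + c) (k + K' + g c)`.

`rel`: let `k ≥ 2`, `c < s`, `i = k + K' + g c ≥ K`. `h.rel (c₀ + c) i`: the first two arguments are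
`X (k - 2) c`, `X (k - 1) c`. The third is `Y (c₀ + c + 1) (i - 1 + e (c₀ + c))` with
`i - 1 + e (c₀ + c) = k - 1 + K' + g (c + 1)`: for `c + 1 < s` this is `X (k - 1) (c + 1)`, for
`c + 1 = s` it is `Y c₀ (k - 1 + K') = X (k - 1) 0` (`ZMod.natCast_self`). The fourth:
for `c > 0`, `F (c₀ + c) = false` (`(c : ZMod s) ≠ 0` for `0 < c < s`), and
`i - e (c₀ + c - 1) = k + K' + g (c - 1)`, so it is `X k (c - 1)`; for `c = 0`, `F c₀ = true`, and
`g (s - 1) = - e (c₀ + (s - 1 : ℕ)) = - e (c₀ - 1)`, so it is `Y (c₀ - 1) (k - 1 + K' + g (s - 1)) =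
X (k - 1) (s - 1)`.

`fst`, `cnt`: `h.fst`, `h.tA`, `h.one`, `h.cnt` with the bijection `range s → ZMod s`,
`c ↦ c₀ + c` (`Finset.card_bij` or `Finset.card_nbij'`).
-/

set_option autoImplicit false

namespace Pool.Agent.BPD

private theorem Unroll_sum {s : ℕ} [NeZero s] {M : Type} [AddCommMonoid M] (c₀ : ZMod s)
    (φ : ZMod s → M) : ∑ i ∈ Finset.range s, φ (c₀ + (i : ZMod s)) = ∑ c, φ c := by
  refine Finset.sum_nbij' (fun i => c₀ + (i : ZMod s)) (fun c => (c - c₀).val)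
    (fun i _ => Finset.mem_univ _) (fun c _ => Finset.mem_range.2 (ZMod.val_lt _))
    (fun i hi => ?_) (fun c _ => ?_) (fun i _ => rfl)
  · rw [add_sub_cancel_left, ZMod.val_natCast_of_lt (Finset.mem_range.1 hi)]
  · rw [ZMod.natCast_zmod_val, add_sub_cancel]

private theorem Unroll_ne {s c : ℕ} (h : c < s) : (c : ZMod s) = 0 ↔ c = 0 := by
  rw [ZMod.natCast_eq_zero_iff]
  constructor
  · exact fun h1 => Nat.eq_zero_of_dvd_of_lt h1 h
  · rintro rfl
    exact dvd_zero s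

theorem exists_run {A : Auto} {s N : ℕ} [NeZero s] (hs : 2 ≤ s) {Y : ZMod s → ℤ → A.S}
    {e : ZMod s → ℤ} {K : ℤ} {F G : ZMod s → Bool} (h : Screw A s N Y e K F G) :
    ∃ X : ℕ → ℕ → A.S, Run A s N X := by
  obtain ⟨c₀, hc₀⟩ := h.one
  obtain ⟨g, hg⟩ : ∃ g : ℕ → ℤ, ∀ c, g c = ∑ i ∈ Finset.range c, e (c₀ + (i : ZMod s)) :=
    ⟨_, fun _ => rfl⟩
  have hg0 : g 0 = 0 := by rw [hg, Finset.sum_range_zero]
  have hgs : ∀ c, g (c + 1) = g c + e (c₀ + (c : ZMod s)) := fun c => by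
    rw [hg, hg, Finset.sum_range_succ]
  have hgt : g s = 0 := by rw [hg, Unroll_sum, h.sum]
  obtain ⟨K', hK'⟩ : ∃ K' : ℤ, ∀ c, c ≤ s → K + 1 ≤ K' + g c := by
    refine ⟨K + 1 + ∑ c ∈ Finset.range (s + 1), |g c|, fun c hc => ?_⟩
    have h1 : |g c| ≤ ∑ c ∈ Finset.range (s + 1), |g c| :=
      Finset.single_le_sum (f := fun c => |g c|) (fun i _ => abs_nonneg _)
        (Finset.mem_range.2 (by omega))
    have h2 := neg_abs_le (g c)
    linarith
  have hi : ∀ (k c : ℕ), c ≤ s → K ≤ (k : ℤ) + K' + g c := fun k c hc => by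
    have h1 := hK' c hc
    have h2 : (0 : ℤ) ≤ k := Nat.cast_nonneg k
    linarith
  have hfst : ∀ (k c : ℕ), c < s →
      (A.fst (Y (c₀ + (c : ZMod s)) ((k : ℤ) + K' + g c)) = true ↔ c = 0) := by
    intro k c hc
    rw [h.fst _ _ (hi k c hc.le), hc₀, add_eq_left, Unroll_ne hc]
  refine ⟨fun k c => Y (c₀ + (c : ZMod s)) ((k : ℤ) + K' + g c), ⟨fun k hk c hc => ?_,
    fun k c hc => hfst k c hc, fun k => ?_⟩⟩
  · have hr := h.rel (c₀ + (c : ZMod s)) ((k : ℤ) + K' + g c) (hi k c hc.le)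
    have e1 : (((k - 2 : ℕ) : ℤ) + K' + g c) = (k : ℤ) + K' + g c - 2 := by
      rw [Nat.cast_sub hk]
      push_cast
      ring
    have e2 : (((k - 1 : ℕ) : ℤ)) = (k : ℤ) - 1 := by
      rw [Nat.cast_sub (by omega)]
      push_cast
      ring
    have e3 : Y (c₀ + (((c + 1) % s : ℕ) : ZMod s)) (((k - 1 : ℕ) : ℤ) + K' + g ((c + 1) % s)) =
        Y (c₀ + (c : ZMod s) + 1) ((k : ℤ) + K' + g c - 1 + e (c₀ + (c : ZMod s))) := by
      rcases Nat.lt_or_ge (c + 1) s with h1 | h1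
      · rw [Nat.mod_eq_of_lt h1, Nat.cast_add, Nat.cast_one, ← add_assoc, hgs, e2]
        congr 1
        ring
      · have h2 : c + 1 = s := by omega
        have h3 : c₀ + (c : ZMod s) + 1 = c₀ := by
          have h4 : ((c + 1 : ℕ) : ZMod s) = 0 := by rw [h2, ZMod.natCast_self]
          rw [Nat.cast_add, Nat.cast_one] at h4
          rw [add_assoc, h4, add_zero]
        have h5 := hgs c
        rw [h2, hgt] at h5
        rw [h2, Nat.mod_self, h3, Nat.cast_zero, add_zero, hg0, e2]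
        congr 1
        linarith
    have e4 : (if c = 0 then Y (c₀ + ((s - 1 : ℕ) : ZMod s)) (((k - 1 : ℕ) : ℤ) + K' + g (s - 1))
        else Y (c₀ + ((c - 1 : ℕ) : ZMod s)) ((k : ℤ) + K' + g (c - 1))) =
        Y (c₀ + (c : ZMod s) - 1) ((k : ℤ) + K' + g c - e (c₀ + (c : ZMod s) - 1) -
          if F (c₀ + (c : ZMod s)) then 1 else 0) := by
      by_cases h1 : c = 0
      · rw [if_pos h1, h1, Nat.cast_zero, add_zero, if_pos ((hc₀ c₀).2 rfl), hg0]
        have h2 : ((s - 1 : ℕ) : ZMod s) = -1 := by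
          rw [Nat.cast_sub (by omega), ZMod.natCast_self, Nat.cast_one, zero_sub]
        have h3 := hgs (s - 1)
        rw [Nat.sub_add_cancel (by omega : 1 ≤ s), hgt, h2, ← sub_eq_add_neg] at h3
        rw [h2, ← sub_eq_add_neg, e2]
        congr 1
        linarith
      · have h2 : F (c₀ + (c : ZMod s)) ≠ true := by
          rw [Ne, hc₀, add_eq_left, Unroll_ne hc]
          exact h1
        rw [if_neg h1, if_neg h2]
        obtain ⟨c', rfl⟩ : ∃ c', c = c' + 1 := ⟨c - 1, by omega⟩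
        have h3 : c₀ + ((c' + 1 : ℕ) : ZMod s) - 1 = c₀ + (c' : ZMod s) := by
          rw [Nat.cast_add, Nat.cast_one, ← add_assoc, add_sub_cancel_right]
        rw [Nat.add_sub_cancel, h3, hgs]
        congr 1
        ring
    rw [e3, e4, e1]
    have e5 : (((k - 1 : ℕ) : ℤ) + K' + g c) = (k : ℤ) + K' + g c - 1 := by
      rw [e2]
      ring
    rw [e5]
    exact hr
  · have h1 : ((Finset.range s).filter fun c : ℕ =>
        A.tA (Y (c₀ + (c : ZMod s)) ((k : ℤ) + K' + g c)) = true) =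
        (Finset.range s).filter fun c : ℕ => G (c₀ + (c : ZMod s)) = true := by
      refine Finset.filter_congr fun c hc => ?_
      rw [h.tA _ _ (hi k c (Finset.mem_range.1 hc).le)]
    rw [h1, Finset.card_filter]
    have h2 := Unroll_sum c₀ fun c : ZMod s => if G c = true then (1 : ℕ) else 0
    rw [h2, ← Finset.card_filter]
    exact h.cnt

end Pool.Agent.BPD
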