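import Pool.Agent.BPD.Seed
import Pool.Agent.BPD.EnumB
import Pool.Agent.BPD.SymbB
import Pool.Agent.BPD.Horiz
import Pool.Agent.BPD.Ring
import Pool.Agent.BPD.Unroll

/-!
# The system of a cellular automaton: `a1 ≤ 2 s` iff there is an infinite run
-/

set_option autoImplicit false

namespace Pool.Agent.BPD

theorem a1_sys_le_iff {A : Auto} {s N : ℕ} (hs : 2 ≤ s) :
    a1 (sys A s N) ≤ (2 * s : ℕ) ↔ ∃ X : ℕ → ℕ → A.S, Run A s N X := by
  have : NeZero s := ⟨by omega⟩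
  constructor
  · intro h
    obtain ⟨Z, hZ, hc⟩ := exists_a1 h
    obtain ⟨x, hx⟩ := exists_enum hs (two_of_encard hs hZ hc)
    obtain ⟨f, Y, hY⟩ := exists_symb hs hx
    obtain ⟨e, K, hK, h1⟩ := exists_horiz hs hY
    obtain ⟨Z, K', F, G, h2⟩ := exists_screw hs hK h1
    exact exists_run hs h2
  · rintro ⟨X, hX⟩
    exact a1_le_of_run hs hX

end Pool.Agent.BPD
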