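import Pool.Agent.BPD.Auto

/-!
# Data automata

A data automaton computes the datum of a cell from the datum `σ` of the same column in the preceding
row, the datum `τ` of the next column in the preceding row, and the datum `ω` of the preceding column
(same row; for the column `0`: last column of the preceding row). It knows whether the column has
the mark `tA`, whether it is the column `0`, whether it is the last column, and whether it is the column
`1`.
-/

set_option autoImplicit false

namespace Pool.Agent.BPD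

/-- Data automata: `F isZero isLast isOne tA σ τ ω`. -/
structure DA where
  D : Type
  [fin : Fintype D]
  F : Bool → Bool → Bool → Bool → D → D → D → Option D

attribute [instance] DA.fin

/-- The row `r'` follows the row `r`. -/
def Legal (M : DA) (s : ℕ) (a : ℕ → Bool) (r r' : ℕ → M.D) : Prop :=
  ∀ c < s, M.F (decide (c = 0)) (decide (c + 1 = s)) (decide (c = 1)) (a c) (r c)
    (r ((c + 1) % s)) (if c = 0 then r (s - 1) else r' (c - 1)) = some (r' c)

/-- Runs. -/
structure DRun (M : DA) (s N : ℕ) (a : ℕ → Bool) (d : ℕ → ℕ → M.D) : Prop where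
  zero : a 0 = false
  cnt : ((Finset.range s).filter fun c => a c = true).card = N
  legal : ∀ k, Legal M s a (d k) (d (k + 1))

/-- The cellular automaton of a data automaton: symbols are triples (marks, phase, datum). -/
def toAuto (M : DA) : Auto where
  S := (Bool × Bool) × ZMod 3 × M.D
  fin := inferInstanceAs (Fintype ((Bool × Bool) × Fin 3 × M.D))
  fst x := x.1.1
  tA x := x.1.2
  ph x := x.2.1
  rel ρ σ τ ω υ := (ρ.1 = υ.1 ∧ σ.1 = υ.1) ∧ (σ.2.1 = ρ.2.1 + 1 ∧ υ.2.1 = σ.2.1 + 1) ∧
    ¬ (υ.1.1 = true ∧ υ.1.2 = true) ∧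
    M.F υ.1.1 τ.1.1 ω.1.1 υ.1.2 σ.2.2 τ.2.2 ω.2.2 = some υ.2.2
  det {ρ σ τ ω υ υ'} h h' := by
    obtain ⟨⟨-, h1⟩, ⟨-, h2⟩, -, h3⟩ := h
    obtain ⟨⟨-, h1'⟩, ⟨-, h2'⟩, -, h3'⟩ := h'
    have e1 : υ.1 = υ'.1 := h1.symm.trans h1'
    have e2 : υ.2.1 = υ'.2.1 := h2.trans h2'.symm
    rw [e1] at h3
    have e3 : υ.2.2 = υ'.2.2 := Option.some.inj (h3.symm.trans h3')
    exact Prod.ext e1 (Prod.ext e2 e3)
  fst_eq h := ⟨congrArg Prod.fst h.1.1, congrArg Prod.fst h.1.2⟩
  tA_eq h := ⟨congrArg Prod.snd h.1.1, congrArg Prod.snd h.1.2⟩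
  ph_eq h := h.2.1

end Pool.Agent.BPD
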