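import Pool.Agent.BPD.DA

/-!
# Runs of the cellular automaton of a data automaton

PROOF of `exists_run_toAuto`. `→`: let `X` be a run. Put `a c = A.tA (X 0 c)` and
`d k c = (X (k + 1) c).2.2`. The marks of `X k c` (`c < s`) are the same for all `k` (`Auto.fst_eq`,
`Auto.tA_eq` for `h.rel`; for `k ≥ 2` the marks of the rows `k - 2`, `k - 1`, `k` agree). `zero`: the
column `0` has the mark `fst` (`h.fst`), and `rel` (at the row `2`, column `0`) forbids both marks. `cnt` is
`h.cnt 0`. `legal`: `h.rel (k + 2) _ c _`: the second component says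
`M.F (fst υ) (fst τ) (fst ω) (tA υ) σ.2.2 τ.2.2 ω.2.2 = some υ.2.2`, and by `h.fst` (`s ≥ 3`):
`fst υ = decide (c = 0)`, `fst τ = decide ((c + 1) % s = 0) = decide (c + 1 = s)`,
`fst ω = decide (c = 1)` (`ω` is in the column `s - 1 ≠ 0` if `c = 0`, and in the column `c - 1` otherwise).

`←`: given `a`, `d`, let `X k c = ((decide (c = 0), a c), (k : ZMod 3), d k c)`. `fst`, `cnt` are clear
(`a` has the right number of marks), `rel` for the row `k ≥ 2` is `legal (k - 1)`; the phases:
`((k - 1 : ℕ) : ZMod 3) = ((k - 2 : ℕ) : ZMod 3) + 1`; not both marks because `a 0 = false`.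

`Legal.unique`: induction on `c`: `r₁ c` and `r₁' c` are the values of `M.F` for the same arguments
(`some` is injective).
-/

set_option autoImplicit false

namespace Pool.Agent.BPD

theorem DARun_tA {A : Auto} {s N : ℕ} {X : ℕ → ℕ → A.S} (h : Run A s N X) {c : ℕ} (hc : c < s)
    (k : ℕ) : A.tA (X k c) = A.tA (X 0 c) := by
  induction k with
  | zero => rfl
  | succ k ih =>
    have h1 := A.tA_eq (h.rel (k + 2) (by omega) c hc)
    have e1 : k + 2 - 2 = k := by omega
    have e2 : k + 2 - 1 = k + 1 := by omega
    rw [e1, e2] at h1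
    rw [← ih, h1.1, h1.2]

theorem DARun_fst {A : Auto} {s N : ℕ} {X : ℕ → ℕ → A.S} (h : Run A s N X) {c : ℕ} (hc : c < s)
    (k : ℕ) : A.fst (X k c) = decide (c = 0) := by
  by_cases h0 : c = 0
  · rw [(h.fst k c hc).2 h0, decide_eq_true h0]
  · rw [decide_eq_false h0, ← Bool.not_eq_true, h.fst k c hc]
    exact h0

theorem exists_run_toAuto {M : DA} {s N : ℕ} (hs : 3 ≤ s) :
    (∃ X : ℕ → ℕ → (toAuto M).S, Run (toAuto M) s N X) ↔
      ∃ (a : ℕ → Bool) (d : ℕ → ℕ → M.D), DRun M s N a d := by
  constructor
  · rintro ⟨X, h⟩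
    refine ⟨fun c => (toAuto M).tA (X 0 c), fun k c => (X (k + 1) c).2.2, ?_, h.cnt 0, ?_⟩
    · have h1 := h.rel 2 le_rfl 0 (by omega)
      have h2 : ¬ ((toAuto M).fst (X 2 0) = true ∧ (toAuto M).tA (X 2 0) = true) := h1.2.2.1
      rw [DARun_fst h (by omega), DARun_tA h (by omega)] at h2
      simpa using h2
    · intro k c hc
      have h1 := h.rel (k + 2) (by omega) c hc
      have e2 : k + 2 - 1 = k + 1 := by omega
      rw [e2] at h1
      have h2 := h1.2.2.2
      have f1 : (X (k + 2) c).1.1 = decide (c = 0) := DARun_fst h hc (k + 2)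
      have f2 : (X (k + 2) c).1.2 = (toAuto M).tA (X 0 c) := DARun_tA h hc (k + 2)
      have f3 : (X (k + 1) ((c + 1) % s)).1.1 = decide (c + 1 = s) := by
        have := DARun_fst h (c := (c + 1) % s) (Nat.mod_lt _ (by omega)) (k + 1)
        refine Eq.trans this ?_
        rw [decide_eq_decide]
        constructor
        · intro h3
          by_contra h4
          rw [Nat.mod_eq_of_lt (by omega)] at h3
          omega
        · intro h3
          rw [h3, Nat.mod_self]
      have f4 : (if c = 0 then X (k + 1) (s - 1) else X (k + 2) (c - 1)).1.1 = decide (c = 1) := by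
        by_cases h0 : c = 0
        · rw [if_pos h0]
          refine (DARun_fst h (c := s - 1) (by omega) (k + 1)).trans ?_
          rw [decide_eq_decide]
          omega
        · rw [if_neg h0]
          refine (DARun_fst h (c := c - 1) (by omega) (k + 2)).trans ?_
          rw [decide_eq_decide]
          omega
      have f5 : (if c = 0 then X (k + 1) (s - 1) else X (k + 2) (c - 1)).2.2 =
          if c = 0 then (X (k + 1) (s - 1)).2.2 else (X (k + 1 + 1) (c - 1)).2.2 := by
        by_cases h0 : c = 0
        · rw [if_pos h0, if_pos h0]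
        · rw [if_neg h0, if_neg h0]
      rw [f1, f2, f3, f4, f5] at h2
      exact h2
  · rintro ⟨a, d, h⟩
    obtain ⟨X, g1, g2, g3, g4⟩ : ∃ X : ℕ → ℕ → (toAuto M).S,
        (∀ k c, (X k c).1.1 = decide (c = 0)) ∧ (∀ k c, (X k c).1.2 = a c) ∧
        (∀ k c, (X k c).2.1 = (k : ZMod 3)) ∧ (∀ k c, (X k c).2.2 = d k c) :=
      ⟨fun k c => ((decide (c = 0), a c), (k : ZMod 3), d k c), fun _ _ => rfl, fun _ _ => rfl,
        fun _ _ => rfl, fun _ _ => rfl⟩
    refine ⟨X, ?_, ?_, ?_⟩
    · intro k hk c hc
      obtain ⟨m, rfl⟩ : ∃ m, k = m + 2 := ⟨k - 2, by omega⟩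
      have e1 : m + 2 - 2 = m := by omega
      have e2 : m + 2 - 1 = m + 1 := by omega
      rw [e1, e2]
      refine ⟨⟨?_, ?_⟩, ⟨?_, ?_⟩, ?_, ?_⟩
      · exact Prod.ext ((g1 _ _).trans (g1 _ _).symm) ((g2 _ _).trans (g2 _ _).symm)
      · exact Prod.ext ((g1 _ _).trans (g1 _ _).symm) ((g2 _ _).trans (g2 _ _).symm)
      · rw [g3, g3]
        push_cast
        rfl
      · rw [g3, g3]
        push_cast
        ring
      · rintro ⟨h1, h2⟩
        rw [g1, decide_eq_true_eq] at h1
        rw [g2, h1, h.zero] at h2
        exact Bool.false_ne_true h2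
      · have h1 := h.legal (m + 1) c hc
        have f3 : decide ((c + 1) % s = 0) = decide (c + 1 = s) := by
          rw [decide_eq_decide]
          constructor
          · intro h3
            by_contra h4
            rw [Nat.mod_eq_of_lt (by omega)] at h3
            omega
          · intro h3
            rw [h3, Nat.mod_self]
        have f4 : (if c = 0 then X (m + 1) (s - 1) else X (m + 2) (c - 1)).1.1 =
            decide (c = 1) := by
          by_cases h0 : c = 0
          · rw [if_pos h0, g1, decide_eq_decide]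
            omega
          · rw [if_neg h0, g1, decide_eq_decide]
            omega
        have f5 : (if c = 0 then X (m + 1) (s - 1) else X (m + 2) (c - 1)).2.2 =
            if c = 0 then d (m + 1) (s - 1) else d (m + 1 + 1) (c - 1) := by
          by_cases h0 : c = 0
          · rw [if_pos h0, if_pos h0, g4]
          · rw [if_neg h0, if_neg h0, g4]
        rw [f4, f5, g1, g1, g2, g4, g4, g4, f3]
        exact h1
    · intro k c hc
      show (X k c).1.1 = true ↔ c = 0
      rw [g1]
      exact decide_eq_true_iff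
    · intro k
      have h1 := h.cnt
      have h2 : ((Finset.range s).filter fun c => (toAuto M).tA (X k c) = true) =
          (Finset.range s).filter fun c => a c = true := by
        apply Finset.filter_congr
        intro c _
        show (X k c).1.2 = true ↔ _
        rw [g2]
      rw [h2]
      exact h1

/-- The next row is determined. -/
theorem Legal.unique {M : DA} {s : ℕ} {a : ℕ → Bool} {r r₁ r₂ r₁' : ℕ → M.D}
    (h : Legal M s a r r₁) (h' : Legal M s a r₂ r₁') (he : ∀ c < s, r c = r₂ c) :
    ∀ c < s, r₁ c = r₁' c := by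
  intro c
  induction c with
  | zero =>
    intro hc
    have h1 := h 0 hc
    have h2 := h' 0 hc
    rw [if_pos rfl] at h1 h2
    rw [he 0 hc, he _ (Nat.mod_lt _ hc), he (s - 1) (by omega), h2] at h1
    exact (Option.some.inj h1).symm
  | succ c ih =>
    intro hc
    have h1 := h (c + 1) hc
    have h2 := h' (c + 1) hc
    have hs : 0 < s := by omega
    rw [if_neg (Nat.succ_ne_zero c)] at h1 h2
    have e : c + 1 - 1 = c := by omega
    rw [e] at h1 h2
    rw [he (c + 1) hc, he _ (Nat.mod_lt _ hs), ih (by omega), h2] at h1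
    exact (Option.some.inj h1).symm

end Pool.Agent.BPD
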