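import Mathlib

/-!
# Difficulty of two-dimensional bootstrap percolation: definitions

Update families, closures, stable directions, critical families and their difficulty, exactly as in
the problem MP_3d6b9a_lc.
-/

set_option autoImplicit false

namespace Pool.Agent.BPD

open Set

/-- An update family: a finite set of finite subsets (rules) of `ℤ²`. -/
abbrev Fam : Type := Finset (Finset (ℤ × ℤ))

/-- One step of the process: `x` is added if `x + X` is contained in `A` for a rule `X`. -/
def upd (U : Fam) (A : Set (ℤ × ℤ)) : Set (ℤ × ℤ) :=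
  A ∪ {x | ∃ X ∈ U, ∀ y ∈ X, x + y ∈ A}

/-- The closure of `A`. -/
def clo (U : Fam) (A : Set (ℤ × ℤ)) : Set (ℤ × ℤ) := ⋃ t : ℕ, (upd U)^[t] A

/-- The directions: the points of the unit circle. -/
def S1 : Set (ℝ × ℝ) := {u | u.1 ^ 2 + u.2 ^ 2 = 1}

/-- The sites in the open half plane `⟨x, u⟩ < 0`. -/
def half (u : ℝ × ℝ) : Set (ℤ × ℤ) := {x | (x.1 : ℝ) * u.1 + (x.2 : ℝ) * u.2 < 0}

/-- Stable directions. -/
def Stable (U : Fam) (u : ℝ × ℝ) : Prop := clo U (half u) = half u

/-- The open semicircle with midpoint `v`. -/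
def semi (v : ℝ × ℝ) : Set (ℝ × ℝ) := {u | u ∈ S1 ∧ 0 < u.1 * v.1 + u.2 * v.2}

/-- Supercritical families: some open semicircle contains no stable direction. -/
def Supercritical (U : Fam) : Prop := ∃ v ∈ S1, ∀ u ∈ semi v, ¬ Stable U u

/-- Critical families: not supercritical, and some open semicircle contains only finitely many
stable directions. -/
def Critical (U : Fam) : Prop :=
  ¬ Supercritical U ∧ ∃ v ∈ S1, {u | u ∈ semi v ∧ Stable U u}.Finite

/-- The direction `u` is isolated among the stable directions. -/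
def Isolated (U : Fam) (u : ℝ × ℝ) : Prop :=
  ∃ ε > 0, ∀ w ∈ S1, Stable U w → dist w u < ε → w = u

/-- The least number of sites outside the half plane which lead, together with the half plane, to
infinitely many new sites. -/
noncomputable def cost (U : Fam) (u : ℝ × ℝ) : ℕ∞ :=
  ⨅ Z ∈ {Z : Set (ℤ × ℤ) | Disjoint Z (half u) ∧ (clo U (half u ∪ Z) \ half u).Infinite},
    Z.encard

open Classical in
/-- The difficulty of a direction: `0` for unstable directions, `∞` for stable directions which are
not isolated. -/
noncomputable def diffAt (U : Fam) (u : ℝ × ℝ) : ℕ∞ :=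
  if Stable U u then (if Isolated U u then cost U u else ⊤) else 0

/-- The difficulty: the infimum over all open semicircles of the supremum over the semicircle. -/
noncomputable def difficulty (U : Fam) : ℕ∞ := ⨅ v ∈ S1, ⨆ u ∈ semi v, diffAt U u

/-- `D = 2 max ‖x‖_∞`. -/
def diam (U : Fam) : ℕ := 2 * U.sup fun X => X.sup fun x => max x.1.natAbs x.2.natAbs

/-- The input size `log D · ∑ |X|`. -/
noncomputable def size (U : Fam) : ℝ := Real.log (diam U) * ∑ X ∈ U, (X.card : ℝ)

/-! ## One-dimensional systems -/

/-- One step for rules which are finite sets of integers. -/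
def upd1 (R : Finset (Finset ℤ)) (A : Set ℤ) : Set ℤ :=
  A ∪ {x | ∃ X ∈ R, ∀ t ∈ X, x + t ∈ A}

/-- The closure. -/
def clo1 (R : Finset (Finset ℤ)) (A : Set ℤ) : Set ℤ := ⋃ t : ℕ, (upd1 R)^[t] A

/-- The least number of sites with infinite closure. -/
noncomputable def a1 (R : Finset (Finset ℤ)) : ℕ∞ :=
  ⨅ Z ∈ {Z : Set ℤ | (clo1 R Z).Infinite}, Z.encard

/-- All rules are nonempty sets of negative integers. -/
def Neg1 (R : Finset (Finset ℤ)) : Prop := ∀ X ∈ R, X.Nonempty ∧ ∀ t ∈ X, t < 0

/-- The critical family of a one-dimensional system: the rules, stretched by `b`, in the line of the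
site, together with the site below; and a rule which reads the sites at distance `1` and `b`. -/
def lift (b : ℕ) (R : Finset (Finset ℤ)) : Fam :=
  insert {((1 : ℤ), (0 : ℤ)), ((b : ℤ), (0 : ℤ)), ((0 : ℤ), (-1 : ℤ))}
    (R.image fun X => insert ((0 : ℤ), (-1 : ℤ)) (X.image fun t => ((b : ℤ) * t, (0 : ℤ))))

/-- The rules of the line: the rules stretched by `b`, and the rule `{1, b}`. -/
def flat (b : ℕ) (R : Finset (Finset ℤ)) : Finset (Finset ℤ) :=
  insert {(1 : ℤ), (b : ℤ)} (R.image fun X => X.image fun t => (b : ℤ) * t)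

end Pool.Agent.BPD
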