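import Pool.Agent.BPD.CloA

/-!
# Stable directions of the family `lift b R`

PROOFS. `stable_iff`. If the rule `X` is contained in `half u` then `0 + y ∈ half u` for all `y ∈ X`, so
`0 ∈ clo U (half u)`, but `0 ∉ half u`. Conversely suppose every rule has an element `y` with
`0 ≤ ⟨y, u⟩`. By `clo_least` with `P = half u` the closure is contained in `half u`: if `x + y ∈ half u`
for all `y ∈ X` then `⟨x, u⟩ = ⟨x + y, u⟩ - ⟨y, u⟩ < 0` for the `y` with `0 ≤ ⟨y, u⟩`.

`stable_lift`. Use `stable_iff`. The rule `{(1,0), (b,0), (0,-1)}` has an element with nonnegative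
product iff `0 ≤ u.1` or `u.2 ≤ 0` (`b ≥ 1`). The rule of `X ∈ R` consists of `(0,-1)` and the
`(b t, 0)`, `t ∈ X`, `t < 0` (`X` is not empty): it has such an element iff `u.2 ≤ 0` or `u.1 ≤ 0`. As
`R` is not empty, `u` is stable iff `u.2 ≤ 0` or `u.1 = 0`; and `u.1 = 0`, `0 < u.2`, `u ∈ S1` mean
`u = (0, 1)`.
-/

set_option autoImplicit false

namespace Pool.Agent.BPD

open Set

theorem stable_iff {U : Fam} {u : ℝ × ℝ} :
    Stable U u ↔ ∀ X ∈ U, ∃ y ∈ X, 0 ≤ (y.1 : ℝ) * u.1 + (y.2 : ℝ) * u.2 := by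
  constructor
  · intro hs X hX
    by_contra hcon
    push Not at hcon
    have h1 : (0 : ℤ × ℤ) ∈ clo U (half u) := by
      refine clo_rule hX fun y hy => subset_clo U _ ?_
      rw [zero_add]
      exact hcon y hy
    have h2 : clo U (half u) = half u := hs
    rw [h2] at h1
    have h3 : (((0 : ℤ × ℤ).1 : ℤ) : ℝ) * u.1 + (((0 : ℤ × ℤ).2 : ℤ) : ℝ) * u.2 < 0 := h1
    simp at h3
  · intro h
    refine Set.Subset.antisymm ?_ (subset_clo U _)
    refine clo_least (Set.Subset.refl _) fun X hX x hx => ?_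
    obtain ⟨y, hy, hy0⟩ := h X hX
    have h1 : (((x + y).1 : ℤ) : ℝ) * u.1 + (((x + y).2 : ℤ) : ℝ) * u.2 < 0 := hx y hy
    change (x.1 : ℝ) * u.1 + (x.2 : ℝ) * u.2 < 0
    rw [Prod.fst_add, Prod.snd_add] at h1
    push_cast at h1
    linarith

theorem stable_lift {R : Finset (Finset ℤ)} (hR : Neg1 R) (hne : R.Nonempty) {b : ℕ}
    (hb : 1 ≤ b) {u : ℝ × ℝ} (hu : u ∈ S1) :
    Stable (lift b R) u ↔ u = (0, 1) ∨ u.2 ≤ 0 := by
  have hbR : (1 : ℝ) ≤ (b : ℝ) := by exact_mod_cast hb
  rw [stable_iff]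
  constructor
  · intro h
    by_cases hu2 : u.2 ≤ 0
    · exact Or.inr hu2
    left
    push Not at hu2
    have h1 : 0 ≤ u.1 := by
      obtain ⟨y, hy, hy0⟩ := h _ (Finset.mem_insert_self _ _)
      rw [Finset.mem_insert, Finset.mem_insert, Finset.mem_singleton] at hy
      rcases hy with rfl | rfl | rfl
      · push_cast at hy0
        linarith
      · push_cast at hy0
        by_contra hneg
        push Not at hneg
        nlinarith
      · push_cast at hy0
        linarith
    have h2 : u.1 ≤ 0 := by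
      obtain ⟨X, hX⟩ := hne
      obtain ⟨y, hy, hy0⟩ := h _ (Finset.mem_insert_of_mem (Finset.mem_image_of_mem _ hX))
      rw [Finset.mem_insert] at hy
      rcases hy with rfl | hy
      · push_cast at hy0
        linarith
      · obtain ⟨t, ht, rfl⟩ := Finset.mem_image.1 hy
        have ht0 := (hR X hX).2 t ht
        have ht1 : (t : ℝ) ≤ -1 := by
          have h3 : t ≤ -1 := by omega
          exact_mod_cast h3
        push_cast at hy0
        by_contra hpos
        push Not at hpos
        have h4 : (b : ℝ) * (t : ℝ) ≤ -1 := by nlinarith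
        have h5 : (b : ℝ) * (t : ℝ) * u.1 < 0 := mul_neg_of_neg_of_pos (by linarith) hpos
        linarith
    have h3 : u.1 = 0 := le_antisymm h2 h1
    have h4 : u.1 ^ 2 + u.2 ^ 2 = 1 := hu
    rw [h3] at h4
    have h5 : (u.2 - 1) * (u.2 + 1) = 0 := by linear_combination h4
    have h6 : u.2 = 1 := by
      rcases mul_eq_zero.1 h5 with h | h
      · linarith
      · linarith
    exact Prod.ext h3 h6
  · rintro h X hX
    rcases h with rfl | h
    · rcases Finset.mem_insert.1 hX with rfl | hX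
      · exact ⟨(1, 0), Finset.mem_insert_self _ _, by simp⟩
      · obtain ⟨Y, hY, rfl⟩ := Finset.mem_image.1 hX
        obtain ⟨t, ht⟩ := (hR Y hY).1
        exact ⟨((b : ℤ) * t, 0), Finset.mem_insert_of_mem (Finset.mem_image_of_mem _ ht), by simp⟩
    · rcases Finset.mem_insert.1 hX with rfl | hX
      · refine ⟨(0, -1), ?_, ?_⟩
        · exact Finset.mem_insert_of_mem (Finset.mem_insert_of_mem (Finset.mem_singleton_self _))
        · push_cast
          linarith
      · obtain ⟨Y, hY, rfl⟩ := Finset.mem_image.1 hX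
        refine ⟨(0, -1), Finset.mem_insert_self _ _, ?_⟩
        push_cast
        linarith

end Pool.Agent.BPD
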