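import Pool.Agent.BPD.Dir

/-!
# The family `lift b R` is critical, and its difficulty is the cost of the direction `(0, 1)`

PROOFS. By `stable_lift` the stable directions are `(0, 1)` and the `u` with `u.2 ≤ 0`.

`critical_lift`. Not supercritical: let `v ∈ S1`. If `v.2 < 0` then `v ∈ semi v` is stable. If
`v = (0, 1)` then `(0, 1) ∈ semi v` is stable. Otherwise `v.1 ≠ 0` (if `v.1 = 0` and `0 ≤ v.2` then
`v = (0, 1)`), and `(1, 0)` or `(-1, 0)` is in `semi v` and is stable. Finitely many: for `v = (0, 1)`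
the elements `u` of `semi v` have `0 < u.2`, so `(0, 1)` is the only stable one.

`difficulty_lift`. For `v = (0, 1)`: the elements `u ≠ (0, 1)` of `semi v` are unstable
(`diffAt = 0`), and `(0, 1)` is isolated (`ε = 1`: another stable `w` has `w.2 ≤ 0`, and the distance
in `ℝ × ℝ` is at least `|w.2 - 1| ≥ 1`), so the supremum is `cost (lift b R) (0, 1)`. For every other
`v ∈ S1` the supremum is `⊤`: there is `u ∈ semi v` with `u.2 < 0`: if `v.2 < 0` take `u = v`;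
otherwise `v.1 ≠ 0`, and `w = (v.1 * (1 + v.2), - v.1 ^ 2)` has `⟨w, v⟩ = v.1 ^ 2 > 0` and `w.2 < 0`;
divide by its Euclidean norm. Such a `u` is stable and not isolated: write
`u = (cos θ, sin θ)` (for instance `Complex.arg`, or `Real.arccos`); for small `η > 0` the point
`(cos (θ + η), sin (θ + η))` is different from `u` (for `0 < η < 2 π`), has negative second coordinate
(continuity), and tends to `u` as `η → 0`. So `diffAt (lift b R) u = ⊤`.
-/

set_option autoImplicit false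

namespace Pool.Agent.BPD

open Set

private theorem DirB_self {v : ℝ × ℝ} (hv : v ∈ S1) : v ∈ semi v := by
  refine ⟨hv, ?_⟩
  have h : v.1 ^ 2 + v.2 ^ 2 = 1 := hv
  nlinarith

private theorem DirB_top : ((0, 1) : ℝ × ℝ) ∈ S1 := by
  change (0 : ℝ) ^ 2 + (1 : ℝ) ^ 2 = 1
  norm_num

private theorem DirB_ne {v : ℝ × ℝ} (hv : v ∈ S1) (h : v ≠ (0, 1)) (h2 : 0 ≤ v.2) : v.1 ≠ 0 := by
  intro h1
  apply h
  have h3 : v.1 ^ 2 + v.2 ^ 2 = 1 := hv
  rw [h1] at h3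
  have h4 : (v.2 - 1) * (v.2 + 1) = 0 := by linear_combination h3
  rcases mul_eq_zero.1 h4 with h5 | h5
  · exact Prod.ext h1 (sub_eq_zero.1 h5)
  · linarith

private theorem DirB_pos {u : ℝ × ℝ} (hu : u ∈ semi (0, 1)) : 0 < u.2 := by
  have h := hu.2
  simpa using h

private theorem DirB_norm {v w : ℝ × ℝ} (h : 0 < w.1 * v.1 + w.2 * v.2) (hw : w.2 < 0) :
    ∃ u ∈ semi v, u.2 < 0 := by
  have h1 : 0 < w.1 ^ 2 + w.2 ^ 2 := by
    have := mul_pos_of_neg_of_neg hw hw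
    nlinarith [sq_nonneg w.1]
  have hN : 0 < Real.sqrt (w.1 ^ 2 + w.2 ^ 2) := Real.sqrt_pos.2 h1
  have hN2 : Real.sqrt (w.1 ^ 2 + w.2 ^ 2) ^ 2 = w.1 ^ 2 + w.2 ^ 2 := Real.sq_sqrt h1.le
  refine ⟨(w.1 / Real.sqrt (w.1 ^ 2 + w.2 ^ 2), w.2 / Real.sqrt (w.1 ^ 2 + w.2 ^ 2)),
    ⟨?_, ?_⟩, ?_⟩
  · change (w.1 / Real.sqrt (w.1 ^ 2 + w.2 ^ 2)) ^ 2 +
      (w.2 / Real.sqrt (w.1 ^ 2 + w.2 ^ 2)) ^ 2 = 1
    rw [div_pow, div_pow, ← add_div, hN2, div_self h1.ne']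
  · change 0 < w.1 / Real.sqrt (w.1 ^ 2 + w.2 ^ 2) * v.1 +
      w.2 / Real.sqrt (w.1 ^ 2 + w.2 ^ 2) * v.2
    have h2 : w.1 / Real.sqrt (w.1 ^ 2 + w.2 ^ 2) * v.1 +
        w.2 / Real.sqrt (w.1 ^ 2 + w.2 ^ 2) * v.2 =
        (w.1 * v.1 + w.2 * v.2) / Real.sqrt (w.1 ^ 2 + w.2 ^ 2) := by ring
    rw [h2]
    exact div_pos h hN
  · exact div_neg_of_neg_of_pos hw hN

private theorem DirB_low {v : ℝ × ℝ} (hv : v ∈ S1) (h : v ≠ (0, 1)) : ∃ u ∈ semi v, u.2 < 0 := by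
  by_cases h2 : v.2 < 0
  · exact ⟨v, DirB_self hv, h2⟩
  push Not at h2
  have h1 := DirB_ne hv h h2
  have h3 : 0 < v.1 ^ 2 := by positivity
  refine DirB_norm (w := (v.1 * (1 + v.2), -(v.1 ^ 2))) ?_ (neg_lt_zero.2 h3)
  have h4 : v.1 * (1 + v.2) * v.1 + -(v.1 ^ 2) * v.2 = v.1 ^ 2 := by ring
  change 0 < v.1 * (1 + v.2) * v.1 + -(v.1 ^ 2) * v.2
  rw [h4]
  exact h3

private theorem DirB_near {u : ℝ × ℝ} (hu : u ∈ S1) (h : u.2 < 0) {ε : ℝ} (hε : 0 < ε) :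
    ∃ w ∈ S1, w.2 ≤ 0 ∧ dist w u < ε ∧ w ≠ u := by
  have h1 : u.1 ^ 2 + u.2 ^ 2 = 1 := hu
  have h2 : 0 < u.2 ^ 2 := by nlinarith
  have hc : Continuous fun t : ℝ => ((t, -Real.sqrt (1 - t ^ 2)) : ℝ × ℝ) := by fun_prop
  have h0 : ((u.1, -Real.sqrt (1 - u.1 ^ 2)) : ℝ × ℝ) = u := by
    refine Prod.ext rfl ?_
    change -Real.sqrt (1 - u.1 ^ 2) = u.2
    have h3 : 1 - u.1 ^ 2 = (-u.2) ^ 2 := by linear_combination -h1
    rw [h3, Real.sqrt_sq (by linarith), neg_neg]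
  have h3 : ∀ᶠ t in nhds u.1, dist ((t, -Real.sqrt (1 - t ^ 2)) : ℝ × ℝ) u < ε := by
    have h4 := hc.tendsto u.1
    rw [h0] at h4
    exact h4.eventually (Metric.ball_mem_nhds u hε)
  have h4 : ∀ᶠ t in nhds u.1, t ^ 2 < 1 := by
    have h5 : Continuous fun t : ℝ => t ^ 2 := by fun_prop
    exact (h5.tendsto u.1).eventually (gt_mem_nhds (by linarith))
  have h5 : ∀ᶠ t in nhdsWithin u.1 {u.1}ᶜ, t ≠ u.1 := eventually_mem_nhdsWithin
  have h6 : ∀ᶠ t in nhdsWithin u.1 {u.1}ᶜ,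
      dist ((t, -Real.sqrt (1 - t ^ 2)) : ℝ × ℝ) u < ε ∧ t ^ 2 < 1 :=
    nhdsWithin_le_nhds (h3.and h4)
  obtain ⟨t, ⟨ht1, ht2⟩, ht3⟩ := (h6.and h5).exists
  refine ⟨(t, -Real.sqrt (1 - t ^ 2)), ?_, neg_nonpos.2 (Real.sqrt_nonneg _), ht1, fun h7 =>
    ht3 (congrArg Prod.fst h7)⟩
  change t ^ 2 + (-Real.sqrt (1 - t ^ 2)) ^ 2 = 1
  rw [neg_sq, Real.sq_sqrt (by linarith)]
  ring

theorem critical_lift {R : Finset (Finset ℤ)} (hR : Neg1 R) (hne : R.Nonempty) {b : ℕ}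
    (hb : 1 ≤ b) : Critical (lift b R) := by
  constructor
  · rintro ⟨v, hv, h⟩
    by_cases h2 : v.2 < 0
    · exact h v (DirB_self hv) ((stable_lift hR hne hb hv).2 (Or.inr h2.le))
    push Not at h2
    by_cases h3 : v = (0, 1)
    · exact h v (DirB_self hv) ((stable_lift hR hne hb hv).2 (Or.inl h3))
    rcases lt_or_gt_of_ne (DirB_ne hv h3 h2) with h4 | h4
    · have h5 : ((-1, 0) : ℝ × ℝ) ∈ S1 := by
        change (-1 : ℝ) ^ 2 + (0 : ℝ) ^ 2 = 1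
        norm_num
      refine h (-1, 0) ⟨h5, ?_⟩ ((stable_lift hR hne hb h5).2 (Or.inr le_rfl))
      change 0 < -1 * v.1 + 0 * v.2
      linarith
    · have h5 : ((1, 0) : ℝ × ℝ) ∈ S1 := by
        change (1 : ℝ) ^ 2 + (0 : ℝ) ^ 2 = 1
        norm_num
      refine h (1, 0) ⟨h5, ?_⟩ ((stable_lift hR hne hb h5).2 (Or.inr le_rfl))
      change 0 < 1 * v.1 + 0 * v.2
      linarith
  · refine ⟨(0, 1), DirB_top, (Set.finite_singleton (0, 1)).subset ?_⟩
    rintro u ⟨hu, hs⟩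
    rcases (stable_lift hR hne hb hu.1).1 hs with h | h
    · exact h
    · exact absurd (DirB_pos hu) (not_lt.2 h)

theorem difficulty_lift {R : Finset (Finset ℤ)} (hR : Neg1 R) (hne : R.Nonempty) {b : ℕ}
    (hb : 1 ≤ b) : difficulty (lift b R) = cost (lift b R) (0, 1) := by
  classical
  have hst : Stable (lift b R) (0, 1) := (stable_lift hR hne hb DirB_top).2 (Or.inl rfl)
  have hiso : Isolated (lift b R) (0, 1) := by
    refine ⟨1, one_pos, fun w hw hs hd => ?_⟩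
    rcases (stable_lift hR hne hb hw).1 hs with h | h
    · exact h
    · exfalso
      rw [Prod.dist_eq] at hd
      have h1 : dist w.2 ((0, 1) : ℝ × ℝ).2 < 1 := lt_of_le_of_lt (le_max_right _ _) hd
      rw [Real.dist_eq] at h1
      have h2 := (abs_lt.1 h1).1
      change -1 < w.2 - 1 at h2
      linarith
  have htop : diffAt (lift b R) (0, 1) = cost (lift b R) (0, 1) := by
    rw [diffAt, if_pos hst, if_pos hiso]
  apply le_antisymm
  · refine iInf₂_le_of_le (0, 1) DirB_top (iSup₂_le fun u hu => ?_)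
    by_cases h : u = (0, 1)
    · rw [h, htop]
    · have h1 : ¬ Stable (lift b R) u := fun h2 =>
        ((stable_lift hR hne hb hu.1).1 h2).elim h fun h3 => not_lt.2 h3 (DirB_pos hu)
      rw [diffAt, if_neg h1]
      exact zero_le
  · refine le_iInf₂ fun v hv => ?_
    by_cases h : v = (0, 1)
    · rw [h]
      exact le_iSup₂_of_le (0, 1) (DirB_self DirB_top) htop.ge
    · obtain ⟨u, hu, hu2⟩ := DirB_low hv h
      refine le_iSup₂_of_le u hu ?_
      have h1 : Stable (lift b R) u := (stable_lift hR hne hb hu.1).2 (Or.inr hu2.le)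
      have h2 : ¬ Isolated (lift b R) u := by
        rintro ⟨ε, hε, h3⟩
        obtain ⟨w, hw, hw2, hd, hne'⟩ := DirB_near hu.1 hu2 hε
        exact hne' (h3 w hw ((stable_lift hR hne hb hw).2 (Or.inr hw2)) hd)
      rw [diffAt, if_pos h1, if_neg h2]
      exact le_top

end Pool.Agent.BPD
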