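import Pool.Agent.BPD.SDefs
import Pool.Agent.PT.Coded

/-!
# Heights of the stacks during the micro-steps

PROOFS. `msteps_pos`: the same induction as in `Pool.Agent.PT.msteps_stmt` (`PT/Micro.lean`), whose
proof gives `1 ≤ d` in all cases. `mstep_height`: cases. `micro_block`: induction on `t`. For `t = 0` take
`q = initList tm w`, `e = 0`; if `q.l = some l` the block of `q` is given by `msteps_pos` for the
statement `tm.m l` (`toM tm.m q = ⟨some (tm.m l), q.var, q.stk⟩`), and the next configuration is
`TM2.stepAux (tm.m l) q.var q.stk`, which is reached (`Function.iterate_succ_apply'`, `FinTM2.step`,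
`TM2.step`). Step: if the micro configuration is `(mstep)^[e] (toM q)` with `e < d` use `e + 1`; if
`e = d` it is `toM` of the next configuration `q'`: if `q'.l = some l'` start its block (which has
length `≥ 1`) with `e = 1`, if `q'.l = none` stay there for ever (`msteps_halted`). `heights`: by
`mstep_height` the height at the time `e ≤ ssize ≤ bigsize` of the block is at most the height of the reached
configuration `q` plus `e`. `reach_height`: induction on `n`: the same with the lengths of the input:
one step of the machine adds at most `bigsize` (`msteps_pos` and `mstep_height`).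
-/

set_option autoImplicit false

namespace Pool.Agent.BPD

open Turing Pool.Agent.PT

theorem msteps_pos {K : Type} [DecidableEq K] {Γ : K → Type} {Λ σ : Type}
    (M : Λ → TM2.Stmt Γ Λ σ) (q : TM2.Stmt Γ Λ σ) (v : σ) (S : ∀ k, List (Γ k)) :
    ∃ d, 1 ≤ d ∧ d ≤ ssize q ∧ (mstep M)^[d] ⟨some q, v, S⟩ = toM M (TM2.stepAux q v S) := by
  cases q with
  | push k f q =>
    obtain ⟨d, hd, h⟩ := msteps_stmt M q v (Function.update S k (f v :: S k))
    exact ⟨d + 1, by omega, by simpa [ssize] using hd, by
      rw [Function.iterate_succ_apply]; exact h⟩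
  | peek k f q =>
    obtain ⟨d, hd, h⟩ := msteps_stmt M q (f v (S k).head?) S
    exact ⟨d + 1, by omega, by simpa [ssize] using hd, by
      rw [Function.iterate_succ_apply]; exact h⟩
  | pop k f q =>
    obtain ⟨d, hd, h⟩ := msteps_stmt M q (f v (S k).head?) (Function.update S k (S k).tail)
    exact ⟨d + 1, by omega, by simpa [ssize] using hd, by
      rw [Function.iterate_succ_apply]; exact h⟩
  | load a q =>
    obtain ⟨d, hd, h⟩ := msteps_stmt M q (a v) S
    exact ⟨d + 1, by omega, by simpa [ssize] using hd, by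
      rw [Function.iterate_succ_apply]; exact h⟩
  | branch p q₁ q₂ =>
    cases hp : p v with
    | true =>
      obtain ⟨d, hd, h⟩ := msteps_stmt M q₁ v S
      refine ⟨d + 1, by omega, by simp only [ssize]; omega, ?_⟩
      rw [Function.iterate_succ_apply]
      simp only [mstep, hp, cond_true, TM2.stepAux]
      exact h
    | false =>
      obtain ⟨d, hd, h⟩ := msteps_stmt M q₂ v S
      refine ⟨d + 1, by omega, by simp only [ssize]; omega, ?_⟩
      rw [Function.iterate_succ_apply]
      simp only [mstep, hp, cond_false, TM2.stepAux]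
      exact h
  | goto l => exact ⟨1, le_rfl, le_rfl, rfl⟩
  | halt => exact ⟨1, le_rfl, le_rfl, rfl⟩

theorem mstep_height {K : Type} [DecidableEq K] {Γ : K → Type} {Λ σ : Type}
    (M : Λ → TM2.Stmt Γ Λ σ) (c : MCfg Γ Λ σ) (k : K) :
    ((mstep M c).S k).length ≤ (c.S k).length + 1 := by
  obtain ⟨s, v, S⟩ := c
  rcases s with _ | q
  · exact Nat.le_succ _
  · cases q with
    | push k' f q =>
      change (Function.update S k' (f v :: S k') k).length ≤ (S k).length + 1
      by_cases hk : k = k'
      · subst hk
        rw [Function.update_self, List.length_cons]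
      · rw [Function.update_of_ne hk]
        exact Nat.le_succ _
    | peek k' f q => exact Nat.le_succ _
    | pop k' f q =>
      change (Function.update S k' (S k').tail k).length ≤ (S k).length + 1
      by_cases hk : k = k'
      · subst hk
        rw [Function.update_self, List.length_tail]
        omega
      · rw [Function.update_of_ne hk]
        exact Nat.le_succ _
    | load a q => exact Nat.le_succ _
    | branch p q₁ q₂ => exact Nat.le_succ _
    | goto l => exact Nat.le_succ _
    | halt => exact Nat.le_succ _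

private theorem Heights_iter {K : Type} [DecidableEq K] {Γ : K → Type} {Λ σ : Type}
    (M : Λ → TM2.Stmt Γ Λ σ) (c : MCfg Γ Λ σ) (k : K) (e : ℕ) :
    (((mstep M)^[e] c).S k).length ≤ (c.S k).length + e := by
  induction e with
  | zero => exact le_rfl
  | succ e ih =>
    rw [Function.iterate_succ_apply']
    have := mstep_height M ((mstep M)^[e] c) k
    omega

/-- The bound of the length of the blocks. -/
noncomputable def bsz (tm : FinTM2) : ℕ := letI := tm.ΛFin; bigsize tm.m

private theorem Heights_block (tm : FinTM2) (q : tm.Cfg) :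
    q.l = none ∨ ∃ (q' : tm.Cfg) (d : ℕ), tm.step q = some q' ∧ 1 ≤ d ∧ d ≤ bsz tm ∧
      (mstep tm.m)^[d] (toM tm.m q) = toM tm.m q' := by
  obtain ⟨l, v, S⟩ := q
  rcases l with _ | l
  · exact Or.inl rfl
  · right
    obtain ⟨d, h1, h2, h3⟩ := msteps_pos tm.m (tm.m l) v S
    refine ⟨TM2.stepAux (tm.m l) v S, d, rfl, h1, h2.trans ?_, h3⟩
    let _ := tm.ΛFin
    exact ssize_le_bigsize tm.m l

private theorem Heights_reach (tm : FinTM2) (w : List (tm.Γ tm.k₀)) {q q' : tm.Cfg}
    (h : Reach tm w q) (hs : tm.step q = some q') : Reach tm w q' := by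
  obtain ⟨n, hn⟩ := h
  refine ⟨n + 1, ?_⟩
  rw [Function.iterate_succ_apply', hn]
  exact hs

private theorem Heights_inv (tm : FinTM2) (w : List (tm.Γ tm.k₀)) (t : ℕ) :
    ∃ (q : tm.Cfg) (e : ℕ), Reach tm w q ∧ ((q.l = none ∧ e = 0) ∨
      ∃ (q' : tm.Cfg) (d : ℕ), tm.step q = some q' ∧ e < d ∧ d ≤ bsz tm ∧
        (mstep tm.m)^[d] (toM tm.m q) = toM tm.m q') ∧
      (mstep tm.m)^[t] (toM tm.m (initList tm w)) = (mstep tm.m)^[e] (toM tm.m q) := by
  induction t with
  | zero =>
    refine ⟨initList tm w, 0, ⟨0, rfl⟩, ?_, rfl⟩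
    rcases Heights_block tm (initList tm w) with h | ⟨q', d, h1, h2, h3, h4⟩
    · exact Or.inl ⟨h, rfl⟩
    · exact Or.inr ⟨q', d, h1, h2, h3, h4⟩
  | succ t ih =>
    obtain ⟨q, e, hr, hc, he⟩ := ih
    rcases hc with ⟨h1, h2⟩ | ⟨q', d, h1, h2, h3, h4⟩
    · subst h2
      refine ⟨q, 0, hr, Or.inl ⟨h1, rfl⟩, ?_⟩
      rw [Function.iterate_succ_apply', he]
      obtain ⟨l, v, S⟩ := q
      change l = none at h1
      subst h1
      rfl
    · by_cases hd : e + 1 < d
      · refine ⟨q, e + 1, hr, Or.inr ⟨q', d, h1, hd, h3, h4⟩, ?_⟩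
        rw [Function.iterate_succ_apply', he, Function.iterate_succ_apply']
      · have hed : d = e + 1 := by omega
        subst hed
        refine ⟨q', 0, Heights_reach tm w hr h1, ?_, ?_⟩
        · rcases Heights_block tm q' with h | ⟨q'', d', g1, g2, g3, g4⟩
          · exact Or.inl ⟨h, rfl⟩
          · exact Or.inr ⟨q'', d', g1, g2, g3, g4⟩
        · rw [Function.iterate_succ_apply', he]
          exact (Function.iterate_succ_apply' (mstep tm.m) e (toM tm.m q)).symm.trans h4

theorem micro_block (tm : FinTM2) (w : List (tm.Γ tm.k₀)) (t : ℕ) :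
    ∃ (q : tm.Cfg) (e : ℕ), Reach tm w q ∧ e ≤ bsz tm ∧
      (mstep tm.m)^[t] (toM tm.m (initList tm w)) = (mstep tm.m)^[e] (toM tm.m q) := by
  obtain ⟨q, e, hr, hc, he⟩ := Heights_inv tm w t
  refine ⟨q, e, hr, ?_, he⟩
  rcases hc with ⟨_, h2⟩ | ⟨q', d, h1, h2, h3, h4⟩
  · omega
  · omega

theorem heights (tm : FinTM2) (w : List (tm.Γ tm.k₀)) (B : ℕ)
    (hB : ∀ q : tm.Cfg, Reach tm w q → ∀ k, (q.stk k).length ≤ B) (t : ℕ) (k : tm.K) :
    (((mstep tm.m)^[t] (toM tm.m (initList tm w))).S k).length ≤ B + bsz tm := by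
  obtain ⟨q, e, hr, he, h⟩ := micro_block tm w t
  rw [h]
  have h1 := Heights_iter tm.m (toM tm.m q) k e
  have h2 := hB q hr k
  change _ ≤ (q.stk k).length + e at h1
  omega

theorem reach_height (tm : FinTM2) (w : List (tm.Γ tm.k₀)) (n : ℕ) (q : tm.Cfg)
    (h : (flip bind tm.step)^[n] (some (initList tm w)) = some q) (k : tm.K) :
    (q.stk k).length ≤ w.length + n * bsz tm := by
  induction n generalizing q with
  | zero =>
    have h0 : initList tm w = q := Option.some.inj h
    rw [← h0, Nat.zero_mul, Nat.add_zero]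
    unfold initList
    by_cases hk : k = tm.k₀
    · subst hk
      simp
    · simp [hk]
  | succ n ih =>
    rw [Function.iterate_succ_apply'] at h
    cases hX : (flip bind tm.step)^[n] (some (initList tm w)) with
    | none =>
      rw [hX] at h
      exact absurd h (by simp [flip])
    | some q₀ =>
      rw [hX] at h
      have hs : tm.step q₀ = some q := h
      have h1 := ih q₀ hX
      rcases Heights_block tm q₀ with g | ⟨q', d, g1, g2, g3, g4⟩
      · obtain ⟨l, v, S⟩ := q₀
        change l = none at g
        subst g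
        exact absurd hs (by simp)
      · have hqq : q' = q := Option.some.inj (g1.symm.trans hs)
        subst hqq
        have h2 := Heights_iter tm.m (toM tm.m q₀) k d
        rw [g4] at h2
        change (q'.stk k).length ≤ (q₀.stk k).length + d at h2
        have e : (n + 1) * bsz tm = n * bsz tm + bsz tm := by ring
        omega

end Pool.Agent.BPD
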