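import Pool.Agent.PF.ToTM
import Pool.Agent.PF.Basic

/-!
# Machines whose input is the word itself

The functions on trees work with the tree `enc x` of the word `x : List Bool`; its code is
`(enc x).code`, for `x = a :: l` this is `true :: ((V.bool a).code ++ (enc l).code)`, for the empty
word `[false]`.

PROOFS. `raw_prog`: the program moves the register `0` to the register `1` (`mv 0 1`; the last
symbol is now on top), pushes `false` on `0`, and loops on the register `1`: for the symbol `a` push
the symbols of `(V.bool a).code` in reversed order and then `true` on the register `0`. At most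
`2 |x| + 1` steps for the first part and a bounded number of steps for every symbol in the loop
(`runs_mv`, `Runs.loopCons` and so on as in `PT/Prog.lean`).

`decider_raw`: the proof of `decider_of_runsBy` (`PF/ToTM.lean`), with the program of `raw_prog` before
the program of `F`, and `outputs_of_prog` for `ea x = x`. `polyTime_raw`: `polyTime_of_prog`
(`PT/ToTM2.lean`) for the program: `raw_prog`, then the program of `F`, where `F (enc x) = enc (e (g x))` is
the polynomial time function given by `hg`, then move the register `0` to `2` and then to `1` (two moves, so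
that the order is preserved). The length of the output is bounded by `PT.size_le`; the polynomial
bounds in terms of `|x|`: `(enc x).size ≤ 4 |x| + 1`, and `(4 n + 3) ^ c` is a polynomial in `n`.
-/

set_option autoImplicit false

namespace Pool.Agent.BPD

open Turing Computability Pool.Agent.PF Pool.Agent.PT

private theorem RawIn_cons (a : Bool) (l : List Bool) :
    (enc (a :: l) : V).code = true :: ((V.bool a).code ++ (enc l : V).code) := rfl

/-- Pushing a word on the register `0`. -/
private def rawInPush : List Bool → Prog Bool
  | [] => Prog.skip
  | a :: l => Prog.seq (rawInPush l) (Prog.push 0 a)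

private theorem RawIn_push (l : List Bool) (s : Store Bool) :
    Runs (rawInPush l) s (Function.update s 0 (l ++ s 0)) (l.length + 1) := by
  induction l with
  | nil =>
    refine (Runs.skip s).conv ?_ le_rfl
    simp
  | cons a l ih =>
    refine (ih.seq (Runs.push 0 a _)).conv ?_ (by simp)
    simp

/-- The body of the loop. -/
private def rawInBody (a : Bool) : Prog Bool := rawInPush (true :: (V.bool a).code)

/-- The stores of the loop. -/
private def rawInSt (l y : List Bool) : Store Bool :=
  Function.update (single 0 (enc y : V).code) 1 l

private theorem RawIn_loop (l : List Bool) : ∀ y : List Bool,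
    Runs (Prog.loop 1 rawInBody) (rawInSt l y) (rawInSt [] (l.reverse ++ y))
      (6 * l.length + 1) := by
  induction l with
  | nil =>
    intro y
    exact Runs.loopNil (by simp [rawInSt])
  | cons a l ih =>
    intro y
    have h1 : Runs (rawInBody a) (Function.update (rawInSt (a :: l) y) 1 l)
        (rawInSt l (a :: y)) 5 := by
      refine (RawIn_push (true :: (V.bool a).code) _).conv ?_ ?_
      · funext i
        by_cases h0 : i = 0
        · subst h0
          simp [rawInSt, single, RawIn_cons]
        · by_cases h1 : i = 1
          · subst h1
            simp [rawInSt]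
          · simp [rawInSt, single, h0, h1]
      · cases a <;> simp [V.bool, V.code]
    have h2 := Runs.loopCons (p := rawInBody) (s := rawInSt (a :: l) y) (by simp [rawInSt]) h1
      (ih (a :: y))
    refine h2.conv ?_ ?_
    · simp
    · simp only [List.length_cons]
      omega

/-- The program of `raw_prog`. -/
private def rawInProg : Prog Bool :=
  Prog.seq (mv 0 1) (Prog.seq (Prog.push 0 false) (Prog.loop 1 rawInBody))

private theorem RawIn_prog (x : List Bool) :
    Runs rawInProg (single 0 x) (single 0 (enc x : V).code) (8 * (x.length + 1)) := by
  have h1 := runs_mv 0 1 (by decide) x (single 0 x) (by simp [single])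
  have h2 := RawIn_loop x.reverse []
  have h3 : Runs (Prog.push 0 false)
      (Function.update (Function.update (single 0 x) 0 []) 1 (x.reverse ++ (single 0 x) 1))
      (rawInSt x.reverse []) 1 := by
    refine (Runs.push 0 false _).conv ?_ le_rfl
    funext i
    by_cases h0 : i = 0
    · subst h0
      simp [rawInSt, single, enc, V.list, V.code]
    · by_cases h1 : i = 1
      · subst h1
        simp [rawInSt, single]
      · simp [rawInSt, single, h0, h1]
  refine (h1.seq (h3.seq h2)).conv ?_ ?_
  · rw [List.reverse_reverse, List.append_nil]
    funext i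
    by_cases h0 : i = 0
    · subst h0
      simp [rawInSt, single]
    · by_cases h1 : i = 1
      · subst h1
        simp [rawInSt, single]
      · simp [rawInSt, single, h0, h1]
  · rw [List.length_reverse]
    omega

theorem raw_prog : ∃ (p : Prog Bool) (C : ℕ), ∀ x : List Bool,
    Runs p (single 0 x) (single 0 (enc x : V).code) (C * (x.length + 1)) :=
  ⟨rawInProg, 8, RawIn_prog⟩

theorem size_enc_le (x : List Bool) : (enc x : V).size ≤ 4 * x.length + 1 := by
  induction x with
  | nil => exact le_rfl
  | cons a l ih =>
    have h1 : (enc (a :: l) : V).size = (V.bool a).size + (enc l : V).size + 1 := rfl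
    have h2 : (V.bool a).size ≤ 3 := by cases a <;> simp [V.bool, V.size]
    rw [h1, List.length_cons]
    omega

theorem decider_raw {ans : List Bool → Bool} {F : V → V} {τ : V → ℕ} (hF : RunsBy F τ)
    (hans : ∀ x : List Bool, F (enc x) = V.bool (ans x)) :
    ∃ (tm : FinTM2) (e₀ : tm.Γ tm.k₀ ≃ Bool) (e₁ : tm.Γ tm.k₁ ≃ Bool) (C : ℕ), ∀ x : List Bool,
      Nonempty (TM2OutputsInTime tm (x.map e₀.symm) (some ([ans x].map e₁.symm))
        (C * (x.length + τ (enc x) + 1))) := by
  obtain ⟨p, hp⟩ := hF
  obtain ⟨P, hP⟩ : ∃ P : Prog Bool, P = Prog.seq rawInProg (Prog.seq (p 0)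
      (Prog.pop 0 Prog.skip (fun a => Prog.seq (Prog.push 1 a) (clear 0)))) := ⟨_, rfl⟩
  have hrun : ∀ x : List Bool, Runs P (single 0 (x.map id)) (single 1 [ans x])
      (8 * (x.length + 1) + (τ (enc x) + 7)) := by
    intro x
    rw [List.map_id]
    have h0 := RawIn_prog x
    have h1 := hp 0 (single 0 (enc x : V).code) (enc x) [] (by simp [single])
      (fun i hi => by
        have : i ≠ 0 := by omega
        simp [single, this])
    rw [hans x] at h1
    set s1 : Store Bool := Function.update (single 0 (enc x : V).code) 0
      ((V.bool (ans x)).code ++ []) with hs1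
    have hs1' : s1 = single 0 (V.bool (ans x)).code := by
      rw [hs1]
      simp [single]
    have h2 : ∃ l : List Bool, l.length ≤ 2 ∧ s1 0 = ans x :: l := by
      rw [hs1']
      cases ans x
      · exact ⟨[], by simp, by simp [single, V.bool, V.code]⟩
      · exact ⟨[false, false], by simp, by simp [single, V.bool, V.code]⟩
    obtain ⟨l, hl, hs1l⟩ := h2
    have h3 := Runs.push 1 (ans x) (Function.update s1 0 l)
    have h4 := runs_clear 0 l (Function.update (Function.update s1 0 l) 1
      (ans x :: (Function.update s1 0 l) 1)) (by simp)
    have h5 := Runs.popCons (p₀ := Prog.skip) (p₁ := fun a => Prog.seq (Prog.push 1 a)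
      (clear 0)) hs1l (h3.seq h4)
    rw [hP]
    refine (h0.seq (h1.seq h5)).conv ?_ (by omega)
    funext i
    by_cases hi : i = 0
    · subst hi; simp [single]
    · by_cases hi1 : i = 1
      · subst hi1; simp [single, hs1']
      · simp [single, hs1', hi, hi1]
  obtain ⟨tm, e₀, e₁, C, hC⟩ := outputs_of_prog (fun x : List Bool => x) (fun b : Bool => [b])
    ans P id id false (fun x => [ans x]) (fun x => by simp)
    (fun x => 8 * (x.length + 1) + (τ (enc x) + 7)) hrun
  refine ⟨tm, e₀, e₁, 17 * C, fun x => ?_⟩
  obtain ⟨h⟩ := hC x
  refine ⟨⟨h.1, h.2.trans ?_⟩⟩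
  rw [mul_comm 17 C, mul_assoc]
  apply Nat.mul_le_mul_left
  simp only [List.length_cons, List.length_nil]
  omega

theorem polyTime_raw {β γ : Type} [VEnc β] {g : List Bool → γ} {e : γ → β}
    (hg : PF fun x : List Bool => e (g x)) :
    Nonempty (TM2ComputableInPolyTime (fun x : List Bool => x) (fun y : γ => (enc (e y)).code)
      g) := by
  obtain ⟨F, hF, hFg⟩ := hg
  obtain ⟨c₂, hc₂⟩ := Pool.Agent.PF.PT.size_le hF
  obtain ⟨c, p, hp⟩ := hF
  have hout : ∀ x : List Bool, (enc (e (g x)) : V).code.length ≤ (4 * x.length + 3) ^ c₂ := by
    intro x
    rw [V.code_length, ← hFg x]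
    refine (hc₂ (enc x)).trans (Nat.pow_le_pow_left ?_ _)
    have := size_enc_le x
    omega
  refine polyTime_of_prog (fun x : List Bool => x) (fun y : γ => (enc (e y)).code) g
    (Prog.seq rawInProg (Prog.seq (p 0) (Prog.seq (mv 0 2) (mv 2 1)))) id id false
    (fun x => (enc (e (g x)) : V).code) (fun x => List.map_id _)
    (8 * (Polynomial.X + 1) + ((4 * Polynomial.X + 3) ^ c +
      ((2 * (4 * Polynomial.X + 3) ^ c₂ + 1) + (2 * (4 * Polynomial.X + 3) ^ c₂ + 1))))
    ((4 * Polynomial.X + 3) ^ c₂) ?_ ?_
  · intro x
    refine (hout x).trans (le_of_eq ?_)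
    simp
  · intro x
    rw [List.map_id]
    have h0 := RawIn_prog x
    have h1 := hp 0 (single 0 (enc x : V).code) (enc x) [] (by simp [single])
      (fun i hi => by
        have : i ≠ 0 := by omega
        simp [single, this])
    rw [hFg x] at h1
    have e1 : Function.update (single 0 (enc x : V).code) 0 ((enc (e (g x)) : V).code ++ []) =
        single 0 (enc (e (g x)) : V).code := by
      simp [single]
    rw [e1] at h1
    have h2 := runs_mv 0 2 (by decide) (enc (e (g x)) : V).code
      (single 0 (enc (e (g x)) : V).code) (by simp [single])
    have e2 : Function.update (Function.update (single 0 (enc (e (g x)) : V).code) 0 []) 2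
        ((enc (e (g x)) : V).code.reverse ++ (single 0 (enc (e (g x)) : V).code) 2) =
        single 2 (enc (e (g x)) : V).code.reverse := by
      funext i
      by_cases h0 : i = 0
      · subst h0
        simp [single]
      · by_cases h1 : i = 2
        · subst h1
          simp [single]
        · simp [single, h0, h1]
    rw [e2] at h2
    have h3 := runs_mv 2 1 (by decide) (enc (e (g x)) : V).code.reverse
      (single 2 (enc (e (g x)) : V).code.reverse) (by simp [single])
    have e3 : Function.update (Function.update (single 2 (enc (e (g x)) : V).code.reverse) 2 []) 1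
        ((enc (e (g x)) : V).code.reverse.reverse ++
          (single 2 (enc (e (g x)) : V).code.reverse) 1) =
        single 1 (enc (e (g x)) : V).code := by
      funext i
      by_cases h0 : i = 1
      · subst h0
        simp [single]
      · by_cases h1 : i = 2
        · subst h1
          simp [single]
        · simp [single, h0, h1]
    rw [e3, List.length_reverse] at h3
    refine (h0.seq (h1.seq (h2.seq h3))).mono ?_
    have h4 := hout x
    have h5 : ((enc x : V).size + 2) ^ c ≤ (4 * x.length + 3) ^ c := by
      refine Nat.pow_le_pow_left ?_ _
      have := size_enc_le x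
      omega
    simp only [Polynomial.eval_add, Polynomial.eval_mul, Polynomial.eval_pow, Polynomial.eval_X,
      Polynomial.eval_one, Polynomial.eval_ofNat]
    omega

end Pool.Agent.BPD
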