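import Pool.Agent.BPD.SDefs
import Pool.Agent.BPD.RawIn
import Pool.Agent.BPD.Heights
import Pool.Agent.PF.Gen
import Pool.Agent.PF.Int

/-!
# The class E: closure under polynomial time functions of `2 ^ n` in unary, and E in ESPACE

PROOF of `inE_of_PF`. Compose (`RunsBy.comp`): (1) the polynomial time function
`enc x ↦ node (una x.length) (enc x)`; (2) `gen_tw 1` (`PF/Gen.lean`), which gives
`node (una (2 ^ (x.length + 2))) (enc x)` (`tw 1 n = 2 ^ (n + 2)`, `V.spine_una`); (3) the polynomial time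
function `(T, x) ↦ G (x, T / 4)` (`PF.divN`; `2 ^ (n + 2) / 4 = 2 ^ n`). Here `enc T = V.una T` for
`T : ℕ`, `enc (T, x) = node (enc T) (enc x)`, and the value is `V.bool (G (x, 2 ^ x.length))`. The times:
`(4 |x| + 3) ^ a` (`size_enc_le`), `(2 ^ (|x| + 2) + (size) + 2) ^ b`, `(size + 2) ^ c`, each at most
`2 ^ (c' (|x| + 1))` (as `|x| + 1 ≤ 2 ^ |x|`). Then `decider_raw`; the answer is
`decide (x ∈ {x | G (x, 2 ^ x.length) = true})`.

PROOF of `inE_of_time`: `C * 2 ^ (c (|x| + 1)) ≤ 2 ^ ((c + C) (|x| + 1))` and monotonicity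
of `TM2OutputsInTime` in the time bound (`⟨h.1, h.2.trans _⟩`).

PROOF of `inESPACE_of_inE`. Let `t ≤ 2 ^ (c (|x| + 1))` be the number of steps until the machine halts. If
`q` is reached after `m` steps then `m ≤ t`: after `t` steps the configuration is `haltList ..`,
whose label is `none`, and the next step gives `none` (`TM2.step`), and `none` stays `none`
(`bind_iter_none`). By `reach_height` the height is at most `|x| + t * bsz tm`, which is at most
`2 ^ ((c + bsz tm + 1) (|x| + 1))`.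
-/

set_option autoImplicit false

namespace Pool.Agent.BPD

open Turing Pool.Agent.PF Pool.Agent.PT Pool.Agent

open Classical in
theorem inE_of_time {L : Set (List Bool)} {tm : FinTM2} {e₀ : tm.Γ tm.k₀ ≃ Bool}
    {e₁ : tm.Γ tm.k₁ ≃ Bool} {T : List Bool → ℕ} {C c : ℕ}
    (h : ∀ x : List Bool, Nonempty (TM2OutputsInTime tm (x.map e₀.symm)
      (some ([decide (x ∈ L)].map e₁.symm)) (T x)))
    (hT : ∀ x, T x ≤ C * 2 ^ (c * (x.length + 1))) : InE L := by
  refine ⟨tm, e₀, e₁, c + C, fun x => ?_⟩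
  obtain ⟨h'⟩ := h x
  refine ⟨⟨h'.1, h'.2.trans ?_⟩⟩
  have h1 : C ≤ 2 ^ (C * (x.length + 1)) :=
    Nat.lt_two_pow_self.le.trans (Nat.pow_le_pow_right (by norm_num)
      (Nat.le_mul_of_pos_right _ (Nat.succ_pos _)))
  calc T x ≤ C * 2 ^ (c * (x.length + 1)) := hT x
    _ ≤ 2 ^ (C * (x.length + 1)) * 2 ^ (c * (x.length + 1)) := Nat.mul_le_mul_right _ h1
    _ = 2 ^ ((c + C) * (x.length + 1)) := by rw [← pow_add]; congr 1; ring

theorem inE_of_PF {G : List Bool × ℕ → Bool} (hG : PF G) :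
    InE {x : List Bool | G (x, 2 ^ x.length) = true} := by
  have h1 : PF fun x : List Bool => (x.length, x) := by fun_prop
  obtain ⟨F₁, ⟨a, hF₁⟩, hF₁'⟩ := h1
  obtain ⟨b, hF₂⟩ := gen_tw 1
  have h3 : PF fun p : ℕ × List Bool => G (p.2, p.1 / 4) :=
    PF.comp' (g := G) hG (PF.prodMk (PF.snd PF.id') (PF.divN (PF.fst PF.id') (PF.const' 4)))
  obtain ⟨F₃, ⟨c, hF₃⟩, hF₃'⟩ := h3
  have h4 := hF₃.comp (hF₂.comp hF₁)
  have hmid : ∀ x : List Bool, (V.node (V.una (MDF.tw 1 (F₁ (enc x)).hd.spine)) (F₁ (enc x)).tl) =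
      enc (4 * 2 ^ x.length, x) := by
    intro x
    rw [hF₁']
    change V.node (V.una (MDF.tw 1 (V.una x.length).spine)) (enc x) = _
    rw [V.spine_una, MDF.tw_succ, MDF.tw_zero, pow_add]
    change _ = V.node (V.una (4 * 2 ^ x.length)) (enc x)
    congr 2
    ring
  obtain ⟨tm, e₀, e₁, C, hC⟩ := decider_raw (ans := fun x => G (x, 2 ^ x.length)) h4 (by
    intro x
    rw [hmid, hF₃']
    change V.bool (G (x, 4 * 2 ^ x.length / 4)) = _
    rw [Nat.mul_div_cancel_left _ (by norm_num)])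
  refine inE_of_time (tm := tm) (e₀ := e₀) (e₁ := e₁) (C := 6 * C) (c := 4 * (a + b + c) + 1)
    (T := fun x => C * (x.length + ((((enc x : V).size + 2) ^ a +
      (MDF.tw 1 (F₁ (enc x)).hd.spine + (F₁ (enc x)).size + 2) ^ b + 1) +
      ((V.node (V.una (MDF.tw 1 (F₁ (enc x)).hd.spine)) (F₁ (enc x)).tl).size + 2) ^ c + 1) + 1))
    (fun x => ?_) (fun x => ?_)
  · have h5 := hC x
    have h6 : ∀ [Decidable (x ∈ {x : List Bool | G (x, 2 ^ x.length) = true})],
        (decide (x ∈ {x : List Bool | G (x, 2 ^ x.length) = true})) = G (x, 2 ^ x.length) := by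
      intro _
      rw [Bool.eq_iff_iff, decide_eq_true_iff]
      exact Iff.rfl
    rw [@h6 (Classical.propDecidable _)]
    exact h5
  · rw [hmid]
    have hs := size_enc_le x
    have hn : x.length + 1 ≤ 2 ^ x.length := Nat.lt_two_pow_self
    have hsz1 : (F₁ (enc x)).size = (2 * x.length + 1) + (enc x : V).size + 1 := by
      rw [hF₁']
      change (V.una x.length).size + _ + 1 = _
      rw [V.size_una]
    have hsp : (F₁ (enc x)).hd.spine = x.length := by
      rw [hF₁']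
      change (V.una x.length).spine = _
      rw [V.spine_una]
    have hsz2 : (enc (4 * 2 ^ x.length, x) : V).size =
        (2 * (4 * 2 ^ x.length) + 1) + (enc x : V).size + 1 := by
      change (V.una (4 * 2 ^ x.length)).size + _ + 1 = _
      rw [V.size_una]
    rw [hsz1, hsp, hsz2, MDF.tw_succ, MDF.tw_zero]
    set n := x.length with hn'
    set s := (enc x : V).size
    have hB : 16 * 2 ^ n ≤ 2 ^ (4 * (n + 1)) := by
      have : 16 * 2 ^ n = 2 ^ (n + 4) := by rw [pow_add]; ring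
      rw [this]
      exact Nat.pow_le_pow_right (by norm_num) (by omega)
    have h22 : 2 ^ (n + 2) = 4 * 2 ^ n := by rw [pow_add]; ring
    have key : ∀ (y d : ℕ), y ≤ 16 * 2 ^ n → d ≤ a + b + c →
        y ^ d ≤ 2 ^ ((4 * (a + b + c) + 1) * (n + 1)) := by
      intro y d hy hd
      calc y ^ d ≤ (2 ^ (4 * (n + 1))) ^ d := Nat.pow_le_pow_left (hy.trans hB) d
        _ = 2 ^ (4 * (n + 1) * d) := by rw [← pow_mul]
        _ ≤ _ := by
          refine Nat.pow_le_pow_right (by norm_num) ?_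
          calc 4 * (n + 1) * d ≤ 4 * (n + 1) * (a + b + c) := Nat.mul_le_mul_left _ hd
            _ ≤ (4 * (a + b + c) + 1) * (n + 1) := by nlinarith
    have k1 := key (s + 2) a (by omega) (by omega)
    have k2 := key (2 ^ (n + 2) + ((2 * n + 1) + s + 1) + 2) b (by omega) (by omega)
    have k3 := key ((2 * (4 * 2 ^ n) + 1) + s + 1 + 2) c (by omega) (by omega)
    have k4 : n + 1 ≤ 2 ^ ((4 * (a + b + c) + 1) * (n + 1)) :=
      hn.trans (Nat.pow_le_pow_right (by norm_num) (by nlinarith))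
    have k5 : 1 ≤ 2 ^ ((4 * (a + b + c) + 1) * (n + 1)) := Nat.one_le_two_pow
    rw [mul_comm 6 C, mul_assoc]
    refine Nat.mul_le_mul_left _ ?_
    omega

private theorem ETime_le (tm : FinTM2) {a : tm.Cfg} {y : List (tm.Γ tm.k₁)} {t m : ℕ}
    {q : tm.Cfg} (ht : (flip bind tm.step)^[t] (some a) = some (haltList tm y))
    (hm : (flip bind tm.step)^[m] (some a) = some q) : m ≤ t := by
  by_contra hlt
  obtain ⟨d, rfl⟩ : ∃ d, m = d + 1 + t := ⟨m - t - 1, by omega⟩
  rw [Function.iterate_add_apply, ht, Function.iterate_succ_apply] at hm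
  have h1 : flip bind tm.step (some (haltList tm y)) = none := rfl
  rw [h1, bind_iter_none] at hm
  exact absurd hm (by simp)

theorem inESPACE_of_inE {L : Set (List Bool)} (h : InE L) : InESPACE L := by
  obtain ⟨tm, e₀, e₁, c, hc⟩ := h
  refine ⟨tm, e₀, e₁, c + bsz tm + 1, fun x => ?_⟩
  obtain ⟨hx⟩ := hc x
  refine ⟨⟨hx.1⟩, fun q hq k => ?_⟩
  obtain ⟨m, hm⟩ := hq
  have hmt : m ≤ hx.1.1 := ETime_le tm hx.1.2 hm
  have hmt' := hmt.trans hx.2
  have h1 := reach_height tm _ m q hm k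
  rw [List.length_map] at h1
  set n := x.length with hn
  have h2 : m * bsz tm ≤ 2 ^ (c * (n + 1)) * bsz tm := Nat.mul_le_mul_right _ hmt'
  have h3 : n + bsz tm ≤ 2 ^ (n + bsz tm) := Nat.lt_two_pow_self.le
  have h4 : 1 ≤ 2 ^ (c * (n + 1)) := Nat.one_le_two_pow
  calc (q.stk k).length ≤ n + m * bsz tm := h1
    _ ≤ 2 ^ (c * (n + 1)) * (n + bsz tm) := by nlinarith
    _ ≤ 2 ^ (c * (n + 1)) * 2 ^ (n + bsz tm) := Nat.mul_le_mul_left _ h3
    _ = 2 ^ (c * (n + 1) + (n + bsz tm)) := by rw [← pow_add]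
    _ ≤ 2 ^ ((c + bsz tm + 1) * (n + 1)) := by
      refine Nat.pow_le_pow_right (by norm_num) ?_
      nlinarith [Nat.zero_le (bsz tm * n)]

end Pool.Agent.BPD
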