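import Pool.Agent.BPD.DARun
import Pool.Agent.PT.Coded

/-!
# The data automaton of a coded machine: definitions

The rows of a run are of four kinds: `R` (reset), `P` (preparation: the columns with mark `tA` are
counted in binary; every row marks one more of them), `I` (the initial configuration of the machine),
`S` (one step of the machine). The column `0` carries the control of the machine, the column `c ≥ 1`
the symbols number `c - 1` of all stacks.
-/

set_option autoImplicit false

namespace Pool.Agent.BPD

open Pool.Agent.PT

/-- Coded machines together with data for input and output. -/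
structure CD where
  C : CM
  ini : ℕ
  ks : ℕ
  ko : ℕ
  code : Bool → ℕ
  halt : ℕ → Bool
  acc : ℕ → Bool
  ini_lt : ini < C.M0
  ks_lt : ks < C.κ
  ko_lt : ko < C.κ
  code_lt : ∀ b, code b < C.M0

/-- The configuration after `t` steps for the input `x`. -/
def conf (M : CD) (x : List Bool) (t : ℕ) : ℕ → ℕ :=
  M.C.step^[t] (initc M.ini M.ks M.C.κ M.code x)

/-- The largest digit of the clock. -/
def bb (M : CD) : ℕ := M.C.M0 ^ (M.C.κ + 1)

/-- The kinds of rows. -/
inductive Kd : Type
  | R | P | I | S
  deriving DecidableEq, Fintype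

/-- The data: kind of the row, mark, binary digit of the counter, control, symbols of the stacks, the
symbols of the preceding row, digit of the clock, two signals. -/
@[ext]
structure Dat (m κ B : ℕ) where
  kd : Kd
  mr : Bool
  dg : Option Bool
  ct : Fin (m + 1)
  ce : Fin κ → Fin (m + 1)
  oc : Fin κ → Fin (m + 1)
  tc : Fin (B + 1)
  fl : Bool
  cy : Bool

noncomputable instance (m κ B : ℕ) : Fintype (Dat m κ B) :=
  Fintype.ofInjective (fun x => ((x.kd, x.mr, x.dg, x.ct), (x.ce, x.oc, x.tc), (x.fl, x.cy)))
    (fun x y h => by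
      simp only [Prod.mk.injEq] at h
      obtain ⟨⟨h1, h2, h3, h4⟩, ⟨h5, h6, h7⟩, h8, h9⟩ := h
      exact Dat.ext h1 h2 h3 h4 h5 h6 h7 h8 h9)

/-- The type of the data. -/
abbrev DM (M : CD) : Type := Dat M.C.M0 M.C.κ (bb M)

/-- The default datum of a row of kind `k`. -/
def dft (M : CD) (k : Kd) : DM M where
  kd := k
  mr := false
  dg := none
  ct := 0
  ce := fun _ => 0
  oc := fun _ => 0
  tc := 0
  fl := false
  cy := false

/-- Numbers as elements of `Fin (m + 1)`. -/
def fi (m v : ℕ) : Fin (m + 1) := Fin.ofNat (m + 1) v

/-- The symbol of the stack `j`. -/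
def gc {m κ : ℕ} (f : Fin κ → Fin (m + 1)) (j : ℕ) : ℕ := if h : j < κ then (f ⟨j, h⟩ : ℕ) else 0

/-- The column `0`. -/
def f0 (M : CD) (σ τ ω : DM M) : Option (DM M) :=
  match σ.kd with
  | .R => some (dft M .P)
  | .P => if ω.fl then some { dft M .P with cy := true } else
      some { dft M .I with ct := fi _ M.ini }
  | _ => if ω.cy then none
      else if M.halt σ.ct then (if M.acc (gc τ.ce M.ko) then some (dft M .R) else none)
      else some { dft M .S with ct := fi _ (M.C.nx σ.ct (gc τ.ce (M.C.stk σ.ct))), cy := true }

/-- The columns `c ≥ 1`. -/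
def f1 (M : CD) (last one a : Bool) (σ τ ω : DM M) :
    Option (DM M) :=
  match ω.kd with
  | .R => some (dft M .R)
  | .P => some { dft M .P with
      mr := σ.mr || (a && !ω.fl)
      fl := ω.fl || (a && !σ.mr)
      dg := if ω.cy then (if σ.dg = some true then some false else some true) else σ.dg
      cy := ω.cy && decide (σ.dg = some true) }
  | .I => some { dft M .I with
      ct := ω.ct
      ce := fun j => if (j : ℕ) = M.ks ∧ last = false ∧ τ.dg ≠ none then
        (match σ.dg with
          | some b => fi _ (M.code b)
          | none => 0) else 0 }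
  | .S => if last = true ∧ 2 ≤ M.C.op σ.ct ∧ gc σ.ce (M.C.stk σ.ct) ≠ 0 then none else
      some { dft M .S with
        ct := ω.ct
        ce := fun j => if (j : ℕ) = M.C.stk σ.ct then
            (if M.C.op σ.ct = 0 then σ.ce j
              else if M.C.op σ.ct = 1 then (if last = true then 0 else τ.ce j)
              else if one = true then fi _ (M.C.op σ.ct - 2) else ω.oc j)
          else σ.ce j
        oc := σ.ce
        tc := if ω.cy then σ.tc + 1 else σ.tc
        cy := ω.cy && decide ((σ.tc : ℕ) = bb M) }

/-- The data automaton of the machine. -/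
noncomputable def mDA (M : CD) : DA where
  D := DM M
  F zero last one a σ τ ω := if zero = true then f0 M σ τ ω else f1 M last one a σ τ ω

/-! ## The rows of the correct run -/

/-- The number of columns `≤ c` with the mark. -/
def cnt (a : ℕ → Bool) (c : ℕ) : ℕ := ((Finset.range (c + 1)).filter fun i => a i = true).card

/-- The digit number `i` of `v`. -/
def dgt (v i : ℕ) : Option Bool := if v / 2 ^ i = 0 then none else some (decide (v / 2 ^ i % 2 = 1))

/-- The reset row. -/
def rowR (M : CD) : ℕ → DM M := fun _ => dft M .R

/-- The row of preparation number `j ≥ 1`. -/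
def rowP (M : CD) (a : ℕ → Bool) (j : ℕ) : ℕ → DM M := fun c =>
  { dft M .P with
    mr := a c && decide (cnt a c ≤ j)
    fl := decide (j ≤ cnt a c)
    dg := if c = 0 then none else dgt (j - 1) (c - 1)
    cy := decide (2 ≤ j ∧ (j - 1) % 2 ^ c = 0) }

/-- The row of the configuration after `t` steps. -/
def rowC (M : CD) (x : List Bool) (t : ℕ) : ℕ → DM M := fun c =>
  { dft M (if t = 0 then .I else .S) with
    ct := fi _ (conf M x t 0)
    ce := fun j => if c = 0 then 0 else fi _ (conf M x t (1 + (c - 1) * M.C.κ + j))
    oc := fun j => if c = 0 ∨ t = 0 then 0 else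
      fi _ (conf M x (t - 1) (1 + (c - 1) * M.C.κ + j))
    tc := if c = 0 then 0 else fi _ (t / (bb M + 1) ^ (c - 1))
    cy := decide (t ≠ 0 ∧ t % (bb M + 1) ^ c = 0) }

end Pool.Agent.BPD
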