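import Pool.Agent.PT.Coded

/-!
# Cells above the stacks are zero

PROOF of `zero_step`: look at the proof of `Pool.Agent.PT.rel_step` (`PT/Micro.lean`); with the control
`c 0` decoded by `h.control`, `decC_ctl`: the cells of the stacks which are not touched (other stacks, or
operation `0`: `peek`, `load`, `branch`, `goto`, `halt`, no statement) do not change; for `pop` (operation
`1`) the cell `i` of the stack `k` gets the value of the cell `i + 1`, and the height `n` becomes `n - 1`
(if `n = 0` all cells of the stack are zero before and after); for `push` (operation `≥ 2`) the cell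
`i + 1` gets the value of the cell `i`, and the height becomes `n + 1`. The cell with the number `i` of the stack
`k` is `1 + i * nK tm + (eK tm k).val`; by `mod_stack` its stack is `(eK tm k).val`. `zero_init`: the value of
`initc` at a cell of the stack `k₀` is `0` from the number `y.length` on (`y[i]? = none`), for the other
stacks always `0`. `zero_iter`: induction with `rel_iter` and `rel_init`.
-/

set_option autoImplicit false

namespace Pool.Agent.BPD

open Turing Pool.Agent.PT

/-- The cells above the stacks are zero. -/
def ZI (tm : FinTM2) (c : ℕ → ℕ) (m : MCfg tm.Γ tm.Λ tm.σ) : Prop :=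
  ∀ (k : tm.K) (i : ℕ), (m.S k).length ≤ i → c (1 + i * nK tm + (eK tm k).val) = 0

theorem zero_step (tm : FinTM2) (c : ℕ → ℕ) (hc : ∀ p, c p < m0 tm)
    (m : MCfg tm.Γ tm.Λ tm.σ) (h : Rel tm c m) (hz : ZI tm c m) :
    ZI tm ((cm tm).step c) (mstep tm.m m) := by
  obtain ⟨s, v, S⟩ := m
  have hctl := h.control
  have hdec : decC tm (c 0) = some (⟨s, h.mem⟩, v) := by rw [hctl, decC_ctl]
  have hz' : ∀ (k : tm.K) (i : ℕ), (S k).length ≤ i →
      c (1 + i * nK tm + (eK tm k).val) = 0 := hz
  -- cells of stacks the machine does not touch
  have hkeep : ∀ (k : tm.K) (i : ℕ), (opOf tm (c 0) = 0 ∨ (eK tm k).val ≠ stkOf tm (c 0)) →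
      (cm tm).step c (1 + i * nK tm + (eK tm k).val) = c (1 + i * nK tm + (eK tm k).val) := by
    intro k i hk
    have hmod := mod_stack tm i k
    have hR : (cm tm).R (1 + i * nK tm + (eK tm k).val) (c 0) =
        1 + i * nK tm + (eK tm k).val := by
      unfold CM.R
      rw [if_neg (by omega)]
      change (if (1 + i * nK tm + (eK tm k).val - 1) % nK tm = stkOf tm (c 0) then
        (if opOf tm (c 0) = 0 then _ else _) else _) = _
      rw [hmod]
      rcases hk with hk | hk
      · rw [if_pos hk]; split_ifs <;> rfl
      · rw [if_neg hk]
    unfold CM.step CM.V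
    rw [if_neg (by omega), hR]
    refine if_neg ?_
    rintro ⟨h1, h2, -⟩
    rcases hk with hk | hk
    · change 2 ≤ opOf tm (c 0) at h2
      omega
    · exact hk (hmod.symm.trans h1)
  have hkeep' : ∀ k : tm.K, (opOf tm (c 0) = 0 ∨ (eK tm k).val ≠ stkOf tm (c 0)) → ∀ i,
      (S k).length ≤ i → (cm tm).step c (1 + i * nK tm + (eK tm k).val) = 0 := by
    intro k hk i hi
    rw [hkeep k i hk]
    exact hz' k i hi
  rcases s with _ | q
  · intro k i hi
    refine hkeep' k (Or.inl ?_) i hi
    unfold opOf; rw [hdec]
  · cases q with
    | push k f q =>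
      have hst : stkOf tm (c 0) = (eK tm k).val := by unfold stkOf; rw [hdec]
      have hop : opOf tm (c 0) = 2 + (1 + nG tm + c 0) := by unfold opOf; rw [hdec]
      intro k' i hi
      change (Function.update S k (f v :: S k) k').length ≤ i at hi
      by_cases hk : k' = k
      · subst hk
        rw [Function.update_self, List.length_cons] at hi
        have hmod := mod_stack tm i k'
        have hlt := (eK tm k').isLt
        rcases i with _ | i
        · omega
        · have e1 : 1 + (i + 1) * nK tm + (eK tm k').val - nK tm =
              1 + i * nK tm + (eK tm k').val := by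
            have : (i + 1) * nK tm = i * nK tm + nK tm := by ring
            omega
          have e2 : ¬ (1 + (i + 1) * nK tm + (eK tm k').val - 1 < nK tm) := by
            have : (i + 1) * nK tm = i * nK tm + nK tm := by ring
            omega
          have hR : (cm tm).R (1 + (i + 1) * nK tm + (eK tm k').val) (c 0) =
              1 + i * nK tm + (eK tm k').val := by
            unfold CM.R
            rw [if_neg (by omega)]
            change (if (1 + (i + 1) * nK tm + (eK tm k').val - 1) % nK tm = stkOf tm (c 0) then
              (if opOf tm (c 0) = 0 then _ else if opOf tm (c 0) = 1 then _ else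
                if 1 + (i + 1) * nK tm + (eK tm k').val - 1 < nK tm then _ else
                  1 + (i + 1) * nK tm + (eK tm k').val - nK tm) else _) = _
            rw [hmod, hst, if_pos rfl, hop, if_neg (by omega), if_neg (by omega), if_neg e2, e1]
          have hV : (cm tm).step c (1 + (i + 1) * nK tm + (eK tm k').val) =
              c (1 + i * nK tm + (eK tm k').val) := by
            unfold CM.step CM.V
            rw [if_neg (by omega), hR]
            exact if_neg (fun h => e2 h.2.2)
          rw [hV]
          exact hz' k' i (by omega)
      · have hk' : (eK tm k').val ≠ stkOf tm (c 0) := by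
          rw [hst]
          intro h'
          exact hk ((eK tm).injective (Fin.ext h'))
        rw [Function.update_of_ne hk] at hi
        exact hkeep' k' (Or.inr hk') i hi
    | peek k f q =>
      intro k' i hi
      refine hkeep' k' (Or.inl ?_) i hi
      unfold opOf; rw [hdec]
    | pop k f q =>
      have hst : stkOf tm (c 0) = (eK tm k).val := by unfold stkOf; rw [hdec]
      have hop : opOf tm (c 0) = 1 := by unfold opOf; rw [hdec]
      intro k' i hi
      change (Function.update S k (S k).tail k').length ≤ i at hi
      by_cases hk : k' = k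
      · subst hk
        rw [Function.update_self, List.length_tail] at hi
        have hmod := mod_stack tm i k'
        have e1 : 1 + i * nK tm + (eK tm k').val + nK tm =
            1 + (i + 1) * nK tm + (eK tm k').val := by ring
        have hR : (cm tm).R (1 + i * nK tm + (eK tm k').val) (c 0) =
            1 + (i + 1) * nK tm + (eK tm k').val := by
          unfold CM.R
          rw [if_neg (by omega)]
          change (if (1 + i * nK tm + (eK tm k').val - 1) % nK tm = stkOf tm (c 0) then
            (if opOf tm (c 0) = 0 then _ else if opOf tm (c 0) = 1 then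
              1 + i * nK tm + (eK tm k').val + nK tm else _) else _) = _
          rw [hmod, hst, if_pos rfl, hop, if_neg (by omega), if_pos rfl, e1]
        have hV : (cm tm).step c (1 + i * nK tm + (eK tm k').val) =
            c (1 + (i + 1) * nK tm + (eK tm k').val) := by
          unfold CM.step CM.V
          rw [if_neg (by omega), hR]
          refine if_neg (fun h => ?_)
          have h2 : 2 ≤ opOf tm (c 0) := h.2.1
          omega
        rw [hV]
        exact hz' k' (i + 1) (by omega)
      · have hk' : (eK tm k').val ≠ stkOf tm (c 0) := by
          rw [hst]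
          intro h'
          exact hk ((eK tm).injective (Fin.ext h'))
        rw [Function.update_of_ne hk] at hi
        exact hkeep' k' (Or.inr hk') i hi
    | load a q =>
      intro k' i hi
      refine hkeep' k' (Or.inl ?_) i hi
      unfold opOf; rw [hdec]
    | branch p q₁ q₂ =>
      intro k' i hi
      refine hkeep' k' (Or.inl ?_) i hi
      unfold opOf; rw [hdec]
    | goto l =>
      intro k' i hi
      refine hkeep' k' (Or.inl ?_) i hi
      unfold opOf; rw [hdec]
    | halt =>
      intro k' i hi
      refine hkeep' k' (Or.inl ?_) i hi
      unfold opOf; rw [hdec]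

/-- The initial configuration of the coded machine. -/
noncomputable def inic (tm : FinTM2) (y : List (tm.Γ tm.k₀)) : ℕ → ℕ :=
  initc (ctl tm (⟨some (tm.m tm.main), main_mem_FF tm tm.main⟩, tm.initialState))
    (eK tm tm.k₀).val (nK tm) (inC tm) y

theorem zero_init (tm : FinTM2) (y : List (tm.Γ tm.k₀)) :
    ZI tm (inic tm y) (toM tm.m (initList tm y)) := by
  have hκ : 0 < nK tm := (Nat.zero_le _).trans_lt (eK tm tm.k₀).isLt
  intro k i hi
  have hmod := mod_stack tm i k
  have hdiv : (1 + i * nK tm + (eK tm k).val - 1) / nK tm = i := by
    have : 1 + i * nK tm + (eK tm k).val - 1 = (eK tm k).val + nK tm * i := by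
      rw [Nat.mul_comm]; omega
    rw [this, Nat.add_mul_div_left _ _ hκ, Nat.div_eq_of_lt (eK tm k).isLt]
    simp
  unfold inic initc
  rw [if_neg (by omega), hmod, hdiv]
  by_cases hk : k = tm.k₀
  · subst hk
    rw [if_pos rfl]
    have e1 : (toM tm.m (initList tm y)).S tm.k₀ = y := by
      change (initList tm y).stk tm.k₀ = y
      simp [initList]
    rw [e1] at hi
    rw [List.getElem?_eq_none hi]
  · have hk' : (eK tm k).val ≠ (eK tm tm.k₀).val := by
      intro h'
      exact hk ((eK tm).injective (Fin.ext h'))
    rw [if_neg hk']

private theorem inic_lt (tm : FinTM2) (y : List (tm.Γ tm.k₀)) (p : ℕ) : inic tm y p < m0 tm := by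
  unfold inic
  refine initc_lt ?_ ?_ y p
  · have := ctl_lt tm (⟨some (tm.m tm.main), main_mem_FF tm tm.main⟩, tm.initialState)
    unfold m0; omega
  · intro g
    have := (eG tm g).isLt
    unfold inC m0
    omega

theorem zero_iter (tm : FinTM2) (y : List (tm.Γ tm.k₀)) (t : ℕ) :
    Rel tm ((cm tm).step^[t] (inic tm y)) ((mstep tm.m)^[t] (toM tm.m (initList tm y))) ∧
      ZI tm ((cm tm).step^[t] (inic tm y)) ((mstep tm.m)^[t] (toM tm.m (initList tm y))) := by
  induction t with
  | zero => exact ⟨rel_init tm y, zero_init tm y⟩
  | succ t ih =>
    rw [Function.iterate_succ_apply', Function.iterate_succ_apply']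
    have hlt := (cm tm).iter_lt (inic tm y) (inic_lt tm y) t
    exact ⟨rel_step tm _ hlt _ ih.1, zero_step tm _ hlt _ ih.1 ih.2⟩

end Pool.Agent.BPD
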