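import Pool.Agent.BPD.Heights
import Pool.Agent.BPD.ZeroInv
import Pool.Agent.BPD.MachA

/-!
# The coded machine of a machine with input and output over `Bool`

`tmCD tm e₀ e₁` is complete. PROOFS (compare `exists_cm` in `PT/Coded.lean`). `conf_tmCD`: the initial
configurations agree pointwise (`initc`, `List.getElem?_map`). By `zero_iter` the configuration `conf ..` after
`t` micro-steps is related (`Rel`) to the micro configuration `m t = (mstep tm.m)^[t] (toM tm.m (initList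
tm (x.map e₀.symm)))`. `halt_iff`: `Rel.control` and `decC_ctl`. `final`: by `msteps_run` there is
`d ≤ n * bsz tm` with `m d = toM tm.m (haltList tm [e₁.symm b])`, whose statement is `none`; by
`msteps_halted` this is `m T` for all `T ≥ d`. The first symbol of the stack `k₁` is `e₁.symm b`
(`haltList`), so `acc` holds iff `b = true` (`Rel.stk_eq` for `k₁`, `i = 0`). `final_first`: if the
micro configuration `m T` has the statement `none` then it is equal to `m T'` for all `T' ≥ T`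
(`msteps_halted`), in particular to the final one. `exists_cd`: `B = 2 ^ (c (|x| + 1))`, `heights`,
`zero_iter`: all cells `pos ≥ 1 + (B + bsz tm) κ` are zero: `pos - 1 = i κ + (eK tm k).val` with
`i = (pos - 1) / κ ≥ B + bsz tm` and `k = (eK tm).symm ((pos - 1) % κ)`; and
`B + bsz tm ≤ 2 ^ (sp (|x| + 1))` for `sp = c + bsz tm + 1`. `T` is the least time with `halt` (`Nat.find`).
-/

set_option autoImplicit false

namespace Pool.Agent.BPD

open Turing Pool.Agent.PT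

open Classical in
/-- The coded machine with its input and output. -/
noncomputable def tmCD (tm : FinTM2) (e₀ : tm.Γ tm.k₀ ≃ Bool) (e₁ : tm.Γ tm.k₁ ≃ Bool) : CD where
  C := cm tm
  ini := ctl tm (⟨some (tm.m tm.main), main_mem_FF tm tm.main⟩, tm.initialState)
  ks := (eK tm tm.k₀).val
  ko := (eK tm tm.k₁).val
  code b := inC tm (e₀.symm b)
  halt a := match decC tm a with
    | some (⟨none, _⟩, _) => true
    | _ => false
  acc b := decide (decS tm tm.k₁ b = some (e₁.symm true))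
  ini_lt := lt_of_lt_of_le (ctl_lt tm _) (by change nC tm ≤ m0 tm; unfold m0; omega)
  ks_lt := (eK tm _).isLt
  ko_lt := (eK tm _).isLt
  code_lt b := by
    change inC tm _ < m0 tm
    have := (eG tm (e₀.symm b)).isLt
    unfold inC m0
    omega

theorem conf_tmCD (tm : FinTM2) (e₀ : tm.Γ tm.k₀ ≃ Bool) (e₁ : tm.Γ tm.k₁ ≃ Bool)
    (x : List Bool) (t : ℕ) :
    conf (tmCD tm e₀ e₁) x t = (cm tm).step^[t] (inic tm (x.map e₀.symm)) := by
  have h : initc (tmCD tm e₀ e₁).ini (tmCD tm e₀ e₁).ks (tmCD tm e₀ e₁).C.κ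
      (tmCD tm e₀ e₁).code x = inic tm (x.map e₀.symm) := by
    funext pos
    unfold inic initc
    congr 1
    change (if (pos - 1) % nK tm = _ then _ else _) = _
    congr 1
    rw [List.getElem?_map]
    have e1 : (tmCD tm e₀ e₁).C.κ = nK tm := rfl
    rw [e1]
    cases x[(pos - 1) / nK tm]? <;> rfl
  unfold conf
  rw [h]
  rfl

private theorem TMcd_match (tm : FinTM2) (m : MCfg tm.Γ tm.Λ tm.σ) (hm : m.s ∈ FF tm) :
    (match (some (⟨m.s, hm⟩, m.v) : Option (Ct tm)) with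
      | some (⟨none, _⟩, _) => true
      | _ => false) = true ↔ m.s = none := by
  obtain ⟨s, v, S⟩ := m
  cases s <;> simp

theorem halt_iff (tm : FinTM2) (e₀ : tm.Γ tm.k₀ ≃ Bool) (e₁ : tm.Γ tm.k₁ ≃ Bool)
    (x : List Bool) (t : ℕ) : (tmCD tm e₀ e₁).halt (conf (tmCD tm e₀ e₁) x t 0) = true ↔
      ((mstep tm.m)^[t] (toM tm.m (initList tm (x.map e₀.symm)))).s = none := by
  have hr := (zero_iter tm (x.map e₀.symm) t).1
  rw [conf_tmCD]
  change (match decC tm ((cm tm).step^[t] (inic tm (x.map e₀.symm)) 0) with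
    | some (⟨none, _⟩, _) => true
    | _ => false) = true ↔ _
  rw [hr.control, decC_ctl]
  exact TMcd_match tm _ hr.mem

private theorem TMcd_end (tm : FinTM2) (y : List (tm.Γ tm.k₀)) (z : List (tm.Γ tm.k₁)) {n : ℕ}
    (hn : (flip bind tm.step)^[n] (some (initList tm y)) = some (haltList tm z))
    {T : ℕ} (hT : n * bsz tm ≤ T) :
    (mstep tm.m)^[T] (toM tm.m (initList tm y)) = toM tm.m (haltList tm z) := by
  let _ := tm.ΛFin
  obtain ⟨d, hd, hd'⟩ := msteps_run tm.m n _ _ hn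
  have hTd : d ≤ T := hd.trans hT
  obtain ⟨e, rfl⟩ := Nat.exists_eq_add_of_le hTd
  rw [Nat.add_comm, Function.iterate_add_apply, hd']
  exact msteps_halted _ _ _ _

private theorem TMcd_acc (tm : FinTM2) (e₀ : tm.Γ tm.k₀ ≃ Bool) (e₁ : tm.Γ tm.k₁ ≃ Bool)
    (x : List Bool) (b : Bool) (T : ℕ)
    (h : (mstep tm.m)^[T] (toM tm.m (initList tm (x.map e₀.symm))) =
      toM tm.m (haltList tm ([b].map e₁.symm))) :
    (tmCD tm e₀ e₁).acc (conf (tmCD tm e₀ e₁) x T (1 + (tmCD tm e₀ e₁).ko)) = b := by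
  classical
  have hr := (zero_iter tm (x.map e₀.symm) T).1
  rw [h] at hr
  have h1 := hr.stk_eq tm.k₁ 0
  have h2 : (toM tm.m (haltList tm ([b].map e₁.symm))).S tm.k₁ = [e₁.symm b] := by
    change (haltList tm ([b].map e₁.symm)).stk tm.k₁ = _
    simp [haltList]
  rw [h2] at h1
  simp only [zero_mul, add_zero, List.getElem?_cons_zero] at h1
  rw [conf_tmCD]
  change decide (decS tm tm.k₁ _ = some (e₁.symm true)) = b
  change decS tm tm.k₁ ((cm tm).step^[T] (inic tm (x.map e₀.symm)) (1 + (tmCD tm e₀ e₁).ko)) =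
    some (e₁.symm b) at h1
  rw [h1]
  cases b <;> simp

theorem final (tm : FinTM2) (e₀ : tm.Γ tm.k₀ ≃ Bool) (e₁ : tm.Γ tm.k₁ ≃ Bool)
    {x : List Bool} {b : Bool} {n : ℕ}
    (h : Nonempty (TM2OutputsInTime tm (x.map e₀.symm) (some ([b].map e₁.symm)) n))
    {T : ℕ} (hT : n * bsz tm ≤ T) :
    (tmCD tm e₀ e₁).halt (conf (tmCD tm e₀ e₁) x T 0) = true ∧
      (tmCD tm e₀ e₁).acc (conf (tmCD tm e₀ e₁) x T (1 + (tmCD tm e₀ e₁).ko)) = b := by
  obtain ⟨⟨⟨m, hm⟩, hle⟩⟩ := h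
  have h1 := TMcd_end tm (x.map e₀.symm) ([b].map e₁.symm) (n := m) hm (T := T)
    (le_trans (Nat.mul_le_mul_right _ hle) hT)
  refine ⟨(halt_iff tm e₀ e₁ x T).2 ?_, TMcd_acc tm e₀ e₁ x b T h1⟩
  rw [h1]
  rfl

theorem final_first (tm : FinTM2) (e₀ : tm.Γ tm.k₀ ≃ Bool) (e₁ : tm.Γ tm.k₁ ≃ Bool)
    {x : List Bool} {b : Bool}
    (h : Nonempty (TM2Outputs tm (x.map e₀.symm) (some ([b].map e₁.symm))))
    {T : ℕ} (hT : (tmCD tm e₀ e₁).halt (conf (tmCD tm e₀ e₁) x T 0) = true) :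
    (tmCD tm e₀ e₁).acc (conf (tmCD tm e₀ e₁) x T (1 + (tmCD tm e₀ e₁).ko)) = b := by
  obtain ⟨m, hm⟩ := h
  have h1 := TMcd_end tm (x.map e₀.symm) ([b].map e₁.symm) (n := m) hm (T := m * bsz tm + T)
    (Nat.le_add_right _ _)
  have h2 := (halt_iff tm e₀ e₁ x T).1 hT
  refine TMcd_acc tm e₀ e₁ x b T ?_
  rw [Function.iterate_add_apply] at h1
  rw [← h1]
  generalize (mstep tm.m)^[T] (toM tm.m (initList tm (x.map e₀.symm))) = c at h2
  obtain ⟨s, v, S⟩ := c
  cases h2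
  exact (msteps_halted _ _ _ _).symm

theorem exists_cd {L : Set (List Bool)} (h : InESPACE L) : ∃ (M : CD) (sp : ℕ), ∀ x : List Bool,
    ∃ T, M.halt (conf M x T 0) = true ∧ (∀ t < T, M.halt (conf M x t 0) = false) ∧
      (M.acc (conf M x T (1 + M.ko)) = true ↔ x ∈ L) ∧
      ∀ t ≤ T, ∀ pos, 1 + 2 ^ (sp * (x.length + 1)) * M.C.κ ≤ pos → conf M x t pos = 0 := by
  classical
  obtain ⟨tm, e₀, e₁, c, h⟩ := h
  refine ⟨tmCD tm e₀ e₁, c + bsz tm + 1, fun x => ?_⟩
  obtain ⟨⟨hout⟩, hre⟩ := h x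
  have hex : ∃ T, (tmCD tm e₀ e₁).halt (conf (tmCD tm e₀ e₁) x T 0) = true := by
    have hn : Nonempty (TM2OutputsInTime tm (x.map e₀.symm)
        (some ([decide (x ∈ L)].map e₁.symm)) hout.steps) := ⟨⟨hout, le_rfl⟩⟩
    exact ⟨_, (final tm e₀ e₁ hn le_rfl).1⟩
  refine ⟨Nat.find hex, Nat.find_spec hex, fun t ht => ?_, ?_, ?_⟩
  · exact Bool.eq_false_iff.2 (Nat.find_min hex ht)
  · rw [final_first tm e₀ e₁ ⟨hout⟩ (Nat.find_spec hex), decide_eq_true_iff]
  · intro t _ pos hpos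
    rw [conf_tmCD]
    have hz := (zero_iter tm (x.map e₀.symm) t).2
    have hκ : 0 < nK tm := (Nat.zero_le _).trans_lt (eK tm tm.k₀).isLt
    change 1 + 2 ^ ((c + bsz tm + 1) * (x.length + 1)) * nK tm ≤ pos at hpos
    have hpos1 : pos = 1 + (pos - 1) / nK tm * nK tm +
        (eK tm ((eK tm).symm ⟨(pos - 1) % nK tm, Nat.mod_lt _ hκ⟩)).val := by
      rw [Equiv.apply_symm_apply]
      have h1 := Nat.div_add_mod (pos - 1) (nK tm)
      rw [Nat.mul_comm] at h1
      change pos = 1 + (pos - 1) / nK tm * nK tm + (pos - 1) % nK tm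
      omega
    rw [hpos1]
    refine hz _ _ ((heights tm (x.map e₀.symm) _ hre t _).trans ?_)
    have h2 : 2 ^ ((c + bsz tm + 1) * (x.length + 1)) ≤ (pos - 1) / nK tm :=
      (Nat.le_div_iff_mul_le hκ).2 (by omega)
    refine le_trans ?_ h2
    have h3 : bsz tm + 1 ≤ 2 ^ bsz tm := Nat.lt_two_pow_self
    have h4 : 1 ≤ 2 ^ (c * (x.length + 1)) := Nat.one_le_two_pow
    calc 2 ^ (c * (x.length + 1)) + bsz tm
        ≤ 2 ^ (c * (x.length + 1)) * (bsz tm + 1) := by nlinarith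
      _ ≤ 2 ^ (c * (x.length + 1)) * 2 ^ bsz tm := Nat.mul_le_mul_left _ h3
      _ = 2 ^ (c * (x.length + 1) + bsz tm) := (pow_add _ _ _).symm
      _ ≤ 2 ^ ((c + bsz tm + 1) * (x.length + 1)) :=
        Nat.pow_le_pow_right (by norm_num) (by nlinarith)

end Pool.Agent.BPD
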