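import Pool.Agent.BPD.LStep
import Pool.Agent.BPD.TMcd

/-!
# The output of a machine, computed with lists

PROOF of `output_list`. Let `M = tmCD tm e₀ e₁`, `y = w.map e₀.symm`. By `msteps_run` (`PT/Micro.lean`) and
`msteps_halted` the micro configuration after `T` steps is `toM tm.m (haltList tm (out.map e₁.symm))`,
whose stack `k₁` is `out.map e₁.symm`. By `cells_iter`, `conf_tmCD`, `zero_iter` the cells of
`p = (lstep M.C)^[T] (linit M w)` are related (`Rel`, `ZI`) to it. Let `l = p.2.getD M.ko []`. The cell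
`1 + i κ + ko` is `l.getD i 0`. So `decS tm tm.k₁ (l.getD i 0) = (out.map e₁.symm)[i]?` for all `i`,
and `l.getD i 0 = 0` for `i ≥ out.length`. All elements of `l` are nonzero: this holds for all stacks of
`linit M w` (`inC` is positive) and is preserved by `lstep M.C` (the pushed code is `op a - 2` with
`op a ≥ 2`, and `opOf` is then `2 + (1 + nG tm + a)`). Hence `l.length ≤ out.length`
(otherwise `l[out.length]` would be nonzero), and `l.length ≥ out.length` (for `i < out.length` the value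
`decS (l.getD i 0)` is not `none`, so `l.getD i 0 ≠ 0`). So `l.map (dcb tm e₁) = out`
(`List.ext_getElem?`). The elements of `l` are cells, hence `< m0 tm` (`CM.iter_lt`, `initc_lt`).
`dcb_eq`: `m = m0 tm`: for `b ≥ m0 tm` `decC tm (b - 1 - nG tm) = none` (`decC_none`).
-/

set_option autoImplicit false

namespace Pool.Agent.BPD

open Turing Pool.Agent.PF Pool.Agent.PT

/-- Decoding of the symbols of the output. -/
noncomputable def dcb (tm : FinTM2) (e₁ : tm.Γ tm.k₁ ≃ Bool) (b : ℕ) : Bool :=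
  ((decS tm tm.k₁ b).map e₁).getD false

/-- Only finitely many codes matter. -/
theorem dcb_eq (tm : FinTM2) (e₁ : tm.Γ tm.k₁ ≃ Bool) : ∃ m : ℕ, ∀ b, m ≤ b →
    dcb tm e₁ b = false := by
  refine ⟨m0 tm, fun b hb => ?_⟩
  unfold m0 at hb
  have h : decS tm tm.k₁ b = none := by
    unfold decS
    rw [if_neg (by omega), dif_neg (by omega), decC_none tm (by omega)]
  unfold dcb
  rw [h]
  rfl

private theorem SimB_op (tm : FinTM2) (a : ℕ) : (cm tm).op a = 0 ∨ (cm tm).op a = 1 ∨
    (cm tm).op a = 2 + (1 + nG tm + a) := by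
  change opOf tm a = 0 ∨ opOf tm a = 1 ∨ opOf tm a = 2 + (1 + nG tm + a)
  unfold opOf
  split
  · exact Or.inr (Or.inr rfl)
  · exact Or.inr (Or.inl rfl)
  · exact Or.inl rfl

private theorem SimB_getD {L : List (List ℕ)} (h : ∀ s ∈ L, ∀ b ∈ s, b ≠ 0) (j : ℕ) :
    ∀ b ∈ L.getD j [], b ≠ 0 := by
  intro b hb
  rw [List.getD_eq_getElem?_getD] at hb
  cases hj : L[j]? with
  | none =>
    rw [hj] at hb
    exact absurd hb (by simp)
  | some s =>
    rw [hj] at hb
    exact h s (List.mem_of_getElem? hj) b hb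

private theorem SimB_nz (tm : FinTM2) (e₀ : tm.Γ tm.k₀ ≃ Bool) (e₁ : tm.Γ tm.k₁ ≃ Bool)
    (w : List Bool) (t : ℕ) :
    ∀ s ∈ ((lstep (cm tm))^[t] (linit (tmCD tm e₀ e₁) w)).2, ∀ b ∈ s, b ≠ 0 := by
  induction t with
  | zero =>
    intro s hs b hb
    change s ∈ (List.replicate (nK tm) []).set (eK tm tm.k₀).val
      (w.map fun b => inC tm (e₀.symm b)) at hs
    rcases List.mem_or_eq_of_mem_set hs with h | h
    · rw [List.eq_of_mem_replicate h] at hb
      exact absurd hb (by simp)
    · rw [h, List.mem_map] at hb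
      obtain ⟨c, -, rfl⟩ := hb
      unfold inC
      omega
  | succ t ih =>
    rw [Function.iterate_succ_apply']
    generalize (lstep (cm tm))^[t] (linit (tmCD tm e₀ e₁) w) = p at ih ⊢
    intro s hs b hb
    change s ∈ p.2.set ((cm tm).stk p.1)
      (sop ((cm tm).op p.1) (p.2.getD ((cm tm).stk p.1) [])) at hs
    rcases List.mem_or_eq_of_mem_set hs with h | h
    · exact ih s h b hb
    · have hg := SimB_getD ih ((cm tm).stk p.1)
      rw [h] at hb
      unfold sop at hb
      rcases SimB_op tm p.1 with ho | ho | ho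
      · rw [ho, if_pos rfl] at hb
        exact hg b hb
      · rw [ho, if_neg (by omega), if_pos rfl] at hb
        exact hg b (List.mem_of_mem_tail hb)
      · rw [ho, if_neg (by omega), if_neg (by omega), List.mem_cons] at hb
        rcases hb with hb | hb
        · omega
        · exact hg b hb

private theorem SimB_len (C : CM) (p : LC) (t : ℕ) :
    ((lstep C)^[t] p).2.length = p.2.length := by
  induction t with
  | zero => rfl
  | succ t ih => rw [Function.iterate_succ_apply', length_lstep, ih]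

private theorem SimB_lt (tm : FinTM2) (e₀ : tm.Γ tm.k₀ ≃ Bool) (e₁ : tm.Γ tm.k₁ ≃ Bool)
    (w : List Bool) (T pos : ℕ) : conf (tmCD tm e₀ e₁) w T pos < m0 tm :=
  (cm tm).iter_lt _ (initc_lt (tmCD tm e₀ e₁).ini_lt (tmCD tm e₀ e₁).code_lt w) T pos

private theorem SimB_end (tm : FinTM2) (y : List (tm.Γ tm.k₀)) (z : List (tm.Γ tm.k₁)) {n : ℕ}
    (hn : (flip bind tm.step)^[n] (some (initList tm y)) = some (haltList tm z))
    {T : ℕ} (hT : n * bsz tm ≤ T) :
    (mstep tm.m)^[T] (toM tm.m (initList tm y)) = toM tm.m (haltList tm z) := by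
  let _ := tm.ΛFin
  obtain ⟨d, hd, hd'⟩ := msteps_run tm.m n _ _ hn
  have hTd : d ≤ T := hd.trans hT
  obtain ⟨e, rfl⟩ := Nat.exists_eq_add_of_le hTd
  rw [Nat.add_comm, Function.iterate_add_apply, hd']
  exact msteps_halted _ _ _ _

theorem output_list (tm : FinTM2) (e₀ : tm.Γ tm.k₀ ≃ Bool) (e₁ : tm.Γ tm.k₁ ≃ Bool)
    {w out : List Bool} {n : ℕ}
    (h : Nonempty (TM2OutputsInTime tm (w.map e₀.symm) (some (out.map e₁.symm)) n))
    {T : ℕ} (hT : n * bsz tm ≤ T) :
    (((lstep (cm tm))^[T] (linit (tmCD tm e₀ e₁) w)).2.getD (tmCD tm e₀ e₁).ko []).map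
      (dcb tm e₁) = out ∧
    ∀ b ∈ ((lstep (cm tm))^[T] (linit (tmCD tm e₀ e₁) w)).2.getD (tmCD tm e₀ e₁).ko [],
      b < m0 tm := by
  obtain ⟨⟨⟨m, hm⟩, hle⟩⟩ := h
  have h1 := SimB_end tm (w.map e₀.symm) (out.map e₁.symm) (n := m) hm (T := T)
    (le_trans (Nat.mul_le_mul_right _ hle) hT)
  have hz := zero_iter tm (w.map e₀.symm) T
  rw [h1] at hz
  have hc := cells_iter (tmCD tm e₀ e₁) w T
  have hc2 := hc.trans (conf_tmCD tm e₀ e₁ w T)
  have hnz := SimB_getD (SimB_nz tm e₀ e₁ w T) (tmCD tm e₀ e₁).ko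
  have hcell : ∀ i, cells (tmCD tm e₀ e₁).C.κ ((lstep (tmCD tm e₀ e₁).C)^[T]
      (linit (tmCD tm e₀ e₁) w)) (1 + i * nK tm + (eK tm tm.k₁).val) =
      (((lstep (cm tm))^[T] (linit (tmCD tm e₀ e₁) w)).2.getD (tmCD tm e₀ e₁).ko []).getD i 0 := by
    intro i
    have hκ : 0 < nK tm := (Nat.zero_le _).trans_lt (eK tm tm.k₀).isLt
    have hmod := mod_stack tm i tm.k₁
    have hdiv : (1 + i * nK tm + (eK tm tm.k₁).val - 1) / nK tm = i := by
      have : 1 + i * nK tm + (eK tm tm.k₁).val - 1 = (eK tm tm.k₁).val + nK tm * i := by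
        rw [Nat.mul_comm]; omega
      rw [this, Nat.add_mul_div_left _ _ hκ, Nat.div_eq_of_lt (eK tm tm.k₁).isLt]
      simp
    unfold cells
    rw [if_neg (by omega)]
    change (List.getD _ ((1 + i * nK tm + (eK tm tm.k₁).val - 1) % nK tm) []).getD
      ((1 + i * nK tm + (eK tm tm.k₁).val - 1) / nK tm) 0 = _
    rw [hmod, hdiv]
    rfl
  have hS : (toM tm.m (haltList tm (out.map e₁.symm))).S tm.k₁ = out.map e₁.symm := by
    change (haltList tm (out.map e₁.symm)).stk tm.k₁ = _
    simp [haltList]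
  have hdec : ∀ i, decS tm tm.k₁ ((((lstep (cm tm))^[T]
      (linit (tmCD tm e₀ e₁) w)).2.getD (tmCD tm e₀ e₁).ko []).getD i 0) =
      (out.map e₁.symm)[i]? := by
    intro i
    have h2 := hz.1.stk_eq tm.k₁ i
    rw [hS, ← hc2, hcell] at h2
    exact h2
  have hzero : ∀ i, out.length ≤ i → (((lstep (cm tm))^[T]
      (linit (tmCD tm e₀ e₁) w)).2.getD (tmCD tm e₀ e₁).ko []).getD i 0 = 0 := by
    intro i hi
    have h2 := hz.2 tm.k₁ i (by rw [hS, List.length_map]; exact hi)
    rw [← hc2, hcell] at h2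
    exact h2
  have hlt : ∀ i, (((lstep (cm tm))^[T]
      (linit (tmCD tm e₀ e₁) w)).2.getD (tmCD tm e₀ e₁).ko []).getD i 0 < m0 tm := by
    intro i
    rw [← hcell i, hc]
    exact SimB_lt tm e₀ e₁ w T _
  generalize (((lstep (cm tm))^[T] (linit (tmCD tm e₀ e₁) w)).2.getD (tmCD tm e₀ e₁).ko []) = l
    at hnz hdec hzero hlt ⊢
  have hget : ∀ i (hi : i < l.length), l.getD i 0 = l[i] := by
    intro i hi
    rw [List.getD_eq_getElem?_getD, List.getElem?_eq_getElem hi]
    rfl
  have hlen : l.length = out.length := by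
    apply le_antisymm
    · by_contra hh
      have hh' : out.length < l.length := by omega
      have h3 := hzero out.length le_rfl
      rw [hget _ hh'] at h3
      exact hnz _ (List.getElem_mem hh') h3
    · by_contra hh
      have hh' : l.length < out.length := by omega
      have h3 := hdec l.length
      have h4 : l.getD l.length 0 = 0 := by
        rw [List.getD_eq_getElem?_getD, List.getElem?_eq_none le_rfl]
        rfl
      rw [h4, decS_zero, List.getElem?_map, List.getElem?_eq_getElem hh'] at h3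
      exact absurd h3 (by simp)
  constructor
  · refine List.ext_getElem (by rw [List.length_map, hlen]) fun i hi1 hi2 => ?_
    rw [List.length_map] at hi1
    rw [List.getElem_map]
    have h3 := hdec i
    rw [hget i hi1, List.getElem?_map, List.getElem?_eq_getElem hi2] at h3
    unfold dcb
    rw [h3]
    simp
  · intro b hb
    obtain ⟨i, hi, rfl⟩ := List.getElem_of_mem hb
    rw [← hget i hi]
    exact hlt i

end Pool.Agent.BPD
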