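import Pool.Agent.BPD.SimA
import Pool.Agent.BPD.SimB
import Pool.Agent.PF.Gen
import Pool.Agent.PF.Int

/-!
# Deciding with the help of a machine for the difficulty

PROOF of `sim_decider`. Let `c₁` be the constant of `gen_tw 1` (`PF/Gen.lean`); put `U = c₁ + 2`. Given the data, let
`M = tmCD tm e₀ e₁`. `F` is the composition (`RunsBy.comp`) of

(1) the polynomial time function `enc x ↦ node (una (e x + β)) (node (enc (Bin.mk (K x))) (enc (linit M
(word (f x)))))`, where `β` is a constant with `bsz tm ≤ 2 ^ β`; it is in `PF` (`PF.prodMk`, `PF.addN`;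
`word (f x)` is `PF` by `code_lin`, `Lin.pt` and `PF.comp'`; `linit` by `PF.map` with the finite
table `M.code`, and `(List.replicate κ []).set ks l` is the constant list with one entry replaced:
`List.replicate ks [] ++ l :: List.replicate (κ - ks - 1) []`);
(2) the function of `gen_tw 1`: `node (una m) w ↦ node (una (2 ^ (m + 2))) w`
(`tw 1 m = 2 ^ (m + 2)`);
(3) the function of `exists_sim (cm tm)`; the value is `node (enc (Bin.mk (K x))) (enc p)`, where
`p = (lstep (cm tm))^[2 ^ (e x + β + 2)] (linit M (word (f x)))`;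
(4) the linear function `node a (enc p) ↦ node a (enc (p.2.getD ko []))` (`hd` and `tl` only; for
lists coded by trees the element number `ko` is `hd (tl^ko ..)`, note `p.2.length = κ > ko`);
(5) the polynomial time function `(K, l) ↦ decide (bv (l.map dcb) ≤ K)`, where `bv` is the value of a
binary word (`PF.ofBitsB`, `PF.map`, `PF.leB`; `dcb` is `PF` by `dcb_eq`: it is a table lookup in the constant
list of its first values, `PF.getD`). By `output_list` with `n = t ≤ 2 ^ e x` and
`t * bsz tm ≤ 2 ^ (e x + β + 2)`: `l.map dcb = (n x).bits`, whose value is `n x` (`foldr_bits`).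

Time: (1) `(size + 2) ^ c`, polynomial in `|x|`. (2) `(2 ^ (e x + β + 2) + size + 2) ^ c₁`, where the size is
bounded by a polynomial in `|x|` (`PF.size_le`). (3) `c * (T + 1) ^ 2 * size` with
`T = 2 ^ (e x + β + 2)` and size at most `2 T + 1` plus a polynomial in `|x|`: this is at most
`k * (2 ^ e x) ^ 3 * (|x| + 2) ^ k`. (4) linear in the size, which is at most polynomial `+ c T`. (5) the
list `l` has the length of `(n x).bits` and elements `< m0 tm` (`output_list`), so its size is polynomial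
in `|x|` by `hn`, hence so is the time. A sum of terms `k * (2 ^ e x) ^ U * (|x| + 2) ^ k` (use
`1 ≤ 2 ^ e x`, `2 ≤ |x| + 2`, `a + b ≤ a b + 1` or `a + b ≤ 2 a b` for `a, b ≥ 1`) is again of this form;
take `U = 3 * (c₁ + 1)` if convenient: only the independence of `U` of the data matters.
-/

set_option autoImplicit false

namespace Pool.Agent.BPD

open Turing Pool.Agent.PF Pool.Agent.PT

/-- growth: a constant times a power of `2 ^ e x` times a polynomial in the length -/
private def SimDecE (e : List Bool → ℕ) (a : ℕ) (g : List Bool → ℕ) : Prop :=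
  ∃ k : ℕ, ∀ x, g x ≤ k * (2 ^ e x) ^ a * (x.length + 2) ^ k

private theorem SimDecE.mono {e : List Bool → ℕ} {a b : ℕ} {g h : List Bool → ℕ}
    (hh : SimDecE e a h) (hab : a ≤ b) (hgh : ∀ x, g x ≤ h x) : SimDecE e b g := by
  obtain ⟨k, hk⟩ := hh
  refine ⟨k, fun x => (hgh x).trans ((hk x).trans ?_)⟩
  exact Nat.mul_le_mul_right _ (Nat.mul_le_mul_left _
    (Nat.pow_le_pow_right (Nat.pow_pos (by norm_num)) hab))

private theorem SimDecE.lift {e : List Bool → ℕ} {a : ℕ} {g : List Bool → ℕ} {k m : ℕ}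
    (hk : ∀ x, g x ≤ k * (2 ^ e x) ^ a * (x.length + 2) ^ k) (hm : k ≤ m) :
    ∀ x, g x ≤ k * (2 ^ e x) ^ a * (x.length + 2) ^ m := fun x =>
  (hk x).trans (Nat.mul_le_mul_left _ (Nat.pow_le_pow_right (by omega) hm))

private theorem SimDecE.add {e : List Bool → ℕ} {a : ℕ} {g h : List Bool → ℕ}
    (hg : SimDecE e a g) (hh : SimDecE e a h) : SimDecE e a fun x => g x + h x := by
  obtain ⟨k, hk⟩ := hg
  obtain ⟨l, hl⟩ := hh
  refine ⟨k + l, fun x => ?_⟩
  have h1 := SimDecE.lift hk (Nat.le_add_right k l) x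
  have h2 := SimDecE.lift hl (Nat.le_add_left l k) x
  refine (Nat.add_le_add h1 h2).trans (le_of_eq ?_)
  ring

private theorem SimDecE.mul {e : List Bool → ℕ} {a b : ℕ} {g h : List Bool → ℕ}
    (hg : SimDecE e a g) (hh : SimDecE e b h) : SimDecE e (a + b) fun x => g x * h x := by
  obtain ⟨k, hk⟩ := hg
  obtain ⟨l, hl⟩ := hh
  refine ⟨k * l + k + l, fun x => ?_⟩
  refine (Nat.mul_le_mul (hk x) (hl x)).trans ?_
  have h1 : (x.length + 2) ^ k * (x.length + 2) ^ l ≤ (x.length + 2) ^ (k * l + k + l) := by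
    rw [← pow_add]
    exact Nat.pow_le_pow_right (by omega) (by omega)
  calc k * (2 ^ e x) ^ a * (x.length + 2) ^ k * (l * (2 ^ e x) ^ b * (x.length + 2) ^ l)
      = (k * l) * (2 ^ e x) ^ (a + b) * ((x.length + 2) ^ k * (x.length + 2) ^ l) := by
        rw [pow_add (2 ^ e x)]
        ring
    _ ≤ (k * l + k + l) * (2 ^ e x) ^ (a + b) * (x.length + 2) ^ (k * l + k + l) :=
        Nat.mul_le_mul (Nat.mul_le_mul_right _ (by omega)) h1

private theorem SimDecE.const {e : List Bool → ℕ} (c : ℕ) : SimDecE e 0 fun _ => c := by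
  refine ⟨c, fun x => ?_⟩
  rw [pow_zero, mul_one]
  exact Nat.le_mul_of_pos_right _ (Nat.pow_pos (by omega))

private theorem SimDecE.pow {e : List Bool → ℕ} {a : ℕ} {g : List Bool → ℕ}
    (hg : SimDecE e a g) (c : ℕ) : SimDecE e (a * c) fun x => g x ^ c := by
  induction c with
  | zero =>
    simp only [pow_zero, mul_zero]
    exact SimDecE.const 1
  | succ c ih =>
    refine (SimDecE.mul ih hg).mono (by rw [Nat.mul_succ]) fun x => ?_
    rw [pow_succ]

private theorem SimDecE.exp {e : List Bool → ℕ} : SimDecE e 1 fun x => 2 ^ e x := by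
  refine ⟨1, fun x => ?_⟩
  rw [pow_one, one_mul, pow_one]
  exact Nat.le_mul_of_pos_right _ (by omega)

private theorem SimDecE.sz_le (x : List Bool) : Pool.Agent.PF.sz x ≤ 4 * x.length + 1 := by
  induction x with
  | nil => simp
  | cons b l ih =>
    rw [sz_cons, List.length_cons]
    have := sz_bool_le b
    omega

private theorem SimDecE.len {e : List Bool → ℕ} : SimDecE e 0 fun x => x.length := by
  refine ⟨1, fun x => ?_⟩
  rw [pow_zero, pow_one]
  change x.length ≤ _
  omega

private theorem SimDecE.poly {e : List Bool → ℕ} {g : List Bool → ℕ}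
    (h : ∃ c, ∀ x, g x ≤ (Pool.Agent.PF.sz x + 2) ^ c) : SimDecE e 0 g := by
  obtain ⟨c, hc⟩ := h
  have h1 : SimDecE e 0 fun x => 4 * x.length + 3 :=
    SimDecE.add (SimDecE.mul (a := 0) (b := 0) (SimDecE.const 4) SimDecE.len) (SimDecE.const 3)
  refine (SimDecE.pow h1 c).mono (by omega) fun x => (hc x).trans ?_
  have := SimDecE.sz_le x
  exact Nat.pow_le_pow_left (by omega) c

private theorem SimDecE.pf {e : List Bool → ℕ} {β : Type} [VEnc β] {g : List Bool → β}
    (h : PF g) : SimDecE e 0 fun x => Pool.Agent.PF.sz (g x) :=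
  SimDecE.poly (PF.size_le h)

private theorem SimDec_table (d : ℕ → Bool) (m : ℕ) (h : ∀ b, m ≤ b → d b = false) : PF d := by
  have e : d = fun b => ((List.range m).map d).getD b false := by
    funext b
    rw [List.getD_eq_getElem?_getD, List.getElem?_map]
    by_cases hb : b < m
    · rw [List.getElem?_range hb]
      rfl
    · rw [List.getElem?_eq_none (by rw [List.length_range]; omega)]
      exact h b (by omega)
  rw [e]
  exact PF.getD (PF.const' _) PF.id' (PF.const' _)

private theorem SimDec_set (κ k : ℕ) (hk : k < κ) (l : List ℕ) :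
    (List.replicate κ ([] : List ℕ)).set k l =
      List.replicate k [] ++ l :: List.replicate (κ - k - 1) [] := by
  rw [List.set_eq_take_append_cons_drop]
  rw [if_pos (by rw [List.length_replicate]; exact hk), List.take_replicate,
    List.drop_replicate, Nat.min_eq_left hk.le]
  congr 2

private theorem SimDec_linit (M : CD) {g : List Bool → List Bool} (hg : PF g) :
    PF fun x => linit M (g x) := by
  have h1 : PF fun x => (g x).map M.code := by
    have e : (fun x => (g x).map M.code) =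
        fun x => (g x).map fun b => if b = true then M.code true else M.code false := by
      funext x
      refine List.map_congr_left fun b _ => ?_
      cases b <;> rfl
    rw [e]
    exact PF.map (g := fun _ b => if b = true then M.code true else M.code false) hg
      (PF.cond (PF.snd PF.id') (PF.const' _) (PF.const' _))
  have e : (fun x => linit M (g x)) = fun x => (M.ini, List.replicate M.ks [] ++
      (g x).map M.code :: List.replicate (M.C.κ - M.ks - 1) []) := by
    funext x
    unfold linit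
    rw [SimDec_set _ _ M.ks_lt]
  rw [e]
  exact PF.prodMk (PF.const' _) (PF.append (PF.const' _) (PF.cons h1 (PF.const' _)))

private theorem SimDec_word {f : List Bool → Code} (hf : PF f) : PF fun x => word (f x) := by
  obtain ⟨F, hF, h⟩ := hf
  refine ⟨fun v => enc (F v).code, PT.comp (Lin.pt code_lin) hF, fun a => ?_⟩
  simp only [h]
  rfl

/-- the element number `k` of a list -/
private def SimDecGet (k : ℕ) (v : V) : V := .node v.hd (V.hd (V.tl^[k] v.tl.tl))

private theorem SimDecGet_lin (k : ℕ) : Lin (SimDecGet k) := by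
  have h : ∀ k : ℕ, Lin fun v => V.tl^[k] v := by
    intro k
    induction k with
    | zero => exact Lin.id
    | succ k ih =>
      have e : (fun v => V.tl^[k + 1] v) = fun v => V.tl (V.tl^[k] v) := by
        funext v
        rw [Function.iterate_succ_apply']
      rw [e]
      exact Lin.comp Lin.tl ih
  exact Lin.node Lin.hd (Lin.comp Lin.hd (Lin.comp (h k) (Lin.comp Lin.tl Lin.tl)))

private theorem SimDecGet_eq (k : ℕ) (a : V) (p : LC) :
    SimDecGet k (.node a (enc p)) = .node a (enc (p.2.getD k [])) := by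
  have h : ∀ (k : ℕ) (l : List (List ℕ)), V.hd (V.tl^[k] (enc l)) = enc (l.getD k []) := by
    intro k
    induction k with
    | zero =>
      intro l
      cases l <;> rfl
    | succ k ih =>
      intro l
      cases l with
      | nil =>
        rw [Function.iterate_succ_apply]
        exact ih []
      | cons b l =>
        rw [Function.iterate_succ_apply, List.getD_cons_succ]
        exact ih l
  have h2 : (V.node a (enc p)).tl.tl = enc p.2 := rfl
  unfold SimDecGet
  rw [h2, h, V.hd_node]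

private theorem SimDec_szl (m : ℕ) (l : List ℕ) (h : ∀ b ∈ l, b < m) :
    Pool.Agent.PF.sz l ≤ (2 * m + 2) * l.length + 1 := by
  induction l with
  | nil => simp
  | cons b l ih =>
    rw [sz_cons, sz_nat, List.length_cons]
    have h1 := ih fun c hc => h c (List.mem_cons_of_mem _ hc)
    have h2 := h b List.mem_cons_self
    nlinarith

theorem sim_decider : ∃ U : ℕ, ∀ (tm : FinTM2) (e₀ : tm.Γ tm.k₀ ≃ Bool)
    (e₁ : tm.Γ tm.k₁ ≃ Bool) (f : List Bool → Code) (K e n : List Bool → ℕ),
    PF f → PF (fun x => Bin.mk (K x)) → PF e →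
    (∃ k₀ : ℕ, ∀ x, (n x).bits.length ≤ (x.length + 2) ^ k₀) →
    (∀ x, ∃ t : ℕ, t ≤ 2 ^ e x ∧ Nonempty (TM2OutputsInTime tm ((word (f x)).map e₀.symm)
      (some ((n x).bits.map e₁.symm)) t)) →
    ∃ (F : V → V) (τ : V → ℕ) (k : ℕ), RunsBy F τ ∧
      (∀ x : List Bool, F (enc x) = V.bool (decide (n x ≤ K x))) ∧
      ∀ x : List Bool, τ (enc x) ≤ k * (2 ^ e x) ^ U * (x.length + 2) ^ k := by
  obtain ⟨c₁, hgen⟩ := gen_tw 1
  refine ⟨c₁ + 3, ?_⟩
  intro tm e₀ e₁ f K e n hf hK he hn hout
  set M := tmCD tm e₀ e₁ with hM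
  obtain ⟨k₀, hk₀⟩ := hn
  -- stage 1
  have hg1 : PF fun x : List Bool => (e x + bsz tm, (Bin.mk (K x), linit M (word (f x)))) :=
    PF.prodMk (PF.addN he (PF.const' _)) (PF.prodMk hK (SimDec_linit M (SimDec_word hf)))
  have hsz1 : SimDecE e 0 _ := SimDecE.pf hg1
  have hszK : SimDecE e 0 _ := SimDecE.pf hK
  obtain ⟨F1, ⟨a1, hF1⟩, hF1e⟩ := hg1
  -- stage 3
  obtain ⟨G, c, hG, hGs, hGe⟩ := exists_sim (cm tm)
  -- stage 4
  obtain ⟨C4, hH4⟩ := SimDecGet_lin M.ko
  -- stage 5
  obtain ⟨m, hm⟩ := dcb_eq tm e₁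
  have hd : PF (dcb tm e₁) := SimDec_table _ m hm
  have hg5 : PF fun q : Bin × List ℕ =>
      decide ((q.2.map (dcb tm e₁)).foldr (fun b n => Nat.bit b n) 0 ≤ q.1.val) := by
    have h1 : PF fun q : Bin × List ℕ => q.2.map (dcb tm e₁) :=
      PF.map (g := fun _ b => dcb tm e₁ b) (PF.snd PF.id') (PF.comp' hd (PF.snd PF.id'))
    exact PF.leB (f := fun q : Bin × List ℕ =>
      Bin.mk ((q.2.map (dcb tm e₁)).foldr (fun b n => Nat.bit b n) 0)) (PF.ofBitsB h1)
      (PF.fst PF.id')
  obtain ⟨F5, ⟨a5, hF5⟩, hF5e⟩ := hg5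
  have hall := hF5.comp (hH4.comp (hG.comp (hgen.comp hF1)))
  -- the values
  have hv2 : ∀ x, V.node (V.una (Pool.Agent.MDF.tw 1 (F1 (enc x)).hd.spine)) (F1 (enc x)).tl =
      V.node (V.una (2 ^ (e x + bsz tm + 2)))
        (V.node (enc (Bin.mk (K x))) (enc (linit M (word (f x))))) := by
    intro x
    rw [hF1e]
    have h1 : (enc (e x + bsz tm, (Bin.mk (K x), linit M (word (f x)))) : V) =
      V.node (V.una (e x + bsz tm)) (V.node (enc (Bin.mk (K x)))
        (enc (linit M (word (f x))))) := rfl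
    rw [h1, V.hd_node, V.tl_node, V.spine_una]
    rfl
  have hlen : ∀ x, (linit M (word (f x))).2.length = (cm tm).κ := fun x => length_linit M _
  have hv3 : ∀ x, G (V.node (V.una (Pool.Agent.MDF.tw 1 (F1 (enc x)).hd.spine))
      (F1 (enc x)).tl) = V.node (enc (Bin.mk (K x)))
        (enc ((lstep (cm tm))^[2 ^ (e x + bsz tm + 2)] (linit M (word (f x))))) := by
    intro x
    rw [hv2, hGe _ _ _ (hlen x)]
  have hv4 : ∀ x, SimDecGet M.ko (G (V.node (V.una (Pool.Agent.MDF.tw 1
      (F1 (enc x)).hd.spine)) (F1 (enc x)).tl)) = enc (Bin.mk (K x),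
        ((lstep (cm tm))^[2 ^ (e x + bsz tm + 2)] (linit M (word (f x)))).2.getD M.ko []) := by
    intro x
    rw [hv3, SimDecGet_eq]
    rfl
  have hol : ∀ x,
      ((((lstep (cm tm))^[2 ^ (e x + bsz tm + 2)] (linit M (word (f x)))).2.getD M.ko []).map
        (dcb tm e₁) = (n x).bits) ∧
      ∀ b ∈ ((lstep (cm tm))^[2 ^ (e x + bsz tm + 2)] (linit M (word (f x)))).2.getD M.ko [],
        b < m0 tm := by
    intro x
    obtain ⟨t, ht, hto⟩ := hout x
    refine output_list tm e₀ e₁ hto ?_
    have h1 : bsz tm ≤ 2 ^ bsz tm := Nat.lt_two_pow_self.le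
    calc t * bsz tm ≤ 2 ^ e x * 2 ^ bsz tm := Nat.mul_le_mul ht h1
      _ = 2 ^ (e x + bsz tm) := (pow_add _ _ _).symm
      _ ≤ 2 ^ (e x + bsz tm + 2) := Nat.pow_le_pow_right (by norm_num) (by omega)
  -- the growth
  have hT : SimDecE e 1 fun x => 2 ^ (e x + bsz tm + 2) := by
    refine (SimDecE.mul (SimDecE.exp (e := e)) (SimDecE.const (2 ^ (bsz tm + 2)))).mono
      (by omega) fun x => ?_
    rw [add_assoc, pow_add]
  have hc : ∀ k, SimDecE e 1 fun _ => k := fun k =>
    (SimDecE.const k).mono (by omega) fun _ => le_rfl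
  have hsz1' := hsz1.mono (g := fun x => Pool.Agent.PF.sz
    (e x + bsz tm, (Bin.mk (K x), linit M (word (f x))))) (Nat.zero_le 1) fun _ => le_rfl
  have hs2 : ∀ x, (V.node (V.una (Pool.Agent.MDF.tw 1 (F1 (enc x)).hd.spine))
      (F1 (enc x)).tl).size ≤ 2 * 2 ^ (e x + bsz tm + 2) + 2 + Pool.Agent.PF.sz
        (e x + bsz tm, (Bin.mk (K x), linit M (word (f x)))) := by
    intro x
    have h1 : (F1 (enc x)).tl.size ≤ Pool.Agent.PF.sz
        (e x + bsz tm, (Bin.mk (K x), linit M (word (f x)))) := by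
      rw [hF1e]
      exact V.size_tl_le _
    have h2 : Pool.Agent.MDF.tw 1 (F1 (enc x)).hd.spine = 2 ^ (e x + bsz tm + 2) := by
      have := congrArg (fun v => v.hd.spine) (hv2 x)
      simpa using this
    rw [h2]
    simp only [V.size, V.size_una]
    omega
  have hsp : ∀ x, (V.node (V.una (Pool.Agent.MDF.tw 1 (F1 (enc x)).hd.spine))
      (F1 (enc x)).tl).hd.spine = 2 ^ (e x + bsz tm + 2) := by
    intro x
    rw [hv2, V.hd_node, V.spine_una]
  have hS2 : SimDecE e 1 fun x => (V.node (V.una (Pool.Agent.MDF.tw 1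
      (F1 (enc x)).hd.spine)) (F1 (enc x)).tl).size := by
    have h1 : SimDecE e 1 fun x => 2 * 2 ^ (e x + bsz tm + 2) :=
      (SimDecE.mul (SimDecE.const 2) hT).mono (by omega) fun _ => le_rfl
    exact ((h1.add (hc 2)).add hsz1').mono le_rfl hs2
  have t1 : SimDecE e 0 fun x => ((enc x : V).size + 2) ^ a1 :=
    SimDecE.poly ⟨a1, fun x => le_rfl⟩
  have t2 : SimDecE e (1 * c₁) fun x => (Pool.Agent.MDF.tw 1 (F1 (enc x)).hd.spine +
      (F1 (enc x)).size + 2) ^ c₁ := by
    refine SimDecE.pow ?_ c₁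
    refine ((hT.add hsz1').add (hc 2)).mono le_rfl fun x => ?_
    have h2 : Pool.Agent.MDF.tw 1 (F1 (enc x)).hd.spine = 2 ^ (e x + bsz tm + 2) := by
      have := congrArg (fun v => v.hd.spine) (hv2 x)
      simpa using this
    rw [h2, hF1e]
    exact le_rfl
  have t3 : SimDecE e (0 + 1 * 2 + 1) fun x => c * ((V.node (V.una (Pool.Agent.MDF.tw 1
      (F1 (enc x)).hd.spine)) (F1 (enc x)).tl).hd.spine + 1) ^ 2 *
        (V.node (V.una (Pool.Agent.MDF.tw 1 (F1 (enc x)).hd.spine)) (F1 (enc x)).tl).size := by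
    refine SimDecE.mul (SimDecE.mul (SimDecE.const c) (SimDecE.pow ?_ 2)) hS2
    refine (hT.add (hc 1)).mono le_rfl fun x => ?_
    rw [hsp]
  have t4 : SimDecE e (0 + 1) fun x => C4 * (G (V.node (V.una (Pool.Agent.MDF.tw 1
      (F1 (enc x)).hd.spine)) (F1 (enc x)).tl)).size := by
    refine SimDecE.mul (SimDecE.const C4) ?_
    have h1 : SimDecE e 1 fun x => c * 2 ^ (e x + bsz tm + 2) :=
      (SimDecE.mul (SimDecE.const c) hT).mono (by omega) fun _ => le_rfl
    refine ((hS2.add h1).add (hc c)).mono le_rfl fun x => ?_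
    have := hGs (V.node (V.una (Pool.Agent.MDF.tw 1 (F1 (enc x)).hd.spine)) (F1 (enc x)).tl)
    rw [hsp] at this
    exact this
  have t5 : SimDecE e 0 fun x => ((SimDecGet M.ko (G (V.node (V.una (Pool.Agent.MDF.tw 1
      (F1 (enc x)).hd.spine)) (F1 (enc x)).tl))).size + 2) ^ a5 := by
    have h0 : SimDecE e 0 fun x => (n x).bits.length := by
      refine (SimDecE.pow (SimDecE.add (SimDecE.len (e := e)) (SimDecE.const 2)) k₀).mono
        (by omega) hk₀
    have h1 : SimDecE e 0 fun x => (2 * m0 tm + 2) * (n x).bits.length + 1 :=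
      SimDecE.add (SimDecE.mul (a := 0) (b := 0) (SimDecE.const _) h0) (SimDecE.const 1)
    refine (SimDecE.pow ((hszK.add h1).add (SimDecE.const 3)) a5).mono (by omega) fun x => ?_
    refine Nat.pow_le_pow_left ?_ a5
    rw [hv4]
    have h2 := SimDec_szl (m0 tm) _ (hol x).2
    have h3 := congrArg List.length (hol x).1
    rw [List.length_map] at h3
    rw [h3] at h2
    have h4 : ∀ (b : Bin) (l : List ℕ), (enc (b, l) : V).size =
      Pool.Agent.PF.sz b + Pool.Agent.PF.sz l + 1 := fun _ _ => rfl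
    rw [h4]
    omega
  have hall2 : SimDecE e (c₁ + 3) fun x => ((((enc x : V).size + 2) ^ a1 +
      (Pool.Agent.MDF.tw 1 (F1 (enc x)).hd.spine + (F1 (enc x)).size + 2) ^ c₁ + 1 +
      c * ((V.node (V.una (Pool.Agent.MDF.tw 1 (F1 (enc x)).hd.spine))
        (F1 (enc x)).tl).hd.spine + 1) ^ 2 * (V.node (V.una (Pool.Agent.MDF.tw 1
          (F1 (enc x)).hd.spine)) (F1 (enc x)).tl).size + 1) +
      C4 * (G (V.node (V.una (Pool.Agent.MDF.tw 1 (F1 (enc x)).hd.spine))
        (F1 (enc x)).tl)).size + 1) + ((SimDecGet M.ko (G (V.node (V.una (Pool.Agent.MDF.tw 1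
          (F1 (enc x)).hd.spine)) (F1 (enc x)).tl))).size + 2) ^ a5 + 1 := by
    have hc1 : SimDecE e (c₁ + 3) fun _ => 1 :=
      (SimDecE.const 1).mono (Nat.zero_le _) fun _ => le_rfl
    refine SimDecE.add (SimDecE.add (SimDecE.add (SimDecE.add (SimDecE.add (SimDecE.add
      (SimDecE.add (SimDecE.add ?_ ?_) hc1) ?_) hc1) ?_) hc1) ?_) hc1
    · exact t1.mono (Nat.zero_le _) fun _ => le_rfl
    · exact t2.mono (by omega) fun _ => le_rfl
    · exact t3.mono (by omega) fun _ => le_rfl
    · exact t4.mono (by omega) fun _ => le_rfl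
    · exact t5.mono (Nat.zero_le _) fun _ => le_rfl
  obtain ⟨k, hk⟩ := hall2
  refine ⟨_, _, k, hall, fun x => ?_, hk⟩
  rw [hv4, hF5e]
  simp only [(hol x).1, foldr_bits]
  rfl

end Pool.Agent.BPD
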