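import Pool.Agent.BPD.RedMain
import Pool.Agent.BPD.SimDec
import Pool.Agent.BPD.ETime

/-!
# A single exponential algorithm gives E = ESPACE

PROOF of `inE_of_fast`. Take `f, K, C₁, k₁` from `hard_core hL`, and let `n x` be the natural number with
`difficulty (fam (f x)) = n x` (it is at most `K x + 1`, so it is not `⊤`; `ENat.ne_top_iff_exists`).
Take `tm, e₀, e₁, C` from `FastAlg a`. For every `x` there is `t` with
`t ≤ C exp (a size) ≤ C exp (|a| C₁ (|x| + 1))` (the size is nonnegative: `Real.log` of a natural number is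
nonnegative; so `a * size ≤ |a| * |C₁| * (|x| + 1)`), which is at most `2 ^ (c (|x| + 1))` for a natural
number `c ≥ |a| |C₁| / log 2 + log_2 (max C 1)`. Apply `sim_decider` with `e x = c (|x| + 1)`
(`PF` by `fun_prop`), `n`, and `hn`: `n x ≤ K x + 1 ≤ 2 ^ (k₁ (|x| + 1))`, so `(n x).bits.length`
(`Nat.size_eq_bits_len`, `Nat.size_le`) is at most `k₁ (|x| + 1) + 1 ≤ (|x| + 2) ^ (k₁ + 1)`. Then
`decider_raw` gives a machine which decides `n x ≤ K x`, i.e. `x ∈ L`, in time
`C' (|x| + k 2 ^ (c (|x| + 1) U) (|x| + 2) ^ k + 1) ≤ C'' 2 ^ (c'' (|x| + 1))`; use `inE_of_time`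
(`(|x| + 2) ^ k ≤ 2 ^ (k (|x| + 1))` as `m + 1 ≤ 2 ^ m`).
-/

set_option autoImplicit false

namespace Pool.Agent.BPD

open Turing Pool.Agent.PF Pool.Agent.PT

private theorem FastE_size_nonneg (U : Fam) : 0 ≤ size U := by
  unfold size
  refine mul_nonneg (Real.log_natCast_nonneg _) (Finset.sum_nonneg fun X _ => Nat.cast_nonneg _)

/-- The constant of the exponent. -/
private theorem FastE_const (a C C₁ : ℝ) : ∃ c : ℕ, ∀ m : ℕ, ∀ y : ℝ, 0 ≤ y →
    y ≤ C₁ * (m + 1) → C * Real.exp (a * y) ≤ (2 : ℝ) ^ (c * (m + 1)) := by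
  obtain ⟨c, hc⟩ := exists_nat_ge ((Real.log (max C 1) + |a| * |C₁|) / Real.log 2)
  refine ⟨c, fun m y hy hy1 => ?_⟩
  have hl2 : 0 < Real.log 2 := Real.log_pos one_lt_two
  have hC1 : 1 ≤ max C 1 := le_max_right _ _
  have hC0 : 0 < max C 1 := lt_of_lt_of_le one_pos hC1
  have hlog : 0 ≤ Real.log (max C 1) := Real.log_nonneg hC1
  have hm : (1 : ℝ) ≤ (m : ℝ) + 1 := by
    have : (0 : ℝ) ≤ m := Nat.cast_nonneg _
    linarith
  have h1 : Real.log (max C 1) + |a| * |C₁| ≤ c * Real.log 2 := by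
    rwa [div_le_iff₀ hl2] at hc
  have h2 : a * y ≤ |a| * |C₁| * (m + 1) := by
    calc a * y ≤ |a| * y := mul_le_mul_of_nonneg_right (le_abs_self a) hy
      _ ≤ |a| * (C₁ * (m + 1)) := mul_le_mul_of_nonneg_left hy1 (abs_nonneg a)
      _ ≤ |a| * (|C₁| * (m + 1)) := by
        refine mul_le_mul_of_nonneg_left ?_ (abs_nonneg a)
        exact mul_le_mul_of_nonneg_right (le_abs_self C₁) (by linarith)
      _ = |a| * |C₁| * (m + 1) := by ring
  have h3 : Real.log (max C 1) + a * y ≤ (c * Real.log 2) * (m + 1) := by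
    have h4 : Real.log (max C 1) ≤ Real.log (max C 1) * (m + 1) := by nlinarith
    have h5 : (Real.log (max C 1) + |a| * |C₁|) * (m + 1) ≤ (c * Real.log 2) * (m + 1) :=
      mul_le_mul_of_nonneg_right h1 (by linarith)
    linarith
  calc C * Real.exp (a * y) ≤ max C 1 * Real.exp (a * y) :=
        mul_le_mul_of_nonneg_right (le_max_left _ _) (Real.exp_pos _).le
    _ = Real.exp (Real.log (max C 1) + a * y) := by rw [Real.exp_add, Real.exp_log hC0]
    _ ≤ Real.exp ((c * Real.log 2) * (m + 1)) := Real.exp_le_exp.2 h3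
    _ = (2 : ℝ) ^ (c * (m + 1)) := by
      have h6 : (c * Real.log 2) * (m + 1) = ((c * (m + 1) : ℕ) : ℝ) * Real.log 2 := by
        push_cast
        ring
      rw [h6, Real.exp_nat_mul, Real.exp_log two_pos]

private theorem FastE_succ_le (m : ℕ) : m + 2 ≤ 2 ^ (m + 1) := by
  have := Nat.lt_two_pow_self (n := m + 1)
  omega

theorem inE_of_fast {a : ℝ} (ha : FastAlg a) {L : Set (List Bool)} (hL : InESPACE L) : InE L := by
  obtain ⟨f, K, C₁, k₁, hf, hK, h⟩ := hard_core hL
  obtain ⟨tm, e₀, e₁, C, hfast⟩ := ha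
  have hex : ∀ x, ∃ m : ℕ, difficulty (fam (f x)) = m := by
    intro x
    have h1 := (h x).2.2.2.2.1
    have h2 : difficulty (fam (f x)) ≠ ⊤ := by
      intro h3
      rw [h3] at h1
      exact absurd h1 (by simp)
    obtain ⟨m, hm⟩ := ENat.ne_top_iff_exists.1 h2
    exact ⟨m, hm.symm⟩
  choose n hn using hex
  have hnK : ∀ x, n x ≤ K x + 1 := by
    intro x
    have h1 := (h x).2.2.2.2.1
    rw [hn x] at h1
    exact_mod_cast h1
  obtain ⟨c, hc⟩ := FastE_const a C C₁
  have hbits : ∃ k₀ : ℕ, ∀ x, (n x).bits.length ≤ (x.length + 2) ^ k₀ := by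
    refine ⟨k₁ + 1, fun x => ?_⟩
    rw [Nat.size_eq_bits_len]
    have h1 : n x < 2 ^ (k₁ * (x.length + 1) + 1) := by
      have h2 := (hnK x).trans (h x).2.2.2.2.2
      rw [pow_succ]
      have h3 : 0 < 2 ^ (k₁ * (x.length + 1)) := Nat.two_pow_pos _
      omega
    refine (Nat.size_le.2 h1).trans ?_
    have h2 : k₁ + 1 ≤ 2 ^ k₁ := Nat.lt_two_pow_self
    have h3 : 2 ^ k₁ ≤ (x.length + 2) ^ k₁ := Nat.pow_le_pow_left (by omega) _
    calc k₁ * (x.length + 1) + 1 ≤ (k₁ + 1) * (x.length + 2) := by nlinarith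
      _ ≤ (x.length + 2) ^ k₁ * (x.length + 2) := Nat.mul_le_mul_right _ (h2.trans h3)
      _ = (x.length + 2) ^ (k₁ + 1) := (pow_succ _ _).symm
  obtain ⟨U, hU⟩ := sim_decider
  have he : PF fun x : List Bool => c * (x.length + 1) :=
    PF.mulN (PF.const' _) (PF.addN (PF.length PF.id') (PF.const' _))
  obtain ⟨F, τ, k, hF, hans, hτ⟩ := hU tm e₀ e₁ f K (fun x => c * (x.length + 1)) n hf hK he
    hbits (by
      intro x
      obtain ⟨h1, h2, h3, _⟩ := h x
      obtain ⟨t, ht, hout⟩ := hfast (f x) h1 h2 (n x) (hn x)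
      refine ⟨t, ?_, hout⟩
      have h4 := ht.trans (hc x.length _ (FastE_size_nonneg _) h3)
      exact_mod_cast h4)
  obtain ⟨tm', e₀', e₁', C', hout⟩ := decider_raw hF hans
  refine inE_of_time (tm := tm') (e₀ := e₀') (e₁ := e₁')
    (T := fun x => C' * (x.length + τ (enc x) + 1)) (C := C' * (k + 1)) (c := c * U + k + 1) ?_ ?_
  · intro x
    have h1 : decide (n x ≤ K x) = @decide (x ∈ L) (Classical.propDecidable _) := by
      refine decide_eq_decide.2 ?_
      rw [(h x).2.2.2.1, hn x]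
      exact Nat.cast_le.symm
    have h2 := hout x
    rw [h1] at h2
    exact h2
  · intro x
    have h1 := hτ x
    have h2 : (x.length + 2) ^ k ≤ 2 ^ (k * (x.length + 1)) := by
      calc (x.length + 2) ^ k ≤ (2 ^ (x.length + 1)) ^ k :=
            Nat.pow_le_pow_left (FastE_succ_le _) _
        _ = 2 ^ (k * (x.length + 1)) := by rw [← pow_mul, Nat.mul_comm]
    have h3 : (2 ^ (c * (x.length + 1))) ^ U = 2 ^ (c * U * (x.length + 1)) := by
      rw [← pow_mul]
      congr 1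
      ring
    have h4 : τ (enc x) ≤ k * 2 ^ ((c * U + k) * (x.length + 1)) := by
      calc τ (enc x) ≤ k * (2 ^ (c * (x.length + 1))) ^ U * (x.length + 2) ^ k := h1
        _ ≤ k * 2 ^ (c * U * (x.length + 1)) * 2 ^ (k * (x.length + 1)) := by
          rw [h3]
          exact Nat.mul_le_mul_left _ h2
        _ = k * 2 ^ ((c * U + k) * (x.length + 1)) := by
          rw [mul_assoc, ← pow_add]
          congr 2
          ring
    have h5 : 2 ^ ((c * U + k) * (x.length + 1)) ≤ 2 ^ ((c * U + k + 1) * (x.length + 1)) :=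
      Nat.pow_le_pow_right two_pos (Nat.mul_le_mul_right _ (Nat.le_succ _))
    have h6 : x.length + 2 ≤ 2 ^ ((c * U + k + 1) * (x.length + 1)) :=
      (FastE_succ_le _).trans (Nat.pow_le_pow_right two_pos
        (Nat.le_mul_of_pos_left _ (Nat.succ_pos _)))
    have h7 : x.length + τ (enc x) + 1 ≤ (k + 1) * 2 ^ ((c * U + k + 1) * (x.length + 1)) := by
      have h8 := h4.trans (Nat.mul_le_mul_left k h5)
      rw [Nat.add_mul, Nat.one_mul]
      omega
    calc C' * (x.length + τ (enc x) + 1)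
        ≤ C' * ((k + 1) * 2 ^ ((c * U + k + 1) * (x.length + 1))) := Nat.mul_le_mul_left _ h7
      _ = C' * (k + 1) * 2 ^ ((c * U + k + 1) * (x.length + 1)) := (mul_assoc _ _ _).symm

end Pool.Agent.BPD
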