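import Pool.Agent.BPD.LStep
import Pool.Agent.PF.Int

/-!
# A universal machine in the calculus of polynomial time functions

The description of a coded machine is a list `l` of natural numbers: `l[0] = κ`, `l[1] = M0`,
`l[2] = ini`, `l[3] = ks`, `l[4] = ko`, `l[5] = code false`, `l[6] = code true`, and then for every code `a` a
block of `M0 + 4` numbers: `stk a`, `op a`, `halt a`, `acc a`, `nx a 0`, .., `nx a (M0 - 1)`.

PROOFS. `univ_PF`: `ustep`, `uinit`, `uans` are in `PF` (as functions of `l` and the other argument) by
`fun_prop` and lemmas for `List.set` and `List.replicate`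
(`l.set i a = l.take i ++ (if i < l.length then a :: l.drop (i + 1) else [])`; `List.replicate n a =
(List.range n).map (fun _ => a)`), then `PF.iter` (`PF/List.lean`): the sizes of the iterates are
polynomially bounded: the control and every pushed symbol is at most an element of `l`, so
`sz ((ustep l p)) ≤ sz p + 2 * sz l + 10` or a similar bound (the new control has size at most `sz l`; a
stack grows by at most one symbol, of size at most `sz l`), hence
`sz ((ustep l)^[i] (uinit l x)) ≤ sz (uinit l x) + i * (2 * sz l + 10)`, with `i ≤ T ≤ sz T`.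

`univ_desc`: let `l = desc M`. The block of `a < M0` begins at the index `7 + a (M0 + 4)` (a lemma on
`List.getElem?` of `flatMap` with blocks of constant length, by induction on the number of blocks). By induction on
`t`: `(ustep l)^[t] (uinit l x) = (lstep M.C)^[t] (linit M x)`: the control and all symbols are
`< M0` (they are cells of `conf M x t`, `cells_iter`, `CM.iter_lt`, `initc_lt`; an empty stack gives the
symbol `0 < M0`), so the lookups are in the table. Finally `cells_iter` at the positions `0` and
`1 + ko` (`(stack ko).headD 0 = (stack ko).getD 0 0`).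
-/

set_option autoImplicit false

namespace Pool.Agent.BPD

open Pool.Agent.PF Pool.Agent.PT

/-- The beginning of the block of the code `a`. -/
def ubl (l : List ℕ) (a : ℕ) : ℕ := 7 + a * (l.getD 1 0 + 4)

/-- One step of the universal machine. -/
def ustep (l : List ℕ) (p : LC) : LC :=
  (l.getD (ubl l p.1 + 4 + (p.2.getD (l.getD (ubl l p.1) 0) []).headD 0) 0,
    p.2.set (l.getD (ubl l p.1) 0)
      (sop (l.getD (ubl l p.1 + 1) 0) (p.2.getD (l.getD (ubl l p.1) 0) [])))

/-- The initial configuration. -/
def uinit (l : List ℕ) (x : List Bool) : LC :=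
  (l.getD 2 0, (List.replicate (l.getD 0 0) []).set (l.getD 3 0)
    (x.map fun b => if b = true then l.getD 6 0 else l.getD 5 0))

/-- The answer: halted and accepting. -/
def uans (l : List ℕ) (p : LC) : Bool :=
  decide (l.getD (ubl l p.1 + 2) 0 = 1) &&
    decide (l.getD (ubl l ((p.2.getD (l.getD 4 0) []).headD 0) + 3) 0 = 1)

/-- The universal machine: description, input, number of steps. -/
def univ (q : (List ℕ × List Bool) × ℕ) : Bool :=
  uans q.1.1 ((ustep q.1.1)^[q.2] (uinit q.1.1 q.1.2))

section PFpart

variable {α β : Type} [VEnc α] [VEnc β]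

omit [VEnc β] in
private theorem Univ_set_eq (l : List β) (i : ℕ) (a : β) :
    l.set i a = if i < l.length then l.take i ++ a :: l.drop (i + 1) else l := by
  induction l generalizing i with
  | nil => simp
  | cons b l ih =>
    cases i with
    | zero => simp
    | succ i =>
      rw [List.set_cons_succ, ih i]
      by_cases h : i < l.length
      · rw [if_pos h, if_pos (by simpa using h)]
        simp
      · rw [if_neg h, if_neg (by simpa using h)]

private theorem Univ_set {f : α → List β} {n : α → ℕ} {g : α → β} (hf : PF f) (hn : PF n)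
    (hg : PF g) : PF (fun x => (f x).set (n x) (g x)) := by
  have h : PF (fun x => if n x < (f x).length then (f x).take (n x) ++
      g x :: (f x).drop (n x + 1) else f x) := by fun_prop
  have e : (fun x => (f x).set (n x) (g x)) = fun x => if n x < (f x).length then
      (f x).take (n x) ++ g x :: (f x).drop (n x + 1) else f x := by
    funext x
    exact Univ_set_eq _ _ _
  rw [e]
  exact h

private theorem Univ_replicate {n : α → ℕ} (hn : PF n) (a : β) :
    PF (fun x => List.replicate (n x) a) := by
  have h : PF (fun x => (List.range (n x)).map fun _ => a) := by fun_prop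
  have e : (fun x => List.replicate (n x) a) = fun x => (List.range (n x)).map fun _ => a := by
    funext x
    simp [List.map_const']
  rw [e]
  exact h

private theorem Univ_sop {f : α → ℕ} {g : α → List ℕ} (hf : PF f) (hg : PF g) :
    PF (fun x => sop (f x) (g x)) := by
  unfold sop
  fun_prop

private theorem Univ_ubl {f : α → List ℕ} {g : α → ℕ} (hf : PF f) (hg : PF g) :
    PF (fun x => ubl (f x) (g x)) := by
  unfold ubl
  fun_prop

private theorem Univ_ustep {f : α → List ℕ} {g : α → LC} (hf : PF f) (hg : PF g) :
    PF (fun x => ustep (f x) (g x)) := by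
  unfold ustep
  have h1 : PF (fun x => ubl (f x) (g x).1) := Univ_ubl hf hg.fst
  have h2 : PF (fun x => (f x).getD (ubl (f x) (g x).1) 0) := by fun_prop
  have h3 : PF (fun x => (g x).2.getD ((f x).getD (ubl (f x) (g x).1) 0) []) := by fun_prop
  refine PF.prodMk (by fun_prop) (Univ_set hg.snd h2 (Univ_sop (by fun_prop) h3))

private theorem Univ_uinit {f : α → List ℕ} {g : α → List Bool} (hf : PF f) (hg : PF g) :
    PF (fun x => uinit (f x) (g x)) := by
  unfold uinit
  refine PF.prodMk (by fun_prop) (Univ_set (Univ_replicate (by fun_prop) _) (by fun_prop) ?_)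
  fun_prop

private theorem Univ_uans {f : α → List ℕ} {g : α → LC} (hf : PF f) (hg : PF g) :
    PF (fun x => uans (f x) (g x)) := by
  unfold uans
  have h1 : PF (fun x => ubl (f x) (g x).1) := Univ_ubl hf hg.fst
  have h2 : PF (fun x => ((g x).2.getD ((f x).getD 4 0) []).headD 0) := by fun_prop
  have h3 : PF (fun x => ubl (f x) (((g x).2.getD ((f x).getD 4 0) []).headD 0)) :=
    Univ_ubl hf h2
  fun_prop

private theorem Univ_sz_getD (l : List ℕ) (i : ℕ) : sz (l.getD i 0) ≤ sz l := by
  induction l generalizing i with
  | nil => simp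
  | cons b l ih =>
    cases i with
    | zero =>
      rw [List.getD_cons_zero, sz_cons]
      omega
    | succ i =>
      rw [List.getD_cons_succ, sz_cons]
      have := ih i
      omega

private theorem Univ_sz_set (l : List (List ℕ)) (i : ℕ) (c : ℕ) (a : List ℕ)
    (h : sz a ≤ sz (l.getD i []) + c) : sz (l.set i a) ≤ sz l + c := by
  induction l generalizing i with
  | nil => simp
  | cons b l ih =>
    cases i with
    | zero =>
      rw [List.getD_cons_zero] at h
      rw [List.set_cons_zero, sz_cons, sz_cons]
      omega
    | succ i =>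
      rw [List.getD_cons_succ] at h
      have := ih i h
      rw [List.set_cons_succ, sz_cons, sz_cons]
      omega

private theorem Univ_sz_sop (o : ℕ) (t : List ℕ) : sz (sop o t) ≤ sz t + (sz o + 1) := by
  unfold sop
  split_ifs
  · omega
  · cases t with
    | nil => simp
    | cons b t =>
      rw [List.tail_cons, sz_cons]
      omega
  · rw [sz_cons, sz_nat, sz_nat]
    omega

private theorem Univ_sz_step (l : List ℕ) (p : LC) :
    sz (ustep l p) ≤ sz p + (2 * sz l + 2) := by
  obtain ⟨a, S⟩ := p
  unfold ustep
  rw [sz_prod, sz_prod]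
  have h1 := Univ_sz_getD l (ubl l a + 4 + (S.getD (l.getD (ubl l a) 0) []).headD 0)
  have h2 := Univ_sz_getD l (ubl l a + 1)
  have h3 := Univ_sz_sop (l.getD (ubl l a + 1) 0) (S.getD (l.getD (ubl l a) 0) [])
  have h4 := Univ_sz_set S (l.getD (ubl l a) 0) (sz (l.getD (ubl l a + 1) 0) + 1) _ h3
  dsimp only
  omega

private theorem Univ_sz_iter (l : List ℕ) (p : LC) (i : ℕ) :
    sz ((ustep l)^[i] p) ≤ sz p + i * (2 * sz l + 2) := by
  induction i with
  | zero => simp
  | succ i ih =>
    rw [Function.iterate_succ_apply']
    have h := Univ_sz_step l ((ustep l)^[i] p)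
    have e : (i + 1) * (2 * sz l + 2) = i * (2 * sz l + 2) + (2 * sz l + 2) := by ring
    omega

end PFpart

theorem univ_PF : PF univ := by
  have h := PF.iter (α := (List ℕ × List Bool) × ℕ) (n := fun q => q.2)
    (f := fun q => ustep q.1.1) (s := fun q => uinit q.1.1 q.1.2) (by fun_prop)
    (Univ_ustep (f := fun p : ((List ℕ × List Bool) × ℕ) × LC => p.1.1.1)
      (g := fun p => p.2) (by fun_prop) (by fun_prop))
    (Univ_uinit (by fun_prop) (by fun_prop)) (by
      obtain ⟨c, hc⟩ := PF.size_le (Univ_uinit
        (f := fun q : (List ℕ × List Bool) × ℕ => q.1.1) (g := fun q => q.1.2)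
        (by fun_prop) (by fun_prop))
      refine ⟨c + 3, fun q i hi => ?_⟩
      obtain ⟨⟨l, x⟩, T⟩ := q
      have h1 := Univ_sz_iter l (uinit l x) (i + 1)
      have h2 := hc ((l, x), T)
      dsimp only at hi h2 ⊢
      set N := sz ((l, x), T) + 2 with hN
      have h3 : sz ((l, x), T) = sz l + sz x + 1 + (2 * T + 1) + 1 := by
        rw [sz_prod, sz_prod, sz_nat]
      have h4 : i + 1 ≤ N := by omega
      have h5 : 2 * sz l + 2 ≤ 2 * N := by omega
      have h6 : 3 ≤ N := by omega
      have h7 : (i + 1) * (2 * sz l + 2) ≤ N * (2 * N) := Nat.mul_le_mul h4 h5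
      have h8 : N ^ c ≤ N ^ (c + 2) := Nat.pow_le_pow_right (by omega) (by omega)
      have h9 : N ^ 2 ≤ N ^ (c + 2) := Nat.pow_le_pow_right (by omega) (by omega)
      have h10 : 3 * N ^ (c + 2) ≤ N ^ (c + 3) := by
        rw [pow_succ N (c + 2), mul_comm]
        exact Nat.mul_le_mul_left _ h6
      have h11 : N * (2 * N) = 2 * N ^ 2 := by ring
      omega)
  exact Univ_uans (f := fun q : (List ℕ × List Bool) × ℕ => q.1.1)
    (g := fun q => (ustep q.1.1)^[q.2] (uinit q.1.1 q.1.2)) (by fun_prop) h

/-- The description of a coded machine. -/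
def desc (M : CD) : List ℕ :=
  [M.C.κ, M.C.M0, M.ini, M.ks, M.ko, M.code false, M.code true] ++
    (List.range M.C.M0).flatMap fun a =>
      [M.C.stk a, M.C.op a, (M.halt a).toNat, (M.acc a).toNat] ++
        (List.range M.C.M0).map (M.C.nx a)

private theorem Univ_getD_flat (n k : ℕ) (f : ℕ → List ℕ) (hf : ∀ a, (f a).length = k) (a j : ℕ)
    (ha : a < n) (hj : j < k) :
    ((List.range n).flatMap f).getD (a * k + j) 0 = (f a).getD j 0 := by
  have hlen : ∀ n, ((List.range n).flatMap f).length = n * k := by
    intro n
    induction n with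
    | zero => simp
    | succ n ih =>
      rw [List.range_succ, List.flatMap_append, List.length_append, ih]
      simp only [List.flatMap_cons, List.flatMap_nil, List.append_nil, hf]
      ring
  induction n with
  | zero => exact absurd ha (Nat.not_lt_zero _)
  | succ n ih =>
    rw [List.range_succ, List.flatMap_append]
    simp only [List.flatMap_cons, List.flatMap_nil, List.append_nil]
    by_cases h : a < n
    · have h1 : a * k + j < n * k := by
        have h2 : (a + 1) * k ≤ n * k := Nat.mul_le_mul_right k h
        have h3 : (a + 1) * k = a * k + k := by ring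
        omega
      rw [List.getD_append _ _ _ _ (by rw [hlen]; exact h1)]
      exact ih h
    · have h1 : a = n := by omega
      subst h1
      rw [List.getD_append_right _ _ _ _ (by rw [hlen]; omega), hlen]
      congr 1
      omega

private theorem Univ_desc (M : CD) (a j : ℕ) (ha : a < M.C.M0) (hj : j < M.C.M0 + 4) :
    (desc M).getD (ubl (desc M) a + j) 0 =
      ([M.C.stk a, M.C.op a, (M.halt a).toNat, (M.acc a).toNat] ++
        (List.range M.C.M0).map (M.C.nx a)).getD j 0 := by
  have h1 : ubl (desc M) a + j = 7 + (a * (M.C.M0 + 4) + j) := by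
    have : (desc M).getD 1 0 = M.C.M0 := rfl
    rw [ubl, this]
    ring
  have h3 : [M.C.κ, M.C.M0, M.ini, M.ks, M.ko, M.code false, M.code true].length ≤
      7 + (a * (M.C.M0 + 4) + j) := by
    simp only [List.length_cons, List.length_nil]
    omega
  rw [h1, desc, List.getD_append_right _ _ _ _ h3]
  have h2 : 7 + (a * (M.C.M0 + 4) + j) -
      [M.C.κ, M.C.M0, M.ini, M.ks, M.ko, M.code false, M.code true].length =
      a * (M.C.M0 + 4) + j := by
    simp only [List.length_cons, List.length_nil]
    omega
  rw [h2]
  exact Univ_getD_flat _ _ _ (fun a => by simp) a j ha hj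

private theorem Univ_stk (M : CD) (a : ℕ) (ha : a < M.C.M0) :
    (desc M).getD (ubl (desc M) a) 0 = M.C.stk a := Univ_desc M a 0 ha (by omega)

private theorem Univ_op (M : CD) (a : ℕ) (ha : a < M.C.M0) :
    (desc M).getD (ubl (desc M) a + 1) 0 = M.C.op a := Univ_desc M a 1 ha (by omega)

private theorem Univ_halt (M : CD) (a : ℕ) (ha : a < M.C.M0) :
    (desc M).getD (ubl (desc M) a + 2) 0 = (M.halt a).toNat := Univ_desc M a 2 ha (by omega)

private theorem Univ_acc (M : CD) (a : ℕ) (ha : a < M.C.M0) :
    (desc M).getD (ubl (desc M) a + 3) 0 = (M.acc a).toNat := Univ_desc M a 3 ha (by omega)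

private theorem Univ_nx (M : CD) (a b : ℕ) (ha : a < M.C.M0) (hb : b < M.C.M0) :
    (desc M).getD (ubl (desc M) a + 4 + b) 0 = M.C.nx a b := by
  have h := Univ_desc M a (4 + b) ha (by omega)
  rw [← add_assoc] at h
  rw [h, List.getD_append_right _ _ _ _ (by simp)]
  have h2 : 4 + b - [M.C.stk a, M.C.op a, (M.halt a).toNat, (M.acc a).toNat].length = b := by
    simp
  rw [h2, List.getD_eq_getElem _ _ (by simpa using hb)]
  simp

private theorem Univ_cells (κ : ℕ) (p : LC) {k : ℕ} (hk : k < κ) :
    cells κ p (1 + k) = (p.2.getD k []).headD 0 := by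
  unfold cells
  have h1 : 1 + k - 1 = k := by omega
  rw [if_neg (by omega), h1, Nat.mod_eq_of_lt hk, Nat.div_eq_of_lt hk]
  cases p.2.getD k [] <;> rfl

private theorem Univ_conf_lt (M : CD) (x : List Bool) (t pos : ℕ) : conf M x t pos < M.C.M0 :=
  M.C.iter_lt _ (initc_lt M.ini_lt M.code_lt x) t pos

private theorem Univ_iter (M : CD) (x : List Bool) (t : ℕ) :
    (ustep (desc M))^[t] (uinit (desc M) x) = (lstep M.C)^[t] (linit M x) := by
  induction t with
  | zero =>
    change uinit (desc M) x = linit M x
    unfold uinit linit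
    refine Prod.ext rfl ?_
    change (List.replicate M.C.κ []).set M.ks (x.map fun b => if b = true then M.code true
      else M.code false) = (List.replicate M.C.κ []).set M.ks (x.map M.code)
    congr 1
    refine List.map_congr_left fun b _ => ?_
    cases b <;> rfl
  | succ t ih =>
    rw [Function.iterate_succ_apply', Function.iterate_succ_apply', ih]
    have hc := cells_iter M x t
    have hlt := Univ_conf_lt M x t
    set p := (lstep M.C)^[t] (linit M x) with hp
    have h0 : p.1 < M.C.M0 := by
      have : p.1 = conf M x t 0 := by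
        rw [← hc]
        rfl
      rw [this]
      exact hlt 0
    have h1 : (p.2.getD (M.C.stk p.1) []).headD 0 < M.C.M0 := by
      rw [← Univ_cells M.C.κ p (M.C.stk_lt p.1), hc]
      exact hlt _
    unfold ustep lstep
    rw [Univ_stk M _ h0, Univ_op M _ h0, Univ_nx M _ _ h0 h1]

theorem univ_desc (M : CD) (x : List Bool) (T : ℕ) :
    univ ((desc M, x), T) = (M.halt (conf M x T 0) && M.acc (conf M x T (1 + M.ko))) := by
  have hdef : univ ((desc M, x), T) =
      uans (desc M) ((ustep (desc M))^[T] (uinit (desc M) x)) := rfl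
  have hlt := Univ_conf_lt M x T
  have hc := cells_iter M x T
  rw [hdef, Univ_iter, uans]
  set p := (lstep M.C)^[T] (linit M x) with hp
  have h0 : p.1 = conf M x T 0 := by
    rw [← hc]
    rfl
  have hko : (p.2.getD M.ko []).headD 0 = conf M x T (1 + M.ko) := by
    rw [← hc, Univ_cells _ _ M.ko_lt]
  have e4 : (desc M).getD 4 0 = M.ko := rfl
  rw [e4, hko, h0, Univ_halt M _ (hlt _), Univ_acc M _ (hlt _)]
  congr 1
  · cases M.halt (conf M x T 0) <;> rfl
  · cases M.acc (conf M x T (1 + M.ko)) <;> rfl

end Pool.Agent.BPD
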