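import Pool.Agent.BPD.ETime
import Pool.Agent.BPD.Univ
import Pool.Agent.BPD.TMcd

/-!
# Diagonalisation

PROOFS. `blk_PF`: `PF.foldl` (`PF/List.lean`); the size of the state is bounded by a polynomial: the
numbers are at most the number of symbols read, and their number as well. `exists_word`: for
`x = (l.flatMap fun m => List.replicate m true ++ [false]) ++ List.replicate j true`
`blk x = l` (induction on `l` for a general state of the fold: after the first part the state is `(0, l)`,
the second part changes only the first component); the length is `l.sum + l.length + j`.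
`diag_inE`: `inE_of_PF` with `G (x, T) = !(univ ((blk x, x), T))`.

`diag_lower`. Suppose `tm`, `e₀`, `e₁`, `C` as in the statement. Let `l = desc (tmCD tm e₀ e₁)`, `n₀` as
in `exists_word l`, and `n ≥ n₀` with `C * 2 ^ (n / 2) * bsz tm ≤ 2 ^ n` (for instance
`n = 2 (n₀ + C + bsz tm)`: `2 ^ (n / 2) ≥ C * bsz tm` as `a * b ≤ 2 ^ (a + b)`). Let `x` be a word of length
`n` with `blk x = l`. By `final` (`TMcd.lean`) with `T = 2 ^ n` and `univ_desc`:
`univ ((blk x, x), 2 ^ n) = decide (x ∈ Ldiag)`. But `x ∈ Ldiag` iff this value is `false`.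
-/

set_option autoImplicit false

namespace Pool.Agent.BPD

open Turing Pool.Agent.PF Pool.Agent.PT

/-- The lengths of the blocks of `true` which are followed by `false`. -/
def blk (x : List Bool) : List ℕ :=
  (x.foldl (fun (p : ℕ × List ℕ) b => if b = true then (p.1 + 1, p.2) else (0, p.2 ++ [p.1]))
    (0, [])).2

private theorem HierSzApp (l : List ℕ) (a : ℕ) :
    Pool.Agent.PF.sz (l ++ [a]) = Pool.Agent.PF.sz l + Pool.Agent.PF.sz a + 1 := by
  induction l with
  | nil =>
    rw [List.nil_append, sz_cons, sz_nil]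
    omega
  | cons b l ih =>
    rw [List.cons_append, sz_cons, sz_cons, ih]
    omega

private theorem HierSzFold (y : List Bool) : ∀ p : ℕ × List ℕ,
    Pool.Agent.PF.sz (y.foldl (fun (p : ℕ × List ℕ) b =>
      if b = true then (p.1 + 1, p.2) else (0, p.2 ++ [p.1])) p) ≤
        Pool.Agent.PF.sz p + 2 * y.length := by
  induction y with
  | nil =>
    intro p
    simp
  | cons b y ih =>
    intro p
    rw [List.foldl_cons]
    refine (ih _).trans ?_
    have h : Pool.Agent.PF.sz (if b = true then (p.1 + 1, p.2) else (0, p.2 ++ [p.1])) ≤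
        Pool.Agent.PF.sz p + 2 := by
      obtain ⟨a, l⟩ := p
      cases b
      · rw [if_neg (by simp), sz_prod, sz_prod, HierSzApp, sz_nat, sz_nat]
        change 2 * 0 + 1 + (Pool.Agent.PF.sz l + (2 * a + 1) + 1) + 1 ≤
          2 * a + 1 + Pool.Agent.PF.sz l + 1 + 2
        omega
      · rw [if_pos rfl, sz_prod, sz_prod, sz_nat, sz_nat]
        change 2 * (a + 1) + 1 + Pool.Agent.PF.sz l + 1 ≤
          2 * a + 1 + Pool.Agent.PF.sz l + 1 + 2
        omega
    rw [List.length_cons]
    omega

private theorem HierLen (x : List Bool) : 2 * x.length + 1 ≤ Pool.Agent.PF.sz x := by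
  induction x with
  | nil => simp
  | cons b l ih =>
    rw [sz_cons, List.length_cons]
    have := sz_pos b
    omega

theorem blk_PF : PF blk := by
  unfold blk
  refine PF.snd (PF.foldl (f := fun x : List Bool => x)
    (g := fun _ (p : ℕ × List ℕ) b => if b = true then (p.1 + 1, p.2) else (0, p.2 ++ [p.1]))
    (s := fun _ => (0, [])) PF.id' ?_ (PF.const' _) ?_)
  · exact PF.cond (PF.snd PF.id') (PF.prodMk (PF.addN (PF.fst (PF.snd (PF.fst PF.id')))
      (PF.const' 1)) (PF.snd (PF.snd (PF.fst PF.id'))))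
      (PF.prodMk (PF.const' 0) (PF.append (PF.snd (PF.snd (PF.fst PF.id')))
        (PF.cons (PF.fst (PF.snd (PF.fst PF.id'))) (PF.const' []))))
  · refine ⟨1, fun x i => ?_⟩
    refine (HierSzFold (x.take i) (0, [])).trans ?_
    have h1 := HierLen x
    have h2 : (x.take i).length ≤ x.length := List.length_take_le' i x
    rw [sz_prod, sz_nat, sz_nil, pow_one]
    omega

private theorem HierRep (m : ℕ) : ∀ (a : ℕ) (acc : List ℕ),
    (List.replicate m true).foldl (fun (p : ℕ × List ℕ) b =>
      if b = true then (p.1 + 1, p.2) else (0, p.2 ++ [p.1])) (a, acc) = (a + m, acc) := by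
  induction m with
  | zero =>
    intro a acc
    rfl
  | succ m ih =>
    intro a acc
    rw [List.replicate_succ, List.foldl_cons, if_pos rfl, ih]
    congr 1
    omega

private theorem HierFlat (l : List ℕ) : ∀ acc : List ℕ,
    (l.flatMap fun m => List.replicate m true ++ [false]).foldl (fun (p : ℕ × List ℕ) b =>
      if b = true then (p.1 + 1, p.2) else (0, p.2 ++ [p.1])) (0, acc) = (0, acc ++ l) := by
  induction l with
  | nil =>
    intro acc
    simp
  | cons m l ih =>
    intro acc
    rw [List.flatMap_cons, List.foldl_append, List.foldl_append, HierRep, List.foldl_cons,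
      List.foldl_nil, if_neg (by simp)]
    change (l.flatMap _).foldl _ (0, acc ++ [0 + m]) = _
    rw [ih, zero_add, List.append_assoc]
    rfl

theorem exists_word (l : List ℕ) : ∃ n₀ : ℕ, ∀ n, n₀ ≤ n → ∃ x : List Bool,
    x.length = n ∧ blk x = l := by
  refine ⟨(l.flatMap fun m => List.replicate m true ++ [false]).length, fun n hn =>
    ⟨(l.flatMap fun m => List.replicate m true ++ [false]) ++
      List.replicate (n - (l.flatMap fun m => List.replicate m true ++ [false]).length) true,
      ?_, ?_⟩⟩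
  · rw [List.length_append, List.length_replicate]
    omega
  · unfold blk
    rw [List.foldl_append, HierFlat, HierRep, List.nil_append]

/-- The diagonal language. -/
def Ldiag : Set (List Bool) := {x | (!(univ ((blk x, x), 2 ^ x.length))) = true}

theorem diag_inE : InE Ldiag :=
  inE_of_PF (G := fun p : List Bool × ℕ => !(univ ((blk p.1, p.1), p.2)))
    (PF.not (PF.comp' univ_PF (PF.prodMk (PF.prodMk (PF.comp' blk_PF (PF.fst PF.id'))
      (PF.fst PF.id')) (PF.snd PF.id'))))

open Classical in
theorem diag_lower : ¬ ∃ (tm : FinTM2) (e₀ : tm.Γ tm.k₀ ≃ Bool) (e₁ : tm.Γ tm.k₁ ≃ Bool)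
    (C : ℕ), ∀ x : List Bool, Nonempty (TM2OutputsInTime tm (x.map e₀.symm)
      (some ([decide (x ∈ Ldiag)].map e₁.symm)) (C * 2 ^ (x.length / 2))) := by
  rintro ⟨tm, e₀, e₁, C, h⟩
  obtain ⟨n₀, hn₀⟩ := exists_word (desc (tmCD tm e₀ e₁))
  obtain ⟨x, hx, hb⟩ := hn₀ (2 * (n₀ + C + bsz tm)) (by omega)
  have hT : C * 2 ^ (x.length / 2) * bsz tm ≤ 2 ^ x.length := by
    have h1 : x.length / 2 = n₀ + C + bsz tm := by omega
    have h2 : C ≤ 2 ^ C := Nat.lt_two_pow_self.le
    have h3 : bsz tm ≤ 2 ^ bsz tm := Nat.lt_two_pow_self.le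
    have h4 : C * bsz tm ≤ 2 ^ (n₀ + C + bsz tm) :=
      calc C * bsz tm ≤ 2 ^ C * 2 ^ bsz tm := Nat.mul_le_mul h2 h3
        _ = 2 ^ (C + bsz tm) := (pow_add _ _ _).symm
        _ ≤ 2 ^ (n₀ + C + bsz tm) := Nat.pow_le_pow_right (by norm_num) (by omega)
    calc C * 2 ^ (x.length / 2) * bsz tm = 2 ^ (n₀ + C + bsz tm) * (C * bsz tm) := by
          rw [h1]
          ring
      _ ≤ 2 ^ (n₀ + C + bsz tm) * 2 ^ (n₀ + C + bsz tm) := Nat.mul_le_mul_left _ h4
      _ = 2 ^ x.length := by
          rw [← pow_add, hx]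
          congr 1
          ring
  obtain ⟨h1, h2⟩ := final tm e₀ e₁ (h x) hT
  have h3 := univ_desc (tmCD tm e₀ e₁) x (2 ^ x.length)
  rw [h1, h2, Bool.true_and] at h3
  have h4 : x ∈ Ldiag ↔ (!(univ ((blk x, x), 2 ^ x.length))) = true := Iff.rfl
  rw [hb, h3] at h4
  by_cases h5 : x ∈ Ldiag
  · have h6 := h4.1 h5
    simp [h5] at h6
  · exact h5 (h4.2 (by simp [h5]))

end Pool.Agent.BPD
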