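import Pool.Agent.BPD.RedMain
import Pool.Agent.BPD.SimDec
import Pool.Agent.BPD.Hier

/-!
# An unconditional lower bound

PROOF of `exists_lower`. Take `f, K, C₁, k₁` from `hard_core` for `L = Ldiag`
(`inESPACE_of_inE diag_inE`), and `U` from `sim_decider`. Let `n x` be the natural number with
`difficulty (fam (f x)) = n x` (it is at most `K x + 1`). Let `m = 4 (U + 1)` and
`a = log 2 / (m (|C₁| + 1)) > 0`. Suppose `FastAlg a`, with `tm, e₀, e₁, C`. For every `x` there is `t` with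
`t ≤ C exp (a size) ≤ C exp (a |C₁| (|x| + 1)) ≤ C 2 ^ ((|x| + 1) / m) ≤ 2 ^ (|x| / m + c)` for
a natural number `c` which does not depend on `x` (real exponents in the middle, the division at the end is
the one of natural numbers: `(|x| + 1) / m ≤ ⌊|x| / m⌋ + 2`). Apply `sim_decider` with `e x = |x| / m + c`
(`PF.divN`); `hn` as in `FastE.lean`: `(n x).bits.length ≤ k₁ (|x| + 1) + 1`. Then `decider_raw` gives
a machine which decides `n x ≤ K x`, i.e. `x ∈ Ldiag`, in time `C' (|x| + τ + 1)`, where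
`τ ≤ k 2 ^ (c U) 2 ^ ((|x| / m) U) (|x| + 2) ^ k`, and `(|x| / m) U ≤ |x| / 4`. As
`(|x| + 2) ^ (k + 1) 2 ^ (|x| / 4) ≤ C'' 2 ^ (|x| / 2)` for some constant `C''` (for instance:
`(j + 2) ^ k ≤ c' * 2 ^ (j / 8)`: a polynomial is bounded by an exponential function), the time is at
most `C''' 2 ^ (|x| / 2)` (monotonicity of `TM2OutputsInTime` in the bound), which contradicts
`diag_lower`.
-/

set_option autoImplicit false

namespace Pool.Agent.BPD

open Turing Pool.Agent.PF Pool.Agent.PT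

private theorem FastL_poly (K : ℕ) : ∃ c : ℕ, ∀ j : ℕ, (j + 2) ^ K ≤ c * 2 ^ (j / 8) := by
  obtain ⟨B, hB⟩ := (tendsto_pow_const_div_const_pow_of_one_lt K
    (one_lt_two : (1 : ℝ) < 2)).bddAbove_range
  refine ⟨9 ^ K * (⌈B⌉₊ * 2), fun j => ?_⟩
  have h1 : ∀ n : ℕ, n ^ K ≤ ⌈B⌉₊ * 2 ^ n := by
    intro n
    have h2 : (n : ℝ) ^ K / 2 ^ n ≤ B := hB (Set.mem_range_self n)
    have h3 : (0 : ℝ) < 2 ^ n := by positivity
    have h4 : (n : ℝ) ^ K ≤ B * 2 ^ n := (div_le_iff₀ h3).1 h2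
    have h5 : (n : ℝ) ^ K ≤ (⌈B⌉₊ : ℝ) * 2 ^ n :=
      h4.trans (mul_le_mul_of_nonneg_right (Nat.le_ceil B) h3.le)
    exact_mod_cast h5
  have h2 : j + 2 ≤ 9 * (j / 8 + 1) := by omega
  calc (j + 2) ^ K ≤ (9 * (j / 8 + 1)) ^ K := Nat.pow_le_pow_left h2 K
    _ = 9 ^ K * (j / 8 + 1) ^ K := mul_pow _ _ _
    _ ≤ 9 ^ K * (⌈B⌉₊ * 2 ^ (j / 8 + 1)) := Nat.mul_le_mul_left _ (h1 _)
    _ = 9 ^ K * (⌈B⌉₊ * 2) * 2 ^ (j / 8) := by rw [pow_succ]; ring

private theorem FastL_exp {m : ℕ} (hm : 0 < m) {D y : ℝ} (L : ℕ)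
    (hy : y ≤ D * (L + 1)) {a : ℝ} (ha : a = Real.log 2 / (m * (|D| + 1))) :
    Real.exp (a * y) ≤ ((2 ^ (L / m + 1) : ℕ) : ℝ) := by
  have hl : 0 < Real.log 2 := Real.log_pos one_lt_two
  have hm' : (0 : ℝ) < m := by exact_mod_cast hm
  have hD : 0 < |D| + 1 := by positivity
  have ha0 : 0 < a := by
    rw [ha]
    positivity
  have h1 : y ≤ (|D| + 1) * (L + 1) := by
    refine hy.trans (mul_le_mul_of_nonneg_right ?_ (by positivity))
    have := le_abs_self D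
    linarith
  have h2 : L + 1 ≤ m * (L / m + 1) := by
    have h3 := Nat.div_add_mod L m
    have h4 := Nat.mod_lt L hm
    rw [Nat.mul_add, Nat.mul_one]
    omega
  have h2' : (L : ℝ) + 1 ≤ m * ((L / m + 1 : ℕ) : ℝ) := by exact_mod_cast h2
  have h3 : a * y ≤ ((L / m + 1 : ℕ) : ℝ) * Real.log 2 := by
    calc a * y ≤ a * ((|D| + 1) * (L + 1)) := mul_le_mul_of_nonneg_left h1 ha0.le
      _ = (Real.log 2 / m) * (L + 1) := by
        rw [ha]
        field_simp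
      _ ≤ (Real.log 2 / m) * (m * ((L / m + 1 : ℕ) : ℝ)) :=
        mul_le_mul_of_nonneg_left h2' (by positivity)
      _ = ((L / m + 1 : ℕ) : ℝ) * Real.log 2 := by
        field_simp
  refine (Real.exp_le_exp.2 h3).trans (le_of_eq ?_)
  rw [Real.exp_nat_mul, Real.exp_log two_pos]
  push_cast
  rfl

theorem exists_lower : ∃ a : ℝ, 0 < a ∧ ¬ FastAlg a := by
  classical
  obtain ⟨f, K, D, k₁, hf, hK, h⟩ := hard_core (inESPACE_of_inE diag_inE)
  obtain ⟨U, hU⟩ := sim_decider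
  have hl : 0 < Real.log 2 := Real.log_pos one_lt_two
  set m : ℕ := 4 * (U + 1) with hm
  have hm0 : 0 < m := by omega
  refine ⟨Real.log 2 / (m * (|D| + 1)), ?_, ?_⟩
  · have hm' : (0 : ℝ) < m := by exact_mod_cast hm0
    positivity
  rintro ⟨tm, e₀, e₁, C, hC⟩
  -- the difficulty as a natural number
  have hn : ∀ x, ∃ n : ℕ, difficulty (fam (f x)) = n := by
    intro x
    have h1 : difficulty (fam (f x)) ≠ ⊤ :=
      ne_top_of_le_ne_top (ENat.natCast_ne_top _) (h x).2.2.2.2.1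
    obtain ⟨n, hn⟩ := ENat.ne_top_iff_exists.1 h1
    exact ⟨n, hn.symm⟩
  choose n hn using hn
  have hnK : ∀ x, n x ≤ K x + 1 := by
    intro x
    have h1 := (h x).2.2.2.2.1
    rw [hn x] at h1
    exact_mod_cast h1
  have hnL : ∀ x, x ∈ Ldiag ↔ n x ≤ K x := by
    intro x
    rw [(h x).2.2.2.1, hn x]
    exact Nat.cast_le
  -- the constant
  obtain ⟨c₁, hc₁⟩ : ∃ c₁ : ℕ, C ≤ ((2 ^ c₁ : ℕ) : ℝ) := by
    refine ⟨⌈C⌉₊, (Nat.le_ceil C).trans ?_⟩
    exact_mod_cast (Nat.lt_two_pow_self (n := ⌈C⌉₊)).le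
  have he : PF fun x : List Bool => x.length / m + (c₁ + 1) :=
    PF.addN (PF.divN (PF.length PF.id') (PF.const' _)) (PF.const' _)
  obtain ⟨F, τ, k, hF, hFe, hτ⟩ := hU tm e₀ e₁ f K (fun x => x.length / m + (c₁ + 1)) n hf hK he
    ⟨k₁ + 1, fun x => by
      rw [Nat.size_eq_bits_len]
      have h1 : n x < 2 ^ (k₁ * (x.length + 1) + 1) := by
        refine ((hnK x).trans (h x).2.2.2.2.2).trans_lt ?_
        exact Nat.pow_lt_pow_right (by norm_num) (by omega)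
      refine (Nat.size_le.2 h1).trans ?_
      have h2 : ∀ k L : ℕ, k * (L + 1) + 1 ≤ (L + 2) ^ k := by
        intro k L
        induction k with
        | zero => simp
        | succ k ih =>
          rw [pow_succ]
          have h3 : (k * (L + 1) + 1) * (L + 2) ≤ (L + 2) ^ k * (L + 2) :=
            Nat.mul_le_mul_right _ ih
          have h4 : (k + 1) * (L + 1) + 1 ≤ (k * (L + 1) + 1) * (L + 2) := by
            have h5 : k * (L + 1) * 1 ≤ k * (L + 1) * (L + 2) :=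
              Nat.mul_le_mul_left _ (by omega)
            have h6 : (k * (L + 1) + 1) * (L + 2) = k * (L + 1) * (L + 2) + (L + 2) := by ring
            have h7 : (k + 1) * (L + 1) + 1 = k * (L + 1) * 1 + (L + 2) := by ring
            omega
          exact h4.trans h3
      exact (h2 k₁ x.length).trans (Nat.pow_le_pow_right (by omega) (by omega))⟩
    (fun x => by
      obtain ⟨t, ht, hto⟩ := hC (f x) (h x).1 (h x).2.1 (n x) (hn x)
      refine ⟨t, ?_, hto⟩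
      have h1 := FastL_exp hm0 x.length (h x).2.2.1 rfl
      have h2 : (t : ℝ) ≤ ((2 ^ c₁ : ℕ) : ℝ) * ((2 ^ (x.length / m + 1) : ℕ) : ℝ) :=
        ht.trans (mul_le_mul hc₁ h1 (Real.exp_pos _).le (Nat.cast_nonneg _))
      have h3 : t ≤ 2 ^ c₁ * 2 ^ (x.length / m + 1) := by exact_mod_cast h2
      refine h3.trans (le_of_eq ?_)
      rw [← pow_add]
      congr 1
      omega)
  obtain ⟨tm', e₀', e₁', C', hC'⟩ := decider_raw hF hFe
  obtain ⟨c', hc'⟩ := FastL_poly (k + 1)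
  refine diag_lower ⟨tm', e₀', e₁', C' * ((1 + k * 2 ^ ((c₁ + 1) * U)) * c'), fun x => ?_⟩
  obtain ⟨hx⟩ := hC' x
  have hd : decide (n x ≤ K x) = decide (x ∈ Ldiag) := decide_eq_decide.2 (hnL x).symm
  rw [hd] at hx
  refine ⟨⟨hx.toEvalsTo, hx.steps_le_m.trans ?_⟩⟩
  rw [mul_assoc]
  refine Nat.mul_le_mul_left _ ?_
  set L := x.length with hL
  have h1 : U * (L / m) ≤ L / 4 := by
    have h2 : m * (L / m) ≤ L := Nat.mul_div_le L m
    have h3 : 4 * ((U + 1) * (L / m)) ≤ L := by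
      refine le_trans (le_of_eq ?_) h2
      rw [hm]
      ring
    have h4 : U * (L / m) ≤ (U + 1) * (L / m) := Nat.mul_le_mul_right _ (by omega)
    omega
  have h2 : (2 ^ (L / m + (c₁ + 1))) ^ U ≤ 2 ^ ((c₁ + 1) * U) * 2 ^ (L / 4) := by
    rw [← pow_mul, ← pow_add]
    refine Nat.pow_le_pow_right (by norm_num) ?_
    have : (L / m + (c₁ + 1)) * U = (c₁ + 1) * U + U * (L / m) := by ring
    omega
  have h3 : τ (enc x) ≤ k * (2 ^ ((c₁ + 1) * U) * 2 ^ (L / 4)) * (L + 2) ^ (k + 1) :=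
    (hτ x).trans (Nat.mul_le_mul (Nat.mul_le_mul_left _ h2)
      (Nat.pow_le_pow_right (by omega) (by omega)))
  have h4 : L + 1 ≤ 2 ^ (L / 4) * (L + 2) ^ (k + 1) := by
    have h5 : 1 ≤ 2 ^ (L / 4) := Nat.one_le_two_pow
    have h6 : (L + 2) ^ 1 ≤ (L + 2) ^ (k + 1) := Nat.pow_le_pow_right (by omega) (by omega)
    rw [pow_one] at h6
    calc L + 1 ≤ 1 * (L + 2) := by omega
      _ ≤ _ := Nat.mul_le_mul h5 h6
  have h5 : L + τ (enc x) + 1 ≤ (1 + k * 2 ^ ((c₁ + 1) * U)) *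
      (2 ^ (L / 4) * (L + 2) ^ (k + 1)) := by
    calc L + τ (enc x) + 1 = (L + 1) + τ (enc x) := by ring
      _ ≤ 2 ^ (L / 4) * (L + 2) ^ (k + 1) +
        k * (2 ^ ((c₁ + 1) * U) * 2 ^ (L / 4)) * (L + 2) ^ (k + 1) := Nat.add_le_add h4 h3
      _ = _ := by ring
  refine h5.trans ?_
  rw [mul_assoc]
  refine Nat.mul_le_mul_left _ ?_
  have h6 : 2 ^ (L / 4) * 2 ^ (L / 8) ≤ 2 ^ (L / 2) := by
    rw [← pow_add]
    exact Nat.pow_le_pow_right (by norm_num) (by omega)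
  calc 2 ^ (L / 4) * (L + 2) ^ (k + 1) ≤ 2 ^ (L / 4) * (c' * 2 ^ (L / 8)) :=
        Nat.mul_le_mul_left _ (hc' L)
    _ = c' * (2 ^ (L / 4) * 2 ^ (L / 8)) := by ring
    _ ≤ c' * 2 ^ (L / 2) := Nat.mul_le_mul_left _ h6

end Pool.Agent.BPD
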