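import Pool.Agent.BPD.CloA

/-!
# The system `flat b R`

PROOF of `a1_flat`. `≤ b`: the closure of `{1, ..., b}` under the rule `{1, b}` contains all integers
`≤ b`: by induction on `n` it contains `b - n` (if it contains `b - n + 1, ..., b - n + b` it
contains `b - n`, strong induction). `≤ a1 R`: if `Z` has an infinite closure under `R` then
`{b t : t ∈ Z}` has the same `encard` and its closure under `flat b R` contains `b t` for all
`t ∈ clo1 R Z` (`clo1_least`).

`≥`: let `Z` have an infinite closure `C` under `flat b R`. If `b ≤ Z.encard` we are done. Otherwise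
`Z` is finite with less than `b` elements, so there is a residue `e` modulo `b` such that no element of
`Z` is congruent to `e` (the elements of `Z` meet at most `Z.encard < b` classes of `ZMod b`).
No element of `C` is congruent to `e`: `clo1_least` with `P = {x | ¬ x ≡ e [ZMOD b]}`: every rule
contains an element divisible by `b` (the rule `{1, b}` contains `b`, the others are not empty).
Let `π x = (x - e) / b` (floor division); on elements which are not congruent to `e`:
`x = e + i + b π x` with `1 ≤ i ≤ b - 1`. By `clo1_ind` `π x ∈ clo1 R (π '' Z)` for all `x ∈ C`: clear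
for `x ∈ Z`; if `x + 1, x + b ∈ C` then `x`, `x + 1` are not congruent to `e` (`x ∈ C` by
`clo1_rule`), so `i ≤ b - 2` and `π (x + 1) = π x`; if `x + b t ∈ C` for all `t ∈ X`, `X ∈ R`, then
`π (x + b t) = π x + t`, use `clo1_rule`. `π '' C` is infinite, because the fibres of `π` have at most
`b` elements (the fibre of `q` is contained in the interval from `e + b q` to `e + b q + b`), so
`clo1 R (π '' Z)` is infinite and `a1 R ≤ (π '' Z).encard ≤ Z.encard`.
-/

set_option autoImplicit false

namespace Pool.Agent.BPD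

open Set

private theorem fold_le_b {R : Finset (Finset ℤ)} {b : ℕ} (hb : 2 ≤ b) :
    a1 (flat b R) ≤ (b : ℕ∞) := by
  have h1 : ∀ n : ℕ, ((b : ℤ) - n) ∈ clo1 (flat b R) (Set.Icc (1 : ℤ) b) := by
    intro n
    induction n using Nat.strong_induction_on with
    | _ n ih =>
      rcases lt_or_ge n b with h | h
      · exact subset_clo1 _ _ ⟨by omega, by omega⟩
      · refine clo1_rule (X := {(1 : ℤ), (b : ℤ)}) (Finset.mem_insert_self _ _) fun t ht => ?_
        rw [Finset.mem_insert, Finset.mem_singleton] at ht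
        rcases ht with rfl | rfl
        · have h2 := ih (n - 1) (by omega)
          have h3 : (b : ℤ) - (n - 1 : ℕ) = b - n + 1 := by omega
          rwa [h3] at h2
        · have h2 := ih (n - b) (by omega)
          have h3 : (b : ℤ) - (n - b : ℕ) = b - n + b := by omega
          rwa [h3] at h2
  have h2 : (clo1 (flat b R) (Set.Icc (1 : ℤ) b)).Infinite :=
    Set.infinite_of_injective_forall_mem (f := fun n : ℕ => (b : ℤ) - n)
      (fun m n h => by simpa using h) h1
  refine (a1_le h2).trans (le_of_eq ?_)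
  have h3 : Set.Icc (1 : ℤ) b = ((Finset.Icc (1 : ℤ) b : Finset ℤ) : Set ℤ) := by simp
  rw [h3, Set.encard_coe_eq_coe_finsetCard, Int.card_Icc]
  congr 1
  omega

private theorem fold_le_a {R : Finset (Finset ℤ)} {b : ℕ} (hb : 2 ≤ b) :
    a1 (flat b R) ≤ a1 R := by
  refine le_a1 fun Z hZ => ?_
  have hb0 : (b : ℤ) ≠ 0 := by omega
  have hinj : Function.Injective fun t : ℤ => (b : ℤ) * t := fun x y h =>
    mul_left_cancel₀ hb0 h
  have h1 : clo1 R Z ⊆ {t | (b : ℤ) * t ∈ clo1 (flat b R) ((fun t : ℤ => (b : ℤ) * t) '' Z)} := by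
    refine clo1_least (fun t ht => subset_clo1 _ _ ⟨t, ht, rfl⟩) fun X hX x hx => ?_
    refine clo1_rule (X := X.image fun t => (b : ℤ) * t)
      (Finset.mem_insert_of_mem (Finset.mem_image_of_mem _ hX)) fun t ht => ?_
    obtain ⟨u, hu, rfl⟩ := Finset.mem_image.1 ht
    have h2 := hx u hu
    rw [Set.mem_setOf_eq, mul_add] at h2
    exact h2
  have h2 : (clo1 (flat b R) ((fun t : ℤ => (b : ℤ) * t) '' Z)).Infinite := by
    refine (hZ.image (f := fun t : ℤ => (b : ℤ) * t) hinj.injOn).mono ?_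
    rintro _ ⟨t, ht, rfl⟩
    exact h1 ht
  exact (a1_le h2).trans (hinj.encard_image Z).le

private theorem fold_residue {Z : Set ℤ} {b : ℕ} (hb : 2 ≤ b) (h : Z.encard < b) :
    ∃ e : ℤ, ∀ z ∈ Z, ¬ (b : ℤ) ∣ z - e := by
  have hfin : Z.Finite := Set.finite_of_encard_le_coe h.le
  have hcard : (hfin.toFinset.image fun z => z % (b : ℤ)).card < (Finset.Ico (0 : ℤ) b).card := by
    refine lt_of_le_of_lt Finset.card_image_le ?_
    rw [Int.card_Ico]
    have h1 : (hfin.toFinset.card : ℕ∞) < b := by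
      rwa [← Set.Finite.encard_eq_coe_toFinset_card hfin]
    have h2 : hfin.toFinset.card < b := by exact_mod_cast h1
    omega
  obtain ⟨e, he, he'⟩ := Finset.exists_mem_notMem_of_card_lt_card hcard
  rw [Finset.mem_Ico] at he
  refine ⟨e, fun z hz hd => he' (Finset.mem_image.2 ⟨z, hfin.mem_toFinset.2 hz, ?_⟩)⟩
  obtain ⟨k, hk⟩ := hd
  have h3 : z = e + (b : ℤ) * k := by linarith
  rw [h3, Int.add_mul_emod_self_left, Int.emod_eq_of_lt he.1 he.2]

private theorem fold_div {b : ℕ} (hb : 2 ≤ b) {y : ℤ} (h : ¬ (b : ℤ) ∣ y + 1) :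
    (y + 1) / (b : ℤ) = y / b := by
  have hb0 : (0 : ℤ) < b := by omega
  have h1 := Int.emod_add_mul_ediv y b
  have h2 := Int.emod_nonneg y hb0.ne'
  have h3 := Int.emod_lt_of_pos y hb0
  have h4 : y % (b : ℤ) + 1 ≠ b := by
    intro h5
    refine h ⟨y / b + 1, ?_⟩
    rw [mul_add, mul_one]
    linarith
  have h5 : y + 1 = (y % (b : ℤ) + 1) + (b : ℤ) * (y / b) := by linarith
  conv_lhs => rw [h5]
  rw [Int.add_mul_ediv_left _ _ hb0.ne', Int.ediv_eq_zero_of_lt (by omega) (by omega), zero_add]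

private theorem fold_ge {R : Finset (Finset ℤ)} (hR : Neg1 R) {b : ℕ} (hb : 2 ≤ b) :
    min (b : ℕ∞) (a1 R) ≤ a1 (flat b R) := by
  refine le_a1 fun Z hZ => ?_
  by_cases hlt : (b : ℕ∞) ≤ Z.encard
  · exact (min_le_left _ _).trans hlt
  rw [not_le] at hlt
  obtain ⟨e, he⟩ := fold_residue hb hlt
  have hb0 : (0 : ℤ) < b := by omega
  have hC : clo1 (flat b R) Z ⊆ {x | ¬ (b : ℤ) ∣ x - e} := by
    refine clo1_least he fun X hX x hx => ?_
    rw [flat, Finset.mem_insert, Finset.mem_image] at hX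
    intro hd
    rcases hX with rfl | ⟨Y, hY, rfl⟩
    · refine hx b (by simp) ?_
      have h1 : x + (b : ℤ) - e = (x - e) + b := by ring
      rw [h1]
      exact dvd_add hd dvd_rfl
    · obtain ⟨⟨t, ht⟩, -⟩ := hR Y hY
      refine hx ((b : ℤ) * t) (Finset.mem_image_of_mem _ ht) ?_
      have h1 : x + (b : ℤ) * t - e = (x - e) + (b : ℤ) * t := by ring
      rw [h1]
      exact dvd_add hd (dvd_mul_right _ _)
  have hP : ∀ x ∈ clo1 (flat b R) Z,
      (x - e) / (b : ℤ) ∈ clo1 R ((fun x : ℤ => (x - e) / (b : ℤ)) '' Z) := by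
    refine clo1_ind (fun x hx => subset_clo1 _ _ ⟨x, hx, rfl⟩) fun X hX x hx hx' => ?_
    have hxC : x ∈ clo1 (flat b R) Z := clo1_rule hX hx
    rw [flat, Finset.mem_insert, Finset.mem_image] at hX
    rcases hX with rfl | ⟨Y, hY, rfl⟩
    · have h1 := hC (hx 1 (by simp))
      have h2 := hx' 1 (by simp)
      rw [Set.mem_setOf_eq] at h1
      have h3 : x + 1 - e = (x - e) + 1 := by ring
      rw [h3] at h1 h2
      rwa [fold_div hb h1] at h2
    · refine clo1_rule hY fun t ht => ?_
      have h2 := hx' ((b : ℤ) * t) (Finset.mem_image_of_mem _ ht)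
      have h3 : x + (b : ℤ) * t - e = (x - e) + (b : ℤ) * t := by ring
      rw [h3, Int.add_mul_ediv_left _ _ hb0.ne'] at h2
      exact h2
  have hinf : (clo1 R ((fun x : ℤ => (x - e) / (b : ℤ)) '' Z)).Infinite := by
    intro hfin
    refine hZ ((hfin.biUnion fun q _ => Set.finite_Icc (e + (b : ℤ) * q)
      (e + (b : ℤ) * q + b)).subset fun x hx => ?_)
    rw [Set.mem_iUnion₂]
    refine ⟨_, hP x hx, ?_⟩
    have h1 := Int.emod_add_mul_ediv (x - e) b
    have h2 := Int.emod_nonneg (x - e) hb0.ne'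
    have h3 := Int.emod_lt_of_pos (x - e) hb0
    exact ⟨by linarith, by linarith⟩
  exact (min_le_right _ _).trans ((a1_le hinf).trans (Set.encard_image_le _ _))

theorem a1_flat {R : Finset (Finset ℤ)} (hR : Neg1 R) {b : ℕ} (hb : 2 ≤ b) :
    a1 (flat b R) = min (b : ℕ∞) (a1 R) :=
  le_antisymm (le_min (fold_le_b hb) (fold_le_a hb)) (fold_ge hR hb)

end Pool.Agent.BPD
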