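import Pool.Agent.BPD.Colu

/-!
# Two sites of a column have distance at least `tt - s hb`

Let `H = s hb`, `T = tt`, `C = clo1 (sys A s N) Z`; `T > s qq + 2 qq + 6 H`, `qq ≥ 0` (`tt_big`,
`qq_nonneg`), `|s (hh x - hh y)| < H` (`hh_pos`, `hh_lt`).

PROOF of `gap`. `C` is bounded below by some `m` (`h.fin`, `clo1_lower`, `neg1_sys`). Induction on `n`:
for all `q ∈ C` with `q < m + n` and all `p ∈ C` in the column of `q` with `p < q`: `T - H ≤ q - p`.

Case 1: `q ∈ Z`. Then `p ∈ Z` by `Two.seeds_least`, and `p`, `q` are all seeds of the column (`h.two`).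
As `C` has infinitely many elements in the column (`h.inf`), there is a least element `r` of
`C` in the column which is different from `p` and `q`; by `Two.seeds_least` all elements of `C` in the column
other than `p`, `q` are larger than `q` (if `r < q` then `r ∈ Z`). `r ∉ Z`, so `inst_of_mem` gives
elements `r + o0 < r + o1 < r` (`o0_lt_o1`, `neg1_sys` or directly) of `C` in the column (`o0_cast`,
`o1_cast`); by the choice of `r` they are `p` and `q`. So
`q - p = o1 - o0 = T + s (hh σ - hh ρ) > T - H`.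

Case 2: `q ∉ Z`. Take the symbols `ρ, σ, τ, ω, υ` of `inst_of_mem` for `q`. Suppose `q - p < T - H`. As
`q - (q + o1) = T - s (hh σ - hh υ) > T - H`, `q + o1 < p`. The elements `q + o0 < q + o1 < p` of `C` are in
the column of `p`, so `p ∉ Z` (otherwise both are in `Z` by `Two.seeds_least`, and `Z` would have three
elements in the column). Take the symbols `ρ', σ', τ', ω', υ'` of `inst_of_mem` for `p`. By the
induction hypothesis (applied to `p < q` and `q + o1 < p`) `T - H ≤ p - (q + o1)`, so
`0 < q - p = (q - (q + o1)) - (p - (q + o1)) < (T + H) - (T - H) = 2 H`.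
Two elements of `C` in the same column which are both `< q` are equal if their distance is `< T - H`
(induction hypothesis). Apply this four times.
(1) `|(q + o1 A s N σ υ) - (p + o1 A s N σ' υ')| < 2 H + 2 H < T - H`, so they are equal.
(2) `|(q + o0 A s N ρ υ) - (p + o0 A s N ρ' υ')| < 4 H < T - H`, so they are equal.
Subtracting: `hh σ + hh ρ' = hh σ' + hh ρ` (divide by `s > 0`). By `hh_sidon` either
`σ = σ'`, `ρ' = ρ`, or `σ = ρ`, which is impossible by the phases (`A.ph_eq`: `ph σ = ph ρ + 1` in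
`ZMod 3`). So `σ = σ'`, `ρ = ρ'`, and (1) gives `q - p = s (hh υ - hh υ')`.
(3) `(q + o2 A s N τ υ) - (p + o2 A s N τ' υ') = st τ - st τ' + s (hh τ - hh τ')` has absolute value
`< 2 qq + H < T - H`, both are in the next column, so they are equal, and `τ = τ'` by `st_hh_inj`.
(4) The marks of `υ`, `υ'` are those of `σ = σ'` (`A.fst_eq`, `A.tA_eq`), so `st υ = st υ'`
(`st_congr`) and `(q + o3 A s N ω υ) - (p + o3 A s N ω' υ') = s (hh ω - hh ω')`, of absolute value
`< H < T - H`: they are equal, `ω = ω'` (`hh_inj`). Now `υ = υ'` by `A.det`, so `q = p`, a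
contradiction.
-/

set_option autoImplicit false

namespace Pool.Agent.BPD

private theorem gap_aux {A : Auto} {s N : ℕ} (hs : 2 ≤ s) {Z : Set ℤ} (h : Two A s N Z) (q : ℤ)
    (hq : q ∈ clo1 (sys A s N) Z)
    (ih : ∀ b ∈ clo1 (sys A s N) Z, b < q → ∀ a ∈ clo1 (sys A s N) Z,
      (a : ZMod s) = (b : ZMod s) → a < b → tt A s N - s * hb A ≤ b - a) (m : ℤ)
    (hm : ∀ x ∈ clo1 (sys A s N) Z, m ≤ x) (p : ℤ) (hp : p ∈ clo1 (sys A s N) Z)
    (hpq : (p : ZMod s) = (q : ZMod s)) (hlt : p < q) : tt A s N - s * hb A ≤ q - p := by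
  have hs0 : (0 : ℤ) < s := by exact_mod_cast (by omega : 0 < s)
  have hT := tt_big (A := A) (N := N) (s := s) (by omega)
  have hqq := qq_nonneg (A := A) (N := N) (s := s)
  have hsq : 0 ≤ (s : ℤ) * qq A s N := mul_nonneg hs0.le hqq
  have hH : 0 < (s : ℤ) * hb A := mul_pos hs0 (lt_of_lt_of_le one_pos hb_pos)
  have b1 : ∀ x : A.S, 0 < (s : ℤ) * hh A x := fun x =>
    mul_pos hs0 (lt_of_lt_of_le one_pos (hh_pos x))
  have b2 : ∀ x : A.S, (s : ℤ) * hh A x < s * hb A := fun x =>
    mul_lt_mul_of_pos_left (hh_lt x) hs0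
  have same : ∀ a ∈ clo1 (sys A s N) Z, ∀ b ∈ clo1 (sys A s N) Z, (a : ZMod s) = (b : ZMod s) →
      a < q → b < q → a - b < tt A s N - s * hb A → b - a < tt A s N - s * hb A → a = b := by
    intro a ha b hb hab haq hbq h1 h2
    rcases lt_trichotomy a b with h3 | h3 | h3
    · exact absurd (ih b hb hbq a ha hab h3) (not_le.2 h2)
    · exact h3
    · exact absurd (ih a ha haq b hb hab.symm h3) (not_le.2 h1)
  obtain ⟨a, b, hab, htwo⟩ := h.two (q : ZMod s)
  by_cases hqZ : q ∈ Z
  · have hpZ : p ∈ Z := Two.seeds_least hs h hp hqZ hpq hlt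
    have h1 := (htwo q).1 ⟨hqZ, rfl⟩
    have h2 := (htwo p).1 ⟨hpZ, hpq⟩
    have hinf : ({x : ℤ | x ∈ clo1 (sys A s N) Z ∧ (x : ZMod s) = (q : ZMod s)} \
        {a, b}).Infinite :=
      (h.inf _).sdiff ((Set.finite_singleton b).insert a)
    obtain ⟨r, hr, hmin⟩ := Int.exists_least_of_bdd
      (P := fun x => x ∈ ({x : ℤ | x ∈ clo1 (sys A s N) Z ∧ (x : ZMod s) = (q : ZMod s)} \
        {a, b})) ⟨m, fun z hz => hm z hz.1.1⟩ hinf.nonempty
    obtain ⟨⟨hrC, hrc⟩, hrab⟩ := hr
    have hrab' : r ≠ a ∧ r ≠ b := by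
      constructor
      · intro h3; exact hrab (Or.inl h3)
      · intro h3; exact hrab (Or.inr h3)
    have hrZ : r ∉ Z := by
      intro h3
      rcases (htwo r).1 ⟨h3, hrc⟩ with h4 | h4
      · exact hrab'.1 h4
      · exact hrab'.2 h4
    obtain ⟨ρ, σ, τ, ω, υ, hrel, m0, m1, -, -⟩ := inst_of_mem hrC hrZ
    have k1 := b1 ρ
    have k2 := b2 ρ
    have k3 := b1 σ
    have k4 := b2 σ
    have k5 := b1 υ
    have k6 := b2 υ
    have c0 : ((r + o0 A s N ρ υ : ℤ) : ZMod s) = (q : ZMod s) := by
      rw [Int.cast_add, o0_cast, add_zero, hrc]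
    have c1 : ((r + o1 A s N σ υ : ℤ) : ZMod s) = (q : ZMod s) := by
      rw [Int.cast_add, o1_cast, add_zero, hrc]
    have e0 : o0 A s N ρ υ = -2 * tt A s N + s * (hh A ρ - hh A υ) := rfl
    have e1 : o1 A s N σ υ = -tt A s N + s * (hh A σ - hh A υ) := rfl
    have in0 : r + o0 A s N ρ υ = a ∨ r + o0 A s N ρ υ = b := by
      by_contra h3
      have := hmin (r + o0 A s N ρ υ) ⟨⟨m0, c0⟩, fun h4 => h3 h4⟩
      rw [e0] at this
      linarith
    have in1 : r + o1 A s N σ υ = a ∨ r + o1 A s N σ υ = b := by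
      by_contra h3
      have := hmin (r + o1 A s N σ υ) ⟨⟨m1, c1⟩, fun h4 => h3 h4⟩
      rw [e1] at this
      linarith
    have hlt01 : r + o0 A s N ρ υ < r + o1 A s N σ υ := by
      rw [e0, e1]
      linarith
    have ha : r + o0 A s N ρ υ = a := by
      rcases in0 with h3 | h3
      · exact h3
      · rcases in1 with h4 | h4
        · rw [h3, h4] at hlt01
          exact absurd hlt01 (not_lt.2 hab.le)
        · rw [h3, h4] at hlt01
          exact absurd hlt01 (lt_irrefl _)
    have hb' : r + o1 A s N σ υ = b := by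
      rcases in1 with h3 | h3
      · rw [ha, h3] at hlt01
        exact absurd hlt01 (lt_irrefl _)
      · exact h3
    have hpa : p = a := by
      rcases h2 with h3 | h3
      · exact h3
      · rcases h1 with h4 | h4
        · rw [h3, h4] at hlt
          exact absurd hlt (not_lt.2 hab.le)
        · rw [h3, h4] at hlt
          exact absurd hlt (lt_irrefl _)
    have hqb : q = b := by
      rcases h1 with h3 | h3
      · rw [hpa, h3] at hlt
        exact absurd hlt (lt_irrefl _)
      · exact h3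
    rw [hpa, hqb, ← ha, ← hb', e0, e1]
    linarith
  · by_contra hcon
    rw [not_le] at hcon
    obtain ⟨ρ, σ, τ, ω, υ, hrel, m0, m1, m2, m3⟩ := inst_of_mem hq hqZ
    have k1 := b1 ρ
    have k2 := b2 ρ
    have k3 := b1 σ
    have k4 := b2 σ
    have k5 := b1 υ
    have k6 := b2 υ
    have e0 : o0 A s N ρ υ = -2 * tt A s N + s * (hh A ρ - hh A υ) := rfl
    have e1 : o1 A s N σ υ = -tt A s N + s * (hh A σ - hh A υ) := rfl
    have c0 : ((q + o0 A s N ρ υ : ℤ) : ZMod s) = (q : ZMod s) := by
      rw [Int.cast_add, o0_cast, add_zero]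
    have c1 : ((q + o1 A s N σ υ : ℤ) : ZMod s) = (q : ZMod s) := by
      rw [Int.cast_add, o1_cast, add_zero]
    have l1 : q + o1 A s N σ υ < p := by
      rw [e1]; linarith
    have l0 : q + o0 A s N ρ υ < q + o1 A s N σ υ := by
      rw [e0, e1]; linarith
    have hpZ : p ∉ Z := by
      intro hpZ
      have z1 := Two.seeds_least hs h m1 hpZ (c1.trans hpq.symm) l1
      have z0 := Two.seeds_least hs h m0 hpZ (c0.trans hpq.symm) (l0.trans l1)
      have i0 := (htwo _).1 ⟨z0, c0⟩
      have i1 := (htwo _).1 ⟨z1, c1⟩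
      have i2 := (htwo _).1 ⟨hpZ, hpq⟩
      omega
    obtain ⟨ρ', σ', τ', ω', υ', hrel', m0', m1', m2', m3'⟩ := inst_of_mem hp hpZ
    have k1' := b1 ρ'
    have k2' := b2 ρ'
    have k3' := b1 σ'
    have k4' := b2 σ'
    have k5' := b1 υ'
    have k6' := b2 υ'
    have e0' : o0 A s N ρ' υ' = -2 * tt A s N + s * (hh A ρ' - hh A υ') := rfl
    have e1' : o1 A s N σ' υ' = -tt A s N + s * (hh A σ' - hh A υ') := rfl
    have ih1 := ih p hp hlt _ m1 (c1.trans hpq.symm) l1
    have d2 : q - p < 2 * (s * hb A) := by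
      rw [e1] at ih1; linarith
    have n1 : ∀ {ρ σ τ ω υ : A.S}, A.rel ρ σ τ ω υ → o2 A s N τ υ < 0 ∧ o3 A s N ω υ < 0 := by
      intro ρ σ τ ω υ hr
      have := (neg1_sys (A := A) (N := N) (s := s) (by omega) _ (rule_mem_sys hr)).2
      exact ⟨this _ (by simp), this _ (by simp)⟩
    have q1 : q + o1 A s N σ υ = p + o1 A s N σ' υ' := by
      refine same _ m1 _ m1' ?_ ?_ ?_ ?_ ?_
      · rw [c1, Int.cast_add, o1_cast, add_zero, hpq]
      · linarith
      · rw [e1']; linarith
      · rw [e1, e1']; linarith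
      · rw [e1, e1']; linarith
    have q0 : q + o0 A s N ρ υ = p + o0 A s N ρ' υ' := by
      refine same _ m0 _ m0' ?_ ?_ ?_ ?_ ?_
      · rw [c0, Int.cast_add, o0_cast, add_zero, hpq]
      · linarith
      · rw [e0']; linarith
      · rw [e0, e0']; linarith
      · rw [e0, e0']; linarith
    have hsid : hh A σ + hh A ρ' = hh A σ' + hh A ρ := by
      have : (s : ℤ) * (hh A σ + hh A ρ') = s * (hh A σ' + hh A ρ) := by
        rw [e1, e1'] at q1
        rw [e0, e0'] at q0
        linarith
      exact mul_left_cancel₀ hs0.ne' this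
    rcases hh_sidon hsid with ⟨h1, h2⟩ | ⟨h1, h2⟩
    swap
    · have := (A.ph_eq hrel).1
      rw [h1] at this
      have h3 : (1 : ZMod 3) = 0 := by
        have h4 : A.ph ρ + 1 = A.ph ρ + 0 := by rw [← this, add_zero]
        exact add_left_cancel h4
      exact absurd h3 (by decide)
    · subst h1
      subst h2
      have hq1 : q - p = s * (hh A υ - hh A υ') := by
        rw [e1, e1'] at q1
        linarith
      have e2 : o2 A s N τ υ = -tt A s N + st A s N τ + s * (hh A τ - hh A υ) := rfl
      have e2' : o2 A s N τ' υ' = -tt A s N + st A s N τ' + s * (hh A τ' - hh A υ') := rfl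
      have a1 := abs_le.1 (st_abs (A := A) (s := s) (N := N) τ)
      have a2 := abs_le.1 (st_abs (A := A) (s := s) (N := N) τ')
      have t1 := b1 τ
      have t2 := b2 τ
      have t1' := b1 τ'
      have t2' := b2 τ'
      have w1 := b1 ω
      have w2 := b2 ω
      have w1' := b1 ω'
      have w2' := b2 ω'
      have q2 : q + o2 A s N τ υ = p + o2 A s N τ' υ' := by
        refine same _ m2 _ m2' ?_ ?_ ?_ ?_ ?_
        · rw [Int.cast_add, o2_cast, Int.cast_add, o2_cast, hpq]
        · have := (n1 hrel).1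
          linarith
        · have := (n1 hrel').1
          linarith
        · rw [e2, e2']; linarith [a1.1, a1.2, a2.1, a2.2]
        · rw [e2, e2']; linarith [a1.1, a1.2, a2.1, a2.2]
      have hτ : τ = τ' := by
        refine st_hh_inj (A := A) (s := s) (N := N) hs ?_
        rw [e2, e2'] at q2
        linarith
      have f1 := A.fst_eq hrel
      have f2 := A.fst_eq hrel'
      have g1 := A.tA_eq hrel
      have g2 := A.tA_eq hrel'
      have hf : A.fst υ = A.fst υ' := by rw [← f1.2, ← f2.2]
      have hst : st A s N υ = st A s N υ' :=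
        st_congr hf (by rw [← g1.2, ← g2.2])
      have e3 : o3 A s N ω υ - o3 A s N ω' υ' =
          s * (hh A ω - hh A υ) - s * (hh A ω' - hh A υ') := by
        unfold o3
        rw [hst, hf]
        ring
      have q3 : q + o3 A s N ω υ = p + o3 A s N ω' υ' := by
        refine same _ m3 _ m3' ?_ ?_ ?_ ?_ ?_
        · rw [Int.cast_add, o3_cast, Int.cast_add, o3_cast, hpq]
        · have := (n1 hrel).2
          linarith
        · have := (n1 hrel').2
          linarith
        · linarith
        · linarith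
      have hω : ω = ω' := by
        refine hh_inj (A := A) ?_
        have : (s : ℤ) * hh A ω = s * hh A ω' := by linarith
        exact mul_left_cancel₀ hs0.ne' this
      subst hτ
      subst hω
      have hυ := A.det hrel hrel'
      rw [hυ, sub_self, mul_zero] at hq1
      linarith

theorem gap {A : Auto} {s N : ℕ} (hs : 2 ≤ s) {Z : Set ℤ} (h : Two A s N Z) {p q : ℤ}
    (hp : p ∈ clo1 (sys A s N) Z) (hq : q ∈ clo1 (sys A s N) Z)
    (hpq : (p : ZMod s) = (q : ZMod s)) (hlt : p < q) : tt A s N - s * hb A ≤ q - p := by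
  obtain ⟨m, hm⟩ : ∃ m : ℤ, ∀ x ∈ clo1 (sys A s N) Z, m ≤ x := by
    obtain ⟨m, hm⟩ := h.fin.bddBelow
    exact ⟨m, clo1_lower (neg1_sys (by omega)) fun x hx => hm hx⟩
  have key : ∀ n : ℕ, ∀ q ∈ clo1 (sys A s N) Z, q < m + n → ∀ p ∈ clo1 (sys A s N) Z,
      (p : ZMod s) = (q : ZMod s) → p < q → tt A s N - s * hb A ≤ q - p := by
    intro n
    induction n with
    | zero =>
      intro q hq hqm
      have := hm q hq
      push_cast at hqm
      omega
    | succ n ih =>
      intro q hq hqm p hp hpq hlt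
      refine gap_aux hs h q hq (fun b hb hbq a ha hab hlt' => ih b hb ?_ a ha hab hlt') m hm p hp
        hpq hlt
      push_cast at hqm
      omega
  have hqm := hm q hq
  exact key (q - m + 1).toNat q hq (by omega) p hp hpq hlt

end Pool.Agent.BPD
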