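import Pool.Agent.BPD.Lin
import Pool.Agent.BPD.MachA

/-!
# Coded machines with stacks given by lists

A configuration is a pair: control, list of the stacks (each a list of codes).

PROOFS. `cells_lstep`: compare with `CM.step`, `CM.V`, `CM.R` (`PT/Micro.lean`) at `pos = 0` and at
`pos = 1 + i κ + j`, `j < κ`, for which `(pos - 1) % κ = j`, `(pos - 1) / κ = i`; use
`List.getD_set`-like lemmas (`List.getElem?_set`), `CM.stk_lt` and `p.2.length = C.κ`. `cells_linit`: the
definition of `initc` (`PT/Coded.lean`).

`exists_lstepV`. Let `F` be defined by case distinction. For a tree `v` let `a` be the spine of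
`v.hd`. (1) For functions `H 0, .., H (n - 1), H'` in `Lin` the function
`v ↦ if (G v).spine < n then H (G v).spine v else H' v` is in `Lin` if `G` is: induction on `n` with `V.ifnil`
(`V.ifnil (G v) (H 0 v) (the same with tl (G v))`). (2) The `k`-th element of a list coded by the
tree `w`: `hd (tl^k w)`. Replacing it: `V.node (hd w) (V.node (hd (tl w)) (.. (V.node x (tl^(k+1) w))))`.
So: distinguish the `M0` possible values of the control (for `a ≥ M0` the machine has `stk = 0`,
`op = 0`, `nx = 0` by `stk_zero`, `op_zero`, `nx_zero`), then the `M0` possible values of the spine of the top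
symbol `hd (hd (tl^k (tl v)))` (`nx a b = 0` for `b ≥ M0`; for the empty stack `hd nil = nil` has
the spine `0`), and build `V.node (una (nx a b)) (the list with the new stack k)`; the new stack is the
old one, or its `tl`, or `V.node (una (op a - 2)) (old one)`. All these functions are in `Lin`. The size
grows at most by a constant: `(hd w).size + (tl w).size + 1 ≤ w.size + 2` for all trees `w`, and the
constants `una (nx a b)`, `una (op a - 2)` are bounded.
-/

set_option autoImplicit false

namespace Pool.Agent.BPD

open Pool.Agent.PF Pool.Agent.PT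

/-- Configurations with lists. -/
abbrev LC : Type := ℕ × List (List ℕ)

/-- The operation on a stack. -/
def sop (o : ℕ) (s : List ℕ) : List ℕ := if o = 0 then s else if o = 1 then s.tail else (o - 2) :: s

/-- One step. -/
def lstep (C : CM) (p : LC) : LC :=
  (C.nx p.1 ((p.2.getD (C.stk p.1) []).headD 0),
    p.2.set (C.stk p.1) (sop (C.op p.1) (p.2.getD (C.stk p.1) [])))

/-- The cells. -/
def cells (κ : ℕ) (p : LC) : ℕ → ℕ := fun pos =>
  if pos = 0 then p.1 else (p.2.getD ((pos - 1) % κ) []).getD ((pos - 1) / κ) 0

theorem length_lstep (C : CM) (p : LC) : (lstep C p).2.length = p.2.length := by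
  rw [lstep, List.length_set]

private theorem LStep_getD_set {α : Type} (l : List α) (k j : ℕ) (x d : α) (hk : k < l.length) :
    (l.set k x).getD j d = if j = k then x else l.getD j d := by
  rw [List.getD_eq_getElem?_getD, List.getD_eq_getElem?_getD, List.getElem?_set]
  by_cases h : k = j
  · subst h
    rw [if_pos rfl, if_pos rfl, if_pos hk]
    rfl
  · rw [if_neg h, if_neg (Ne.symm h)]

private theorem LStep_headD (s : List ℕ) : s.headD 0 = s.getD 0 0 := by
  cases s <;> rfl

private theorem LStep_tail (s : List ℕ) (i : ℕ) : s.tail.getD i 0 = s.getD (i + 1) 0 := by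
  cases s <;> simp

private theorem LStep_sop_zero (s : List ℕ) : sop 0 s = s := rfl

private theorem LStep_sop_one (s : List ℕ) : sop 1 s = s.tail := rfl

private theorem LStep_sop_two {o : ℕ} (ho : 2 ≤ o) (s : List ℕ) : sop o s = (o - 2) :: s := by
  unfold sop
  rw [if_neg (by omega), if_neg (by omega)]

theorem cells_lstep (C : CM) (p : LC) (h : p.2.length = C.κ) :
    cells C.κ (lstep C p) = C.step (cells C.κ p) := by
  have hκ := C.κpos
  have hk := C.stk_lt p.1
  have h0 : cells C.κ p 0 = p.1 := rfl
  have hc : ∀ q, cells C.κ p (q + 1) = (p.2.getD (q % C.κ) []).getD (q / C.κ) 0 := by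
    intro q
    unfold cells
    rw [if_neg (Nat.succ_ne_zero q), Nat.add_sub_cancel]
  funext pos
  unfold CM.step
  rw [h0]
  cases pos with
  | zero =>
    have e1 : C.R 0 p.1 = C.stk p.1 + 1 := by
      unfold CM.R
      rw [if_pos rfl, add_comm]
    rw [e1, hc, Nat.mod_eq_of_lt hk, Nat.div_eq_of_lt hk]
    change C.nx p.1 ((p.2.getD (C.stk p.1) []).headD 0) = C.V 0 p.1 _
    unfold CM.V
    rw [if_pos rfl, LStep_headD]
  | succ q =>
    have hL : cells C.κ (lstep C p) (q + 1) =
        (if q % C.κ = C.stk p.1 then sop (C.op p.1) (p.2.getD (C.stk p.1) [])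
          else p.2.getD (q % C.κ) []).getD (q / C.κ) 0 := by
      unfold cells
      rw [if_neg (Nat.succ_ne_zero q), Nat.add_sub_cancel]
      change ((p.2.set (C.stk p.1) (sop (C.op p.1) (p.2.getD (C.stk p.1) []))).getD
        (q % C.κ) []).getD (q / C.κ) 0 = _
      rw [LStep_getD_set _ _ _ _ _ (by rw [h]; exact hk)]
    rw [hL]
    by_cases hj : q % C.κ = C.stk p.1
    · rw [if_pos hj]
      rcases Nat.lt_or_ge (C.op p.1) 2 with ho | ho
      · rcases Nat.lt_or_ge (C.op p.1) 1 with ho1 | ho1
        · have ho0 : C.op p.1 = 0 := by omega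
          have e1 : C.R (q + 1) p.1 = q + 1 := by
            unfold CM.R
            rw [if_neg (Nat.succ_ne_zero q), Nat.add_sub_cancel, if_pos hj, if_pos ho0]
          have e2 : ∀ b, C.V (q + 1) p.1 b = b := by
            intro b
            unfold CM.V
            rw [if_neg (Nat.succ_ne_zero q), if_neg (by omega)]
          rw [e1, e2, hc, ho0, LStep_sop_zero, hj]
        · have ho0 : C.op p.1 = 1 := by omega
          have e1 : C.R (q + 1) p.1 = q + C.κ + 1 := by
            unfold CM.R
            rw [if_neg (Nat.succ_ne_zero q), Nat.add_sub_cancel, if_pos hj,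
              if_neg (by omega), if_pos ho0]
            omega
          have e2 : ∀ b, C.V (q + 1) p.1 b = b := by
            intro b
            unfold CM.V
            rw [if_neg (Nat.succ_ne_zero q), if_neg (by omega)]
          rw [e1, e2, hc, ho0, LStep_sop_one, Nat.add_mod_right, Nat.add_div_right _ hκ,
            LStep_tail, hj]
      · rw [LStep_sop_two ho]
        by_cases hq : q < C.κ
        · have e2 : ∀ b, C.V (q + 1) p.1 b = C.op p.1 - 2 := by
            intro b
            unfold CM.V
            rw [if_neg (Nat.succ_ne_zero q), Nat.add_sub_cancel, if_pos ⟨hj, ho, hq⟩]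
          rw [e2, Nat.div_eq_of_lt hq]
          rfl
        · have e1 : C.R (q + 1) p.1 = (q - C.κ) + 1 := by
            unfold CM.R
            rw [if_neg (Nat.succ_ne_zero q), Nat.add_sub_cancel, if_pos hj,
              if_neg (by omega), if_neg (by omega), if_neg hq]
            omega
          have e2 : ∀ b, C.V (q + 1) p.1 b = b := by
            intro b
            unfold CM.V
            rw [if_neg (Nat.succ_ne_zero q), Nat.add_sub_cancel, if_neg (by
              rintro ⟨-, -, h3⟩
              exact hq h3)]
          have e3 : q = (q - C.κ) + C.κ := by omega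
          have e4 : q / C.κ = (q - C.κ) / C.κ + 1 := by
            conv_lhs => rw [e3]
            rw [Nat.add_div_right _ hκ]
          have e5 : (q - C.κ) % C.κ = C.stk p.1 := by
            rw [← hj]
            conv_rhs => rw [e3]
            rw [Nat.add_mod_right]
          rw [e1, e2, hc, e4, e5]
          rfl
    · rw [if_neg hj]
      have e1 : C.R (q + 1) p.1 = q + 1 := by
        unfold CM.R
        rw [if_neg (Nat.succ_ne_zero q), Nat.add_sub_cancel, if_neg hj]
      have e2 : ∀ b, C.V (q + 1) p.1 b = b := by
        intro b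
        unfold CM.V
        rw [if_neg (Nat.succ_ne_zero q), Nat.add_sub_cancel, if_neg (by
          rintro ⟨h1, -, -⟩
          exact hj h1)]
      rw [e1, e2, hc]

/-- The initial configuration. -/
def linit (M : CD) (x : List Bool) : LC :=
  (M.ini, (List.replicate M.C.κ []).set M.ks (x.map M.code))

theorem length_linit (M : CD) (x : List Bool) : (linit M x).2.length = M.C.κ := by
  rw [linit, List.length_set, List.length_replicate]

theorem cells_linit (M : CD) (x : List Bool) :
    cells M.C.κ (linit M x) = initc M.ini M.ks M.C.κ M.code x := by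
  funext pos
  cases pos with
  | zero => rfl
  | succ q =>
    unfold cells initc
    rw [if_neg (Nat.succ_ne_zero q), if_neg (Nat.succ_ne_zero q), Nat.add_sub_cancel]
    change (((List.replicate M.C.κ []).set M.ks (x.map M.code)).getD (q % M.C.κ) []).getD
      (q / M.C.κ) 0 = _
    rw [LStep_getD_set _ _ _ _ _ (by rw [List.length_replicate]; exact M.ks_lt)]
    by_cases hj : q % M.C.κ = M.ks
    · rw [if_pos hj, if_pos hj, List.getD_eq_getElem?_getD, List.getElem?_map]
      cases x[q / M.C.κ]? <;> rfl
    · rw [if_neg hj, if_neg hj]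
      have h1 : (List.replicate M.C.κ ([] : List ℕ)).getD (q % M.C.κ) [] = [] := by
        rw [List.getD_eq_getElem?_getD, List.getElem?_replicate]
        split_ifs <;> rfl
      rw [h1]
      rfl

/-- The configuration after `t` steps. -/
theorem cells_iter (M : CD) (x : List Bool) (t : ℕ) :
    cells M.C.κ ((lstep M.C)^[t] (linit M x)) = conf M x t := by
  have hlen : ∀ t, ((lstep M.C)^[t] (linit M x)).2.length = M.C.κ := by
    intro t
    induction t with
    | zero => exact length_linit M x
    | succ t ih => rw [Function.iterate_succ_apply', length_lstep, ih]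
  induction t with
  | zero => exact cells_linit M x
  | succ t ih =>
    unfold conf at ih ⊢
    rw [Function.iterate_succ_apply', Function.iterate_succ_apply', cells_lstep _ _ (hlen t), ih]

/-- the element number `k` of the list coded by a tree -/
private def LStep_get : ℕ → V → V
  | 0, w => V.hd w
  | k + 1, w => LStep_get k (V.tl w)

/-- replacing the element number `k` of the list coded by a tree -/
private def LStep_set : ℕ → V → V → V
  | 0, x, w => .node x (V.tl w)
  | k + 1, x, w => .node (V.hd w) (LStep_set k x (V.tl w))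

/-- case distinction by the length of the spine of `G v` -/
private def LStep_sw : ℕ → (ℕ → V → V) → (V → V) → (V → V) → V → V
  | 0, _, H', _, v => H' v
  | n + 1, H, H', G, v =>
    V.ifnil (G v) (H 0 v) (LStep_sw n (fun i => H (i + 1)) H' (fun v => V.tl (G v)) v)

/-- the new stack -/
private def LStep_new (o : ℕ) (s : V) : V :=
  if o = 0 then s else if o = 1 then V.tl s else .node (V.una (o - 2)) s

private def LStep_AB (C : CM) (a b : ℕ) (v : V) : V :=
  .node (V.una (C.nx a b)) (LStep_set (C.stk a)
    (LStep_new (C.op a) (LStep_get (C.stk a) (V.tl v))) (V.tl v))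

private def LStep_A (C : CM) (a : ℕ) : V → V :=
  LStep_sw C.M0 (LStep_AB C a) (LStep_AB C a C.M0)
    (fun v => V.hd (LStep_get (C.stk a) (V.tl v)))

private def LStep_F (C : CM) : V → V :=
  LStep_sw C.M0 (LStep_A C) (LStep_A C C.M0) V.hd

private theorem LStep_get_lin (k : ℕ) {W : V → V} (hW : Lin W) :
    Lin fun v => LStep_get k (W v) := by
  induction k generalizing W with
  | zero => exact Lin.hd.comp hW
  | succ k ih => exact ih (Lin.tl.comp hW)

private theorem LStep_set_lin (k : ℕ) {X W : V → V} (hX : Lin X) (hW : Lin W) :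
    Lin fun v => LStep_set k (X v) (W v) := by
  induction k generalizing W with
  | zero => exact hX.node (Lin.tl.comp hW)
  | succ k ih => exact (Lin.hd.comp hW).node (ih (Lin.tl.comp hW))

private theorem LStep_sw_lin (n : ℕ) {H : ℕ → V → V} {H' G : V → V} (hH : ∀ i, Lin (H i))
    (hH' : Lin H') (hG : Lin G) : Lin (LStep_sw n H H' G) := by
  induction n generalizing H G with
  | zero => exact hH'
  | succ n ih => exact hG.ifnil (hH 0) (ih (fun i => hH (i + 1)) (Lin.tl.comp hG))

private theorem LStep_new_lin (o : ℕ) {S : V → V} (hS : Lin S) :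
    Lin fun v => LStep_new o (S v) := by
  unfold LStep_new
  by_cases h0 : o = 0
  · simp only [if_pos h0]
    exact hS
  · by_cases h1 : o = 1
    · simp only [if_neg h0, if_pos h1]
      exact Lin.tl.comp hS
    · simp only [if_neg h0, if_neg h1]
      exact (Lin.const _).node hS

private theorem LStep_AB_lin (C : CM) (a b : ℕ) : Lin (LStep_AB C a b) :=
  (Lin.const _).node (LStep_set_lin _ (LStep_new_lin _ (LStep_get_lin _ Lin.tl)) Lin.tl)

private theorem LStep_A_lin (C : CM) (a : ℕ) : Lin (LStep_A C a) :=
  LStep_sw_lin _ (fun i => LStep_AB_lin C a i) (LStep_AB_lin C a _)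
    (Lin.hd.comp (LStep_get_lin _ Lin.tl))

private theorem LStep_F_lin (C : CM) : Lin (LStep_F C) :=
  LStep_sw_lin _ (fun i => LStep_A_lin C i) (LStep_A_lin C _) Lin.hd

private theorem LStep_sw_eq (n : ℕ) (H : ℕ → V → V) (H' G : V → V) (v : V) :
    LStep_sw n H H' G v = if (G v).spine < n then H (G v).spine v else H' v := by
  induction n generalizing H G with
  | zero => rfl
  | succ n ih =>
    change V.ifnil (G v) (H 0 v) (LStep_sw n (fun i => H (i + 1)) H' (fun v => V.tl (G v)) v) = _
    rw [ih]
    cases hG : G v with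
    | nil =>
      have h0 : (V.nil).spine < n + 1 := Nat.succ_pos n
      rw [if_pos h0]
      rfl
    | node a b =>
      change (if b.spine < n then H (b.spine + 1) v else H' v) =
        if b.spine + 1 < n + 1 then H (b.spine + 1) v else H' v
      simp only [Nat.succ_lt_succ_iff]

private theorem LStep_hd_tl (w : V) : (V.hd w).size + (V.tl w).size + 1 ≤ w.size + 2 := by
  cases w with
  | nil => exact le_rfl
  | node a b => exact Nat.le_add_right _ 2

private theorem LStep_set_size (k : ℕ) (x w : V) :
    (LStep_set k x w).size + (LStep_get k w).size ≤ w.size + x.size + 2 * (k + 1) := by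
  induction k generalizing w with
  | zero =>
    have h := LStep_hd_tl w
    change x.size + (V.tl w).size + 1 + (V.hd w).size ≤ _
    omega
  | succ k ih =>
    have h := LStep_hd_tl w
    have h1 := ih (V.tl w)
    change (V.hd w).size + (LStep_set k x (V.tl w)).size + 1 + (LStep_get k (V.tl w)).size ≤ _
    omega

private theorem LStep_new_size (o : ℕ) (s : V) : (LStep_new o s).size ≤ s.size + 2 * o := by
  unfold LStep_new
  split_ifs with h0 h1
  · omega
  · have := V.size_tl_le s
    omega
  · change (V.una (o - 2)).size + s.size + 1 ≤ _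
    rw [V.size_una]
    omega

private theorem LStep_AB_size (C : CM) (a b : ℕ) (v : V) :
    (LStep_AB C a b v).size ≤ v.size + (4 * C.M0 + 2 * C.κ + 10) := by
  have h1 := LStep_set_size (C.stk a) (LStep_new (C.op a) (LStep_get (C.stk a) (V.tl v))) (V.tl v)
  have h2 := LStep_new_size (C.op a) (LStep_get (C.stk a) (V.tl v))
  have h3 := V.size_tl_le v
  have h4 := C.stk_lt a
  have h5 := C.op_lt a
  have h6 := C.nx_lt a b
  change (V.una (C.nx a b)).size + (LStep_set _ _ _).size + 1 ≤ _
  rw [V.size_una]
  omega

private theorem LStep_A_size (C : CM) (a : ℕ) (v : V) :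
    (LStep_A C a v).size ≤ v.size + (4 * C.M0 + 2 * C.κ + 10) := by
  rw [LStep_A, LStep_sw_eq]
  split_ifs
  · exact LStep_AB_size C a _ v
  · exact LStep_AB_size C a _ v

private theorem LStep_get_enc (k : ℕ) (l : List (List ℕ)) :
    LStep_get k (enc l) = enc (l.getD k []) := by
  induction k generalizing l with
  | zero => cases l <;> rfl
  | succ k ih =>
    cases l with
    | nil =>
      change LStep_get k (enc ([] : List (List ℕ))) = _
      rw [ih]
      rfl
    | cons a l => exact ih l

private theorem LStep_set_enc (k : ℕ) (s : List ℕ) (l : List (List ℕ)) (h : k < l.length) :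
    LStep_set k (enc s) (enc l) = enc (l.set k s) := by
  induction k generalizing l with
  | zero =>
    cases l with
    | nil => exact absurd h (Nat.not_lt_zero _)
    | cons a l => rfl
  | succ k ih =>
    cases l with
    | nil => exact absurd h (Nat.not_lt_zero _)
    | cons a l =>
      change V.node (enc a) (LStep_set k (enc s) (enc l)) = _
      rw [ih l (Nat.lt_of_succ_lt_succ h)]
      rfl

private theorem LStep_new_enc (o : ℕ) (s : List ℕ) : LStep_new o (enc s) = enc (sop o s) := by
  unfold LStep_new sop
  by_cases h0 : o = 0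
  · rw [if_pos h0, if_pos h0]
  · by_cases h1 : o = 1
    · rw [if_neg h0, if_neg h0, if_pos h1, if_pos h1]
      cases s <;> rfl
    · rw [if_neg h0, if_neg h0, if_neg h1, if_neg h1]
      rfl

private theorem LStep_hd_enc (s : List ℕ) : (V.hd (enc s)).spine = s.headD 0 := by
  cases s with
  | nil => rfl
  | cons a s => exact V.spine_una a

private theorem LStep_AB_enc (C : CM) (a b : ℕ) (p : LC) (h : p.2.length = C.κ) :
    LStep_AB C a b (enc p) = enc ((C.nx a b,
      p.2.set (C.stk a) (sop (C.op a) (p.2.getD (C.stk a) []))) : LC) := by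
  change V.node (V.una (C.nx a b)) (LStep_set (C.stk a)
    (LStep_new (C.op a) (LStep_get (C.stk a) (enc p.2))) (enc p.2)) = _
  rw [LStep_get_enc, LStep_new_enc, LStep_set_enc _ _ _ (by rw [h]; exact C.stk_lt a)]
  rfl

private theorem LStep_A_enc (C : CM) (a : ℕ) (p : LC) (h : p.2.length = C.κ) :
    LStep_A C a (enc p) = enc ((C.nx a ((p.2.getD (C.stk a) []).headD 0),
      p.2.set (C.stk a) (sop (C.op a) (p.2.getD (C.stk a) []))) : LC) := by
  rw [LStep_A, LStep_sw_eq]
  change (if (V.hd (LStep_get (C.stk a) (enc p.2))).spine < C.M0 then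
    LStep_AB C a (V.hd (LStep_get (C.stk a) (enc p.2))).spine (enc p)
      else LStep_AB C a C.M0 (enc p)) = _
  rw [LStep_get_enc, LStep_hd_enc]
  split_ifs with hb
  · exact LStep_AB_enc C a _ p h
  · rw [LStep_AB_enc C a _ p h, C.nx_zero a _ (fun hh => hb hh.2),
      C.nx_zero a C.M0 (fun hh => lt_irrefl _ hh.2)]

theorem exists_lstepV (C : CM) : ∃ F : V → V, Lin F ∧
    (∃ c₀ : ℕ, ∀ v, (F v).size ≤ v.size + c₀) ∧
    ∀ p : LC, p.2.length = C.κ → F (enc p) = enc (lstep C p) := by
  refine ⟨LStep_F C, LStep_F_lin C, ⟨4 * C.M0 + 2 * C.κ + 10, fun v => ?_⟩, fun p h => ?_⟩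
  · rw [LStep_F, LStep_sw_eq]
    split_ifs
    · exact LStep_A_size C _ v
    · exact LStep_A_size C _ v
  · rw [LStep_F, LStep_sw_eq]
    have h1 : (V.hd (enc p)).spine = p.1 := V.spine_una p.1
    rw [h1]
    unfold lstep
    split_ifs with ha
    · exact LStep_A_enc C p.1 p h
    · rw [LStep_A_enc C _ p h, C.stk_zero C.M0 le_rfl, C.op_zero C.M0 le_rfl,
        C.stk_zero p.1 (not_lt.1 ha), C.op_zero p.1 (not_lt.1 ha),
        C.nx_zero p.1 _ (fun hh => ha hh.1), C.nx_zero C.M0 _ (fun hh => lt_irrefl _ hh.1)]

end Pool.Agent.BPD
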