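import Pool.Agent.BPD.CloA

/-!
# Only the lowest row matters

`half (0, 1)` is the set of the sites with negative second coordinate.

PROOF of `cost_lift`. Let `U = lift b R`, `H = half (0, 1)`.
(1) Let `Z` be disjoint from `H` and let `Z₀ = {t | (t, 0) ∈ Z}`. For every `t`:
`(t, 0) ∈ clo U (H ∪ Z)` iff `t ∈ clo1 (flat b R) Z₀`. `→`: `clo_least` with the set `P` of all sites
`x` with `x.2 ≠ 0` or `x.1 ∈ clo1 (flat b R) Z₀`: if `x + X ⊆ P` for a rule `X` of `U` and `x.2 = 0` then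
`x.1` plus the elements of the corresponding rule of `flat b R` are in the closure. `←`:
`clo1_least`; the site `x + (0, -1)` is in `H`.
(2) `clo U (H ∪ Z) \ H` is contained in the set of the `x` with `0 ≤ x.2`. If
`clo1 (flat b R) Z₀` is finite and `Z` is finite then `clo U (H ∪ Z) \ H` is finite: let `F` be the
finite set of the first coordinates `t` with `t ∈ clo1 (flat b R) Z₀` or `(t, y) ∈ Z` for some `y`, and
`m ≥ 0` a bound for the second coordinates of `Z`. By `clo_least` the closure is contained in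
`P = {x | x.2 < 0 ∨ (x.2 = 0 ∧ x.1 ∈ clo1 (flat b R) Z₀) ∨ (0 < x.2 ∧ x.2 ≤ m ∧ x.1 ∈ F)}`: let
`x + X ⊆ P`, `X` a rule of `U`. It contains `(0, -1)` and an element `(c, 0)` with
`c ≠ 0`. If `x.2 > m` then `x + (c, 0) ∉ P`, impossible. If `0 < x.2 ≤ m` then `x + (0, -1) ∈ P` has
the nonnegative second coordinate `x.2 - 1`, so `x.1 ∈ F` (note `clo1 ⊆ F`). If `x.2 = 0` use the
rule of `flat b R`.
(3) `≤`: let `Z₀` be a set of integers with infinite closure under `flat b R`; `Z = Z₀ × {0}` has the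
same `encard` (`Function.Injective.encard_image`), is disjoint from `H`, and
`clo U (H ∪ Z) \ H` contains the infinite set of the `(t, 0)`, `t ∈ clo1 (flat b R) Z₀` (by (1)).
`≥`: let `Z` be disjoint from `H` with `clo U (H ∪ Z) \ H` infinite. If `Z` is infinite,
`Z.encard = ⊤`. If `Z` is finite, then by (2) `clo1 (flat b R) Z₀` is infinite, and
`a1 (flat b R) ≤ Z₀.encard ≤ Z.encard` (`Z₀` is mapped injectively into `Z` by `t ↦ (t, 0)`).
(`hR` is used only for: the rules of `R` are not empty and do not contain `0`.)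
-/

set_option autoImplicit false

namespace Pool.Agent.BPD

open Set

private theorem Row_mem_half {x : ℤ × ℤ} : x ∈ half (0, 1) ↔ x.2 < 0 := by
  unfold half
  rw [Set.mem_setOf_eq, mul_zero, mul_one, zero_add]
  exact_mod_cast Iff.rfl

/-- the rules of `lift` come from the rules of `flat` -/
private theorem Row_rule {R : Finset (Finset ℤ)} {b : ℕ} {X : Finset (ℤ × ℤ)}
    (hX : X ∈ lift b R) : ∃ Y ∈ flat b R, ∀ y, y ∈ X ↔ y = (0, -1) ∨ ∃ t ∈ Y, y = (t, 0) := by
  unfold lift at hX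
  rw [Finset.mem_insert, Finset.mem_image] at hX
  rcases hX with rfl | ⟨X', hX', rfl⟩
  · refine ⟨{(1 : ℤ), (b : ℤ)}, Finset.mem_insert_self _ _, fun y => ?_⟩
    simp only [Finset.mem_insert, Finset.mem_singleton]
    constructor
    · rintro (h | h | h)
      · exact Or.inr ⟨1, Or.inl rfl, h⟩
      · exact Or.inr ⟨b, Or.inr rfl, h⟩
      · exact Or.inl h
    · rintro (h | ⟨t, rfl | rfl, h⟩)
      · exact Or.inr (Or.inr h)
      · exact Or.inl h
      · exact Or.inr (Or.inl h)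
  · refine ⟨X'.image fun t => (b : ℤ) * t,
      Finset.mem_insert_of_mem (Finset.mem_image_of_mem _ hX'), fun y => ?_⟩
    rw [Finset.mem_insert]
    refine or_congr Iff.rfl ?_
    rw [Finset.mem_image]
    constructor
    · rintro ⟨t, ht, rfl⟩
      exact ⟨(b : ℤ) * t, Finset.mem_image_of_mem _ ht, rfl⟩
    · rintro ⟨t, ht, rfl⟩
      obtain ⟨t', ht', rfl⟩ := Finset.mem_image.1 ht
      exact ⟨t', ht', rfl⟩

private theorem Row_rule' {R : Finset (Finset ℤ)} {b : ℕ} {Y : Finset ℤ}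
    (hY : Y ∈ flat b R) : ∃ X ∈ lift b R, ∀ y ∈ X, y = (0, -1) ∨ ∃ t ∈ Y, y = (t, 0) := by
  unfold flat at hY
  rw [Finset.mem_insert, Finset.mem_image] at hY
  rcases hY with rfl | ⟨X', hX', rfl⟩
  · refine ⟨_, Finset.mem_insert_self _ _, fun y hy => ?_⟩
    simp only [Finset.mem_insert, Finset.mem_singleton] at hy ⊢
    rcases hy with h | h | h
    · exact Or.inr ⟨1, Or.inl rfl, h⟩
    · exact Or.inr ⟨b, Or.inr rfl, h⟩
    · exact Or.inl h
  · refine ⟨_, Finset.mem_insert_of_mem (Finset.mem_image_of_mem _ hX'), fun y hy => ?_⟩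
    rw [Finset.mem_insert, Finset.mem_image] at hy
    rcases hy with h | ⟨t, ht, rfl⟩
    · exact Or.inl h
    · exact Or.inr ⟨(b : ℤ) * t, Finset.mem_image_of_mem _ ht, rfl⟩

private theorem Row_ne {R : Finset (Finset ℤ)} (hR : Neg1 R) {b : ℕ} {Y : Finset ℤ}
    (hY : Y ∈ flat b R) : Y.Nonempty := by
  unfold flat at hY
  rw [Finset.mem_insert, Finset.mem_image] at hY
  rcases hY with rfl | ⟨X', hX', rfl⟩
  · exact ⟨1, Finset.mem_insert_self _ _⟩
  · exact (hR X' hX').1.image _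

private theorem Row_mp {R : Finset (Finset ℤ)} {b : ℕ} {Z : Set (ℤ × ℤ)} {t : ℤ}
    (h : (t, (0 : ℤ)) ∈ clo (lift b R) (half (0, 1) ∪ Z)) :
    t ∈ clo1 (flat b R) {t | (t, (0 : ℤ)) ∈ Z} := by
  have h1 : clo (lift b R) (half (0, 1) ∪ Z) ⊆
      {x | x.2 = 0 → x.1 ∈ clo1 (flat b R) {t | (t, (0 : ℤ)) ∈ Z}} := by
    refine clo_least ?_ ?_
    · rintro x (hx | hx) h0
      · have := Row_mem_half.1 hx
        omega
      · refine subset_clo1 _ _ ?_
        rw [Set.mem_setOf_eq, ← h0]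
        exact hx
    · intro X hX x hx h0
      obtain ⟨Y, hY, hXY⟩ := Row_rule hX
      refine clo1_rule hY fun t ht => ?_
      have h2 := hx (t, 0) ((hXY _).2 (Or.inr ⟨t, ht, rfl⟩))
      refine h2 ?_
      rw [Prod.snd_add, h0, zero_add]
  exact h1 h rfl

private theorem Row_mpr {R : Finset (Finset ℤ)} {b : ℕ} {Z : Set (ℤ × ℤ)} {t : ℤ}
    (h : t ∈ clo1 (flat b R) {t | (t, (0 : ℤ)) ∈ Z}) :
    (t, (0 : ℤ)) ∈ clo (lift b R) (half (0, 1) ∪ Z) := by
  have h1 : clo1 (flat b R) {t | (t, (0 : ℤ)) ∈ Z} ⊆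
      {t | (t, (0 : ℤ)) ∈ clo (lift b R) (half (0, 1) ∪ Z)} := by
    refine clo1_least ?_ ?_
    · intro t ht
      exact subset_clo _ _ (Or.inr ht)
    · intro Y hY t ht
      obtain ⟨X, hX, hXY⟩ := Row_rule' hY
      refine clo_rule hX fun y hy => ?_
      rcases hXY y hy with rfl | ⟨s, hs, rfl⟩
      · refine subset_clo _ _ (Or.inl (Row_mem_half.2 ?_))
        rw [Prod.snd_add]
        norm_num
      · have h2 := ht s hs
        rw [Prod.mk_add_mk, add_zero]
        exact h2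
  exact h1 h

private theorem Row_fin {R : Finset (Finset ℤ)} (hR : Neg1 R) {b : ℕ} {Z : Set (ℤ × ℤ)}
    (hZ : Z.Finite) (h : (clo1 (flat b R) {t | (t, (0 : ℤ)) ∈ Z}).Finite) :
    (clo (lift b R) (half (0, 1) ∪ Z) \ half (0, 1)).Finite := by
  obtain ⟨m, hm⟩ := (hZ.image Prod.snd).bddAbove
  have hT : (clo1 (flat b R) {t | (t, (0 : ℤ)) ∈ Z} ∪ Prod.fst '' Z).Finite :=
    h.union (hZ.image _)
  have h1 : clo (lift b R) (half (0, 1) ∪ Z) ⊆
      {x | x.2 < 0 ∨ (x.1 ∈ clo1 (flat b R) {t | (t, (0 : ℤ)) ∈ Z} ∪ Prod.fst '' Z ∧ x.2 ≤ m ∧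
        (x.2 = 0 → x.1 ∈ clo1 (flat b R) {t | (t, (0 : ℤ)) ∈ Z}))} := by
    refine clo_least ?_ ?_
    · rintro x (hx | hx)
      · exact Or.inl (Row_mem_half.1 hx)
      · refine Or.inr ⟨Or.inr ⟨x, hx, rfl⟩, hm ⟨x, hx, rfl⟩, fun h0 => subset_clo1 _ _ ?_⟩
        rw [Set.mem_setOf_eq, ← h0]
        exact hx
    · intro X hX x hx
      by_cases hx0 : x.2 < 0
      · exact Or.inl hx0
      · right
        obtain ⟨Y, hY, hXY⟩ := Row_rule hX
        have hrow : ∀ t ∈ Y, x.2 ≤ m ∧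
            (x.2 = 0 → x.1 + t ∈ clo1 (flat b R) {t | (t, (0 : ℤ)) ∈ Z}) := by
          intro t ht
          rcases hx (t, 0) ((hXY _).2 (Or.inr ⟨t, ht, rfl⟩)) with h2 | h2
          · rw [Prod.snd_add, add_zero] at h2
            exact absurd h2 hx0
          · obtain ⟨-, h3, h4⟩ := h2
            rw [Prod.snd_add, add_zero] at h3 h4
            exact ⟨h3, h4⟩
        obtain ⟨c, hc⟩ := Row_ne hR hY
        have h5 : x.2 = 0 → x.1 ∈ clo1 (flat b R) {t | (t, (0 : ℤ)) ∈ Z} := fun h0 =>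
          clo1_rule hY fun t ht => (hrow t ht).2 h0
        refine ⟨?_, (hrow c hc).1, h5⟩
        by_cases h0 : x.2 = 0
        · exact Or.inl (h5 h0)
        · rcases hx (0, -1) ((hXY _).2 (Or.inl rfl)) with h2 | h2
          · rw [Prod.snd_add] at h2
            simp only at h2
            omega
          · have h6 := h2.1
            rw [Prod.fst_add, add_zero] at h6
            exact h6
  refine (hT.prod (Set.finite_Icc 0 m)).subset ?_
  rintro x ⟨hx, hx'⟩
  have h2 : ¬ x.2 < 0 := fun h => hx' (Row_mem_half.2 h)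
  rcases h1 hx with h3 | h3
  · exact absurd h3 h2
  · exact ⟨h3.1, not_lt.1 h2, h3.2.1⟩

private theorem Row_inj : Function.Injective fun t : ℤ => (t, (0 : ℤ)) := fun _ _ h =>
  congrArg Prod.fst h

theorem cost_lift {R : Finset (Finset ℤ)} (hR : Neg1 R) {b : ℕ} (hb : 1 ≤ b) :
    cost (lift b R) (0, 1) = a1 (flat b R) := by
  refine le_antisymm ?_ ?_
  · refine le_a1 fun Z₀ hZ₀ => ?_
    have e1 : {t : ℤ | (t, (0 : ℤ)) ∈ (fun t : ℤ => (t, (0 : ℤ))) '' Z₀} = Z₀ := by
      ext t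
      constructor
      · rintro ⟨s, hs, h⟩
        have h' : s = t := congrArg Prod.fst h
        rw [← h']
        exact hs
      · intro ht
        exact ⟨t, ht, rfl⟩
    rw [← Row_inj.encard_image Z₀]
    refine iInf₂_le _ ⟨?_, ?_⟩
    · rw [Set.disjoint_left]
      rintro _ ⟨t, -, rfl⟩ h
      exact lt_irrefl (0 : ℤ) (Row_mem_half.1 h)
    · refine (hZ₀.image Row_inj.injOn).mono ?_
      rintro _ ⟨t, ht, rfl⟩
      refine ⟨Row_mpr ?_, fun h => lt_irrefl (0 : ℤ) (Row_mem_half.1 h)⟩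
      rw [e1]
      exact ht
  · refine le_iInf₂ fun Z hZ => ?_
    obtain ⟨-, hinf⟩ := hZ
    by_cases hfin : Z.Finite
    · have h1 : (clo1 (flat b R) {t | (t, (0 : ℤ)) ∈ Z}).Infinite := fun h =>
        hinf (Row_fin hR hfin h)
      refine (a1_le h1).trans ?_
      rw [← Row_inj.encard_image]
      refine Set.encard_le_encard ?_
      rintro _ ⟨t, ht, rfl⟩
      exact ht
    · rw [Set.Infinite.encard_eq hfin]
      exact le_top

end Pool.Agent.BPD
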