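import Pool.Agent.BPD.DirB
import Pool.Agent.BPD.Row
import Pool.Agent.BPD.Fold

/-!
# The difficulty of the family `lift b R`
-/

set_option autoImplicit false

namespace Pool.Agent.BPD

theorem difficulty_lift_eq {R : Finset (Finset ℤ)} (hR : Neg1 R) (hne : R.Nonempty) {b : ℕ}
    (hb : 2 ≤ b) : Critical (lift b R) ∧ difficulty (lift b R) = min (b : ℕ∞) (a1 R) :=
  ⟨critical_lift hR hne (by omega), by
    rw [difficulty_lift hR hne (by omega), cost_lift hR (by omega), a1_flat hR hb]⟩

end Pool.Agent.BPD
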