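import Pool.Agent.PF.Mach

/-!
# Functions on trees computable in linear time

`Lin F`: computed by a structured program (`RunsBy`, `Pool/Agent/PF/MachDefs.lean`) in at most
`C * size` steps; note `1 ≤ size` (`V.size_pos`).

PROOFS. In `Pool/Agent/PF/Mach1.lean` the proofs of `PT.id`, `PT.const`, `PT.hd`, `PT.tl`, `PT.ifnil`
contain linear bounds (`have h : RunsBy .. fun v => 20 * v.size + 20` and so on); copy these
proofs (and the private lemmas which they use, renamed). `Lin.size_le`: `RunsBy.size_le`. `Lin.comp`:
`RunsBy.comp` and `Lin.size_le` for `G`. `Lin.node`: `RunsBy.node`. For `Lin.ifnil` copy the proof of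
`PT.ifnil`: the bound there is `21 * v.size + 20 + 9 * (size bound of C v) + ..`; with linear bounds
everywhere it is linear. `Lin.pt`: `C * n ≤ (n + 2) ^ (C + 1)`. `code_lin`: the program works on the
register `b`, which contains `v.code ++ rest`: move `v.code` to the register `b + 1` with the private program
`tk` of `Mach1.lean` (see `runs_tk` there; it uses one more register for counting and leaves the code
reversed in `b + 1`), then push `false` (the code of the empty list) on `b` and loop on the register `b + 1`:
for the symbol `a` push the code of `V.bool a` (reversed, so that it is readable from the top) and then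
`true` on `b`. As the code is stored reversed in `b + 1`, its last symbol is on top, which is the right order
for building the list from its end. The code of the list `a :: l` is
`true :: ((V.bool a).code ++ (enc l).code)`.
-/

set_option autoImplicit false

namespace Pool.Agent.BPD

open Pool.Agent.PF
open Pool.Agent.PT Function

/-! ### Moving trees -/

/-- The linCodes of a list of trees. -/
private def linCodes (l : List V) : List Bool := (l.map V.code).flatten

@[simp] private theorem linCodes_nil : linCodes [] = [] := rfl

private theorem linCodes_cons (v : V) (l : List V) : linCodes (v :: l) = v.code ++ linCodes l := by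
  simp [linCodes]

private theorem linCodes_node (a b : V) (l : List V) :
    linCodes (V.node a b :: l) = true :: linCodes (a :: b :: l) := by
  simp [linCodes, V.code]

private theorem linCodes_leaf (l : List V) : linCodes (V.nil :: l) = false :: linCodes l := by
  simp [linCodes, V.code]

/-- The body of the loop of `linTk`. -/
private def linTkBody (r r' e : ℕ) : Bool → Prog Bool := fun _ =>
  Prog.pop r Prog.skip fun a => Prog.seq (Prog.push r' a)
    (match a with
      | true => Prog.seq (Prog.push e true) (Prog.push e true)
      | false => Prog.skip)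

/-- Move the tree on top of `r` onto `r'` (reversed); `e` is an empty scratch register. -/
private def linTk (r r' e : ℕ) : Prog Bool :=
  Prog.seq (Prog.push e true) (Prog.loop e (linTkBody r r' e))

private theorem lin_runs_tk_aux (r r' e : ℕ) (h1 : r ≠ r') (h2 : r ≠ e) (h3 : r' ≠ e) :
    ∀ (n : ℕ) (l : List V) (rest : List Bool) (s : Store Bool), (linCodes l).length = n →
      s r = linCodes l ++ rest → s e = un true l.length →
      Runs (Prog.loop e (linTkBody r r' e)) s
        (update (update (update s e []) r rest) r' ((linCodes l).reverse ++ s r')) (6 * n + 1)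
  | n, [], rest, s, hn, hr, he => by
    refine (Runs.loopNil he).conv ?_ (by omega)
    funext i
    by_cases e1 : i = r'
    · subst e1; simp
    · by_cases e2 : i = r
      · subst e2; simp [e1, hr]
      · by_cases e3 : i = e
        · subst e3; simp [e1, e2, he]
        · simp [e1, e2, e3]
  | 0, V.nil :: l, rest, s, hn, hr, he => by
    rw [linCodes_leaf] at hn
    simp at hn
  | 0, V.node a b :: l, rest, s, hn, hr, he => by
    rw [linCodes_node] at hn
    simp at hn
  | n + 1, V.nil :: l, rest, s, hn, hr, he => by
    rw [linCodes_leaf] at hn hr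
    set s1 : Store Bool := update s e (un true l.length) with hs1
    set s2 : Store Bool := update s1 r (linCodes l ++ rest) with hs2
    set s3 : Store Bool := update s2 r' (false :: s2 r') with hs3
    have g0 : Runs (Prog.seq (Prog.push r' false) Prog.skip) s2 s3 (1 + 1) :=
      (Runs.push r' false s2).seq (Runs.skip s3)
    have hs1r : s1 r = false :: (linCodes l ++ rest) := by
      rw [hs1, Function.update_of_ne h2, hr]; rfl
    have g1 : Runs (linTkBody r r' e true) s1 s3 (1 + 1 + 1) :=
      Runs.popCons (p₀ := Prog.skip) hs1r g0
    have g2 := lin_runs_tk_aux r r' e h1 h2 h3 n l rest s3 (by simpa using hn)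
      (by simp [hs3, hs2, h1]) (by simp [hs3, hs2, hs1, h2.symm, h3.symm])
    have g3 := Runs.loopCons (p := linTkBody r r' e) (s := s) (r := e) (a := true)
      (l := un true l.length) (by rw [he]; rfl) g1 g2
    refine g3.conv ?_ (by omega)
    funext i
    by_cases e1 : i = r'
    · subst e1; simp [hs3, hs2, hs1, h1.symm, h3, linCodes_leaf]
    · by_cases e2 : i = r
      · subst e2; simp [e1]
      · by_cases e3 : i = e
        · subst e3; simp [e1, e2]
        · simp [hs3, hs2, hs1, e1, e2, e3]
  | n + 1, V.node a b :: l, rest, s, hn, hr, he => by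
    rw [linCodes_node] at hn hr
    set s1 : Store Bool := update s e (un true l.length) with hs1
    set s2 : Store Bool := update s1 r (linCodes (a :: b :: l) ++ rest) with hs2
    set s3 : Store Bool := update s2 r' (true :: s2 r') with hs3
    set s4 : Store Bool := update s3 e (true :: s3 e) with hs4
    set s5 : Store Bool := update s4 e (true :: s4 e) with hs5
    have g0 : Runs (Prog.seq (Prog.push r' true)
        (Prog.seq (Prog.push e true) (Prog.push e true))) s2 s5 (1 + (1 + 1)) :=
      (Runs.push r' true s2).seq ((Runs.push e true s3).seq (Runs.push e true s4))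
    have hs1r : s1 r = true :: (linCodes (a :: b :: l) ++ rest) := by
      rw [hs1, Function.update_of_ne h2, hr]; rfl
    have g1 : Runs (linTkBody r r' e true) s1 s5 (1 + (1 + 1) + 1) :=
      Runs.popCons (p₀ := Prog.skip) hs1r g0
    have g2 := lin_runs_tk_aux r r' e h1 h2 h3 n (a :: b :: l) rest s5 (by simpa using hn)
      (by simp [hs5, hs4, hs3, hs2, h1, h2])
      (by simp [hs5, hs4, hs3, hs2, hs1, h2.symm, h3.symm, un_succ])
    have g3 := Runs.loopCons (p := linTkBody r r' e) (s := s) (r := e) (a := true)
      (l := un true l.length) (by rw [he]; rfl) g1 g2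
    refine g3.conv ?_ (by omega)
    funext i
    by_cases e1 : i = r'
    · subst e1
      simp [hs5, hs4, hs3, hs2, hs1, h1.symm, h3, linCodes_node]
    · by_cases e2 : i = r
      · subst e2; simp [e1]
      · by_cases e3 : i = e
        · subst e3; simp [e1, e2]
        · simp [hs5, hs4, hs3, hs2, hs1, e1, e2, e3]

private theorem lin_runs_tk (r r' e : ℕ) (h1 : r ≠ r') (h2 : r ≠ e) (h3 : r' ≠ e) (v : V)
    (rest : List Bool) (s : Store Bool) (hr : s r = v.code ++ rest) (he : s e = []) :
    Runs (linTk r r' e) s (update (update s r rest) r' (v.code.reverse ++ s r'))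
      (6 * v.size + 2) := by
  set s1 : Store Bool := update s e (true :: s e) with hs1
  have g1 : Runs (Prog.push e true) s s1 1 := Runs.push e true s
  have g2 := lin_runs_tk_aux r r' e h1 h2 h3 v.size [v] rest s1
    (by simp [linCodes, V.code_length]) (by simp [hs1, linCodes, h2, hr])
    (by simp [hs1, he, un_succ])
  refine (g1.seq g2).conv ?_ (by omega)
  funext i
  by_cases e1 : i = r'
  · subst e1; simp [hs1, linCodes, h3]
  · by_cases e2 : i = r
    · subst e2; simp [e1]
    · by_cases e3 : i = e
      · subst e3; simp [e1, e2, he]
      · simp [hs1, e1, e2, e3]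

/-- Remove the tree on top of `b`. -/
private def linDrop (b : ℕ) : Prog Bool := Prog.seq (linTk b (b + 1) (b + 2)) (clear (b + 1))

private theorem lin_runs_drop (b : ℕ) (v : V) (rest : List Bool) (s : Store Bool)
    (hb : s b = v.code ++ rest) (h : ∀ i, b < i → s i = []) :
    Runs (linDrop b) s (update s b rest) (8 * v.size + 3) := by
  have g1 := lin_runs_tk b (b + 1) (b + 2) (by omega) (by omega) (by omega) v rest s hb
    (h _ (by omega))
  set s1 : Store Bool := update (update s b rest) (b + 1) (v.code.reverse ++ s (b + 1)) with hs1
  have g2 := runs_clear (b + 1) v.code.reverse s1 (by simp [hs1, h (b + 1) (by omega)])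
  refine (g1.seq g2).conv ?_ (by simp only [List.length_reverse, V.code_length]; omega)
  funext i
  by_cases e1 : i = b + 1
  · subst e1; simp [h (b + 1) (by omega)]
  · simp [hs1, e1]

/-- Duplicate the tree on top of `b`. -/
private def linDup (b : ℕ) : Prog Bool :=
  Prog.seq (linTk b (b + 1) (b + 2)) (Prog.seq (mv2 (b + 1) b (b + 2))
    (Prog.seq (mv (b + 2) (b + 1)) (mv (b + 1) b)))

private theorem lin_runs_dup (b : ℕ) (v : V) (rest : List Bool) (s : Store Bool)
    (hb : s b = v.code ++ rest) (h : ∀ i, b < i → s i = []) :
    Runs (linDup b) s (update s b (v.code ++ (v.code ++ rest))) (13 * v.size + 5) := by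
  have hb1 : s (b + 1) = [] := h _ (by omega)
  have hb2 : s (b + 2) = [] := h _ (by omega)
  have g1 := lin_runs_tk b (b + 1) (b + 2) (by omega) (by omega) (by omega) v rest s hb hb2
  set s1 : Store Bool := update (update s b rest) (b + 1) (v.code.reverse ++ s (b + 1)) with hs1
  have g2 := runs_mv2 (b + 1) b (b + 2) (by omega) (by omega) (by omega) v.code.reverse s1
    (by simp [hs1, hb1])
  set s2 : Store Bool := update (update (update s1 (b + 1) []) b
    (v.code.reverse.reverse ++ s1 b)) (b + 2) (v.code.reverse.reverse ++ s1 (b + 2)) with hs2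
  have g3 := runs_mv (b + 2) (b + 1) (by omega) v.code s2 (by simp [hs2, hs1, hb2])
  set s3 : Store Bool := update (update s2 (b + 2) []) (b + 1)
    (v.code.reverse ++ s2 (b + 1)) with hs3
  have g4 := runs_mv (b + 1) b (by omega) v.code.reverse s3 (by simp [hs3, hs2])
  refine (g1.seq (g2.seq (g3.seq g4))).conv ?_
    (by simp only [List.length_reverse, V.code_length]; omega)
  funext i
  by_cases e1 : i = b
  · subst e1; simp [hs3, hs2, hs1]
  · by_cases e2 : i = b + 1
    · subst e2; simp [hb1]
    · by_cases e3 : i = b + 2
      · subst e3; simp [hs3, hb2]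
      · simp [hs3, hs2, hs1, e1, e2, e3]

/-- Exchange the two trees on top of `b`. -/
private def linSwp (b : ℕ) : Prog Bool :=
  Prog.seq (linTk b (b + 1) (b + 3)) (Prog.seq (linTk b (b + 2) (b + 3))
    (Prog.seq (mv (b + 1) b) (mv (b + 2) b)))

private theorem lin_runs_swp (b : ℕ) (u v : V) (rest : List Bool) (s : Store Bool)
    (hb : s b = u.code ++ (v.code ++ rest)) (h : ∀ i, b < i → s i = []) :
    Runs (linSwp b) s (update s b (v.code ++ (u.code ++ rest))) (8 * u.size + 8 * v.size + 6) := by
  have hb1 : s (b + 1) = [] := h _ (by omega)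
  have hb2 : s (b + 2) = [] := h _ (by omega)
  have hb3 : s (b + 3) = [] := h _ (by omega)
  have g1 := lin_runs_tk b (b + 1) (b + 3) (by omega) (by omega) (by omega) u _ s hb hb3
  set s1 : Store Bool := update (update s b (v.code ++ rest)) (b + 1)
    (u.code.reverse ++ s (b + 1)) with hs1
  have g2 := lin_runs_tk b (b + 2) (b + 3) (by omega) (by omega) (by omega) v rest s1
    (by simp [hs1]) (by simp [hs1, hb3])
  set s2 : Store Bool := update (update s1 b rest) (b + 2)
    (v.code.reverse ++ s1 (b + 2)) with hs2
  have g3 := runs_mv (b + 1) b (by omega) u.code.reverse s2 (by simp [hs2, hs1, hb1])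
  set s3 : Store Bool := update (update s2 (b + 1) []) b
    (u.code.reverse.reverse ++ s2 b) with hs3
  have g4 := runs_mv (b + 2) b (by omega) v.code.reverse s3 (by simp [hs3, hs2, hs1, hb2])
  refine (g1.seq (g2.seq (g3.seq g4))).conv ?_
    (by simp only [List.length_reverse, V.code_length]; omega)
  funext i
  by_cases e1 : i = b
  · subst e1; simp [hs3, hs2]
  · by_cases e2 : i = b + 2
    · subst e2; simp [hb2]
    · by_cases e3 : i = b + 1
      · subst e3; simp [hs3, hb1]
      · simp [hs3, hs2, hs1, e1, e2, e3]

/-- Pushing a word. -/
private def linPushW (b : ℕ) : List Bool → Prog Bool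
  | [] => Prog.skip
  | a :: l => Prog.seq (linPushW b l) (Prog.push b a)

private theorem lin_runs_pushW (b : ℕ) : ∀ (l : List Bool) (s : Store Bool),
    Runs (linPushW b l) s (update s b (l ++ s b)) (l.length + 1)
  | [], s => by
    refine (Runs.skip s).conv ?_ (by simp)
    simp
  | a :: l, s => by
    have g1 := lin_runs_pushW b l s
    refine (g1.seq (Runs.push b a _)).conv ?_ (by simp)
    simp

/-- The branches of the program for the left part. -/
private def linHdP (b : ℕ) : Bool → Prog Bool
  | true => Prog.seq (linTk b (b + 1) (b + 3)) (Prog.seq (linTk b (b + 2) (b + 3))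
      (Prog.seq (clear (b + 2)) (mv (b + 1) b)))
  | false => Prog.push b false

/-- The branches of the program for the right part. -/
private def linTlP (b : ℕ) : Bool → Prog Bool
  | true => linDrop b
  | false => Prog.push b false

/-- Pushing the code of every symbol and `true`. -/
private def linCdBody (r' : ℕ) : Bool → Prog Bool
  | true => Prog.seq (Prog.push r' false) (Prog.seq (Prog.push r' false)
      (Prog.seq (Prog.push r' true) (Prog.push r' true)))
  | false => Prog.seq (Prog.push r' false) (Prog.push r' true)

private def linCd (r r' : ℕ) : Prog Bool := Prog.loop r (linCdBody r')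

private theorem lin_runs_cdBody (r' : ℕ) (a : Bool) (l : List Bool) (rest : List Bool)
    (s : Store Bool) (hs : s r' = (enc l : V).code ++ rest) :
    Runs (linCdBody r' a) s (update s r' ((enc (a :: l) : V).code ++ rest)) 4 := by
  cases a with
  | true =>
    refine ((Runs.push r' false s).seq ((Runs.push r' false _).seq
      ((Runs.push r' true _).seq (Runs.push r' true _)))).conv ?_ (by omega)
    have h1 : (enc (true :: l) : V).code = true :: true :: false :: false :: (enc l : V).code := rfl
    simp [h1, hs]
  | false =>
    refine ((Runs.push r' false s).seq (Runs.push r' true _)).conv ?_ (by omega)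
    have h1 : (enc (false :: l) : V).code = true :: false :: (enc l : V).code := rfl
    simp [h1, hs]

private theorem lin_runs_cd (r r' : ℕ) (hr : r ≠ r') : ∀ (l m : List Bool) (rest : List Bool)
    (s : Store Bool), s r = l → s r' = (enc m : V).code ++ rest →
    Runs (linCd r r') s (update (update s r []) r' ((enc (l.reverse ++ m) : V).code ++ rest))
      (5 * l.length + 1)
  | [], m, rest, s, hs, hs' => by
    refine (Runs.loopNil hs).conv ?_ (by simp)
    funext i
    by_cases h1 : i = r'
    · subst h1; simp [hs']
    · by_cases h2 : i = r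
      · subst h2; simp [h1, hs]
      · simp [h1, h2]
  | a :: l, m, rest, s, hs, hs' => by
    set s1 : Store Bool := update s r l with hs1
    have g1 := lin_runs_cdBody r' a m rest s1 (by simp [hs1, hr.symm, hs'])
    set s2 : Store Bool := update s1 r' ((enc (a :: m) : V).code ++ rest) with hs2
    have g2 := lin_runs_cd r r' hr l (a :: m) rest s2 (by simp [hs2, hs1, hr]) (by simp [hs2])
    refine (Runs.loopCons (p := linCdBody r') hs g1 g2).conv ?_
      (by simp only [List.length_cons]; omega)
    funext i
    by_cases h4 : i = r'
    · subst h4; simp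
    · by_cases h5 : i = r
      · subst h5; simp [h4]
      · simp [hs2, hs1, h4, h5]

/-- Linear time. -/
def Lin (F : V → V) : Prop := ∃ C : ℕ, RunsBy F fun v => C * v.size

theorem Lin.id : Lin fun v => v := by
  refine ⟨1, fun _ => Prog.skip, fun b s v rest h1 _ => ?_⟩
  refine (Runs.skip s).conv ?_ (by simpa using v.size_pos)
  rw [← h1, Function.update_eq_self]

theorem Lin.const (w : V) : Lin fun _ => w := by
  have h : RunsBy (fun _ => w) fun v => (8 * v.size + 3) + (w.size + 1) := by
    refine ⟨fun b => Prog.seq (linDrop b) (linPushW b w.code), fun b s v rest h1 h2 => ?_⟩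
    have g1 := lin_runs_drop b v rest s h1 h2
    have g2 := lin_runs_pushW b w.code (update s b rest)
    refine (g1.seq g2).conv ?_ (by simp only [V.code_length]; omega)
    simp
  refine ⟨12 + w.size, h.mono fun v => ?_⟩
  have := v.size_pos
  nlinarith

theorem Lin.hd : Lin V.hd := by
  have h : RunsBy V.hd fun v => 20 * v.size + 20 := by
    refine ⟨fun b => Prog.pop b Prog.skip (linHdP b), fun b s v rest h1 h2 => ?_⟩
    have hb1 : s (b + 1) = [] := h2 _ (by omega)
    have hb2 : s (b + 2) = [] := h2 _ (by omega)
    have hb3 : s (b + 3) = [] := h2 _ (by omega)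
    cases v with
    | nil =>
      have g1 := Runs.push b false (update s b rest)
      refine (Runs.popCons (p₀ := Prog.skip) (p₁ := linHdP b) (a := false) (l := rest)
        (by rw [h1]; rfl) g1).conv ?_ ?_
      · simp [V.code]
      · beta_reduce
        omega
    | node u v =>
      set s0 : Store Bool := update s b (u.code ++ (v.code ++ rest)) with hs0
      have g1 := lin_runs_tk b (b + 1) (b + 3) (by omega) (by omega) (by omega) u (v.code ++ rest)
        s0
        (by simp [hs0]) (by simp [hs0, hb3])
      set s1 : Store Bool := update (update s0 b (v.code ++ rest)) (b + 1)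
        (u.code.reverse ++ s0 (b + 1)) with hs1
      have g2 := lin_runs_tk b (b + 2) (b + 3) (by omega) (by omega) (by omega) v rest s1
        (by simp [hs1]) (by simp [hs1, hs0, hb3])
      set s2 : Store Bool := update (update s1 b rest) (b + 2)
        (v.code.reverse ++ s1 (b + 2)) with hs2
      have g3 := runs_clear (b + 2) v.code.reverse s2 (by simp [hs2, hs1, hs0, hb2])
      set s3 : Store Bool := update s2 (b + 2) [] with hs3
      have g4 := runs_mv (b + 1) b (by omega) u.code.reverse s3
        (by simp [hs3, hs2, hs1, hs0, hb1])
      refine (Runs.popCons (p₀ := Prog.skip) (p₁ := linHdP b) (a := true)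
        (l := u.code ++ (v.code ++ rest))
        (by rw [h1]; simp [V.code]) (g1.seq (g2.seq (g3.seq g4)))).conv ?_ ?_
      · funext i
        by_cases e1 : i = b
        · subst e1; simp [hs3, hs2]
        · by_cases e2 : i = b + 1
          · subst e2; simp [hb1]
          · by_cases e3 : i = b + 2
            · subst e3; simp [hs3, hb2]
            · simp [hs3, hs2, hs1, hs0, e1, e2, e3]
      · simp only [List.length_reverse, V.code_length, V.size]
        omega
  refine ⟨40, h.mono fun v => ?_⟩
  have := v.size_pos
  omega

theorem Lin.tl : Lin V.tl := by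
  have h : RunsBy V.tl fun v => 20 * v.size + 20 := by
    refine ⟨fun b => Prog.pop b Prog.skip (linTlP b), fun b s v rest h1 h2 => ?_⟩
    cases v with
    | nil =>
      have g1 := Runs.push b false (update s b rest)
      refine (Runs.popCons (p₀ := Prog.skip) (p₁ := linTlP b) (a := false) (l := rest)
        (by rw [h1]; rfl) g1).conv ?_ ?_
      · simp [V.code]
      · beta_reduce
        omega
    | node u v =>
      have g1 := lin_runs_drop b u (v.code ++ rest) (update s b (u.code ++ (v.code ++ rest)))
        (by simp) (fun i hi => by rw [Function.update_of_ne (by omega)]; exact h2 i hi)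
      refine (Runs.popCons (p₀ := Prog.skip) (p₁ := linTlP b) (a := true)
        (l := u.code ++ (v.code ++ rest))
        (by rw [h1]; simp [V.code]) g1).conv ?_ ?_
      · simp
      · simp only [V.size]
        omega
  refine ⟨40, h.mono fun v => ?_⟩
  have := v.size_pos
  omega

theorem Lin.size_le {F : V → V} (hF : Lin F) : ∃ C : ℕ, ∀ v : V, (F v).size ≤ C * v.size := by
  obtain ⟨C, hC⟩ := hF
  refine ⟨C + 1, fun v => ?_⟩
  have h1 := hC.size_le v
  rw [Nat.add_mul]
  omega

theorem Lin.comp {F G : V → V} (hF : Lin F) (hG : Lin G) : Lin fun v => F (G v) := by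
  obtain ⟨K, hK⟩ := hG.size_le
  obtain ⟨C, hC⟩ := hF
  obtain ⟨C', hC'⟩ := hG
  refine ⟨C' + C * K + 1, (hC.comp hC').mono fun v => ?_⟩
  have h1 : C * (G v).size ≤ C * (K * v.size) := Nat.mul_le_mul_left _ (hK v)
  have h2 := v.size_pos
  beta_reduce
  nlinarith

theorem Lin.node {F G : V → V} (hF : Lin F) (hG : Lin G) : Lin fun v => .node (F v) (G v) := by
  obtain ⟨C, hC⟩ := hF
  obtain ⟨C', hC'⟩ := hG
  obtain ⟨K, hK⟩ := hC.node hC'
  refine ⟨K * (C + C' + 2), hK.mono fun v => ?_⟩
  have h2 := v.size_pos
  beta_reduce
  rw [mul_assoc]
  refine Nat.mul_le_mul_left _ ?_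
  nlinarith

theorem Lin.ifnil {C F G : V → V} (hC : Lin C) (hF : Lin F) (hG : Lin G) :
    Lin fun v => V.ifnil (C v) (F v) (G v) := by
  obtain ⟨c, hc⟩ := hC
  have hsz := hc.size_le
  obtain ⟨c₁, h₁⟩ := hF
  obtain ⟨c₂, h₂⟩ := hG
  obtain ⟨pC, hpC⟩ := hc
  obtain ⟨pF, hpF⟩ := h₁
  obtain ⟨pG, hpG⟩ := h₂
  have h : RunsBy (fun v => V.ifnil (C v) (F v) (G v)) fun v =>
      21 * v.size + 20 + 9 * (c * v.size) + c₁ * v.size + c₂ * v.size := by
    refine ⟨fun b => Prog.seq (linDup b) (Prog.seq (pC b)
      (Prog.pop b Prog.skip fun x => match x with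
      | true => Prog.seq (linDrop b) (Prog.seq (linDrop b) (pG b))
      | false => pF b)), fun b s v rest h1 h2 => ?_⟩
    have key : ∀ (w : List Bool) (i : ℕ), b < i → update s b w i = [] := fun w i hi => by
      rw [Function.update_of_ne (by omega)]; exact h2 i hi
    have g1 := lin_runs_dup b v rest s h1 h2
    have g2 := hpC b (update s b (v.code ++ (v.code ++ rest))) v (v.code ++ rest) (by simp)
      (key _)
    rw [Function.update_idem] at g2
    have hs := hsz v
    cases hCv : C v with
    | nil =>
      rw [hCv] at g2
      have g3 := hpF b (update s b (v.code ++ rest)) v rest (by simp) (key _)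
      rw [Function.update_idem] at g3
      have g4 := Runs.popCons (p₀ := Prog.skip) (p₁ := fun x => match x with
        | true => Prog.seq (linDrop b) (Prog.seq (linDrop b) (pG b))
        | false => pF b) (s := update s b (V.nil.code ++ (v.code ++ rest))) (r := b) (a := false)
        (l := v.code ++ rest) (by simp [V.code]) (by rw [Function.update_idem]; exact g3)
      refine (g1.seq (g2.seq g4)).conv (by simp [hCv]) (by beta_reduce; omega)
    | node x y =>
      rw [hCv] at g2 hs
      simp only [V.size] at hs
      have g3 := lin_runs_drop b x (y.code ++ (v.code ++ rest))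
        (update s b (x.code ++ (y.code ++ (v.code ++ rest)))) (by simp) (key _)
      rw [Function.update_idem] at g3
      have g4 := lin_runs_drop b y (v.code ++ rest)
        (update s b (y.code ++ (v.code ++ rest))) (by simp) (key _)
      rw [Function.update_idem] at g4
      have g5 := hpG b (update s b (v.code ++ rest)) v rest (by simp) (key _)
      rw [Function.update_idem] at g5
      have g6 := Runs.popCons (p₀ := Prog.skip) (p₁ := fun x => match x with
        | true => Prog.seq (linDrop b) (Prog.seq (linDrop b) (pG b))
        | false => pF b) (s := update s b ((V.node x y).code ++ (v.code ++ rest))) (r := b)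
        (a := true) (l := x.code ++ (y.code ++ (v.code ++ rest))) (by simp [V.code])
        (by rw [Function.update_idem]; exact g3.seq (g4.seq g5))
      refine (g1.seq (g2.seq g6)).conv (by simp [hCv]) (by beta_reduce; omega)
  refine ⟨41 + 9 * c + c₁ + c₂, h.mono fun v => ?_⟩
  have h3 := v.size_pos
  nlinarith

theorem Lin.pt {F : V → V} (hF : Lin F) : PT F := by
  obtain ⟨C, hC⟩ := hF
  refine ⟨C + 1, hC.mono fun v => ?_⟩
  have h1 : C ≤ (v.size + 2) ^ C := (Nat.lt_pow_self (by omega)).le
  rw [pow_succ]
  exact Nat.mul_le_mul h1 (by omega)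

/-- The list of the symbols of the code of a tree. -/
theorem code_lin : Lin fun v => (enc v.code : V) := by
  have h : RunsBy (fun v => (enc v.code : V)) fun v => 20 * v.size + 20 := by
    refine ⟨fun b => Prog.seq (linTk b (b + 1) (b + 2)) (Prog.seq (Prog.push b false)
      (linCd (b + 1) b)), fun b s v rest h1 h2 => ?_⟩
    have hb1 : s (b + 1) = [] := h2 _ (by omega)
    have g1 := lin_runs_tk b (b + 1) (b + 2) (by omega) (by omega) (by omega) v rest s h1
      (h2 _ (by omega))
    set s1 : Store Bool := update (update s b rest) (b + 1) (v.code.reverse ++ s (b + 1)) with hs1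
    set s2 : Store Bool := update s1 b (false :: s1 b) with hs2
    have g2 : Runs (Prog.push b false) s1 s2 1 := Runs.push b false s1
    have g3 := lin_runs_cd (b + 1) b (by omega) v.code.reverse [] rest s2
      (by simp [hs2, hs1, hb1]) (by simp [hs2, hs1, enc, V.list, V.code])
    refine (g1.seq (g2.seq g3)).conv ?_
      (by simp only [List.length_reverse, V.code_length]; omega)
    funext i
    by_cases e1 : i = b
    · subst e1; simp
    · by_cases e2 : i = b + 1
      · subst e2; simp [hb1]
      · simp [hs2, hs1, e1, e2]
  refine ⟨40, h.mono fun v => ?_⟩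
  have := v.size_pos
  omega

end Pool.Agent.BPD
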