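import Pool.Agent.BPD.MachA

/-!
# The running time of a machine with bounded space

PROOF of `time_lt`. Let `m = 1 + (s - 1) * κ`, `κ = M.C.κ`. The configurations `conf M x t`, `t ≤ T`, are
pairwise different: if `conf M x t = conf M x t'` with `t < t' ≤ T` then
`conf M x (t + (T - t')) = conf M x T` (`Function.iterate_add_apply`), which has halted, but
`t + (T - t') < T`. They are zero from the position `m` on and all their values are
`< M.C.M0` (`CM.iter_lt`, `initc_lt`). So `t ↦ (the values at the positions < m)` is an injective map from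
`Fin (T + 1)` to `Fin m → Fin M.C.M0`, and `T + 1 ≤ M0 ^ m` (`Fintype.card_le_of_injective`,
`Fintype.card_fun`). Finally `m ≤ (κ + 1) (s - 1)` as `2 ≤ s`, so
`M0 ^ m ≤ (M0 ^ (κ + 1)) ^ (s - 1) = bb M ^ (s - 1) ≤ (bb M + 1) ^ (s - 1)` (`1 ≤ M0` by `ini_lt`).
-/

set_option autoImplicit false

namespace Pool.Agent.BPD

open Pool.Agent.PT

theorem time_lt (M : CD) {s T : ℕ} (hs : 2 ≤ s) {x : List Bool}
    (hT : M.halt (conf M x T 0) = true) (hT' : ∀ t < T, M.halt (conf M x t 0) = false)
    (hz : ∀ t ≤ T, ∀ pos, 1 + (s - 1) * M.C.κ ≤ pos → conf M x t pos = 0) :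
    T < (bb M + 1) ^ (s - 1) := by
  have hlt : ∀ t pos, conf M x t pos < M.C.M0 := fun t pos =>
    CM.iter_lt M.C _ (fun p => initc_lt M.ini_lt M.code_lt x p) t pos
  have hne : ∀ t t', t < t' → t' ≤ T → conf M x t = conf M x t' → False := by
    intro t t' h1 h2 he
    have h3 : conf M x (t + (T - t')) = conf M x T := by
      have e1 : conf M x (t + (T - t')) = M.C.step^[T - t'] (conf M x t) := by
        unfold conf
        rw [add_comm, Function.iterate_add_apply]
      have e2 : conf M x T = M.C.step^[T - t'] (conf M x t') := by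
        conv_lhs => rw [show T = (T - t') + t' from by omega]
        unfold conf
        rw [Function.iterate_add_apply]
      rw [e1, e2, he]
    have h4 := hT' (t + (T - t')) (by omega)
    rw [h3, hT] at h4
    exact Bool.noConfusion h4
  set m := 1 + (s - 1) * M.C.κ with hm
  let g : Fin (T + 1) → (Fin m → Fin M.C.M0) := fun t p => ⟨conf M x t p, hlt t p⟩
  have hg : Function.Injective g := by
    intro a b hab
    have hconf : conf M x a = conf M x b := by
      funext pos
      by_cases hp : pos < m
      · have := congrFun hab ⟨pos, hp⟩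
        simpa [g, Fin.ext_iff] using this
      · rw [hz a (by omega) pos (by omega), hz b (by omega) pos (by omega)]
    rcases lt_trichotomy (a : ℕ) b with h | h | h
    · exact (hne a b h (by omega) hconf).elim
    · exact Fin.ext h
    · exact (hne b a h (by omega) hconf.symm).elim
  have hc := Fintype.card_le_of_injective g hg
  rw [Fintype.card_fun, Fintype.card_fin, Fintype.card_fin, Fintype.card_fin] at hc
  have hM0 : 1 ≤ M.C.M0 := by
    have := M.ini_lt
    omega
  have hmle : m ≤ (M.C.κ + 1) * (s - 1) := by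
    rw [hm]
    have : (M.C.κ + 1) * (s - 1) = (s - 1) * M.C.κ + (s - 1) := by ring
    omega
  calc T < T + 1 := Nat.lt_succ_self T
    _ ≤ M.C.M0 ^ m := hc
    _ ≤ M.C.M0 ^ ((M.C.κ + 1) * (s - 1)) := Nat.pow_le_pow_right hM0 hmle
    _ = (bb M) ^ (s - 1) := by rw [pow_mul]; rfl
    _ ≤ (bb M + 1) ^ (s - 1) := Nat.pow_le_pow_left (Nat.le_succ _) _

end Pool.Agent.BPD
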