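import Pool.Agent.BPD.MachA

/-!
# Every run contains a reset row

PROOF of `exists_reset`. Write `K k = (d k 0).kd` and, for `k ≥ 1`: all data of the row `k` have the kind
`K k` (in every case of `f1` the new kind is the kind of `ω`; induction on the column). If `K k = R` for
some `k ≥ 1` then `d k c = dft M .R` for all `c < s` (for `c = 0` by `f0`, for `c ≥ 1` by `f1`) and we are
done. Suppose this is not the case. By `f0`: after a row `P` there is a row `P` or `I`; after a row `I` or `S`
there is a row `S` (the row `R` being excluded).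

(1) Suppose `K k` is `I` or `S` for some `k ≥ 1`; then `K j = S` for all `j > k`. Let `B = bb M + 1` and
`val j = ∑ c ∈ range (s - 1), (d j (c + 1)).tc * B ^ c < B ^ (s - 1)`. For `j ≥ k` (the row
`j + 1` is of kind `S`): the signal `cy` is `true` in the column `0` of the row `j + 1`, and in the column
`c ≥ 1`: with `i = (d (j + 1) (c - 1)).cy`, the digit `t = (d j c).tc` becomes `t' = t + i` modulo `B`, and the
new signal is `i && (t = B - 1)`, so `t' + B * [new signal] = t + [i]`. By induction on `m ≤ s - 1`:
`∑ c ∈ range m, (d (j + 1) (c + 1)).tc * B ^ c + B ^ m * [(d (j + 1) m).cy] =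
∑ c ∈ range m, (d j (c + 1)).tc * B ^ c + 1`. The row `j + 2` exists, so the signal in the column `s - 1` of
the row `j + 1` is `false` (`f0`, kind `S`). Hence `val (j + 1) = val j + 1` for all `j ≥ k`, which
contradicts `val < B ^ (s - 1)`.

(2) Otherwise `K k = P` for all `k ≥ 1`. Let `u j` be the number of the `c < s` with `a c = true` and
`(d j c).mr = false`. For `j ≥ 1`: the row `j + 2` is of kind `P`, so `(d (j + 1) (s - 1)).fl = true` (`f0`),
while `(d (j + 1) 0).fl = false`. Let `c ≥ 1` be the first column with `(d (j + 1) c).fl = true`. By `f1`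
`a c = true`, `(d j c).mr = false`, and `(d (j + 1) c).mr = true`; in all columns `c' ≥ 1` the mark remains
if it is there; the column `0` does not count (`a 0 = false`). So `u (j + 1) < u j` for all `j ≥ 1`,
which is impossible.
-/

set_option autoImplicit false

namespace Pool.Agent.BPD

open Pool.Agent.PT

private theorem reset_f1R {M : CD} {last one a : Bool} {σ τ ω x : DM M} (hk : ω.kd = .R)
    (h : f1 M last one a σ τ ω = some x) : x = dft M .R := by
  unfold f1 at h
  rw [hk] at h
  exact (Option.some.inj h).symm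

private theorem reset_f1P {M : CD} {last one a : Bool} {σ τ ω x : DM M} (hk : ω.kd = .P)
    (h : f1 M last one a σ τ ω = some x) :
    x.kd = .P ∧ x.mr = (σ.mr || (a && !ω.fl)) ∧ x.fl = (ω.fl || (a && !σ.mr)) := by
  unfold f1 at h
  rw [hk] at h
  rw [← Option.some.inj h]
  exact ⟨rfl, rfl, rfl⟩

private theorem reset_f1I {M : CD} {last one a : Bool} {σ τ ω x : DM M} (hk : ω.kd = .I)
    (h : f1 M last one a σ τ ω = some x) : x.kd = .I := by
  unfold f1 at h
  rw [hk] at h
  rw [← Option.some.inj h]
  rfl

private theorem reset_f1S {M : CD} {last one a : Bool} {σ τ ω x : DM M} (hk : ω.kd = .S)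
    (h : f1 M last one a σ τ ω = some x) :
    x.kd = .S ∧ x.tc = (if ω.cy then σ.tc + 1 else σ.tc) ∧
      x.cy = (ω.cy && decide ((σ.tc : ℕ) = bb M)) := by
  unfold f1 at h
  rw [hk] at h
  simp only at h
  split at h
  · exact absurd h (by simp)
  · rw [← Option.some.inj h]
    exact ⟨rfl, rfl, rfl⟩

private theorem reset_f1kd {M : CD} {last one a : Bool} {σ τ ω x : DM M}
    (h : f1 M last one a σ τ ω = some x) : x.kd = ω.kd := by
  rcases hk : ω.kd with _ | _ | _ | _
  · rw [reset_f1R hk h]
    rfl
  · exact (reset_f1P hk h).1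
  · exact reset_f1I hk h
  · exact (reset_f1S hk h).1

private theorem reset_f0R {M : CD} {σ τ ω x : DM M} (hk : σ.kd = .R)
    (h : f0 M σ τ ω = some x) : x.kd = .P := by
  unfold f0 at h
  rw [hk] at h
  rw [← Option.some.inj h]
  rfl

private theorem reset_f0P {M : CD} {σ τ ω x : DM M} (hk : σ.kd = .P)
    (h : f0 M σ τ ω = some x) :
    (x.kd = .P ∧ x.fl = false ∧ ω.fl = true) ∨ x.kd = .I := by
  unfold f0 at h
  rw [hk] at h
  simp only at h
  split at h
  · rename_i hf
    rw [← Option.some.inj h]
    exact Or.inl ⟨rfl, rfl, hf⟩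
  · rw [← Option.some.inj h]
    exact Or.inr rfl

private theorem reset_f0S {M : CD} {σ τ ω x : DM M} (hk : σ.kd = .I ∨ σ.kd = .S)
    (h : f0 M σ τ ω = some x) :
    ω.cy = false ∧ (x = dft M .R ∨ (x.kd = .S ∧ x.cy = true)) := by
  have key : (if ω.cy then none
      else if M.halt σ.ct then (if M.acc (gc τ.ce M.ko) then some (dft M .R) else none)
      else some { dft M .S with ct := fi _ (M.C.nx σ.ct (gc τ.ce (M.C.stk σ.ct))), cy := true }) =
      some x := by
    unfold f0 at h
    rcases hk with hk | hk
    · rw [hk] at h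
      exact h
    · rw [hk] at h
      exact h
  split at key
  · exact absurd key (by simp)
  · rename_i hc
    refine ⟨by simpa using hc, ?_⟩
    split at key
    · split at key
      · exact Or.inl (Option.some.inj key).symm
      · exact absurd key (by simp)
    · right
      rw [← Option.some.inj key]
      exact ⟨rfl, rfl⟩

private theorem reset_f0kdR {M : CD} {σ τ ω x : DM M} (h : f0 M σ τ ω = some x)
    (hx : x.kd = .R) : x = dft M .R := by
  rcases hk : σ.kd with _ | _ | _ | _
  · rw [reset_f0R hk h] at hx
    exact absurd hx (by decide)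
  · rcases reset_f0P hk h with ⟨h1, -⟩ | h1
    · rw [h1] at hx
      exact absurd hx (by decide)
    · rw [h1] at hx
      exact absurd hx (by decide)
  · rcases (reset_f0S (Or.inl hk) h).2 with h1 | h1
    · exact h1
    · rw [h1.1] at hx
      exact absurd hx (by decide)
  · rcases (reset_f0S (Or.inr hk) h).2 with h1 | h1
    · exact h1
    · rw [h1.1] at hx
      exact absurd hx (by decide)

private theorem reset_leg0 {M : CD} {s N : ℕ} (hs : 3 ≤ s) {a : ℕ → Bool} {d : ℕ → ℕ → DM M}
    (h : DRun (mDA M) s N a d) (k : ℕ) :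
    f0 M (d k 0) (d k 1) (d k (s - 1)) = some (d (k + 1) 0) := by
  have h1 := h.legal k 0 (by omega)
  rw [zero_add, Nat.mod_eq_of_lt (by omega : 1 < s)] at h1
  exact h1

private theorem reset_leg1 {M : CD} {s N : ℕ} {a : ℕ → Bool} {d : ℕ → ℕ → DM M}
    (h : DRun (mDA M) s N a d) (k : ℕ) {c : ℕ} (hc : c + 1 < s) :
    f1 M (decide (c + 1 + 1 = s)) (decide (c + 1 = 1)) (a (c + 1)) (d k (c + 1))
      (d k ((c + 1 + 1) % s)) (d (k + 1) c) = some (d (k + 1) (c + 1)) := by
  have h1 := h.legal k (c + 1) hc
  have h2 : decide (c + 1 = 0) = false := by simp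
  rw [h2, if_neg (by omega : ¬ c + 1 = 0)] at h1
  exact h1

private theorem reset_kd {M : CD} {s N : ℕ} {a : ℕ → Bool} {d : ℕ → ℕ → DM M}
    (h : DRun (mDA M) s N a d) (k : ℕ) : ∀ c < s, (d (k + 1) c).kd = (d (k + 1) 0).kd := by
  intro c
  induction c with
  | zero => exact fun _ => rfl
  | succ c ih =>
    intro hc
    rw [reset_f1kd (reset_leg1 h k hc)]
    exact ih (by omega)

private theorem reset_digit {M : CD} {last one a : Bool} {σ τ ω x : DM M} (hk : ω.kd = .S)
    (h : f1 M last one a σ τ ω = some x) :
    (x.tc : ℕ) + (bb M + 1) * (if x.cy then 1 else 0) = (σ.tc : ℕ) + (if ω.cy then 1 else 0) := by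
  obtain ⟨-, h1, h2⟩ := reset_f1S hk h
  rw [h1, h2]
  cases ω.cy with
  | false => simp
  | true =>
    simp only [if_true, Bool.true_and, decide_eq_true_eq]
    rw [Fin.val_add_one]
    by_cases hl : σ.tc = Fin.last (bb M)
    · have h3 : (σ.tc : ℕ) = bb M := by rw [hl]; rfl
      rw [if_pos hl, if_pos h3, h3]
      ring
    · have h3 : ¬ (σ.tc : ℕ) = bb M := fun h4 => hl (Fin.ext h4)
      rw [if_neg hl, if_neg h3, mul_zero, add_zero]

theorem exists_reset (M : CD) {s N : ℕ} (hs : 3 ≤ s) {a : ℕ → Bool} {d : ℕ → ℕ → (mDA M).D}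
    (h : DRun (mDA M) s N a d) : ∃ k, ∀ c < s, d k c = rowR M c := by
  by_contra hno
  push Not at hno
  have hnR : ∀ k, (d (k + 1) 0 : DM M).kd ≠ .R := by
    intro k hk
    obtain ⟨c, hc, hne⟩ := hno (k + 1)
    apply hne
    have h0 : (d (k + 1) 0 : DM M) = dft M .R := reset_f0kdR (reset_leg0 hs h k) hk
    cases c with
    | zero => exact h0
    | succ c =>
      refine reset_f1R ?_ (reset_leg1 h k hc)
      rw [reset_kd h k c (by omega)]
      exact hk
  by_cases hIS : ∃ k, (d (k + 1) 0 : DM M).kd = .I ∨ (d (k + 1) 0 : DM M).kd = .S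
  · obtain ⟨k, hk⟩ := hIS
    have hstep : ∀ j, ((d (k + 1 + j) 0 : DM M).kd = .I ∨ (d (k + 1 + j) 0 : DM M).kd = .S) ∧
        (d (k + 1 + j + 1) 0 : DM M).kd = .S ∧ (d (k + 1 + j + 1) 0 : DM M).cy = true := by
      intro j
      induction j with
      | zero =>
        refine ⟨hk, ?_⟩
        rcases (reset_f0S hk (reset_leg0 hs h (k + 1))).2 with h1 | h1
        · exact absurd (by rw [h1]; rfl) (hnR (k + 1))
        · exact h1
      | succ j ih =>
        have h2 : (d (k + 1 + (j + 1)) 0 : DM M).kd = .S := ih.2.1
        refine ⟨Or.inr h2, ?_⟩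
        rcases (reset_f0S (Or.inr h2) (reset_leg0 hs h (k + 1 + (j + 1)))).2 with h1 | h1
        · exact absurd (by rw [h1]; rfl) (hnR (k + 1 + (j + 1)))
        · exact h1
    obtain ⟨val, hval⟩ : ∃ val : ℕ → ℕ, ∀ j, val j = ∑ c ∈ Finset.range (s - 1),
        ((d j (c + 1) : DM M).tc : ℕ) * (bb M + 1) ^ c := ⟨_, fun _ => rfl⟩
    have hsum : ∀ j, val (k + 1 + j + 1) = val (k + 1 + j) + 1 := by
      intro j
      obtain ⟨-, h1, h2⟩ := hstep j
      have h3 : (d (k + 1 + j + 1) (s - 1) : DM M).cy = false :=
        (reset_f0S (Or.inr h1) (reset_leg0 hs h (k + 1 + j + 1))).1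
      have key : ∀ m, m ≤ s - 1 →
          ∑ c ∈ Finset.range m, ((d (k + 1 + j + 1) (c + 1) : DM M).tc : ℕ) * (bb M + 1) ^ c +
            (bb M + 1) ^ m * (if (d (k + 1 + j + 1) m : DM M).cy then 1 else 0) =
          ∑ c ∈ Finset.range m, ((d (k + 1 + j) (c + 1) : DM M).tc : ℕ) * (bb M + 1) ^ c + 1 := by
        intro m
        induction m with
        | zero =>
          intro _
          rw [h2]
          simp
        | succ m ih =>
          intro hm
          have h4 := ih (by omega)
          have h5 : (d (k + 1 + j + 1) m : DM M).kd = .S := by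
            rw [reset_kd h (k + 1 + j) m (by omega)]
            exact h1
          have h6 := reset_digit h5 (reset_leg1 h (k + 1 + j) (by omega : m + 1 < s))
          rw [Finset.sum_range_succ, Finset.sum_range_succ, pow_succ]
          have h7 : ((d (k + 1 + j + 1) (m + 1) : DM M).tc : ℕ) * (bb M + 1) ^ m +
              (bb M + 1) ^ m * (bb M + 1) *
                (if (d (k + 1 + j + 1) (m + 1) : DM M).cy then 1 else 0) =
              ((d (k + 1 + j) (m + 1) : DM M).tc : ℕ) * (bb M + 1) ^ m +
                (bb M + 1) ^ m * (if (d (k + 1 + j + 1) m : DM M).cy then 1 else 0) := by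
            calc _ = (bb M + 1) ^ m * (((d (k + 1 + j + 1) (m + 1) : DM M).tc : ℕ) + (bb M + 1) *
                (if (d (k + 1 + j + 1) (m + 1) : DM M).cy then 1 else 0)) := by ring
              _ = (bb M + 1) ^ m * (((d (k + 1 + j) (m + 1) : DM M).tc : ℕ) +
                (if (d (k + 1 + j + 1) m : DM M).cy then 1 else 0)) := by rw [h6]
              _ = _ := by ring
          omega
      have h4 := key (s - 1) le_rfl
      rw [h3] at h4
      rw [hval, hval]
      simpa using h4
    have hgrow : ∀ n, val (k + 1 + n) = val (k + 1) + n := by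
      intro n
      induction n with
      | zero => rfl
      | succ n ih =>
        have h1 := hsum n
        rw [ih] at h1
        exact h1
    have hbound : ∀ j, val j ≤ ∑ c ∈ Finset.range (s - 1), bb M * (bb M + 1) ^ c := by
      intro j
      rw [hval]
      exact Finset.sum_le_sum fun c _ => Nat.mul_le_mul_right _ (Nat.lt_succ_iff.mp (Fin.is_lt _))
    have h1 := hbound (k + 1 + (∑ c ∈ Finset.range (s - 1), bb M * (bb M + 1) ^ c + 1))
    rw [hgrow] at h1
    omega
  · push Not at hIS
    have hP : ∀ k, (d (k + 1) 0 : DM M).kd = .P := by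
      intro k
      have h1 := hnR k
      have h2 := hIS k
      rcases hk : (d (k + 1) 0 : DM M).kd with _ | _ | _ | _
      · exact absurd hk h1
      · rfl
      · exact absurd hk h2.1
      · exact absurd hk h2.2
    obtain ⟨u, hu⟩ : ∃ u : ℕ → ℕ, ∀ j, u j =
        ((Finset.range s).filter fun c => a c = true ∧ (d j c : DM M).mr = false).card :=
      ⟨_, fun _ => rfl⟩
    have hdec : ∀ j, u (j + 1 + 1) < u (j + 1) := by
      intro j
      have hfl0 : (d (j + 1 + 1) 0 : DM M).fl = false := by
        rcases reset_f0P (hP j) (reset_leg0 hs h (j + 1)) with h1 | h1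
        · exact h1.2.1
        · rw [hP (j + 1)] at h1
          exact absurd h1 (by decide)
      have hfl1 : (d (j + 1 + 1) (s - 1) : DM M).fl = true := by
        rcases reset_f0P (hP (j + 1)) (reset_leg0 hs h (j + 1 + 1)) with h1 | h1
        · exact h1.2.2
        · rw [hP (j + 1 + 1)] at h1
          exact absurd h1 (by decide)
      have hex : ∃ c, (d (j + 1 + 1) c : DM M).fl = true := ⟨s - 1, hfl1⟩
      classical
      obtain ⟨c, hc, hmin⟩ : ∃ c, (d (j + 1 + 1) c : DM M).fl = true ∧
          ∀ m < c, ¬ (d (j + 1 + 1) m : DM M).fl = true :=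
        ⟨Nat.find hex, Nat.find_spec hex, fun m hm => Nat.find_min hex hm⟩
      have hcs : c < s := by
        by_contra hcs
        exact hmin (s - 1) (by omega) hfl1
      obtain ⟨c', rfl⟩ : ∃ c', c = c' + 1 := by
        cases c with
        | zero =>
          rw [hfl0] at hc
          exact absurd hc (by decide)
        | succ c' => exact ⟨c', rfl⟩
      have hprev : (d (j + 1 + 1) c' : DM M).fl = false := by
        have h1 := hmin c' (Nat.lt_succ_self _)
        simpa using h1
      have hrow : ∀ i, i + 1 < s → (d (j + 1 + 1) (i + 1) : DM M).mr =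
          ((d (j + 1) (i + 1) : DM M).mr || (a (i + 1) && !(d (j + 1 + 1) i : DM M).fl)) ∧
          (d (j + 1 + 1) (i + 1) : DM M).fl =
          ((d (j + 1 + 1) i : DM M).fl || (a (i + 1) && !(d (j + 1) (i + 1) : DM M).mr)) := by
        intro i hi
        have h1 : (d (j + 1 + 1) i : DM M).kd = .P := by
          rw [reset_kd h (j + 1) i (by omega)]
          exact hP (j + 1)
        exact (reset_f1P h1 (reset_leg1 h (j + 1) hi)).2
      obtain ⟨hm, hf⟩ := hrow c' hcs
      rw [hc, hprev, Bool.false_or] at hf
      rw [hprev] at hm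
      have ha : a (c' + 1) = true := by
        by_contra ha
        rw [Bool.not_eq_true] at ha
        rw [ha] at hf
        simp at hf
      have hmr : (d (j + 1) (c' + 1) : DM M).mr = false := by
        rw [ha] at hf
        simpa using hf.symm
      rw [hu, hu]
      apply Finset.card_lt_card
      refine ⟨?_, ?_⟩
      · intro i hi
        obtain ⟨hi1, hi2, hi3⟩ := Finset.mem_filter.mp hi
        refine Finset.mem_filter.mpr ⟨hi1, hi2, ?_⟩
        cases i with
        | zero =>
          rw [h.zero] at hi2
          exact absurd hi2 (by decide)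
        | succ i =>
          have h1 := (hrow i (Finset.mem_range.mp hi1)).1
          rw [hi3] at h1
          by_contra h2
          rw [Bool.not_eq_false] at h2
          rw [h2] at h1
          simp at h1
      · intro hsub
        have h1 : c' + 1 ∈ (Finset.range s).filter
            fun c => a c = true ∧ (d (j + 1) c : DM M).mr = false :=
          Finset.mem_filter.mpr ⟨Finset.mem_range.mpr hcs, ha, hmr⟩
        have h2 := (Finset.mem_filter.mp (hsub h1)).2.2
        rw [h2, ha, hmr] at hm
        simp at hm
    have hbig : ∀ n, u (n + 1) + n ≤ u 1 := by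
      intro n
      induction n with
      | zero => exact le_rfl
      | succ n ih =>
        have h1 := hdec n
        omega
    have h1 := hbig (u 1 + 1)
    omega

end Pool.Agent.BPD
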