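import Pool.Agent.BPD.MachA

/-!
# The steps of the machine in the correct run

All theorems are verified column by column: unfold `Legal`, `mDA`, and distinguish `c = 0` (function
`f0`) and `0 < c < s` (function `f1`; then `c + 1 = s` or `(c + 1) % s = c + 1`). Compare the values with
`Dat.ext`. Write `κ = M.C.κ`, `B = bb M + 1`, `u = conf M x t`, `u' = conf M x (t + 1) = M.C.step u`
(`Function.iterate_succ_apply'`), `A = u 0`. All `u pos < M.C.M0` (`CM.iter_lt`, `initc_lt`,
`ini_lt`, `code_lt`), so the value of `fi _ (u pos)` is `u pos`, and it determines `u pos`.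

`legal_CC`. `c = 0`: `ω = rowC M x t (s - 1)` has no signal as `t < B ^ (s - 1)` (if `t ≠ 0`,
`t % B ^ (s - 1) = t`); no halt. The new control is
`nx A (gc τ.ce (stk A))`, `τ = rowC M x t 1`, so `gc τ.ce (stk A) = u (1 + stk A)` (`CM.stk_lt`), and
this is `u' 0` by `CM.step`, `CM.V`, `CM.R` for `pos = 0`. `c ≥ 1`: `pos = 1 + (c - 1) κ + j`, `j < κ`, so
`(pos - 1) % κ = j` and `pos - 1 < κ` iff `c = 1`. If `j ≠ stk A` or `op A = 0`, then `u' pos = u pos`. If
`j = stk A`, `op A = 1`: `u' pos = u (pos + κ) = u (1 + c κ + j)`, which is `τ.ce j` for `c + 1 < s` and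
`0` for `c + 1 = s` (`hz`). If `j = stk A`, `op A ≥ 2`: `u' pos = op A - 2` for `c = 1`, and
`u' pos = u (pos - κ)` for `c ≥ 2`, which is `ω.oc j` with `ω = rowC M x (t + 1) (c - 1)`. The automaton does
not stop in the last column: if `op A ≥ 2` then
`0 = u' (1 + (s - 1) κ + stk A) = u (1 + (s - 2) κ + stk A)` (`hz'`). The clock: the incoming signal is
`(t + 1) % B ^ (c - 1) = 0`; in this case `(t + 1) / B ^ (c - 1) = t / B ^ (c - 1) + 1`, otherwise
`(t + 1) / B ^ (c - 1) = t / B ^ (c - 1)`; and `(t + 1) % B ^ c = 0` iff `(t + 1) % B ^ (c - 1) = 0`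
and `t / B ^ (c - 1) % B = bb M`.

`legal_CR`, `acc_of_legal`: `c = 0` as above, now with halt; the symbol of the stack `ko` in the
column `1` is `u (1 + ko)`; for `c ≥ 1` the kind of `ω` is `R`.
-/

set_option autoImplicit false

namespace Pool.Agent.BPD

open Pool.Agent.PT

private theorem fi_val {m v : ℕ} (h : v < m + 1) : ((fi m v : Fin (m + 1)) : ℕ) = v :=
  Nat.mod_eq_of_lt h

private theorem fi_zero (m : ℕ) : fi m 0 = 0 := rfl

private theorem fi_succ (m v : ℕ) : fi m (v + 1) = fi m v + 1 := by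
  apply Fin.ext
  rw [Fin.val_add, fi, fi]
  change (v + 1) % (m + 1) = (v % (m + 1) + ((1 : Fin (m + 1)) : ℕ)) % (m + 1)
  rw [Fin.val_one', Nat.add_mod]

private theorem conf_lt (M : CD) (x : List Bool) (t pos : ℕ) : conf M x t pos < M.C.M0 :=
  CM.iter_lt M.C _ (initc_lt M.ini_lt M.code_lt _) t pos

private theorem conf_succ (M : CD) (x : List Bool) (t : ℕ) :
    conf M x (t + 1) = M.C.step (conf M x t) := Function.iterate_succ_apply' _ _ _

private theorem ct_val (M : CD) (x : List Bool) (t c : ℕ) :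
    ((rowC M x t c).ct : ℕ) = conf M x t 0 :=
  fi_val ((conf_lt M x t 0).trans (Nat.lt_succ_self _))

private theorem ce_eq (M : CD) (x : List Bool) (t : ℕ) {c : ℕ} (hc : 1 ≤ c) (j : Fin M.C.κ) :
    (rowC M x t c).ce j = fi _ (conf M x t (1 + (c - 1) * M.C.κ + j)) := by
  have h : c ≠ 0 := by omega
  simp only [rowC, if_neg h]

private theorem gc_val (M : CD) (x : List Bool) (t : ℕ) {c j : ℕ} (hc : 1 ≤ c)
    (hj : j < M.C.κ) :
    gc (rowC M x t c).ce j = conf M x t (1 + (c - 1) * M.C.κ + j) := by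
  rw [gc, dif_pos hj, ce_eq M x t hc]
  exact fi_val ((conf_lt M x t _).trans (Nat.lt_succ_self _))

private theorem oc_eq (M : CD) (x : List Bool) (t : ℕ) {c : ℕ} (hc : 1 ≤ c) (j : Fin M.C.κ) :
    (rowC M x (t + 1) c).oc j = fi _ (conf M x t (1 + (c - 1) * M.C.κ + j)) := by
  have h : ¬ (c = 0 ∨ t + 1 = 0) := by omega
  simp only [rowC, if_neg h, Nat.add_sub_cancel]

private theorem step_pos (C : CM) (u : ℕ → ℕ) {c j : ℕ} (hc : 1 ≤ c) (hj : j < C.κ) :
    C.step u (1 + (c - 1) * C.κ + j) =
      if j = C.stk (u 0) then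
        (if C.op (u 0) = 0 then u (1 + (c - 1) * C.κ + j)
         else if C.op (u 0) = 1 then u (1 + c * C.κ + j)
         else if c = 1 then C.op (u 0) - 2 else u (1 + (c - 2) * C.κ + j))
      else u (1 + (c - 1) * C.κ + j) := by
  obtain ⟨d, rfl⟩ : ∃ d, c = d + 1 := ⟨c - 1, by omega⟩
  simp only [Nat.add_sub_cancel]
  have h1 : 1 + d * C.κ + j ≠ 0 := by omega
  have h2 : (1 + d * C.κ + j - 1) % C.κ = j := by
    have h3 : 1 + d * C.κ + j - 1 = j + C.κ * d := by
      rw [Nat.mul_comm]
      omega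
    rw [h3, Nat.add_mul_mod_self_left, Nat.mod_eq_of_lt hj]
  have h3 : (1 + d * C.κ + j - 1 < C.κ) ↔ d + 1 = 1 := by
    constructor
    · intro h
      by_contra hd
      have h4 : 1 * C.κ ≤ d * C.κ := Nat.mul_le_mul_right _ (by omega)
      omega
    · intro h
      have hd : d = 0 := by omega
      subst hd
      omega
  unfold CM.step CM.V CM.R
  rw [if_neg h1, if_neg h1, h2]
  simp only [h3]
  by_cases hjs : j = C.stk (u 0)
  · by_cases h0 : C.op (u 0) = 0
    · simp [← hjs, h0]
    · by_cases h4 : C.op (u 0) = 1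
      · simp only [← hjs, h4, if_true, true_and]
        rw [if_neg (by omega), if_neg (by omega)]
        congr 1
        rw [Nat.add_mul]
        omega
      · by_cases h5 : d + 1 = 1
        · rw [if_pos ⟨hjs, by omega, h5⟩, if_pos hjs, if_neg h0, if_neg h4, if_pos h5]
        · rw [if_neg (fun h => h5 h.2.2), if_pos hjs, if_pos hjs, if_neg h0, if_neg h0,
            if_neg h4, if_neg h4, if_neg h5, if_neg h5]
          congr 1
          obtain ⟨e, rfl⟩ : ∃ e, d = e + 1 := ⟨d - 1, by omega⟩
          have h6 : e + 1 + 1 - 2 = e := by omega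
          rw [h6, Nat.add_mul]
          omega
  · rw [if_neg (fun h => hjs h.1), if_neg hjs, if_neg hjs]

private theorem clock {B P t : ℕ} (hP : 0 < P) :
    ((t + 1) % (P * (B + 1)) = 0 ↔ (t + 1) % P = 0 ∧ t / P % (B + 1) = B) := by
  constructor
  · intro h
    have h1 : P * (B + 1) ∣ t + 1 := Nat.dvd_of_mod_eq_zero h
    have h2 : P ∣ t + 1 := (Dvd.intro _ rfl).trans h1
    refine ⟨Nat.mod_eq_zero_of_dvd h2, ?_⟩
    obtain ⟨q, hq⟩ := h1
    have h3 : (t + 1) / P = t / P + 1 := Nat.succ_div_of_dvd h2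
    have h4 : (t + 1) / P = (B + 1) * q := by
      rw [hq, Nat.mul_assoc, Nat.mul_div_cancel_left _ hP]
    obtain ⟨e, rfl⟩ : ∃ e, q = e + 1 := by
      refine ⟨q - 1, ?_⟩
      have : q ≠ 0 := by
        rintro rfl
        omega
      omega
    have h5 : t / P = B + (B + 1) * e := by
      rw [h3, Nat.mul_add] at h4
      omega
    rw [h5, Nat.add_mul_mod_self_left, Nat.mod_eq_of_lt (Nat.lt_succ_self B)]
  · rintro ⟨h, h'⟩
    have h2 : P ∣ t + 1 := Nat.dvd_of_mod_eq_zero h
    have h3 : (t + 1) / P = t / P + 1 := Nat.succ_div_of_dvd h2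
    have h4 : (B + 1) ∣ (t + 1) / P := by
      rw [h3]
      refine ⟨t / P / (B + 1) + 1, ?_⟩
      have h5 := Nat.div_add_mod (t / P) (B + 1)
      rw [h'] at h5
      rw [Nat.mul_add]
      omega
    obtain ⟨q, hq⟩ := h4
    refine Nat.mod_eq_zero_of_dvd ⟨q, ?_⟩
    rw [Nat.mul_assoc, ← hq, Nat.mul_div_cancel' h2]

theorem legal_CC (M : CD) {s t : ℕ} (hs : 3 ≤ s) {a : ℕ → Bool} {x : List Bool}
    (hh : M.halt (conf M x t 0) = false) (ht : t < (bb M + 1) ^ (s - 1))
    (hz : ∀ pos, 1 + (s - 1) * M.C.κ ≤ pos → conf M x t pos = 0)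
    (hz' : ∀ pos, 1 + (s - 1) * M.C.κ ≤ pos → conf M x (t + 1) pos = 0) :
    Legal (mDA M) s a (rowC M x t) (rowC M x (t + 1)) := by
  intro c hc
  by_cases hc0 : c = 0
  · subst hc0
    have h1 : (0 + 1) % s = 1 := Nat.mod_eq_of_lt (by omega)
    rw [h1, if_pos rfl]
    change f0 M (rowC M x t 0) (rowC M x t 1) (rowC M x t (s - 1)) = _
    have hcy : (rowC M x t (s - 1)).cy = false := by
      change decide (t ≠ 0 ∧ t % (bb M + 1) ^ (s - 1) = 0) = false
      rw [Nat.mod_eq_of_lt ht]
      simp
    have hkd : (rowC M x t 0).kd = .I ∨ (rowC M x t 0).kd = .S := by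
      change (if t = 0 then Kd.I else Kd.S) = .I ∨ (if t = 0 then Kd.I else Kd.S) = .S
      split_ifs <;> simp
    have hval : M.C.nx (conf M x t 0) (gc (rowC M x t 1).ce (M.C.stk (conf M x t 0))) =
        conf M x (t + 1) 0 := by
      rw [gc_val M x t le_rfl (M.C.stk_lt _), conf_succ]
      simp [CM.step, CM.V, CM.R]
    have hres : (if (rowC M x t (s - 1)).cy then none
        else if M.halt (rowC M x t 0).ct then
          (if M.acc (gc (rowC M x t 1).ce M.ko) then some (dft M .R) else none)
        else some { dft M .S with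
          ct := fi _ (M.C.nx (rowC M x t 0).ct
            (gc (rowC M x t 1).ce (M.C.stk (rowC M x t 0).ct))), cy := true }) =
        some (rowC M x (t + 1) 0) := by
      rw [hcy, if_neg (by simp), ct_val, hh, if_neg (by simp), hval]
      congr 1
      simp [rowC, dft, Nat.mod_one]
    unfold f0
    rcases hkd with h | h
    · rw [h]
      exact hres
    · rw [h]
      exact hres
  · have hc1 : 1 ≤ c := by omega
    rw [if_neg hc0]
    have e0 : decide (c = 0) = false := decide_eq_false hc0
    rw [e0]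
    change f1 M (decide (c + 1 = s)) (decide (c = 1)) (a c) (rowC M x t c)
      (rowC M x t ((c + 1) % s)) (rowC M x (t + 1) (c - 1)) = _
    have hkd : (rowC M x (t + 1) (c - 1)).kd = .S := by
      change (if t + 1 = 0 then Kd.I else Kd.S) = .S
      rw [if_neg (by omega)]
    unfold f1
    rw [hkd]
    have hno : ¬ (decide (c + 1 = s) = true ∧ 2 ≤ M.C.op (rowC M x t c).ct ∧
        gc (rowC M x t c).ce (M.C.stk (rowC M x t c).ct) ≠ 0) := by
      rintro ⟨h1, h2, h3⟩
      have h1' : c + 1 = s := of_decide_eq_true h1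
      rw [ct_val] at h2 h3
      rw [gc_val M x t hc1 (M.C.stk_lt _)] at h3
      apply h3
      have h4 := hz' (1 + (s - 1) * M.C.κ + M.C.stk (conf M x t 0)) (by omega)
      rw [conf_succ, step_pos M.C _ (by omega : 1 ≤ s) (M.C.stk_lt _), if_pos rfl,
        if_neg (by omega), if_neg (by omega), if_neg (by omega)] at h4
      have h5 : s - 2 = c - 1 := by omega
      rw [← h5]
      exact h4
    simp only
    rw [if_neg hno]
    congr 1
    have hP : 0 < (bb M + 1) ^ (c - 1) := Nat.pow_pos (Nat.succ_pos _)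
    have hpow : (bb M + 1) ^ c = (bb M + 1) ^ (c - 1) * (bb M + 1) := by
      rw [← pow_succ]
      congr 1
      omega
    have hωcy : (rowC M x (t + 1) (c - 1)).cy = decide ((t + 1) % (bb M + 1) ^ (c - 1) = 0) := by
      change decide (t + 1 ≠ 0 ∧ (t + 1) % (bb M + 1) ^ (c - 1) = 0) = _
      simp
    have hστc : (rowC M x t c).tc = fi _ (t / (bb M + 1) ^ (c - 1)) := by
      change (if c = 0 then 0 else fi _ (t / (bb M + 1) ^ (c - 1))) = _
      rw [if_neg hc0]
    apply Dat.ext
    · rfl
    · rfl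
    · rfl
    · rfl
    · funext j
      have hR : (rowC M x (t + 1) c).ce j = _ := ce_eq M x (t + 1) hc1 j
      rw [hR, conf_succ, step_pos M.C _ hc1 j.2]
      simp only [ct_val]
      by_cases hj : (j : ℕ) = M.C.stk (conf M x t 0)
      · rw [if_pos hj, if_pos hj]
        by_cases h0 : M.C.op (conf M x t 0) = 0
        · rw [if_pos h0, if_pos h0, ce_eq M x t hc1]
        · rw [if_neg h0, if_neg h0]
          by_cases h1 : M.C.op (conf M x t 0) = 1
          · rw [if_pos h1, if_pos h1]
            by_cases hl : c + 1 = s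
            · rw [if_pos (decide_eq_true hl), hz _ (by
                have : s - 1 = c := by omega
                rw [this]
                omega), fi_zero]
            · have h2 : (c + 1) % s = c + 1 := Nat.mod_eq_of_lt (by omega)
              rw [if_neg (by simpa using hl), h2, ce_eq M x t (by omega : 1 ≤ c + 1),
                Nat.add_sub_cancel]
          · rw [if_neg h1, if_neg h1]
            by_cases h3 : c = 1
            · rw [if_pos (decide_eq_true h3), if_pos h3]
            · rw [if_neg (by simpa using h3), if_neg h3,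
                oc_eq M x t (by omega : 1 ≤ c - 1)]
              have h4 : c - 1 - 1 = c - 2 := by omega
              rw [h4]
      · rw [if_neg hj, if_neg hj, ce_eq M x t hc1]
    · funext j
      have hR : (rowC M x (t + 1) c).oc j = _ := oc_eq M x t hc1 j
      rw [hR]
      exact ce_eq M x t hc1 j
    · have hR : (rowC M x (t + 1) c).tc = fi _ ((t + 1) / (bb M + 1) ^ (c - 1)) := by
        change (if c = 0 then 0 else fi _ ((t + 1) / (bb M + 1) ^ (c - 1))) = _
        rw [if_neg hc0]
      rw [hR]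
      simp only [hωcy, hστc, decide_eq_true_eq]
      rw [Nat.succ_div]
      by_cases h1 : (t + 1) % (bb M + 1) ^ (c - 1) = 0
      · rw [if_pos h1, if_pos (Nat.dvd_of_mod_eq_zero h1), fi_succ]
      · rw [if_neg h1, if_neg (fun h => h1 (Nat.mod_eq_zero_of_dvd h))]
        rfl
    · rfl
    · have hR : (rowC M x (t + 1) c).cy = decide ((t + 1) % (bb M + 1) ^ c = 0) := by
        change decide (t + 1 ≠ 0 ∧ (t + 1) % (bb M + 1) ^ c = 0) = _
        simp
      rw [hR]
      simp only [hωcy, hστc]
      have hv : ((fi (bb M) (t / (bb M + 1) ^ (c - 1)) : Fin (bb M + 1)) : ℕ) =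
          t / (bb M + 1) ^ (c - 1) % (bb M + 1) := rfl
      rw [hv, hpow, ← Bool.decide_and]
      congr 1
      rw [eq_iff_iff]
      exact (clock hP).symm

theorem legal_CR (M : CD) {s t : ℕ} (hs : 3 ≤ s) {a : ℕ → Bool} {x : List Bool}
    (hh : M.halt (conf M x t 0) = true) (ht : t < (bb M + 1) ^ (s - 1))
    (hacc : M.acc (conf M x t (1 + M.ko)) = true) :
    Legal (mDA M) s a (rowC M x t) (rowR M) := by
  intro c hc
  by_cases hc0 : c = 0
  · subst hc0
    have h1 : (0 + 1) % s = 1 := Nat.mod_eq_of_lt (by omega)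
    rw [h1, if_pos rfl]
    change f0 M (rowC M x t 0) (rowC M x t 1) (rowC M x t (s - 1)) = _
    have hcy : (rowC M x t (s - 1)).cy = false := by
      change decide (t ≠ 0 ∧ t % (bb M + 1) ^ (s - 1) = 0) = false
      rw [Nat.mod_eq_of_lt ht]
      simp
    have hkd : (rowC M x t 0).kd = .I ∨ (rowC M x t 0).kd = .S := by
      change (if t = 0 then Kd.I else Kd.S) = .I ∨ (if t = 0 then Kd.I else Kd.S) = .S
      split_ifs <;> simp
    have hval : gc (rowC M x t 1).ce M.ko = conf M x t (1 + M.ko) := by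
      rw [gc_val M x t le_rfl M.ko_lt]
      simp
    have hres : (if (rowC M x t (s - 1)).cy then none
        else if M.halt (rowC M x t 0).ct then
          (if M.acc (gc (rowC M x t 1).ce M.ko) then some (dft M .R) else none)
        else some { dft M .S with
          ct := fi _ (M.C.nx (rowC M x t 0).ct
            (gc (rowC M x t 1).ce (M.C.stk (rowC M x t 0).ct))), cy := true }) =
        some (rowR M 0) := by
      rw [hcy, if_neg (by simp), ct_val, hh, if_pos rfl, hval, hacc, if_pos rfl]
      rfl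
    unfold f0
    rcases hkd with h | h
    · rw [h]
      exact hres
    · rw [h]
      exact hres
  · rw [if_neg hc0]
    have e0 : decide (c = 0) = false := decide_eq_false hc0
    rw [e0]
    rfl

theorem acc_of_legal (M : CD) {s t : ℕ} (hs : 3 ≤ s) {a : ℕ → Bool} {x : List Bool}
    (hh : M.halt (conf M x t 0) = true) {r r' : ℕ → (mDA M).D} (h : Legal (mDA M) s a r r')
    (hr : ∀ c < s, r c = rowC M x t c) : M.acc (conf M x t (1 + M.ko)) = true := by
  have h0 := h 0 (by omega)
  have h1 : (0 + 1) % s = 1 := Nat.mod_eq_of_lt (by omega)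
  rw [h1, if_pos rfl, hr 0 (by omega), hr 1 (by omega), hr (s - 1) (by omega)] at h0
  change f0 M (rowC M x t 0) (rowC M x t 1) (rowC M x t (s - 1)) = _ at h0
  have hkd : (rowC M x t 0).kd = .I ∨ (rowC M x t 0).kd = .S := by
    change (if t = 0 then Kd.I else Kd.S) = .I ∨ (if t = 0 then Kd.I else Kd.S) = .S
    split_ifs <;> simp
  have hval : gc (rowC M x t 1).ce M.ko = conf M x t (1 + M.ko) := by
    rw [gc_val M x t le_rfl M.ko_lt]
    simp
  have hres : (if (rowC M x t (s - 1)).cy then none
      else if M.halt (rowC M x t 0).ct then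
        (if M.acc (gc (rowC M x t 1).ce M.ko) then some (dft M .R) else none)
      else some { dft M .S with
        ct := fi _ (M.C.nx (rowC M x t 0).ct
          (gc (rowC M x t 1).ce (M.C.stk (rowC M x t 0).ct))), cy := true }) =
      some (r' 0) := by
    unfold f0 at h0
    rcases hkd with h | h
    · rw [h] at h0
      exact h0
    · rw [h] at h0
      exact h0
  rw [ct_val, hh, if_pos rfl, hval] at hres
  by_contra hcon
  rw [if_neg hcon] at hres
  split_ifs at hres

end Pool.Agent.BPD
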