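import Pool.Agent.BPD.RowsP
import Pool.Agent.BPD.RowsC
import Pool.Agent.BPD.Reset
import Pool.Agent.BPD.Pigeon

/-!
# The data automaton of a machine has a run iff the machine accepts

PROOF of `machine_iff`. `T < (bb M + 1) ^ (s - 1)` by `time_lt`. Let `m = N + T + 3` and
`row i = rowR M` for `i = 0`, `rowP M a i` for `1 ≤ i ≤ N + 1`, `rowC M x (i - (N + 2))` for
`N + 2 ≤ i ≤ N + T + 2`. If `a 0 = false` and exactly `N` of the `a c`, `c < s`, are `true` (so
`cnt a (s - 1) = N`) then `Legal (mDA M) s a (row i) (row (i + 1))` for `i < N + T + 2` by `legal_RP`,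
`legal_PP`, `legal_PC`, `legal_CC`.

`→`: by `exists_reset` there is `k` with `d k c = row 0 c` for `c < s`; by `Legal.unique` and induction
`d (k + i) c = row i c` for all `i ≤ N + T + 2`, `c < s`. Use `acc_of_legal` for the rows
`k + N + T + 2` and `k + N + T + 3`.

`←`: let `a c = decide (1 ≤ c ∧ c ≤ N)` (`N + 1 ≤ s`), `d k c = row (k % m) c`; the row `row (N + T + 2)`
is followed by `row 0` by `legal_CR`.
-/

set_option autoImplicit false

namespace Pool.Agent.BPD

open Pool.Agent.PT

/-- The rows of the correct run. -/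
private noncomputable def MachIff_row (M : CD) (N : ℕ) (x : List Bool) (a : ℕ → Bool) (i : ℕ) :
    ℕ → DM M :=
  if i = 0 then rowR M else if i ≤ N + 1 then rowP M a i else rowC M x (i - (N + 2))

private theorem MachIff_legal (M : CD) {s N T : ℕ} (hs : 3 ≤ s) {x : List Bool}
    (hN : N.bits = x ++ [true]) (hNs : N + 1 ≤ s)
    (hT' : ∀ t < T, M.halt (conf M x t 0) = false)
    (hz : ∀ t ≤ T, ∀ pos, 1 + (s - 1) * M.C.κ ≤ pos → conf M x t pos = 0)
    (hTl : T < (bb M + 1) ^ (s - 1)) {a : ℕ → Bool} (ha : a 0 = false)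
    (hc : cnt a (s - 1) = N) {i : ℕ} (hi : i < N + T + 2) :
    Legal (mDA M) s a (MachIff_row M N x a i) (MachIff_row M N x a (i + 1)) := by
  unfold MachIff_row
  rw [if_neg (Nat.succ_ne_zero i)]
  rcases Nat.eq_zero_or_pos i with rfl | hi0
  · rw [if_pos rfl, if_pos (by omega)]
    exact legal_RP M hs ha
  rw [if_neg (by omega)]
  rcases lt_trichotomy i (N + 1) with h | h | h
  · rw [if_pos (by omega), if_pos (by omega)]
    exact legal_PP M hs ha hi0 (by omega)
  · rw [if_pos (by omega), if_neg (by omega), h, show N + 1 + 1 - (N + 2) = 0 by omega]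
    exact legal_PC M hs ha hc hN hNs
  · rw [if_neg (by omega), if_neg (by omega)]
    obtain ⟨t, rfl⟩ : ∃ t, i = N + 2 + t := ⟨i - (N + 2), by omega⟩
    rw [show N + 2 + t - (N + 2) = t by omega, show N + 2 + t + 1 - (N + 2) = t + 1 by omega]
    exact legal_CC M hs (hT' t (by omega)) (by omega) (hz t (by omega)) (hz (t + 1) (by omega))

private theorem MachIff_last (M : CD) (N T : ℕ) (x : List Bool) (a : ℕ → Bool) :
    MachIff_row M N x a (N + T + 2) = rowC M x T := by
  unfold MachIff_row
  rw [if_neg (by omega), if_neg (by omega), show N + T + 2 - (N + 2) = T by omega]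

theorem machine_iff (M : CD) {s N T : ℕ} (hs : 3 ≤ s) {x : List Bool} (hN : N.bits = x ++ [true])
    (hNs : N + 1 ≤ s) (hT : M.halt (conf M x T 0) = true)
    (hT' : ∀ t < T, M.halt (conf M x t 0) = false)
    (hz : ∀ t ≤ T, ∀ pos, 1 + (s - 1) * M.C.κ ≤ pos → conf M x t pos = 0) :
    (∃ (a : ℕ → Bool) (d : ℕ → ℕ → (mDA M).D), DRun (mDA M) s N a d) ↔
      M.acc (conf M x T (1 + M.ko)) = true := by
  have hTl : T < (bb M + 1) ^ (s - 1) := time_lt M (by omega) hT hT' hz
  have hs1 : s - 1 + 1 = s := by omega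
  constructor
  · rintro ⟨a, d, h⟩
    obtain ⟨k, hk⟩ := exists_reset M hs h
    have hc : cnt a (s - 1) = N := by
      rw [cnt, hs1]
      exact h.cnt
    have hrow : ∀ i ≤ N + T + 2, ∀ c < s, d (k + i) c = MachIff_row M N x a i c := by
      intro i
      induction i with
      | zero =>
        intro _ c hc
        exact hk c hc
      | succ i ih =>
        intro hi
        exact Legal.unique (h.legal (k + i))
          (MachIff_legal M hs hN hNs hT' hz hTl h.zero hc (i := i) (by omega)) (ih (by omega))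
    refine acc_of_legal M hs hT (h.legal (k + (N + T + 2))) fun c hc => ?_
    rw [hrow _ le_rfl c hc, MachIff_last]
  · intro hacc
    have hcard : ∀ n, N + 1 ≤ n →
        ((Finset.range n).filter fun c => decide (1 ≤ c ∧ c ≤ N) = true).card = N := by
      intro n hn
      have e : ((Finset.range n).filter fun c => decide (1 ≤ c ∧ c ≤ N) = true) =
          Finset.Icc 1 N := by
        ext c
        simp only [Finset.mem_filter, Finset.mem_range, decide_eq_true_eq, Finset.mem_Icc]
        omega
      rw [e, Nat.card_Icc]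
      omega
    have ha : (fun c => decide (1 ≤ c ∧ c ≤ N)) 0 = false := by simp
    have hc : cnt (fun c => decide (1 ≤ c ∧ c ≤ N)) (s - 1) = N := by
      rw [cnt, hs1]
      exact hcard s hNs
    refine ⟨fun c => decide (1 ≤ c ∧ c ≤ N),
      fun k => MachIff_row M N x (fun c => decide (1 ≤ c ∧ c ≤ N)) (k % (N + T + 3)),
      ha, hcard s hNs, fun k => ?_⟩
    have hlt : k % (N + T + 3) < N + T + 3 := Nat.mod_lt _ (by omega)
    rcases lt_or_eq_of_le (Nat.le_of_lt_succ hlt) with h | h
    · have e : (k + 1) % (N + T + 3) = k % (N + T + 3) + 1 := by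
        rw [Nat.add_mod, Nat.mod_eq_of_lt (show 1 < N + T + 3 by omega)]
        exact Nat.mod_eq_of_lt (by omega)
      change Legal (mDA M) s _ (MachIff_row M N x _ (k % (N + T + 3)))
        (MachIff_row M N x _ ((k + 1) % (N + T + 3)))
      rw [e]
      exact MachIff_legal M hs hN hNs hT' hz hTl ha hc h
    · have e : (k + 1) % (N + T + 3) = 0 := by
        rw [Nat.add_mod, Nat.mod_eq_of_lt (show 1 < N + T + 3 by omega), h]
        exact Nat.mod_self _
      change Legal (mDA M) s _ (MachIff_row M N x _ (k % (N + T + 3)))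
        (MachIff_row M N x _ ((k + 1) % (N + T + 3)))
      rw [e, h, MachIff_last]
      have e0 : MachIff_row M N x (fun c => decide (1 ≤ c ∧ c ≤ N)) 0 = rowR M := by
        unfold MachIff_row
        rw [if_pos rfl]
      rw [e0]
      exact legal_CR M hs hT hTl hacc

end Pool.Agent.BPD
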