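import Pool.Agent.BPD.Auto
import Pool.Agent.BPD.CloA

/-!
# The parameters of the systems of cellular automata

PROOFS. Unfold the definitions of `Auto.lean`; `hb A = 2 ^ Fintype.card A.S`,
`dl = s (hb + 1) + 1`, `ww = s dl + 1`, `qq = dl + s dl + s ww (N + 1)`,
`tt = s ((s + 2) qq + 6 s hb + 1)`.

`hh_pos`, `hh_lt`: the index of `x` is less than the number of symbols. `hh_sidon`: for natural numbers
`2 ^ a + 2 ^ b = 2 ^ c + 2 ^ d` implies `{a, b} = {c, d}`: without restriction `a ≤ b`, `c ≤ d`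
(otherwise exchange), `b - d` ... : `2 ^ b < 2 ^ c + 2 ^ d ≤ 2 ^ (d + 1)` and symmetrically, so
`b = d`, hence `a = c` -- or, if `2 ^ b = 2 ^ (d + 1)`: this needs `2 ^ a = 0`, impossible. The symbols
are equal if their indices are (`Equiv.injective`, `Fin.ext`).

`st_cast`, `tt_cast`: `dl` is congruent to `1` modulo `s`, all other summands of `st` and `tt` are
multiples of `s` (`push_cast`, `ZMod.natCast_self`, `simp`). `st_abs`: all summands of `st` are bounded.
`st_lower`: without the mark `fst`, `st ≥ dl`. `st_eq_or`: the difference of two values of `st` is `0`,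
`± s ww`, or `± s (dl + ww (N - δ))` with `δ ∈ {-1, 0, 1}`; `s ww > 2 s hb`, and
`dl + ww (N - δ) ≥ dl > 2 hb` if `δ ≤ N`, `ww - dl = (s - 1) dl + 1 > 2 hb` if `N = 0`, `δ = 1` (use
`2 ≤ s`). `st_hh_inj`: `s |hh x - hh y| < s hb`, so the values of `st` are equal by `st_eq_or`, then
`hh x = hh y`. `tt_big`: `s * a ≥ a` for `a ≥ 0`. `neg1_sys`: all offsets are negative:
`o0`, `o1`, `o2` by `tt_big` and `st_abs`; `o3` by `st_lower` if there is no mark `fst`, otherwise by
`tt_big` and `st_abs`.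
-/

set_option autoImplicit false

namespace Pool.Agent.BPD

variable {A : Auto} {s N : ℕ}

theorem hh_pos (x : A.S) : 1 ≤ hh A x := one_le_pow₀ (by norm_num)

theorem hh_lt (x : A.S) : hh A x < hb A :=
  pow_lt_pow_right₀ (by norm_num) (Fintype.equivFin A.S x).isLt

theorem hb_pos : 1 ≤ hb A := one_le_pow₀ (by norm_num)

theorem hh_inj {x y : A.S} (h : hh A x = hh A y) : x = y := by
  have h1 : (Fintype.equivFin A.S x : ℕ) = (Fintype.equivFin A.S y : ℕ) :=
    (pow_right_injective₀ (a := (2 : ℤ)) (by norm_num) (by norm_num)) h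
  exact (Fintype.equivFin A.S).injective (Fin.ext h1)

/-- sums of two powers of two, the second exponent being the larger one -/
private theorem par_pow_aux {a b c d : ℕ} (hab : a ≤ b) (hcd : c ≤ d)
    (h : (2 : ℤ) ^ a + 2 ^ b = 2 ^ c + 2 ^ d) : a = c ∧ b = d := by
  have p : ∀ n : ℕ, (0 : ℤ) < 2 ^ n := fun n => by positivity
  have m : ∀ {k l : ℕ}, k ≤ l → (2 : ℤ) ^ k ≤ 2 ^ l := fun h =>
    pow_le_pow_right₀ (by norm_num) h
  have hbd : b = d := by
    rcases lt_trichotomy b d with h1 | h1 | h1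
    · exfalso
      have h2 : (2 : ℤ) ^ (b + 1) ≤ 2 ^ d := m h1
      rw [pow_succ] at h2
      have h3 := m hab
      have h4 := p c
      linarith
    · exact h1
    · exfalso
      have h2 : (2 : ℤ) ^ (d + 1) ≤ 2 ^ b := m h1
      rw [pow_succ] at h2
      have h3 := m hcd
      have h4 := p a
      linarith
  subst hbd
  refine ⟨(pow_right_injective₀ (a := (2 : ℤ)) (by norm_num) (by norm_num)) ?_, rfl⟩
  exact add_right_cancel h

private theorem par_pow {a b c d : ℕ} (h : (2 : ℤ) ^ a + 2 ^ b = 2 ^ c + 2 ^ d) :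
    (a = c ∧ b = d) ∨ (a = d ∧ b = c) := by
  rcases le_total a b with h1 | h1 <;> rcases le_total c d with h2 | h2
  · exact Or.inl (par_pow_aux h1 h2 h)
  · exact Or.inr (par_pow_aux h1 h2 (by linarith))
  · obtain ⟨h3, h4⟩ := par_pow_aux h1 h2 (a := b) (b := a) (by linarith)
    exact Or.inr ⟨h4, h3⟩
  · obtain ⟨h3, h4⟩ := par_pow_aux h1 h2 (a := b) (b := a) (by linarith)
    exact Or.inl ⟨h4, h3⟩

theorem hh_sidon {a b c d : A.S} (h : hh A a + hh A b = hh A c + hh A d) :
    (a = c ∧ b = d) ∨ (a = d ∧ b = c) := by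
  have e : ∀ {x y : A.S}, (Fintype.equivFin A.S x : ℕ) = (Fintype.equivFin A.S y : ℕ) →
      x = y := fun h1 => (Fintype.equivFin A.S).injective (Fin.ext h1)
  rcases par_pow h with ⟨h1, h2⟩ | ⟨h1, h2⟩
  · exact Or.inl ⟨e h1, e h2⟩
  · exact Or.inr ⟨e h1, e h2⟩

theorem st_congr {x y : A.S} (h : A.fst x = A.fst y) (h' : A.tA x = A.tA y) :
    st A s N x = st A s N y := by
  unfold st
  rw [h, h']

theorem st_cast (x : A.S) : ((st A s N x : ℤ) : ZMod s) = 1 := by
  unfold st dl
  split_ifs <;> push_cast <;> simp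

theorem tt_cast : ((tt A s N : ℤ) : ZMod s) = 0 := by
  unfold tt
  push_cast
  simp

theorem o0_cast (x y : A.S) : ((o0 A s N x y : ℤ) : ZMod s) = 0 := by
  unfold o0
  rw [Int.cast_add, Int.cast_mul, Int.cast_mul, tt_cast]
  simp

theorem o1_cast (x y : A.S) : ((o1 A s N x y : ℤ) : ZMod s) = 0 := by
  unfold o1
  rw [Int.cast_add, Int.cast_neg, tt_cast, Int.cast_mul]
  simp

theorem o2_cast (x y : A.S) : ((o2 A s N x y : ℤ) : ZMod s) = 1 := by
  unfold o2
  rw [Int.cast_add, Int.cast_add, Int.cast_neg, tt_cast, st_cast, Int.cast_mul]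
  simp

theorem o3_cast (x y : A.S) : ((o3 A s N x y : ℤ) : ZMod s) = -1 := by
  unfold o3
  rw [Int.cast_add, Int.cast_sub, Int.cast_neg, st_cast, Int.cast_mul]
  split_ifs
  · rw [tt_cast]
    simp
  · simp

private theorem par_dl : 1 ≤ dl A s := by
  unfold dl
  have h1 := hb_pos (A := A)
  have h2 : (0 : ℤ) ≤ (s : ℤ) * (hb A + 1) := by positivity
  linarith

private theorem par_ww : 1 ≤ ww A s := by
  unfold ww
  have h1 := par_dl (A := A) (s := s)
  have h2 : (0 : ℤ) ≤ (s : ℤ) * dl A s := by positivity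
  linarith

theorem qq_nonneg : 0 ≤ qq A s N := by
  unfold qq
  have h1 := par_dl (A := A) (s := s)
  have h2 := par_ww (A := A) (s := s)
  positivity

theorem st_abs (x : A.S) : |st A s N x| ≤ qq A s N := by
  unfold st qq
  have h1 := par_dl (A := A) (s := s)
  have h2 := par_ww (A := A) (s := s)
  have h3 : (0 : ℤ) ≤ (s : ℤ) * dl A s := by positivity
  have h4 : (0 : ℤ) ≤ (s : ℤ) * ww A s := by positivity
  have h5 : (0 : ℤ) ≤ (s : ℤ) * ww A s * N := by positivity
  rw [mul_add, mul_one, abs_le]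
  split_ifs <;> constructor <;> linarith

theorem st_lower {x : A.S} (h : A.fst x = false) : s * hb A < st A s N x := by
  have h2 := par_ww (A := A) (s := s)
  have h4 : (0 : ℤ) ≤ (s : ℤ) * ww A s := by positivity
  have h5 : (0 : ℤ) ≤ (s : ℤ) := by positivity
  have h6 : (s : ℤ) * hb A < dl A s := by
    unfold dl
    linarith
  unfold st
  rw [h]
  simp only [Bool.false_eq_true, if_false]
  split_ifs <;> linarith

private theorem par_dl_gt (hs : 2 ≤ s) : 2 * hb A < dl A s := by
  have h1 := hb_pos (A := A)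
  have h2 : (2 : ℤ) ≤ s := by exact_mod_cast hs
  unfold dl
  nlinarith

theorem st_eq_or (hs : 2 ≤ s) (x y : A.S) :
    st A s N x = st A s N y ∨ 2 * (s * hb A) < |st A s N x - st A s N y| := by
  have hs' : (2 : ℤ) ≤ s := by exact_mod_cast hs
  have hs0 : (0 : ℤ) < s := by linarith
  have h1 := hb_pos (A := A)
  have hd := par_dl_gt (A := A) hs
  have hdp := par_dl (A := A) (s := s)
  have hw := par_ww (A := A) (s := s)
  have hsd : (s : ℤ) * (2 * hb A) < s * dl A s := mul_lt_mul_of_pos_left hd hs0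
  have hwd : dl A s + 1 + dl A s ≤ ww A s := by
    unfold ww
    nlinarith
  have hsw : (s : ℤ) * dl A s + s * dl A s < s * ww A s := by
    have h2 : (s : ℤ) * (dl A s + 1 + dl A s) ≤ s * ww A s :=
      mul_le_mul_of_nonneg_left hwd hs0.le
    linarith
  have hN : (N : ℤ) = 0 ∨ (1 : ℤ) ≤ N := by
    rcases Nat.eq_zero_or_pos N with h2 | h2
    · left
      exact_mod_cast h2
    · right
      exact_mod_cast h2
  have hswp : (0 : ℤ) < (s : ℤ) * ww A s := by positivity
  have hN' : (s : ℤ) * ww A s * N = 0 ∨ (s : ℤ) * ww A s ≤ s * ww A s * N := by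
    rcases hN with h2 | h2
    · left
      rw [h2, mul_zero]
    · right
      nlinarith
  unfold st
  obtain ⟨D, hD⟩ : ∃ D : ℤ, D = s * dl A s := ⟨_, rfl⟩
  obtain ⟨W, hW⟩ : ∃ W : ℤ, W = s * ww A s := ⟨_, rfl⟩
  obtain ⟨T, hT⟩ : ∃ T : ℤ, T = W * N := ⟨_, rfl⟩
  rw [← hW] at hN' hswp hsw ⊢
  rw [← hD] at hsw hsd ⊢
  rw [← hT] at hN' ⊢
  have hD0 : 0 < D := by
    rw [hD]
    positivity
  rw [lt_abs]
  cases A.tA x <;> cases A.tA y <;> cases A.fst x <;> cases A.fst y <;>
    simp only [Bool.false_eq_true, if_false, if_true] <;>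
    rcases hN' with h3 | h3 <;>
    first
    | exact Or.inl trivial
    | exact Or.inr (Or.inl (by linarith))
    | exact Or.inr (Or.inr (by linarith))

theorem st_hh_inj (hs : 2 ≤ s) {x y : A.S}
    (h : st A s N x + s * hh A x = st A s N y + s * hh A y) : x = y := by
  have hs0 : (0 : ℤ) < s := by
    have : (2 : ℤ) ≤ s := by exact_mod_cast hs
    linarith
  rcases st_eq_or (N := N) hs x y with h1 | h1
  · rw [h1] at h
    exact hh_inj (mul_left_cancel₀ hs0.ne' (add_left_cancel h))
  · exfalso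
    have e : st A s N x - st A s N y = s * (hh A y - hh A x) := by linarith
    rw [e, abs_mul, abs_of_pos hs0] at h1
    have h2 : |hh A y - hh A x| < hb A := by
      rw [abs_lt]
      have := hh_pos x
      have := hh_pos y
      have := hh_lt x
      have := hh_lt y
      constructor <;> linarith
    have h3 := mul_lt_mul_of_pos_left h2 hs0
    have h4 : 0 ≤ (s : ℤ) * hb A := by
      have := hb_pos (A := A)
      positivity
    linarith

theorem tt_big (hs : 1 ≤ s) :
    s * qq A s N + 2 * qq A s N + 6 * (s * hb A) < tt A s N := by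
  have hs' : (1 : ℤ) ≤ s := by exact_mod_cast hs
  have h1 := hb_pos (A := A)
  have h2 := qq_nonneg (A := A) (s := s) (N := N)
  unfold tt
  have h3 : (0 : ℤ) ≤ (s + 2) * qq A s N + 6 * s * hb A + 1 := by positivity
  have h4 : 1 * ((s + 2) * qq A s N + 6 * s * hb A + 1) ≤
      (s : ℤ) * ((s + 2) * qq A s N + 6 * s * hb A + 1) := mul_le_mul_of_nonneg_right hs' h3
  linarith

private theorem par_hh (x y : A.S) : (s : ℤ) * (hh A x - hh A y) ≤ s * hb A := by
  have h1 : hh A x - hh A y ≤ hb A := by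
    have := hh_pos y
    have := hh_lt x
    linarith
  exact mul_le_mul_of_nonneg_left h1 (by positivity)

theorem neg1_sys (hs : 1 ≤ s) : Neg1 (sys A s N) := by
  have hs' : (1 : ℤ) ≤ s := by exact_mod_cast hs
  have hb1 := hb_pos (A := A)
  have hq := qq_nonneg (A := A) (s := s) (N := N)
  have hsq : 0 ≤ (s : ℤ) * qq A s N := by positivity
  have hsb : 0 < (s : ℤ) * hb A := by positivity
  have ht := tt_big (A := A) (N := N) hs
  intro X hX
  obtain ⟨ρ, σ, τ, ω, υ, -, rfl⟩ := (mem_sys A).1 hX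
  refine ⟨⟨_, Finset.mem_insert_self _ _⟩, ?_⟩
  intro y hy
  simp only [Finset.mem_insert, Finset.mem_singleton] at hy
  rcases hy with rfl | rfl | rfl | rfl
  · have h1 := par_hh (s := s) ρ υ
    unfold o0
    linarith
  · have h1 := par_hh (s := s) σ υ
    unfold o1
    linarith
  · have h1 := par_hh (s := s) τ υ
    have h2 := (abs_le.1 (st_abs (s := s) (N := N) τ)).2
    unfold o2
    linarith
  · have h1 := par_hh (s := s) ω υ
    unfold o3
    cases hf : A.fst υ
    · have h2 := st_lower (s := s) (N := N) hf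
      simp only [Bool.false_eq_true, if_false]
      linarith
    · have h2 := (abs_le.1 (st_abs (s := s) (N := N) υ)).1
      simp only [if_true]
      linarith

theorem rule_mem_sys {ρ σ τ ω υ : A.S} (h : A.rel ρ σ τ ω υ) :
    ({o0 A s N ρ υ, o1 A s N σ υ, o2 A s N τ υ, o3 A s N ω υ} : Finset ℤ) ∈ sys A s N :=
  (mem_sys A).2 ⟨ρ, σ, τ, ω, υ, h, rfl⟩

end Pool.Agent.BPD
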