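import Pool.Agent.BPD.Defs
import Pool.Agent.PF.Enc

/-!
# Algorithms for the difficulty, and the classes E and ESPACE: definitions

Machines are the multi-stack machines `FinTM2` of Mathlib; inputs and outputs are words over `Bool`.
-/

set_option autoImplicit false

namespace Pool.Agent.BPD

open Turing Pool.Agent.PF

/-- Inputs of the algorithms: lists of rules, which are lists of points with integer coordinates. -/
abbrev Code : Type := List (List (ℤ × ℤ))

/-- The update family of a list of rules. -/
def fam (c : Code) : Fam := (c.map List.toFinset).toFinset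

/-- The list contains every rule only once, every rule contains every site only once, and the
origin is not in a rule. -/
structure Valid (c : Code) : Prop where
  nodup : (c.map List.toFinset).Nodup
  rules : ∀ X ∈ c, X.Nodup ∧ ((0 : ℤ), (0 : ℤ)) ∉ X

/-- The word of an input (lists are coded by binary trees in prefix form, coordinates in binary). -/
def word (c : Code) : List Bool := (enc c).code

/-- The time bound `C exp (a ‖U‖)` is possible for the computation of the difficulty (in
binary) of critical update families. -/
def FastAlg (a : ℝ) : Prop :=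
  ∃ (tm : FinTM2) (e₀ : tm.Γ tm.k₀ ≃ Bool) (e₁ : tm.Γ tm.k₁ ≃ Bool) (C : ℝ),
    ∀ c : Code, Valid c → Critical (fam c) → ∀ n : ℕ, difficulty (fam c) = n →
      ∃ t : ℕ, (t : ℝ) ≤ C * Real.exp (a * size (fam c)) ∧
        Nonempty (TM2OutputsInTime tm ((word c).map e₀.symm) (some (n.bits.map e₁.symm)) t)

/-- The configuration `c` is reached from the input `w`. -/
def Reach (tm : FinTM2) (w : List (tm.Γ tm.k₀)) (c : tm.Cfg) : Prop :=
  ∃ n : ℕ, (flip bind tm.step)^[n] (some (initList tm w)) = some c

open Classical in
/-- The class E: time `2 ^ O(n)`. -/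
def InE (L : Set (List Bool)) : Prop :=
  ∃ (tm : FinTM2) (e₀ : tm.Γ tm.k₀ ≃ Bool) (e₁ : tm.Γ tm.k₁ ≃ Bool) (c : ℕ),
    ∀ x : List Bool, Nonempty (TM2OutputsInTime tm (x.map e₀.symm)
      (some ([decide (x ∈ L)].map e₁.symm)) (2 ^ (c * (x.length + 1))))

open Classical in
/-- The class ESPACE: all stacks contain at most `2 ^ O(n)` symbols in every reachable
configuration. -/
def InESPACE (L : Set (List Bool)) : Prop :=
  ∃ (tm : FinTM2) (e₀ : tm.Γ tm.k₀ ≃ Bool) (e₁ : tm.Γ tm.k₁ ≃ Bool) (c : ℕ),
    ∀ x : List Bool,
      Nonempty (TM2Outputs tm (x.map e₀.symm) (some ([decide (x ∈ L)].map e₁.symm))) ∧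
      ∀ q : tm.Cfg, Reach tm (x.map e₀.symm) q → ∀ k, (q.stk k).length ≤ 2 ^ (c * (x.length + 1))

/-- The problem to decide whether the difficulty of a critical family is at most a given number is
hard for ESPACE under polynomial time reductions with inputs of linear size. -/
def Hard : Prop :=
  ∀ L : Set (List Bool), InESPACE L → ∃ (f : List Bool → Code) (K : List Bool → ℕ) (C : ℝ),
    Nonempty (TM2ComputableInPolyTime (fun x : List Bool => x)
      (fun p : Code × ℕ => (enc (p.1, p.2.bits)).code) fun x => (f x, K x)) ∧
    ∀ x, Valid (f x) ∧ Critical (fam (f x)) ∧ size (fam (f x)) ≤ C * (x.length + 1) ∧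
      (x ∈ L ↔ difficulty (fam (f x)) ≤ K x)

end Pool.Agent.BPD
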