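import Pool.Agent.BPD.Par
import Pool.Agent.BPD.SDefs

/-!
# The list of rules of the lifted system

PROOFS. `fam_redc`: both sides have the same members: the first rule, and for every tuple `x` with `rel`
the rule `(0, -1)`, `(b t, 0)` for `t` in `rul A s N x` (`mem_sys` or the definition of `sys`;
`Finset.image_insert`, `List.toFinset_cons`, `Finset.ext`).

`rul_inj`: let `x = (ρ, σ, τ, ω, υ)`, `x' = (ρ', ..)` be tuples with `rel` and the same rule, `3 ≤ s`. Modulo
`s` the offsets `o0`, `o1` are `0`, `o2` is `1`, `o3` is `-1` (`o0_cast`, ..), and `0, 1, -1` are different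
modulo `s ≥ 3`; and `o0 < o1` (`tt_big`: `o0 ≤ -2 tt + s hb < -tt - s hb ≤ o1`). So the four
offsets agree one by one: the two elements which are `0` modulo `s` in increasing order, the element which
is `1`, the element which is `-1`. `o1 = o1'`: `hh σ + hh υ' = hh σ' + hh υ`, and `σ ≠ υ` by the phases
(`A.ph_eq`: `ph υ = ph σ + 1`), so `σ = σ'`, `υ = υ'` (`hh_sidon`). `o0 = o0'` gives `ρ = ρ'`
(`hh_inj`), `o2 = o2'` gives `τ = τ'` (`st_hh_inj`), `o3 = o3'` gives `ω = ω'`.

`valid_redc`: a rule of a tuple contains five different points: the offsets are different as above,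
multiplication by `b ≥ 2` is injective, `(0, -1)` has another second coordinate, and the offsets
are not `0` (they are negative: `neg1_sys`). The first rule contains `(1, 0)`, while all points of the other
rules have first coordinate `≤ 0`, so it is different from them; the others are different by
`rul_inj` (the rule determines the set of its `b t`, hence of its `t`: `b ≠ 0`). `(tuples A)` has no
duplicates (`Finset.nodup_toList`), use `List.Nodup.map_on`.
-/

set_option autoImplicit false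

namespace Pool.Agent.BPD

open Pool.Agent.PF

variable (A : Auto)

open Classical in
/-- The list of all tuples with `rel`. -/
noncomputable def tuples : List (A.S × A.S × A.S × A.S × A.S) :=
  (Finset.univ.filter fun x : A.S × A.S × A.S × A.S × A.S =>
    A.rel x.1 x.2.1 x.2.2.1 x.2.2.2.1 x.2.2.2.2).toList

/-- The rule of a tuple. -/
noncomputable def rlist (b s N : ℕ) (x : A.S × A.S × A.S × A.S × A.S) : List (ℤ × ℤ) :=
  [(0, -1), ((b : ℤ) * o0 A s N x.1 x.2.2.2.2, 0), ((b : ℤ) * o1 A s N x.2.1 x.2.2.2.2, 0),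
    ((b : ℤ) * o2 A s N x.2.2.1 x.2.2.2.2, 0), ((b : ℤ) * o3 A s N x.2.2.2.1 x.2.2.2.2, 0)]

/-- The list of rules. -/
noncomputable def redc (b s N : ℕ) : Code :=
  [(1, 0), ((b : ℤ), 0), (0, -1)] :: (tuples A).map (rlist A b s N)

private theorem redA_mem (x : A.S × A.S × A.S × A.S × A.S) :
    x ∈ tuples A ↔ A.rel x.1 x.2.1 x.2.2.1 x.2.2.2.1 x.2.2.2.2 := by
  classical
  rw [tuples, Finset.mem_toList, Finset.mem_filter]
  exact ⟨fun h => h.2, fun h => ⟨Finset.mem_univ _, h⟩⟩

private theorem redA_rlist (b s N : ℕ) (x : A.S × A.S × A.S × A.S × A.S) :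
    (rlist A b s N x).toFinset = insert ((0 : ℤ), (-1 : ℤ))
      ((rul A s N x).image fun t => ((b : ℤ) * t, (0 : ℤ))) := by
  simp [rlist, rul, Finset.image_insert]

theorem fam_redc (b s N : ℕ) : fam (redc A b s N) = lift b (sys A s N) := by
  classical
  have h1 : (((tuples A).map (rlist A b s N)).map List.toFinset).toFinset =
      (sys A s N).image fun X => insert ((0 : ℤ), (-1 : ℤ))
        (X.image fun t => ((b : ℤ) * t, (0 : ℤ))) := by
    ext Y
    simp only [List.mem_toFinset, List.mem_map, Finset.mem_image]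
    constructor
    · rintro ⟨_, ⟨x, hx, rfl⟩, rfl⟩
      exact ⟨rul A s N x, rule_mem_sys ((redA_mem A x).1 hx), (redA_rlist A b s N x).symm⟩
    · rintro ⟨X, hX, rfl⟩
      obtain ⟨ρ, σ, τ, ω, υ, hr, rfl⟩ := (mem_sys A).1 hX
      exact ⟨_, ⟨(ρ, σ, τ, ω, υ), (redA_mem A _).2 hr, rfl⟩, redA_rlist A b s N _⟩
  unfold fam redc lift
  rw [List.map_cons, List.toFinset_cons, h1]
  congr 1
  simp

private theorem redA_lt {s N : ℕ} (hs : 1 ≤ s) (a b c d : A.S) : o0 A s N a b < o1 A s N c d := by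
  have h1 := tt_big (A := A) (N := N) hs
  have h2 := qq_nonneg (A := A) (s := s) (N := N)
  have h3 : ∀ x : A.S, (0 : ℤ) ≤ s * hh A x ∧ (s : ℤ) * hh A x ≤ s * hb A := by
    intro x
    have e1 := hh_pos x
    have e2 := hh_lt x
    exact ⟨by positivity, mul_le_mul_of_nonneg_left e2.le (by positivity)⟩
  have h4 : (0 : ℤ) ≤ s * qq A s N := by positivity
  have h5 : (0 : ℤ) ≤ s * hb A := (h3 a).1.trans (h3 a).2
  unfold o0 o1
  rw [mul_sub, mul_sub]
  linarith [(h3 a).1, (h3 a).2, (h3 b).1, (h3 b).2, (h3 c).1, (h3 c).2, (h3 d).1, (h3 d).2]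

private theorem redA_zmod {s : ℕ} (hs : 3 ≤ s) : (0 : ZMod s) ≠ 1 ∧ (0 : ZMod s) ≠ -1 ∧
    (1 : ZMod s) ≠ -1 := by
  have : Fact (1 < s) := ⟨by omega⟩
  have : NeZero s := ⟨by omega⟩
  refine ⟨zero_ne_one, fun h => ?_, fun h => ?_⟩
  · exact zero_ne_one (neg_eq_zero.1 h.symm).symm
  · have h2 : ((2 : ℕ) : ZMod s) = 0 := by
      have : (1 : ZMod s) + 1 = 0 := by
        nth_rewrite 1 [h]
        exact neg_add_cancel 1
      push_cast
      rw [← one_add_one_eq_two]
      exact this
    rw [ZMod.natCast_eq_zero_iff] at h2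
    exact absurd (Nat.le_of_dvd (by norm_num) h2) (by omega)

/-- The four offsets are different. -/
private theorem redA_ne {s N : ℕ} (hs : 3 ≤ s) (x : A.S × A.S × A.S × A.S × A.S) :
    o0 A s N x.1 x.2.2.2.2 ≠ o1 A s N x.2.1 x.2.2.2.2 ∧
    o0 A s N x.1 x.2.2.2.2 ≠ o2 A s N x.2.2.1 x.2.2.2.2 ∧
    o0 A s N x.1 x.2.2.2.2 ≠ o3 A s N x.2.2.2.1 x.2.2.2.2 ∧
    o1 A s N x.2.1 x.2.2.2.2 ≠ o2 A s N x.2.2.1 x.2.2.2.2 ∧
    o1 A s N x.2.1 x.2.2.2.2 ≠ o3 A s N x.2.2.2.1 x.2.2.2.2 ∧
    o2 A s N x.2.2.1 x.2.2.2.2 ≠ o3 A s N x.2.2.2.1 x.2.2.2.2 := by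
  obtain ⟨z1, z2, z3⟩ := redA_zmod hs
  refine ⟨(redA_lt A (by omega) _ _ _ _).ne, fun h => ?_, fun h => ?_, fun h => ?_, fun h => ?_,
    fun h => ?_⟩
  · have h1 := congrArg (fun a : ℤ => (a : ZMod s)) h
    simp only [o0_cast, o2_cast] at h1
    exact z1 h1
  · have h1 := congrArg (fun a : ℤ => (a : ZMod s)) h
    simp only [o0_cast, o3_cast] at h1
    exact z2 h1
  · have h1 := congrArg (fun a : ℤ => (a : ZMod s)) h
    simp only [o1_cast, o2_cast] at h1
    exact z1 h1
  · have h1 := congrArg (fun a : ℤ => (a : ZMod s)) h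
    simp only [o1_cast, o3_cast] at h1
    exact z2 h1
  · have h1 := congrArg (fun a : ℤ => (a : ZMod s)) h
    simp only [o2_cast, o3_cast] at h1
    exact z3 h1

theorem rul_inj {s N : ℕ} (hs : 3 ≤ s) {x y : A.S × A.S × A.S × A.S × A.S}
    (hx : A.rel x.1 x.2.1 x.2.2.1 x.2.2.2.1 x.2.2.2.2)
    (hy : A.rel y.1 y.2.1 y.2.2.1 y.2.2.2.1 y.2.2.2.2) (h : rul A s N x = rul A s N y) :
    x = y := by
  obtain ⟨ρ, σ, τ, ω, υ⟩ := x
  obtain ⟨ρ', σ', τ', ω', υ'⟩ := y
  simp only at hx hy
  have hs0 : (s : ℤ) ≠ 0 := by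
    have : (0 : ℤ) < s := by exact_mod_cast (by omega : 0 < s)
    exact this.ne'
  obtain ⟨z1, z2, z3⟩ := redA_zmod hs
  have hmem : ∀ t : ℤ, (t = o0 A s N ρ υ ∨ t = o1 A s N σ υ ∨ t = o2 A s N τ υ ∨
      t = o3 A s N ω υ) → (t = o0 A s N ρ' υ' ∨ t = o1 A s N σ' υ' ∨ t = o2 A s N τ' υ' ∨
      t = o3 A s N ω' υ') := by
    intro t ht
    have h1 : t ∈ rul A s N (ρ, σ, τ, ω, υ) := by
      simp only [rul, Finset.mem_insert, Finset.mem_singleton]
      exact ht
    rw [h] at h1
    simpa only [rul, Finset.mem_insert, Finset.mem_singleton] using h1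
  have e0 : o0 A s N ρ υ = o0 A s N ρ' υ' := by
    rcases hmem _ (Or.inl rfl) with h1 | h1 | h1 | h1
    · exact h1
    · exact absurd h1 (redA_lt A (by omega) _ _ _ _).ne
    · have h2 := congrArg (fun a : ℤ => (a : ZMod s)) h1
      simp only [o0_cast, o2_cast] at h2
      exact absurd h2 z1
    · have h2 := congrArg (fun a : ℤ => (a : ZMod s)) h1
      simp only [o0_cast, o3_cast] at h2
      exact absurd h2 z2
  have e1 : o1 A s N σ υ = o1 A s N σ' υ' := by
    rcases hmem _ (Or.inr (Or.inl rfl)) with h1 | h1 | h1 | h1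
    · exact absurd h1 (redA_lt A (by omega) _ _ _ _).ne'
    · exact h1
    · have h2 := congrArg (fun a : ℤ => (a : ZMod s)) h1
      simp only [o1_cast, o2_cast] at h2
      exact absurd h2 z1
    · have h2 := congrArg (fun a : ℤ => (a : ZMod s)) h1
      simp only [o1_cast, o3_cast] at h2
      exact absurd h2 z2
  have e2 : o2 A s N τ υ = o2 A s N τ' υ' := by
    rcases hmem _ (Or.inr (Or.inr (Or.inl rfl))) with h1 | h1 | h1 | h1
    · have h2 := congrArg (fun a : ℤ => (a : ZMod s)) h1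
      simp only [o0_cast, o2_cast] at h2
      exact absurd h2.symm z1
    · have h2 := congrArg (fun a : ℤ => (a : ZMod s)) h1
      simp only [o1_cast, o2_cast] at h2
      exact absurd h2.symm z1
    · exact h1
    · have h2 := congrArg (fun a : ℤ => (a : ZMod s)) h1
      simp only [o2_cast, o3_cast] at h2
      exact absurd h2 z3
  have e3 : o3 A s N ω υ = o3 A s N ω' υ' := by
    rcases hmem _ (Or.inr (Or.inr (Or.inr rfl))) with h1 | h1 | h1 | h1
    · have h2 := congrArg (fun a : ℤ => (a : ZMod s)) h1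
      simp only [o0_cast, o3_cast] at h2
      exact absurd h2.symm z2
    · have h2 := congrArg (fun a : ℤ => (a : ZMod s)) h1
      simp only [o1_cast, o3_cast] at h2
      exact absurd h2.symm z2
    · have h2 := congrArg (fun a : ℤ => (a : ZMod s)) h1
      simp only [o2_cast, o3_cast] at h2
      exact absurd h2.symm z3
    · exact h1
  have f1 : hh A σ + hh A υ' = hh A σ' + hh A υ := by
    unfold o1 at e1
    refine mul_left_cancel₀ hs0 ?_
    linear_combination e1
  rcases hh_sidon f1 with ⟨rfl, rfl⟩ | ⟨rfl, _⟩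
  · have f0 : ρ = ρ' := by
      refine hh_inj (mul_left_cancel₀ hs0 ?_)
      unfold o0 at e0
      linear_combination e0
    have f2 : τ = τ' := by
      refine st_hh_inj (s := s) (N := N) (by omega) ?_
      unfold o2 at e2
      linear_combination e2
    have f3 : ω = ω' := by
      refine hh_inj (mul_left_cancel₀ hs0 ?_)
      unfold o3 at e3
      linear_combination e3
    rw [f0, f2, f3]
  · exfalso
    have h1 := (A.ph_eq hx).2
    have h2 : (1 : ZMod 3) = 0 := by
      have := congrArg (fun a => a - A.ph σ) h1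
      simpa using this.symm
    exact absurd h2 (by decide)

private theorem redA_neg {s N : ℕ} (hs : 3 ≤ s) {x : A.S × A.S × A.S × A.S × A.S}
    (hx : x ∈ tuples A) : ∀ t ∈ rul A s N x, t < 0 :=
  (neg1_sys (A := A) (N := N) (by omega) _ (rule_mem_sys ((redA_mem A x).1 hx))).2

theorem valid_redc {b s N : ℕ} (hs : 3 ≤ s) (hb : 2 ≤ b) : Valid (redc A b s N) := by
  classical
  have hb0 : (b : ℤ) ≠ 0 := by omega
  have hbpos : (0 : ℤ) < b := by omega
  constructor
  · unfold redc
    rw [List.map_cons, List.nodup_cons]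
    constructor
    · intro h
      rw [List.mem_map] at h
      obtain ⟨_, hX, hX2⟩ := h
      obtain ⟨x, hx, rfl⟩ := List.mem_map.1 hX
      have h1 : ((1 : ℤ), (0 : ℤ)) ∈ (rlist A b s N x).toFinset := by
        rw [hX2]
        simp
      rw [redA_rlist, Finset.mem_insert, Finset.mem_image] at h1
      rcases h1 with h1 | ⟨t, ht, h1⟩
      · simp at h1
      · have h2 := redA_neg A hs hx t ht
        have h3 : (b : ℤ) * t = 1 := (Prod.mk.inj h1).1
        have h4 : (b : ℤ) * t < 0 := mul_neg_of_pos_of_neg hbpos h2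
        omega
    · rw [List.map_map]
      refine List.Nodup.map_on ?_ (Finset.nodup_toList _)
      intro x hx y hy hxy
      simp only [Function.comp_apply, redA_rlist] at hxy
      refine rul_inj A hs ((redA_mem A x).1 hx) ((redA_mem A y).1 hy) (N := N) ?_
      have key : ∀ (z : A.S × A.S × A.S × A.S × A.S) (t : ℤ), t ∈ rul A s N z ↔
          ((b : ℤ) * t, (0 : ℤ)) ∈ insert ((0 : ℤ), (-1 : ℤ))
            ((rul A s N z).image fun t => ((b : ℤ) * t, (0 : ℤ))) := by
        intro z t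
        rw [Finset.mem_insert, Finset.mem_image]
        constructor
        · intro h
          exact Or.inr ⟨t, h, rfl⟩
        · rintro (h | ⟨t', ht', h⟩)
          · exact absurd (Prod.mk.inj h).2 (by norm_num)
          · have h1 := mul_left_cancel₀ hb0 (Prod.mk.inj h).1
            rwa [← h1]
      ext t
      rw [key x t, key y t, hxy]
  · intro X hX
    unfold redc at hX
    rcases List.mem_cons.1 hX with rfl | hX
    · have h1 : ¬ (1 : ℤ) = (b : ℤ) := by omega
      simp [h1, hb0.symm]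
    · obtain ⟨x, hx, rfl⟩ := List.mem_map.1 hX
      obtain ⟨n1, n2, n3, n4, n5, n6⟩ := redA_ne A (N := N) hs x
      have hneg := redA_neg A (N := N) hs hx
      have g0 : o0 A s N x.1 x.2.2.2.2 ≠ 0 := (hneg _ (by simp [rul])).ne
      have g1 : o1 A s N x.2.1 x.2.2.2.2 ≠ 0 := (hneg _ (by simp [rul])).ne
      have g2 : o2 A s N x.2.2.1 x.2.2.2.2 ≠ 0 := (hneg _ (by simp [rul])).ne
      have g3 : o3 A s N x.2.2.2.1 x.2.2.2.2 ≠ 0 := (hneg _ (by simp [rul])).ne
      have hb1 : b ≠ 0 := by omega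
      unfold rlist
      constructor
      · simp [hb1, n1, n2, n3, n4, n5, n6]
      · simp [hb1, g0, g1, g2, g3]

end Pool.Agent.BPD
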