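import Pool.Agent.BPD.RedA
import Pool.Agent.PF.Int

/-!
# Size and computability of the list of rules

PROOFS. `size_redc`. The sum of the cardinalities of the rules of `fam (redc A b s N)` is at most
`3 + 5 * (tuples A).length`, a constant (`Finset.sum_le`-type bound over the image of the list: the sum over
the `toFinset` of a list is at most the sum over the list, `List.toFinset_card_le`). All coordinates have
absolute value at most `max 1 (b * (2 tt + qq + s hb))` up to a constant factor; with `b ≤ 2 s + 1`, `N ≤ s`,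
the definitions of `dl`, `ww`, `qq`, `tt` give a bound `(κ (s + 1)) ^ 9` with a constant `κ ≥ 2` which depends
only on `hb A` (crude: each of `dl ≤ 4 hb (s + 1)`, `ww ≤ 5 hb (s + 1) ^ 2`, and so on). So
`1 ≤ diam` (the first rule contains `(1, 0)`) and
`log (diam) ≤ log (2 (κ (s + 1)) ^ 9) ≤ 10 (log 2 + log κ + log (s + 1))` and
`log (s + 1) ≤ (c (n + 1) + 1) log 2` as `s + 1 ≤ 2 ^ (c (n + 1) + 1)`.

`redc_PF`. The list `tuples A` is constant; a list built by `map` over a constant list of functions in `PF` is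
in `PF` (induction over the constant list with `PF.cons`, `PF.const'`). The numbers `hh A x`, `hb A` are
constants; `((b x : ℕ) : ℤ)` is `PF` (`PF.mkZ` with the sign `false`), and `dl`, `ww`, `st`, `qq`, `tt`, `o0`,
.., `o3` are built from them with `PF.addZ`, `PF.subZ`, `PF.mulZ`, `PF.const'` (the marks of a
symbol are constants, so the conditions in `st`, `o3` are decided).
-/

set_option autoImplicit false

namespace Pool.Agent.BPD

open Pool.Agent.PF

variable (A : Auto)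

private theorem redB_hh (s : ℕ) (x y : A.S) : |(s : ℤ) * (hh A x - hh A y)| ≤ s * hb A := by
  have h0 : (0 : ℤ) ≤ s := by positivity
  rw [abs_mul, abs_of_nonneg h0]
  refine mul_le_mul_of_nonneg_left ?_ h0
  rw [abs_le]
  have h1 := hh_pos x
  have h2 := hh_pos y
  have h3 := hh_lt x
  have h4 := hh_lt y
  constructor <;> linarith

private theorem redB_bounds {s N : ℕ} (hN : N ≤ s) {H S : ℤ} (hH : H = hb A + 3)
    (hS : S = s + 1) : qq A s N ≤ 2 * H * S ^ 4 ∧ 0 ≤ tt A s N ∧ tt A s N ≤ 11 * H * S ^ 6 := by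
  have hb1 := hb_pos (A := A)
  have hs0 : (0 : ℤ) ≤ s := by positivity
  have hS1 : 1 ≤ S := by linarith
  have hS0 : 0 ≤ S := by linarith
  have hH1 : 1 ≤ H := by linarith
  have hH0 : 0 ≤ H := by linarith
  have hHS : 1 ≤ H * S := by nlinarith
  have hsS : (s : ℤ) ≤ S := by linarith
  have hNS : (N : ℤ) + 1 ≤ S := by
    have : (N : ℤ) ≤ s := by exact_mod_cast hN
    linarith
  have hN0 : (0 : ℤ) ≤ (N : ℤ) + 1 := by positivity
  have hdl0 : 0 ≤ dl A s := by
    unfold dl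
    nlinarith
  have hdl : dl A s ≤ H * S := by
    unfold dl
    rw [hH, hS]
    nlinarith
  have hww0 : 0 ≤ ww A s := by
    unfold ww
    positivity
  have hww : ww A s ≤ H * S ^ 2 := by
    unfold ww
    have h1 : (s : ℤ) * dl A s ≤ s * (H * S) := mul_le_mul_of_nonneg_left hdl hs0
    have h2 : H * S ^ 2 = s * (H * S) + H * S := by
      rw [hS]
      ring
    linarith
  have hq0 := qq_nonneg (A := A) (s := s) (N := N)
  have p24 : S ^ 2 ≤ S ^ 4 := pow_le_pow_right₀ hS1 (by norm_num)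
  have p46 : S ^ 4 ≤ S ^ 5 := pow_le_pow_right₀ hS1 (by norm_num)
  have p15 : S ^ 1 ≤ S ^ 5 := pow_le_pow_right₀ hS1 (by norm_num)
  have p05 : 1 ≤ S ^ 5 := one_le_pow₀ hS1
  have hq : qq A s N ≤ 2 * H * S ^ 4 := by
    unfold qq
    have h1 : S * dl A s ≤ S * (H * S) := mul_le_mul_of_nonneg_left hdl hS0
    have h2 : (s : ℤ) * ww A s ≤ S * (H * S ^ 2) := mul_le_mul hsS hww hww0 hS0
    have h3 : (s : ℤ) * ww A s * (N + 1) ≤ S * (H * S ^ 2) * S :=
      mul_le_mul h2 hNS hN0 (by positivity)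
    have h4 : H * S ^ 2 ≤ H * S ^ 4 := mul_le_mul_of_nonneg_left p24 hH0
    have e1 : dl A s + s * dl A s = S * dl A s := by
      rw [hS]
      ring
    have e2 : S * (H * S) = H * S ^ 2 := by ring
    have e3 : S * (H * S ^ 2) * S = H * S ^ 4 := by ring
    rw [e1]
    linarith
  refine ⟨hq, by unfold tt; positivity, ?_⟩
  unfold tt
  have h1 : ((s : ℤ) + 2) * qq A s N ≤ (2 * S) * (2 * H * S ^ 4) :=
    mul_le_mul (by linarith) hq hq0 (by positivity)
  have h2 : 6 * (s : ℤ) * hb A ≤ 6 * S * H := by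
    refine mul_le_mul (by linarith) (by linarith) (by linarith) (by positivity)
  have h3 : H * S ^ 1 ≤ H * S ^ 5 := mul_le_mul_of_nonneg_left p15 hH0
  have h4 : 1 ≤ H * S ^ 5 := by nlinarith
  have h5 : ((s : ℤ) + 2) * qq A s N + 6 * s * hb A + 1 ≤ 11 * H * S ^ 5 := by
    have e1 : (2 * S) * (2 * H * S ^ 4) = 4 * (H * S ^ 5) := by ring
    have e2 : 6 * S * H = 6 * (H * S ^ 1) := by ring
    rw [e1] at h1
    rw [e2] at h2
    linarith
  have h6 : (0 : ℤ) ≤ ((s : ℤ) + 2) * qq A s N + 6 * s * hb A + 1 := by positivity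
  have h7 := mul_le_mul hsS h5 h6 hS0
  have e3 : S * (11 * H * S ^ 5) = 11 * H * S ^ 6 := by ring
  rw [e3] at h7
  exact h7

private theorem redB_off {s N : ℕ} (hN : N ≤ s) (x : A.S × A.S × A.S × A.S × A.S) :
    |o0 A s N x.1 x.2.2.2.2| ≤ 25 * (hb A + 3) * ((s : ℤ) + 1) ^ 6 ∧
    |o1 A s N x.2.1 x.2.2.2.2| ≤ 25 * (hb A + 3) * ((s : ℤ) + 1) ^ 6 ∧
    |o2 A s N x.2.2.1 x.2.2.2.2| ≤ 25 * (hb A + 3) * ((s : ℤ) + 1) ^ 6 ∧
    |o3 A s N x.2.2.2.1 x.2.2.2.2| ≤ 25 * (hb A + 3) * ((s : ℤ) + 1) ^ 6 := by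
  obtain ⟨H, hH⟩ : ∃ H : ℤ, H = hb A + 3 := ⟨_, rfl⟩
  obtain ⟨S, hS⟩ : ∃ S : ℤ, S = (s : ℤ) + 1 := ⟨_, rfl⟩
  obtain ⟨hq, ht0, ht⟩ := redB_bounds A hN hH hS
  rw [← hH, ← hS]
  have hb1 := hb_pos (A := A)
  have hs0 : (0 : ℤ) ≤ s := by positivity
  have hS1 : 1 ≤ S := by linarith
  have hH0 : 0 ≤ H := by linarith
  have hq0 := qq_nonneg (A := A) (s := s) (N := N)
  have h1 : H * S ^ 4 ≤ H * S ^ 6 :=
    mul_le_mul_of_nonneg_left (pow_le_pow_right₀ hS1 (by norm_num)) hH0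
  have h2 : H * S ^ 1 ≤ H * S ^ 6 :=
    mul_le_mul_of_nonneg_left (pow_le_pow_right₀ hS1 (by norm_num)) hH0
  have h3 : (s : ℤ) * hb A ≤ S * H := mul_le_mul (by linarith) (by linarith) (by linarith)
    (by linarith)
  have h4 : (s : ℤ) * hb A ≤ H * S ^ 6 := by
    have e : S * H = H * S ^ 1 := by ring
    rw [e] at h3
    exact h3.trans h2
  have e0 := abs_le.1 (redB_hh A s x.1 x.2.2.2.2)
  have e1 := abs_le.1 (redB_hh A s x.2.1 x.2.2.2.2)
  have e2 := abs_le.1 (redB_hh A s x.2.2.1 x.2.2.2.2)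
  have e3 := abs_le.1 (redB_hh A s x.2.2.2.1 x.2.2.2.2)
  have s2 := abs_le.1 (st_abs (s := s) (N := N) x.2.2.1)
  have s4 := abs_le.1 (st_abs (s := s) (N := N) x.2.2.2.2)
  refine ⟨?_, ?_, ?_, ?_⟩
  · rw [abs_le]
    unfold o0
    constructor <;> linarith [e0.1, e0.2]
  · rw [abs_le]
    unfold o1
    constructor <;> linarith [e1.1, e1.2]
  · rw [abs_le]
    unfold o2
    constructor <;> linarith [e2.1, e2.2, s2.1, s2.2]
  · rw [abs_le]
    unfold o3
    constructor <;> split_ifs <;> linarith [e3.1, e3.2, s4.1, s4.2]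

private theorem redB_mul {b s : ℕ} (hb : b ≤ 2 * s + 1) {H : ℤ} (hH : 0 ≤ H) {o : ℤ}
    (ho : |o| ≤ 25 * H * ((s : ℤ) + 1) ^ 6) :
    |(b : ℤ) * o| ≤ 50 * H * ((s : ℤ) + 1) ^ 7 := by
  have hb' : (b : ℤ) ≤ 2 * ((s : ℤ) + 1) := by
    have : (b : ℤ) ≤ 2 * s + 1 := by exact_mod_cast hb
    linarith
  have hb0 : (0 : ℤ) ≤ b := by positivity
  rw [abs_mul, abs_of_nonneg hb0]
  refine (mul_le_mul hb' ho (abs_nonneg _) (by positivity)).trans (le_of_eq ?_)
  ring

private theorem redB_pt {b s N : ℕ} (hN : N ≤ s) (hb' : b ≤ 2 * s + 1) {l : List (ℤ × ℤ)}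
    (hl : l ∈ redc A b s N) {p : ℤ × ℤ} (hp : p ∈ l) :
    |p.1| ≤ 50 * (hb A + 3) * ((s : ℤ) + 1) ^ 7 ∧ |p.2| ≤ 50 * (hb A + 3) * ((s : ℤ) + 1) ^ 7 := by
  have hb1 := hb_pos (A := A)
  have hH : (0 : ℤ) ≤ hb A + 3 := by linarith
  have hs0 : (0 : ℤ) ≤ s := by positivity
  have hS : (1 : ℤ) ≤ (s : ℤ) + 1 := by linarith
  have hp1 : ((s : ℤ) + 1) ^ 1 ≤ ((s : ℤ) + 1) ^ 7 := pow_le_pow_right₀ hS (by norm_num)
  rw [pow_one] at hp1
  have hone : (s : ℤ) + 1 ≤ (hb A + 3) * ((s : ℤ) + 1) ^ 7 := by nlinarith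
  have h1 : (1 : ℤ) ≤ 50 * (hb A + 3) * ((s : ℤ) + 1) ^ 7 := by nlinarith
  have h0 : (0 : ℤ) ≤ 50 * (hb A + 3) * ((s : ℤ) + 1) ^ 7 := by linarith
  have hbb : (b : ℤ) ≤ 50 * (hb A + 3) * ((s : ℤ) + 1) ^ 7 := by
    have : (b : ℤ) ≤ 2 * s + 1 := by exact_mod_cast hb'
    nlinarith
  have hb0 : (0 : ℤ) ≤ b := by positivity
  unfold redc at hl
  rw [List.mem_cons, List.mem_map] at hl
  rcases hl with rfl | ⟨x, -, rfl⟩
  · simp only [List.mem_cons, List.not_mem_nil, or_false] at hp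
    rcases hp with rfl | rfl | rfl
    · exact ⟨by rw [abs_one]; exact h1, by rw [abs_zero]; exact h0⟩
    · exact ⟨by rw [abs_of_nonneg hb0]; exact hbb, by rw [abs_zero]; exact h0⟩
    · exact ⟨by rw [abs_zero]; exact h0, by rw [abs_neg, abs_one]; exact h1⟩
  · obtain ⟨c0, c1, c2, c3⟩ := redB_off A hN x
    unfold rlist at hp
    simp only [List.mem_cons, List.not_mem_nil, or_false] at hp
    rcases hp with rfl | rfl | rfl | rfl | rfl
    · exact ⟨by rw [abs_zero]; exact h0, by rw [abs_neg, abs_one]; exact h1⟩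
    · exact ⟨redB_mul hb' hH c0, by rw [abs_zero]; exact h0⟩
    · exact ⟨redB_mul hb' hH c1, by rw [abs_zero]; exact h0⟩
    · exact ⟨redB_mul hb' hH c2, by rw [abs_zero]; exact h0⟩
    · exact ⟨redB_mul hb' hH c3, by rw [abs_zero]; exact h0⟩

private theorem redB_nat {H s : ℕ} {z : ℤ} (h : |z| ≤ 50 * (H : ℤ) * ((s : ℤ) + 1) ^ 7) :
    z.natAbs ≤ 50 * H * (s + 1) ^ 7 := by
  rw [Int.abs_eq_natAbs] at h
  exact_mod_cast h

private theorem redB_hb : ((2 ^ Fintype.card A.S + 3 : ℕ) : ℤ) = hb A + 3 := by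
  unfold hb
  push_cast
  rfl

private theorem redB_mem {b s N : ℕ} {X : Finset (ℤ × ℤ)} (hX : X ∈ fam (redc A b s N)) :
    ∃ l ∈ redc A b s N, l.toFinset = X := by
  unfold fam at hX
  rw [List.mem_toFinset, List.mem_map] at hX
  exact hX

private theorem redB_diam {b s N : ℕ} (hN : N ≤ s) (hb' : b ≤ 2 * s + 1) :
    diam (fam (redc A b s N)) ≤ 100 * (2 ^ Fintype.card A.S + 3) * (s + 1) ^ 7 := by
  have h : (fam (redc A b s N)).sup (fun X => X.sup fun x => max x.1.natAbs x.2.natAbs) ≤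
      50 * (2 ^ Fintype.card A.S + 3) * (s + 1) ^ 7 := by
    refine Finset.sup_le fun X hX => Finset.sup_le fun p hp => ?_
    obtain ⟨l, hl, rfl⟩ := redB_mem A hX
    rw [List.mem_toFinset] at hp
    obtain ⟨h1, h2⟩ := redB_pt A hN hb' hl hp
    rw [← redB_hb] at h1 h2
    exact max_le (redB_nat h1) (redB_nat h2)
  unfold diam
  calc _ ≤ 2 * (50 * (2 ^ Fintype.card A.S + 3) * (s + 1) ^ 7) := Nat.mul_le_mul_left 2 h
    _ = _ := by ring

private theorem redB_card {b s N : ℕ} :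
    ∑ X ∈ fam (redc A b s N), (X.card : ℝ) ≤ 5 * ((tuples A).length + 1) := by
  have h1 : ∀ X ∈ fam (redc A b s N), X.card ≤ 5 := by
    intro X hX
    obtain ⟨l, hl, rfl⟩ := redB_mem A hX
    refine (List.toFinset_card_le l).trans ?_
    unfold redc at hl
    rw [List.mem_cons, List.mem_map] at hl
    rcases hl with rfl | ⟨x, -, rfl⟩
    · simp
    · simp [rlist]
  have h2 : (fam (redc A b s N)).card ≤ (tuples A).length + 1 := by
    unfold fam
    refine (List.toFinset_card_le _).trans ?_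
    simp [redc]
  have h3 := Finset.sum_le_card_nsmul _ _ _ h1
  have h4 : ∑ X ∈ fam (redc A b s N), X.card ≤ 5 * ((tuples A).length + 1) := by
    refine h3.trans ?_
    rw [smul_eq_mul, Nat.mul_comm]
    exact Nat.mul_le_mul_left 5 h2
  exact_mod_cast h4

theorem size_redc (c : ℕ) : ∃ C : ℝ, ∀ n b s N : ℕ, s ≤ 2 ^ (c * (n + 1)) → N ≤ s →
    b ≤ 2 * s + 1 → size (fam (redc A b s N)) ≤ C * (n + 1) := by
  obtain ⟨H, hH⟩ : ∃ H : ℕ, H = 2 ^ Fintype.card A.S + 3 := ⟨_, rfl⟩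
  refine ⟨(Real.log (100 * H) + 7 * (c + 1)) * (5 * ((tuples A).length + 1)),
    fun n b s N hs hN hb' => ?_⟩
  have hH1 : (1 : ℝ) ≤ H := by
    rw [hH]
    exact_mod_cast Nat.le_add_left 1 _
  have hL : 0 ≤ Real.log (100 * H) := Real.log_nonneg (by linarith)
  have hc0 : (0 : ℝ) ≤ c := Nat.cast_nonneg _
  have hn0 : (0 : ℝ) ≤ n := Nat.cast_nonneg _
  have h0 : 0 ≤ (Real.log (100 * H) + 7 * (c + 1)) * (n + 1) := by positivity
  have h1 : (diam (fam (redc A b s N)) : ℝ) ≤ 100 * H * ((s : ℝ) + 1) ^ 7 := by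
    have h := redB_diam A hN hb'
    rw [← hH] at h
    exact_mod_cast h
  have h2 : Real.log (diam (fam (redc A b s N))) ≤
      (Real.log (100 * H) + 7 * (c + 1)) * (n + 1) := by
    rcases Nat.eq_zero_or_pos (diam (fam (redc A b s N))) with hd | hd
    · rw [hd, Nat.cast_zero, Real.log_zero]
      exact h0
    · have hd' : (0 : ℝ) < diam (fam (redc A b s N)) := Nat.cast_pos.2 hd
      have hs1 : (0 : ℝ) < (s : ℝ) + 1 := by positivity
      refine (Real.log_le_log hd' h1).trans ?_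
      rw [Real.log_mul (by positivity) (by positivity), Real.log_pow]
      have hs2 : (s : ℝ) + 1 ≤ 2 ^ (c * (n + 1) + 1) := by
        have h3 : s + 1 ≤ 2 ^ (c * (n + 1) + 1) := by
          rw [pow_succ]
          have : 1 ≤ 2 ^ (c * (n + 1)) := Nat.one_le_two_pow
          omega
        exact_mod_cast h3
      have hs3 : Real.log ((s : ℝ) + 1) ≤ c * (n + 1) + 1 := by
        refine (Real.log_le_log hs1 hs2).trans ?_
        rw [Real.log_pow]
        have h4 : Real.log 2 ≤ 1 := by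
          have := Real.log_two_lt_d9
          linarith
        have h5 : (0 : ℝ) ≤ ((c * (n + 1) + 1 : ℕ) : ℝ) := Nat.cast_nonneg _
        calc ((c * (n + 1) + 1 : ℕ) : ℝ) * Real.log 2 ≤ ((c * (n + 1) + 1 : ℕ) : ℝ) * 1 :=
              mul_le_mul_of_nonneg_left h4 h5
          _ = c * (n + 1) + 1 := by
              push_cast
              ring
      push_cast
      nlinarith [mul_nonneg hL hn0]
  have h3 := redB_card A (b := b) (s := s) (N := N)
  unfold size
  calc _ ≤ ((Real.log (100 * H) + 7 * (c + 1)) * (n + 1)) * (5 * ((tuples A).length + 1)) :=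
        mul_le_mul h2 h3 (Finset.sum_nonneg fun _ _ => Nat.cast_nonneg _) h0
    _ = _ := by ring

private theorem redB_castZ {α : Type} [VEnc α] {b : α → ℕ} (hb : PF fun x => Bin.mk (b x)) :
    PF fun x => ((b x : ℕ) : ℤ) := by
  have h := PF.mkZ (PF.const' false) hb
  simpa using h

private theorem redB_map {α T β : Type} [VEnc α] [VEnc β] (F : α → T → β)
    (hF : ∀ t, PF fun x => F x t) : ∀ l : List T, PF fun x => l.map (F x)
  | [] => PF.const' []
  | t :: l => PF.cons (hF t) (redB_map F hF l)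

theorem redc_PF {α : Type} [VEnc α] {b s N : α → ℕ} (hb : PF fun x => Bin.mk (b x))
    (hs : PF fun x => Bin.mk (s x)) (hN : PF fun x => Bin.mk (N x)) :
    PF fun x => redc A (b x) (s x) (N x) := by
  have zb := redB_castZ hb
  have zs := redB_castZ hs
  have zN := redB_castZ hN
  have hdl : PF fun x => dl A (s x) := (zs.mulZ (PF.const' _)).addZ (PF.const' 1)
  have hww : PF fun x => ww A (s x) := (zs.mulZ hdl).addZ (PF.const' 1)
  have hst : ∀ y : A.S, PF fun x => st A (s x) (N x) y := by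
    intro y
    refine PF.subZ (hdl.addZ ?_) ?_
    · cases A.tA y
      · simp only [Bool.false_eq_true, if_false]
        exact PF.const' 0
      · simp only [if_true]
        exact zs.mulZ hww
    · cases A.fst y
      · simp only [Bool.false_eq_true, if_false]
        exact PF.const' 0
      · simp only [if_true]
        exact (zs.mulZ hdl).addZ ((zs.mulZ hww).mulZ zN)
  have hqq : PF fun x => qq A (s x) (N x) :=
    (hdl.addZ (zs.mulZ hdl)).addZ ((zs.mulZ hww).mulZ (zN.addZ (PF.const' 1)))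
  have htt : PF fun x => tt A (s x) (N x) :=
    zs.mulZ ((((zs.addZ (PF.const' 2)).mulZ hqq).addZ
      (((PF.const' 6).mulZ zs).mulZ (PF.const' _))).addZ (PF.const' 1))
  have h0 : ∀ y z : A.S, PF fun x => o0 A (s x) (N x) y z := fun y z =>
    ((PF.const' (-2)).mulZ htt).addZ (zs.mulZ (PF.const' _))
  have h1 : ∀ y z : A.S, PF fun x => o1 A (s x) (N x) y z := fun y z =>
    htt.negZ.addZ (zs.mulZ (PF.const' _))
  have h2 : ∀ y z : A.S, PF fun x => o2 A (s x) (N x) y z := fun y z =>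
    (htt.negZ.addZ (hst y)).addZ (zs.mulZ (PF.const' _))
  have h3 : ∀ y z : A.S, PF fun x => o3 A (s x) (N x) y z := by
    intro y z
    refine PF.addZ (PF.subZ (hst z).negZ ?_) (zs.mulZ (PF.const' _))
    cases A.fst z
    · simp only [Bool.false_eq_true, if_false]
      exact PF.const' 0
    · simp only [if_true]
      exact htt
  have z0 : PF fun _ : α => (0 : ℤ) := PF.const' 0
  refine PF.cons (PF.cons (PF.const' _) (PF.cons (zb.prodMk z0) (PF.const' _))) ?_
  refine redB_map (fun x t => rlist A (b x) (s x) (N x) t) (fun t => ?_) (tuples A)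
  refine PF.cons (PF.const' _) (PF.cons ((zb.mulZ (h0 _ _)).prodMk z0)
    (PF.cons ((zb.mulZ (h1 _ _)).prodMk z0) (PF.cons ((zb.mulZ (h2 _ _)).prodMk z0)
      (PF.cons ((zb.mulZ (h3 _ _)).prodMk z0) (PF.const' [])))))

end Pool.Agent.BPD
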