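import Pool.Agent.BPD.LiftMain
import Pool.Agent.BPD.CylMain
import Pool.Agent.BPD.MachIff
import Pool.Agent.BPD.TMcd
import Pool.Agent.BPD.RedB
import Pool.Agent.BPD.RawIn

/-!
# The reduction
-/

set_option autoImplicit false

namespace Pool.Agent.BPD

open Pool.Agent.PF Pool.Agent.PT

/-- The number with the binary digits `x`, followed by a one. -/
def redN (x : List Bool) : ℕ := (x ++ [true]).foldr (fun b n => Nat.bit b n) 0

theorem redN_cons (b : Bool) (x : List Bool) : redN (b :: x) = Nat.bit b (redN x) := rfl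

theorem redN_pos (x : List Bool) : 1 ≤ redN x := by
  induction x with
  | nil => simp [redN]
  | cons b x ih =>
    rw [redN_cons, Nat.bit_val]
    omega

theorem redN_bits (x : List Bool) : (redN x).bits = x ++ [true] := by
  induction x with
  | nil => simp [redN]
  | cons b x ih =>
    have := redN_pos x
    rw [redN_cons, Nat.bits_append_bit _ _ (fun h => by omega), ih]
    rfl

theorem redN_lt (x : List Bool) : redN x + 1 ≤ 2 ^ (x.length + 1) := by
  induction x with
  | nil => simp [redN]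
  | cons b x ih =>
    rw [redN_cons, Nat.bit_val, List.length_cons, pow_succ]
    have : b.toNat ≤ 1 := by cases b <;> simp
    omega

/-- The number of columns. -/
def redS (sp : ℕ) (x : List Bool) : ℕ := 2 ^ ((sp + 2) * (x.length + 1))

theorem redS_ge (sp : ℕ) (x : List Bool) : 4 * 2 ^ (sp * (x.length + 1)) ≤ redS sp x := by
  have h : (sp + 2) * (x.length + 1) = 2 + sp * (x.length + 1) + 2 * x.length := by ring
  rw [redS, h, pow_add, pow_add]
  have : 1 ≤ 2 ^ (2 * x.length) := Nat.one_le_two_pow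
  have h2 : (2 : ℕ) ^ 2 * 2 ^ (sp * (x.length + 1)) * 1 ≤
      2 ^ 2 * 2 ^ (sp * (x.length + 1)) * 2 ^ (2 * x.length) := Nat.mul_le_mul_left _ this
  omega

theorem redN_le_redS (sp : ℕ) (x : List Bool) : redN x + 1 ≤ redS sp x := by
  refine (redN_lt x).trans (Nat.pow_le_pow_right (by norm_num) ?_)
  have : 1 * (x.length + 1) ≤ (sp + 2) * (x.length + 1) := Nat.mul_le_mul_right _ (by omega)
  omega

theorem sys_nonempty (M : CD) (s N : ℕ) : (sys (toAuto (mDA M)) s N).Nonempty := by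
  refine ⟨_, (mem_sys _).2 ⟨((false, false), 0, dft M .R), ((false, false), 1, dft M .R),
    ((false, false), 0, dft M .R), ((false, false), 0, dft M .R),
    ((false, false), 2, dft M .R), ?_, rfl⟩⟩
  refine ⟨⟨rfl, rfl⟩, ⟨rfl, rfl⟩, by simp, ?_⟩
  rfl

theorem hard_core {L : Set (List Bool)} (hL : InESPACE L) :
    ∃ (f : List Bool → Code) (K : List Bool → ℕ) (C : ℝ) (k : ℕ),
      PF f ∧ PF (fun x => Bin.mk (K x)) ∧ ∀ x : List Bool,
        Valid (f x) ∧ Critical (fam (f x)) ∧ size (fam (f x)) ≤ C * (x.length + 1) ∧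
        (x ∈ L ↔ difficulty (fam (f x)) ≤ K x) ∧
        difficulty (fam (f x)) ≤ (K x + 1 : ℕ) ∧ K x + 1 ≤ 2 ^ (k * (x.length + 1)) := by
  obtain ⟨M, sp, hM⟩ := exists_cd hL
  obtain ⟨C, hC⟩ := size_redc (toAuto (mDA M)) (sp + 2)
  have hS : PF (fun x : List Bool => Bin.mk (redS sp x)) :=
    PF.pow2B (PF.mulN (PF.const' _) (PF.addN (PF.length PF.id') (PF.const' _)))
  have hN : PF (fun x : List Bool => Bin.mk (redN x)) :=
    PF.ofBitsB (PF.append PF.id' (PF.const' _))
  have h2 : PF (fun _ : List Bool => Bin.mk 2) := PF.const' _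
  have h1 : PF (fun _ : List Bool => Bin.mk 1) := PF.const' _
  have hK : PF (fun x : List Bool => Bin.mk (2 * redS sp x)) := PF.mulB h2 hS
  have hb : PF (fun x : List Bool => Bin.mk (2 * redS sp x + 1)) := PF.addB hK h1
  refine ⟨fun x => redc (toAuto (mDA M)) (2 * redS sp x + 1) (redS sp x) (redN x),
    fun x => 2 * redS sp x, C, sp + 4, redc_PF _ hb hS hN, hK, fun x => ?_⟩
  have hge := redS_ge sp x
  have hpos : 1 ≤ 2 ^ (sp * (x.length + 1)) := Nat.one_le_two_pow
  have hs : 3 ≤ redS sp x := by omega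
  have hneg : Neg1 (sys (toAuto (mDA M)) (redS sp x) (redN x)) := neg1_sys (by omega)
  obtain ⟨hcrit, hdiff⟩ := difficulty_lift_eq (b := 2 * redS sp x + 1) hneg
    (sys_nonempty M (redS sp x) (redN x)) (by omega)
  rw [← fam_redc] at hcrit hdiff
  obtain ⟨T, hT, hT', hacc, hz⟩ := hM x
  have hz' : ∀ t ≤ T, ∀ pos, 1 + (redS sp x - 1) * M.C.κ ≤ pos → conf M x t pos = 0 := by
    intro t ht pos hp
    refine hz t ht pos (le_trans ?_ hp)
    have : 2 ^ (sp * (x.length + 1)) * M.C.κ ≤ (redS sp x - 1) * M.C.κ :=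
      Nat.mul_le_mul_right _ (by omega)
    omega
  have key : a1 (sys (toAuto (mDA M)) (redS sp x) (redN x)) ≤ (2 * redS sp x : ℕ) ↔ x ∈ L := by
    rw [a1_sys_le_iff (by omega), exists_run_toAuto hs,
      machine_iff M hs (redN_bits x) (redN_le_redS sp x) hT hT' hz', hacc]
  refine ⟨valid_redc _ hs (by omega), hcrit, ?_, ?_, ?_, ?_⟩
  · exact hC x.length _ _ _ le_rfl ((Nat.le_succ _).trans (redN_le_redS sp x)) le_rfl
  · rw [hdiff, ← key, min_le_iff]
    constructor
    · exact fun h => Or.inr h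
    · rintro (h | h)
      · have h' := Nat.cast_le.1 h
        dsimp only at h'
        omega
      · exact h
  · rw [hdiff]
    exact min_le_left _ _
  · have h3 : (sp + 4) * (x.length + 1) = 2 + (sp + 2) * (x.length + 1) + 2 * x.length := by ring
    have h4 : 1 ≤ 2 ^ (2 * x.length) := Nat.one_le_two_pow
    have h5 : (2 : ℕ) ^ 2 * 2 ^ ((sp + 2) * (x.length + 1)) * 1 ≤
      2 ^ 2 * 2 ^ ((sp + 2) * (x.length + 1)) * 2 ^ (2 * x.length) := Nat.mul_le_mul_left _ h4
    rw [h3, pow_add, pow_add]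
    change 2 * 2 ^ ((sp + 2) * (x.length + 1)) + 1 ≤ _
    have h6 : 1 ≤ 2 ^ ((sp + 2) * (x.length + 1)) := Nat.one_le_two_pow
    omega

/-- **Hardness for ESPACE.** -/
theorem hard : Hard := by
  intro L hL
  obtain ⟨f, K, C, k, hf, hK, h⟩ := hard_core hL
  refine ⟨f, K, C, ?_, fun x => ⟨(h x).1, (h x).2.1, (h x).2.2.1, (h x).2.2.2.1⟩⟩
  exact polyTime_raw (e := fun p : Code × ℕ => (p.1, p.2.bits)) (hf.prodMk (PF.bitsB hK))

end Pool.Agent.BPD
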