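import Pool.Agent.BPD.MachA

/-!
# The preparation of the correct run

All three theorems are verified column by column: unfold `Legal`, `mDA`, and distinguish `c = 0` (function
`f0`) and `0 < c < s` (function `f1`; then `c + 1 = s` or `(c + 1) % s = c + 1`). Compare the values with
`Dat.ext`.

Facts. `cnt a 0 = 0` (as `a 0 = false`), `cnt a c = cnt a (c - 1) + (if a c then 1 else 0)` for `c ≥ 1`
(`Finset.range_succ`, `Finset.filter_insert`). `dgt 0 i = none`. For `v ≥ 1`, `i : ℕ` (binary
counter, digit `i`; put `q = v / 2 ^ i`):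
* if `2 ^ i ∣ v` then `(v - 1) / 2 ^ i = q - 1` and `q ≥ 1`; the old digit `dgt (v - 1) i` is `some true` iff
  `q - 1` is odd iff `2 ^ (i + 1) ∣ v`; in this case the new digit `dgt v i` is `some false`, otherwise it
  is `some true`;
* if `¬ 2 ^ i ∣ v` then `(v - 1) / 2 ^ i = v / 2 ^ i`, so `dgt (v - 1) i = dgt v i`, and
  `¬ 2 ^ (i + 1) ∣ v`.

`legal_RP`: `c = 0`: `f0` gives `dft M .P`, which is `rowP M a 1 0`. `c ≥ 1`: `ω = rowP M a 1 (c - 1)`,
`σ = dft M .R`: the new mark is `a c && !(1 ≤ cnt a (c - 1))`, the same as `a c && (cnt a c ≤ 1)`; the signal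
`fl` is `(1 ≤ cnt a (c - 1)) || a c`, i.e. `1 ≤ cnt a c`; no carry.

`legal_PP`: `c = 0`: `ω = rowP M a j (s - 1)` has `fl = true` as `j ≤ cnt a (s - 1)`. `c ≥ 1`:
`σ = rowP M a j c`, `ω = rowP M a (j + 1) (c - 1)`. Mark: `(a c ∧ cnt a c ≤ j) ∨ (a c ∧ cnt a (c - 1) < j + 1)`
is `a c ∧ cnt a c ≤ j + 1`. `fl`: `j + 1 ≤ cnt a (c - 1)` or (`a c` and `j < cnt a c`), i.e.
`j + 1 ≤ cnt a c`. Digits and carry: the facts with `v = j`, `i = c - 1`; the incoming carry is
`2 ^ (c - 1) ∣ j`.

`legal_PC`: `c = 0`: `ω = rowP M a (N + 1) (s - 1)` has `fl = false` as `cnt a (s - 1) = N`; the new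
datum has the control `M.ini = conf M x 0 0` (`initc`). `c ≥ 1`: `σ.dg = dgt N (c - 1) = N.bits[c - 1]?`, and
for `c + 1 < s`: `τ.dg = dgt N c = N.bits[c]?`. (`dgt v i = v.bits[i]?`: induction on `i`, `v.bits` is
`[]` for `v = 0` and `(v % 2 = 1) :: (v / 2).bits` otherwise, `Nat.bits_append_bit`, `Nat.testBit`;
`v / 2 ^ (i + 1) = v / 2 / 2 ^ i`.) With `N.bits = x ++ [true]`: both are not `none` iff
`c ≤ x.length`, and then `σ.dg = x[c - 1]?`; `x.length + 2 ≤ s` as `x.length < N` (`N` has
`x.length + 1` binary digits: `Nat.size_eq_bits_len`, `Nat.lt_size`, or `2 ^ x.length ≤ N`). So the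
symbol `j` is `conf M x 0 (1 + (c - 1) * κ + j)`: by definition of `initc`, with
`(1 + (c - 1) * κ + j - 1) % κ = j`, `/ κ = c - 1`, it is the code of `x[c - 1]?` if `j = ks`, and `0`
otherwise (and for `c > x.length` the digit `x[c - 1]?` is `none`).
-/

set_option autoImplicit false

namespace Pool.Agent.BPD

open Pool.Agent.PT

private theorem RowsP_cnt_zero {a : ℕ → Bool} (ha : a 0 = false) : cnt a 0 = 0 := by
  unfold cnt
  rw [Finset.card_eq_zero, Finset.filter_eq_empty_iff]
  intro i hi
  have : i = 0 := by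
    rw [Finset.mem_range] at hi
    omega
  rw [this, ha]
  exact Bool.false_ne_true

private theorem RowsP_cnt_succ (a : ℕ → Bool) (c : ℕ) :
    cnt a (c + 1) = cnt a c + if a (c + 1) = true then 1 else 0 := by
  unfold cnt
  rw [Finset.range_add_one (n := c + 1), Finset.filter_insert]
  split_ifs with h
  · rw [Finset.card_insert_of_notMem]
    intro h1
    rw [Finset.mem_filter, Finset.mem_range] at h1
    omega
  · rfl

private theorem RowsP_dgt_zero (i : ℕ) : dgt 0 i = none := by
  unfold dgt
  rw [Nat.zero_div, if_pos rfl]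

/-- The facts about the digits, first case. -/
private theorem RowsP_dvd {v i : ℕ} (hv : 1 ≤ v) (h : v % 2 ^ i = 0) :
    (dgt (v - 1) i = some true ↔ v % 2 ^ (i + 1) = 0) ∧
      dgt v i = if dgt (v - 1) i = some true then some false else some true := by
  obtain ⟨q, rfl⟩ := Nat.dvd_of_mod_eq_zero h
  have hp : 0 < 2 ^ i := Nat.two_pow_pos i
  have hq : 1 ≤ q := by
    rcases Nat.eq_zero_or_pos q with rfl | hq
    · omega
    · exact hq
  have h1 : (2 ^ i * q - 1) / 2 ^ i = q - 1 := by
    obtain ⟨r, rfl⟩ : ∃ r, q = r + 1 := ⟨q - 1, by omega⟩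
    have e1 : 2 ^ i * (r + 1) - 1 = 2 ^ i * r + (2 ^ i - 1) := by
      rw [Nat.mul_add, Nat.mul_one]
      omega
    rw [e1, Nat.mul_add_div hp, Nat.div_eq_of_lt (by omega)]
    omega
  have h2 : 2 ^ i * q / 2 ^ i = q := Nat.mul_div_cancel_left q hp
  have h3 : (2 ^ i * q) % 2 ^ (i + 1) = 0 ↔ q % 2 = 0 := by
    rw [pow_succ, Nat.mul_mod_mul_left]
    constructor
    · intro h3
      rcases Nat.mul_eq_zero.1 h3 with h4 | h4
      · omega
      · exact h4
    · intro h3
      rw [h3, Nat.mul_zero]
  have h4 : dgt (2 ^ i * q - 1) i = some true ↔ q % 2 = 0 := by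
    unfold dgt
    rw [h1]
    by_cases hq1 : q - 1 = 0
    · rw [if_pos hq1]
      constructor
      · intro h5
        exact absurd h5 (by simp)
      · intro h5
        omega
    · rw [if_neg hq1]
      simp only [Option.some.injEq, decide_eq_true_eq]
      omega
  refine ⟨h4.trans h3.symm, ?_⟩
  by_cases h5 : q % 2 = 0
  · rw [if_pos (h4.2 h5)]
    unfold dgt
    rw [h2, if_neg (by omega)]
    simp [h5]
  · rw [if_neg (fun h6 => h5 (h4.1 h6))]
    unfold dgt
    rw [h2, if_neg (by omega)]
    have h6 : q % 2 = 1 := by omega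
    simp [h6]

/-- The facts about the digits, second case. -/
private theorem RowsP_ndvd {v i : ℕ} (h : ¬ v % 2 ^ i = 0) :
    dgt v i = dgt (v - 1) i ∧ ¬ v % 2 ^ (i + 1) = 0 := by
  have hp : 0 < 2 ^ i := Nat.two_pow_pos i
  constructor
  · have h1 : (v - 1) / 2 ^ i = v / 2 ^ i := by
      have e1 := Nat.div_add_mod v (2 ^ i)
      have e2 := Nat.mod_lt v hp
      have e3 : v - 1 = 2 ^ i * (v / 2 ^ i) + (v % 2 ^ i - 1) := by omega
      have e4 : (v % 2 ^ i - 1) / 2 ^ i = 0 := Nat.div_eq_of_lt (by omega)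
      calc (v - 1) / 2 ^ i = (2 ^ i * (v / 2 ^ i) + (v % 2 ^ i - 1)) / 2 ^ i := by rw [← e3]
        _ = v / 2 ^ i + (v % 2 ^ i - 1) / 2 ^ i := Nat.mul_add_div hp _ _
        _ = v / 2 ^ i := by rw [e4, Nat.add_zero]
    unfold dgt
    rw [h1]
  · intro h2
    apply h
    have h3 : 2 ^ i ∣ v :=
      (pow_dvd_pow 2 (Nat.le_succ i)).trans (Nat.dvd_of_mod_eq_zero h2)
    exact Nat.mod_eq_zero_of_dvd h3

private theorem RowsP_dgt_bits (v i : ℕ) : dgt v i = v.bits[i]? := by
  induction i generalizing v with
  | zero =>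
    rcases Nat.eq_zero_or_pos v with rfl | hv
    · rw [RowsP_dgt_zero]
      simp
    · have h1 : v.bits = v.bodd :: v.div2.bits := by
        conv_lhs => rw [← Nat.bit_bodd_div2 v]
        refine Nat.bits_append_bit _ _ ?_
        intro h0
        have h2 := Nat.bodd_add_div2 v
        rw [h0] at h2
        cases hb : v.bodd
        · rw [hb] at h2
          simp at h2
          omega
        · rfl
      rw [h1]
      unfold dgt
      rw [pow_zero, Nat.div_one, if_neg (by omega)]
      simp only [List.getElem?_cons_zero, Option.some.injEq]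
      rw [Nat.mod_two_of_bodd]
      cases v.bodd <;> rfl
  | succ i ih =>
    rcases Nat.eq_zero_or_pos v with rfl | hv
    · rw [RowsP_dgt_zero]
      simp
    · have h1 : v.bits = v.bodd :: v.div2.bits := by
        conv_lhs => rw [← Nat.bit_bodd_div2 v]
        refine Nat.bits_append_bit _ _ ?_
        intro h0
        have h2 := Nat.bodd_add_div2 v
        rw [h0] at h2
        cases hb : v.bodd
        · rw [hb] at h2
          simp at h2
          omega
        · rfl
      rw [h1, List.getElem?_cons_succ, ← ih]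
      unfold dgt
      rw [Nat.div2_val, Nat.div_div_eq_div_mul, ← pow_succ']

private theorem RowsP_len {N : ℕ} {x : List Bool} (hN : N.bits = x ++ [true]) : x.length < N := by
  have h1 : N.size = x.length + 1 := by
    rw [← Nat.size_eq_bits_len, hN, List.length_append, List.length_singleton]
  have h2 : 2 ^ x.length ≤ N := Nat.lt_size.1 (by omega)
  exact Nat.lt_two_pow_self.trans_le h2

private theorem RowsP_f1P (M : CD) (last one a : Bool) (σ τ ω : DM M) (h : ω.kd = .P) :
    f1 M last one a σ τ ω = some { dft M .P with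
      mr := σ.mr || (a && !ω.fl)
      fl := ω.fl || (a && !σ.mr)
      dg := if ω.cy then (if σ.dg = some true then some false else some true) else σ.dg
      cy := ω.cy && decide (σ.dg = some true) } := by
  simp only [f1, h]

private theorem RowsP_f1I (M : CD) (last one a : Bool) (σ τ ω : DM M) (h : ω.kd = .I) :
    f1 M last one a σ τ ω = some { dft M .I with
      ct := ω.ct
      ce := fun j => if (j : ℕ) = M.ks ∧ last = false ∧ τ.dg ≠ none then
        (match σ.dg with
          | some b => fi _ (M.code b)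
          | none => 0) else 0 } := by
  simp only [f1, h]
  rfl

theorem legal_RP (M : CD) {s : ℕ} (hs : 3 ≤ s) {a : ℕ → Bool} (ha : a 0 = false) :
    Legal (mDA M) s a (rowR M) (rowP M a 1) := by
  intro c hc
  rcases c with _ | c
  · change some (dft M .P) = some (rowP M a 1 0)
    congr 1
    refine Dat.ext rfl ?_ rfl rfl rfl rfl rfl ?_ ?_
    · change false = (a 0 && _)
      rw [ha]
      rfl
    · change false = decide (1 ≤ cnt a 0)
      rw [RowsP_cnt_zero ha]
      rfl
    · change false = decide (2 ≤ 1 ∧ (1 - 1) % 2 ^ 0 = 0)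
      simp
  · change f1 M (decide (c + 1 + 1 = s)) (decide (c + 1 = 1)) (a (c + 1)) (rowR M (c + 1))
      (rowR M ((c + 1 + 1) % s)) (rowP M a 1 c) = some (rowP M a 1 (c + 1))
    rw [RowsP_f1P _ _ _ _ _ _ _ rfl]
    congr 1
    have hcs := RowsP_cnt_succ a c
    refine Dat.ext rfl ?_ ?_ rfl rfl rfl rfl ?_ ?_
    · change (false || (a (c + 1) && !decide (1 ≤ cnt a c)))
        = (a (c + 1) && decide (cnt a (c + 1) ≤ 1))
      cases hac : a (c + 1)
      · rfl
      · rw [hcs, hac]
        by_cases h1 : 1 ≤ cnt a c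
        · have h2 : cnt a c ≠ 0 := by omega
          simp [h1, h2]
        · have h2 : cnt a c = 0 := by omega
          simp [h2]
    · change (if decide (2 ≤ 1 ∧ (1 - 1) % 2 ^ c = 0) = true then
        (if (none : Option Bool) = some true then some false else some true) else none) = dgt 0 c
      rw [RowsP_dgt_zero]
      simp
    · change (decide (1 ≤ cnt a c) || (a (c + 1) && !false)) = decide (1 ≤ cnt a (c + 1))
      cases hac : a (c + 1)
      · rw [hcs, hac]
        simp
      · rw [hcs, hac]
        simp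
    · change (decide (2 ≤ 1 ∧ (1 - 1) % 2 ^ c = 0) && decide ((none : Option Bool) = some true))
        = decide (2 ≤ 1 ∧ (1 - 1) % 2 ^ (c + 1) = 0)
      simp

theorem legal_PP (M : CD) {s j : ℕ} (hs : 3 ≤ s) {a : ℕ → Bool} (ha : a 0 = false) (hj : 1 ≤ j)
    (h : j ≤ cnt a (s - 1)) : Legal (mDA M) s a (rowP M a j) (rowP M a (j + 1)) := by
  intro c hc
  rcases c with _ | c
  · change (if decide (j ≤ cnt a (s - 1)) = true then some { dft M .P with cy := true } else _)
      = some (rowP M a (j + 1) 0)
    rw [if_pos (by simpa using h)]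
    congr 1
    refine Dat.ext rfl ?_ rfl rfl rfl rfl rfl ?_ ?_
    · change false = (a 0 && _)
      rw [ha]
      rfl
    · change false = decide (j + 1 ≤ cnt a 0)
      rw [RowsP_cnt_zero ha]
      simp
    · change true = decide (2 ≤ j + 1 ∧ (j + 1 - 1) % 2 ^ 0 = 0)
      rw [pow_zero, Nat.mod_one]
      simp [hj]
  · change f1 M (decide (c + 1 + 1 = s)) (decide (c + 1 = 1)) (a (c + 1)) (rowP M a j (c + 1))
      (rowP M a j ((c + 1 + 1) % s)) (rowP M a (j + 1) c)
      = some (rowP M a (j + 1) (c + 1))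
    rw [RowsP_f1P _ _ _ _ _ _ _ rfl]
    congr 1
    have hcs := RowsP_cnt_succ a c
    refine Dat.ext rfl ?_ ?_ rfl rfl rfl rfl ?_ ?_
    · change ((a (c + 1) && decide (cnt a (c + 1) ≤ j)) ||
        (a (c + 1) && !decide (j + 1 ≤ cnt a c)))
        = (a (c + 1) && decide (cnt a (c + 1) ≤ j + 1))
      cases hac : a (c + 1)
      · rfl
      · rw [hcs, hac]
        simp only [if_true, Bool.true_and]
        rw [← decide_not, ← Bool.decide_or]
        apply decide_eq_decide.2
        omega
    · change (if decide (2 ≤ j + 1 ∧ (j + 1 - 1) % 2 ^ c = 0) = true then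
        (if dgt (j - 1) c = some true then some false else some true)
        else dgt (j - 1) c) = dgt (j + 1 - 1) c
      rw [Nat.add_sub_cancel]
      by_cases h1 : j % 2 ^ c = 0
      · rw [if_pos (by simp [h1, hj]), (RowsP_dvd hj h1).2]
      · rw [if_neg (by simp [h1]), (RowsP_ndvd h1).1]
    · change (decide (j + 1 ≤ cnt a c) || (a (c + 1) &&
        !(a (c + 1) && decide (cnt a (c + 1) ≤ j)))) = decide (j + 1 ≤ cnt a (c + 1))
      cases hac : a (c + 1)
      · rw [hcs, hac]
        simp
      · rw [hcs, hac]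
        simp only [if_true, Bool.true_and]
        rw [← decide_not, ← Bool.decide_or]
        apply decide_eq_decide.2
        omega
    · change (decide (2 ≤ j + 1 ∧ (j + 1 - 1) % 2 ^ c = 0) &&
        decide (dgt (j - 1) c = some true)) = decide (2 ≤ j + 1 ∧ (j + 1 - 1) % 2 ^ (c + 1) = 0)
      rw [Nat.add_sub_cancel, ← Bool.decide_and]
      apply decide_eq_decide.2
      by_cases h1 : j % 2 ^ c = 0
      · rw [(RowsP_dvd hj h1).1]
        constructor
        · rintro ⟨⟨h2, _⟩, h3⟩
          exact ⟨h2, h3⟩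
        · rintro ⟨h2, h3⟩
          exact ⟨⟨h2, h1⟩, h3⟩
      · constructor
        · rintro ⟨⟨_, h2⟩, _⟩
          exact absurd h2 h1
        · rintro ⟨_, h3⟩
          exact absurd h3 (RowsP_ndvd h1).2

theorem legal_PC (M : CD) {s N : ℕ} (hs : 3 ≤ s) {a : ℕ → Bool} (ha : a 0 = false)
    (h : cnt a (s - 1) = N) {x : List Bool} (hN : N.bits = x ++ [true]) (hNs : N + 1 ≤ s) :
    Legal (mDA M) s a (rowP M a (N + 1)) (rowC M x 0) := by
  intro c hc
  rcases c with _ | c
  · change (if decide (N + 1 ≤ cnt a (s - 1)) = true then _ else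
      some { dft M .I with ct := fi _ M.ini }) = some (rowC M x 0 0)
    rw [if_neg (by rw [h]; simp)]
    rfl
  · change f1 M (decide (c + 1 + 1 = s)) (decide (c + 1 = 1)) (a (c + 1)) (rowP M a (N + 1) (c + 1))
      (rowP M a (N + 1) ((c + 1 + 1) % s)) (rowC M x 0 c) = some (rowC M x 0 (c + 1))
    rw [RowsP_f1I _ _ _ _ _ _ _ rfl]
    congr 1
    have hlen := RowsP_len hN
    have hfi : fi M.C.M0 0 = 0 := rfl
    refine Dat.ext rfl rfl rfl rfl ?_ ?_ ?_ rfl ?_
    · funext j
      change (if (j : ℕ) = M.ks ∧ decide (c + 1 + 1 = s) = false ∧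
        (rowP M a (N + 1) ((c + 1 + 1) % s)).dg ≠ none then
        (match dgt N c with
          | some b => fi _ (M.code b)
          | none => 0) else 0) = fi _ (conf M x 0 (1 + c * M.C.κ + j))
      have hκ : 0 < M.C.κ := (Nat.zero_le _).trans_lt j.isLt
      have hconf : conf M x 0 (1 + c * M.C.κ + j) = if (j : ℕ) = M.ks then
          (match x[c]? with
          | some a => M.code a
          | none => 0) else 0 := by
        change initc M.ini M.ks M.C.κ M.code x (1 + c * M.C.κ + j) = _
        unfold initc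
        have e1 : 1 + c * M.C.κ + (j : ℕ) - 1 = M.C.κ * c + j := by
          rw [Nat.mul_comm]
          omega
        rw [if_neg (by omega), e1, Nat.mul_add_mod, Nat.mod_eq_of_lt j.isLt,
          Nat.mul_add_div hκ, Nat.div_eq_of_lt j.isLt, Nat.add_zero]
        split_ifs
        · cases x[c]? <;> rfl
        · rfl
      rw [hconf]
      by_cases hj : (j : ℕ) = M.ks
      swap
      · rw [if_neg (fun h1 => hj h1.1), if_neg hj, hfi]
      rw [if_pos hj]
      by_cases hc1 : c + 1 + 1 = s
      · rw [if_neg (by simp [hc1])]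
        have h1 : x[c]? = none := List.getElem?_eq_none (by omega)
        rw [h1]
        rfl
      · have hmod : (c + 1 + 1) % s = c + 1 + 1 := Nat.mod_eq_of_lt (by omega)
        have hτ : (rowP M a (N + 1) ((c + 1 + 1) % s)).dg = dgt N (c + 1) := by
          rw [hmod]
          rfl
        rw [hτ, RowsP_dgt_bits, RowsP_dgt_bits, hN]
        by_cases hcx : c + 1 ≤ x.length
        · have h1 : (x ++ [true])[c + 1]? ≠ none := by
            rw [ne_eq, List.getElem?_eq_none_iff, List.length_append, List.length_singleton]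
            omega
          have h2 : (x ++ [true])[c]? = x[c]? := List.getElem?_append_left (by omega)
          rw [if_pos ⟨hj, by simp [hc1], h1⟩, h2]
          have h3 : x[c]? = some x[c] := List.getElem?_eq_getElem (by omega)
          rw [h3]
        · have h1 : (x ++ [true])[c + 1]? = none := by
            rw [List.getElem?_eq_none_iff, List.length_append, List.length_singleton]
            omega
          have h2 : x[c]? = none := List.getElem?_eq_none (by omega)
          rw [if_neg (fun h3 => h3.2.2 h1), h2]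
          rfl
    · rfl
    · change (0 : Fin _) = fi _ (0 / _)
      rw [Nat.zero_div]
      rfl
    · change false = decide (0 ≠ 0 ∧ 0 % (bb M + 1) ^ (c + 1) = 0)
      simp

end Pool.Agent.BPD
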