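import Pool.Agent.BPD.Par

/-!
# A run of the automaton gives `2 s` seeds with infinite closure

PROOF of `a1_le_of_run`. Write `L c = ∑ i ∈ range c, st A s N (X 0 (i + 1))` (`c < s`) and
`pos k c = k * tt A s N + L c + s * hh A (X k c)`. Facts:

(a) The marks of `X k c` (`c < s`) do not depend on `k`: by `A.fst_eq`, `A.tA_eq` applied to `h.rel` (for
`k ≥ 2` the marks of the rows `k - 2` and `k - 1` agree with those of the row `k`; two-step induction).
So `st A s N (X k c) = st A s N (X 0 c)` by `st_congr`.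

(b) `∑ c ∈ range s, st A s N (X 0 c) = 0`: exactly one column (`c = 0`) has the mark `fst` and
exactly `N` have the mark `tA`, so the sum is `s dl + N s ww - (s dl + s ww N)`. Hence
`L (s - 1) = - st A s N (X 0 0)` (`Finset.sum_range_succ'`).

Let `Z` be the set of the `pos 0 c`, `pos 1 c` (`c < s`); `Z.encard ≤ 2 s`
(image of a finite set with `2 s` elements). By strong induction on `k`, and for given `k` by
induction on `c`, all `pos k c` (`c < s`) are in `clo1 (sys A s N) Z`: for `k ≥ 2` use
`clo1_rule` with the rule of `h.rel k _ c _` (`rule_mem_sys`). With `υ = X k c`: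
* `pos k c + o0 = pos (k - 2) c`, `pos k c + o1 = pos (k - 1) c`;
* `pos k c + o2 = pos (k - 1) ((c + 1) % s)`: if `c + 1 < s`, `L (c + 1) = L c + st (X 0 (c + 1))` and (a);
  if `c + 1 = s`, `(c + 1) % s = 0`, `L 0 = 0 = L (s - 1) + st (X 0 0)`;
* `pos k c + o3`: if `c = 0` (mark `fst`) it is `pos (k - 1) (s - 1)`; if `c > 0` (no mark `fst`) it is
  `pos k (c - 1)`, `L c = L (c - 1) + st (X 0 c)`.
The closure is infinite: `k ↦ pos k 0 = k tt + s hh (X k 0)` is injective (strictly increasing) because
`0 ≤ s hh < s hb < tt` (`tt_big`, `hh_pos`, `hh_lt`). Then `a1_le`.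
-/

set_option autoImplicit false

namespace Pool.Agent.BPD

private lemma seedMarks {A : Auto} {s N : ℕ} {X : ℕ → ℕ → A.S} (h : Run A s N X) (k : ℕ) {c : ℕ}
    (hc : c < s) : A.fst (X k c) = A.fst (X 0 c) ∧ A.tA (X k c) = A.tA (X 0 c) := by
  induction k with
  | zero => exact ⟨rfl, rfl⟩
  | succ k ih =>
    have h1 := h.rel (k + 2) (by omega) c hc
    rw [show k + 2 - 2 = k by omega, show k + 2 - 1 = k + 1 by omega] at h1
    have h2 := A.fst_eq h1
    have h3 := A.tA_eq h1
    exact ⟨by rw [← ih.1, h2.1, h2.2], by rw [← ih.2, h3.1, h3.2]⟩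

private lemma seedSt {A : Auto} {s N : ℕ} {X : ℕ → ℕ → A.S} (h : Run A s N X) (k : ℕ) {c : ℕ}
    (hc : c < s) : st A s N (X k c) = st A s N (X 0 c) :=
  st_congr (seedMarks h k hc).1 (seedMarks h k hc).2

private lemma seedSum {A : Auto} {s N : ℕ} (hs : 2 ≤ s) {X : ℕ → ℕ → A.S} (h : Run A s N X) :
    ∑ c ∈ Finset.range s, st A s N (X 0 c) = 0 := by
  have h1 : ∑ c ∈ Finset.range s, (if A.tA (X 0 c) then (s : ℤ) * ww A s else 0) =
      N * (s * ww A s) := by
    rw [← Finset.sum_filter, Finset.sum_const, h.cnt 0, nsmul_eq_mul]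
  have h2 : ∑ c ∈ Finset.range s, (if A.fst (X 0 c) then (s : ℤ) * dl A s + s * ww A s * N else 0) =
      s * dl A s + s * ww A s * N := by
    have h3 : ∀ c ∈ Finset.range s,
        (if A.fst (X 0 c) then (s : ℤ) * dl A s + s * ww A s * N else 0) =
        if c = 0 then (s : ℤ) * dl A s + s * ww A s * N else 0 := by
      intro c hc
      by_cases h0 : c = 0
      · rw [if_pos ((h.fst 0 c (Finset.mem_range.1 hc)).2 h0), if_pos h0]
      · rw [if_neg fun h4 => h0 ((h.fst 0 c (Finset.mem_range.1 hc)).1 h4), if_neg h0]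
    rw [Finset.sum_congr rfl h3, Finset.sum_ite_eq', if_pos (Finset.mem_range.2 (by omega))]
  unfold st
  rw [Finset.sum_sub_distrib, Finset.sum_add_distrib, h1, h2, Finset.sum_const,
    Finset.card_range, nsmul_eq_mul]
  ring

/-- The positions of the columns. -/
private noncomputable def seedL (A : Auto) (s N : ℕ) (X : ℕ → ℕ → A.S) (c : ℕ) : ℤ :=
  ∑ i ∈ Finset.range c, st A s N (X 0 (i + 1))

/-- The sites. -/
private noncomputable def seedPos (A : Auto) (s N : ℕ) (X : ℕ → ℕ → A.S) (k c : ℕ) : ℤ :=
  k * tt A s N + seedL A s N X c + s * hh A (X k c)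

private lemma seedL_succ (A : Auto) (s N : ℕ) (X : ℕ → ℕ → A.S) (c : ℕ) :
    seedL A s N X (c + 1) = seedL A s N X c + st A s N (X 0 (c + 1)) :=
  Finset.sum_range_succ _ _

private lemma seedL_zero (A : Auto) (s N : ℕ) (X : ℕ → ℕ → A.S) : seedL A s N X 0 = 0 :=
  Finset.sum_range_zero _

private lemma seedL_last {A : Auto} {s N : ℕ} (hs : 2 ≤ s) {X : ℕ → ℕ → A.S} (h : Run A s N X) :
    seedL A s N X (s - 1) = -st A s N (X 0 0) := by
  have h1 := seedSum hs h
  obtain ⟨r, rfl⟩ : ∃ r, s = r + 1 := ⟨s - 1, by omega⟩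
  rw [Finset.sum_range_succ'] at h1
  rw [Nat.add_sub_cancel, seedL]
  linear_combination h1

private lemma seedStep {A : Auto} {s N : ℕ} (hs : 2 ≤ s) {X : ℕ → ℕ → A.S} (h : Run A s N X)
    {Z : Set ℤ} {k c : ℕ} (hk : 2 ≤ k) (hc : c < s)
    (ih : ∀ k' < k, ∀ c < s, seedPos A s N X k' c ∈ clo1 (sys A s N) Z)
    (ihc : c ≠ 0 → seedPos A s N X k (c - 1) ∈ clo1 (sys A s N) Z) :
    seedPos A s N X k c ∈ clo1 (sys A s N) Z := by
  have h1 := h.rel k hk c hc
  refine clo1_rule (rule_mem_sys h1) fun t ht => ?_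
  have hk2 : ((k - 2 : ℕ) : ℤ) = k - 2 := by omega
  have hk1 : ((k - 1 : ℕ) : ℤ) = k - 1 := by omega
  simp only [Finset.mem_insert, Finset.mem_singleton] at ht
  rcases ht with rfl | rfl | rfl | rfl
  · have e : seedPos A s N X k c + o0 A s N (X (k - 2) c) (X k c) = seedPos A s N X (k - 2) c := by
      rw [seedPos, seedPos, o0, hk2]
      ring
    rw [e]
    exact ih _ (by omega) c hc
  · have e : seedPos A s N X k c + o1 A s N (X (k - 1) c) (X k c) = seedPos A s N X (k - 1) c := by
      rw [seedPos, seedPos, o1, hk1]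
      ring
    rw [e]
    exact ih _ (by omega) c hc
  · have hc' : (c + 1) % s < s := Nat.mod_lt _ (by omega)
    have hL : seedL A s N X ((c + 1) % s) = seedL A s N X c + st A s N (X 0 ((c + 1) % s)) := by
      by_cases hcs : c + 1 < s
      · rw [Nat.mod_eq_of_lt hcs, seedL_succ]
      · have hcs' : c + 1 = s := by omega
        have hcs'' : c = s - 1 := by omega
        rw [hcs', Nat.mod_self, seedL_zero, hcs'', seedL_last hs h]
        ring
    have e : seedPos A s N X k c + o2 A s N (X (k - 1) ((c + 1) % s)) (X k c) =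
        seedPos A s N X (k - 1) ((c + 1) % s) := by
      rw [seedPos, seedPos, o2, hk1, hL, seedSt h (k - 1) hc']
      ring
    rw [e]
    exact ih _ (by omega) _ hc'
  · by_cases hc0 : c = 0
    · subst hc0
      have hf : A.fst (X k 0) = true := (h.fst k 0 hc).2 rfl
      have e : seedPos A s N X k 0 + o3 A s N (if (0 : ℕ) = 0 then X (k - 1) (s - 1)
          else X k (0 - 1)) (X k 0) = seedPos A s N X (k - 1) (s - 1) := by
        rw [seedPos, seedPos, o3, hk1, seedL_last hs h, seedL_zero, seedSt h k hc, if_pos hf,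
          if_pos rfl]
        ring
      rw [e]
      exact ih _ (by omega) _ (by omega)
    · have hf : ¬ A.fst (X k c) = true := fun h2 => hc0 ((h.fst k c hc).1 h2)
      have hL := seedL_succ A s N X (c - 1)
      rw [show c - 1 + 1 = c by omega] at hL
      have e : seedPos A s N X k c + o3 A s N (if c = 0 then X (k - 1) (s - 1)
          else X k (c - 1)) (X k c) = seedPos A s N X k (c - 1) := by
        rw [seedPos, seedPos, o3, hL, seedSt h k hc, if_neg hf, if_neg hc0]
        ring
      rw [e]
      exact ihc hc0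

theorem a1_le_of_run {A : Auto} {s N : ℕ} (hs : 2 ≤ s) {X : ℕ → ℕ → A.S} (h : Run A s N X) :
    a1 (sys A s N) ≤ (2 * s : ℕ) := by
  classical
  set Zf : Finset ℤ := ((Finset.range 2) ×ˢ (Finset.range s)).image
    (fun p => seedPos A s N X p.1 p.2) with hZf
  have hcard : ((Zf : Set ℤ)).encard ≤ (2 * s : ℕ) := by
    rw [Set.encard_coe_eq_coe_finsetCard]
    have h1 : Zf.card ≤ 2 * s := by
      refine Finset.card_image_le.trans ?_
      rw [Finset.card_product, Finset.card_range, Finset.card_range]
    exact_mod_cast h1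
  have hmem : ∀ k, ∀ c < s, seedPos A s N X k c ∈ clo1 (sys A s N) (Zf : Set ℤ) := by
    intro k
    induction k using Nat.strong_induction_on with
    | _ k ih =>
      by_cases hk : k < 2
      · intro c hc
        refine subset_clo1 _ _ ?_
        rw [Finset.mem_coe, hZf, Finset.mem_image]
        exact ⟨(k, c), Finset.mem_product.2 ⟨Finset.mem_range.2 hk, Finset.mem_range.2 hc⟩, rfl⟩
      · intro c
        induction c with
        | zero =>
          intro hc
          exact seedStep hs h (by omega) hc ih (fun h0 => (h0 rfl).elim)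
        | succ c ihc =>
          intro hc
          exact seedStep hs h (by omega) hc ih (fun _ => ihc (by omega))
  have hinf : (clo1 (sys A s N) (Zf : Set ℤ)).Infinite := by
    refine Set.infinite_of_injective_forall_mem (f := fun k => seedPos A s N X k 0) ?_
      fun k => hmem k 0 (by omega)
    refine StrictMono.injective (strictMono_nat_of_lt_succ fun k => ?_)
    have h1 : (s : ℤ) * hh A (X k 0) ≤ s * hb A :=
      mul_le_mul_of_nonneg_left (hh_lt _).le (by positivity)
    have h2 : (0 : ℤ) ≤ s * hh A (X (k + 1) 0) := by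
      have := hh_pos (X (k + 1) 0)
      positivity
    have h3 := tt_big (A := A) (s := s) (N := N) (by omega)
    have h4 : (0 : ℤ) ≤ s * qq A s N := by
      have := qq_nonneg (A := A) (s := s) (N := N)
      positivity
    have h5 := qq_nonneg (A := A) (s := s) (N := N)
    have h6 : (0 : ℤ) ≤ s * hb A := by
      have := hb_pos (A := A)
      positivity
    simp only [seedPos]
    push_cast
    linarith
  exact (a1_le hinf).trans hcard

end Pool.Agent.BPD
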