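import Pool.Agent.BPD.LStep

/-!
# Simulation of a coded machine in quadratic time

PROOF. Let `F` be the function of `exists_lstepV` and `G v = V.node v.hd (F v.tl)`, which is in `Lin`
(`Lin.node`, `Lin.comp`, `Lin.hd`, `Lin.tl`), and `(G v).size ≤ v.size + c₁` (`v = nil`: constant; otherwise
`v.size = v.hd.size + v.tl.size + 1`). Take `V.uiter G`: `RunsBy.uiter` (`PF/Mach2.lean`) with
`B v = v.size + v.hd.spine * c₁` and `T v = C * (v.size + v.hd.spine * c₁)` gives the bound
`C' * (v.hd.spine + 1) * (T v + B v + v.size + 1)`, which is at most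
`c * (v.hd.spine + 1) ^ 2 * v.size`. On `node (una T) (node w (enc p))` the value is
`node w (enc ((lstep C)^[T] p))` by induction on `T` (`length_lstep`).
-/

set_option autoImplicit false

namespace Pool.Agent.BPD

open Pool.Agent.PF Pool.Agent.PT

private theorem simA_hd_size (v : V) : v.hd.size ≤ v.size := by
  cases v with
  | nil => exact le_rfl
  | node a b =>
    rw [V.hd_node]
    simp only [V.size]
    omega

private theorem simA_tl_size (v : V) : v.tl.size ≤ v.size := by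
  cases v with
  | nil => exact le_rfl
  | node a b =>
    rw [V.tl_node]
    simp only [V.size]
    omega

private theorem simA_sum (v : V) : v.hd.size + v.tl.size + 1 ≤ v.size + 2 := by
  cases v with
  | nil => exact le_rfl
  | node a b =>
    rw [V.tl_node, V.hd_node]
    simp only [V.size]
    omega

private theorem simA_iter {G : V → V} {c₁ : ℕ} (h : ∀ v, (G v).size ≤ v.size + c₁) (i : ℕ)
    (v : V) : (G^[i] v).size ≤ v.size + i * c₁ := by
  induction i with
  | zero => simp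
  | succ i ih =>
    rw [Function.iterate_succ_apply']
    refine (h _).trans ?_
    rw [Nat.succ_mul]
    omega

theorem exists_sim (C : CM) : ∃ (G : V → V) (c : ℕ),
    RunsBy G (fun v => c * (v.hd.spine + 1) ^ 2 * v.size) ∧
    (∀ v, (G v).size ≤ v.size + c * v.hd.spine + c) ∧
    ∀ (T : ℕ) (w : V) (p : LC), p.2.length = C.κ →
      G (.node (V.una T) (.node w (enc p))) = .node w (enc ((lstep C)^[T] p)) := by
  obtain ⟨F, hF, ⟨c₀, hc₀⟩, hFv⟩ := exists_lstepV C
  obtain ⟨G, hG⟩ : ∃ G : V → V, G = fun v => V.node v.hd (F v.tl) := ⟨_, rfl⟩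
  have hGl : Lin G := by
    rw [hG]
    exact Lin.node Lin.hd (Lin.comp hF Lin.tl)
  have hGs : ∀ v, (G v).size ≤ v.size + (c₀ + 2) := by
    intro v
    have h1 := simA_sum v
    have h2 := hc₀ v.tl
    have h3 : (G v).size = v.hd.size + (F v.tl).size + 1 := by rw [hG]; rfl
    omega
  have hGi := simA_iter hGs
  obtain ⟨c₁, hc₁⟩ : ∃ c₁, c₁ = c₀ + 2 := ⟨_, rfl⟩
  rw [← hc₁] at hGi
  obtain ⟨C1, hC1⟩ := hGl
  obtain ⟨C2, hC2⟩ := hC1.uiter
  have h := hC2 (fun v => C1 * (v.size + v.hd.spine * c₁)) (fun v => v.size + v.hd.spine * c₁)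
    (fun v i hi => by
      refine (hGi i v.tl).trans ?_
      have h1 := simA_tl_size v
      have h2 : i * c₁ ≤ v.hd.spine * c₁ := Nat.mul_le_mul_right _ hi
      omega)
    (fun v i hi => by
      have h1 := simA_tl_size v
      have h2 : i * c₁ ≤ v.hd.spine * c₁ := Nat.mul_le_mul_right _ hi.le
      have h3 := hGi i v.tl
      exact Nat.mul_le_mul_left _ (by omega))
  refine ⟨V.uiter G, C2 * ((C1 + 1) * (1 + c₁) + 2) + c₁, ?_, ?_, ?_⟩
  · refine h.mono fun v => ?_
    have hs := V.size_pos v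
    obtain ⟨n, hn⟩ : ∃ n, n = v.size := ⟨_, rfl⟩
    obtain ⟨m, hm⟩ : ∃ m, m = v.hd.spine := ⟨_, rfl⟩
    rw [← hn] at hs
    rw [← hn, ← hm]
    have e1 : n + m * c₁ ≤ (1 + c₁) * ((m + 1) * n) := by
      obtain ⟨k, rfl⟩ : ∃ k, n = k + 1 := ⟨n - 1, by omega⟩
      nlinarith [Nat.zero_le (m * k), Nat.zero_le (c₁ * k), Nat.zero_le (c₁ * (m * k)),
        Nat.zero_le m, Nat.zero_le c₁]
    have e2 : n + 1 ≤ 2 * ((m + 1) * n) := by
      obtain ⟨k, rfl⟩ : ∃ k, n = k + 1 := ⟨n - 1, by omega⟩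
      nlinarith [Nat.zero_le (m * k), Nat.zero_le m, Nat.zero_le k]
    have e3 : C1 * (n + m * c₁) + (n + m * c₁) + n + 1 ≤
        ((C1 + 1) * (1 + c₁) + 2) * ((m + 1) * n) := by
      have e4 : (C1 + 1) * (n + m * c₁) ≤ (C1 + 1) * ((1 + c₁) * ((m + 1) * n)) :=
        Nat.mul_le_mul_left _ e1
      calc C1 * (n + m * c₁) + (n + m * c₁) + n + 1
          = (C1 + 1) * (n + m * c₁) + (n + 1) := by ring
        _ ≤ (C1 + 1) * ((1 + c₁) * ((m + 1) * n)) + 2 * ((m + 1) * n) := Nat.add_le_add e4 e2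
        _ = ((C1 + 1) * (1 + c₁) + 2) * ((m + 1) * n) := by ring
    calc C2 * (m + 1) * (C1 * (n + m * c₁) + (n + m * c₁) + n + 1)
        ≤ C2 * (m + 1) * (((C1 + 1) * (1 + c₁) + 2) * ((m + 1) * n)) :=
          Nat.mul_le_mul_left _ e3
      _ = C2 * ((C1 + 1) * (1 + c₁) + 2) * (m + 1) ^ 2 * n := by ring
      _ ≤ (C2 * ((C1 + 1) * (1 + c₁) + 2) + c₁) * (m + 1) ^ 2 * n :=
          Nat.mul_le_mul_right _ (Nat.mul_le_mul_right _ (Nat.le_add_right _ _))
  · intro v
    have h1 := hGi v.hd.spine v.tl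
    have h2 := simA_tl_size v
    have h3 : v.hd.spine * c₁ ≤ (C2 * ((C1 + 1) * (1 + c₁) + 2) + c₁) * v.hd.spine := by
      rw [Nat.mul_comm]
      exact Nat.mul_le_mul_right _ (Nat.le_add_left _ _)
    have h4 : (V.uiter G v).size = (G^[v.hd.spine] v.tl).size := rfl
    omega
  · intro T w p hp
    have h1 : V.uiter G (.node (V.una T) (.node w (enc p))) = G^[T] (.node w (enc p)) := by
      unfold V.uiter
      rw [V.hd_node, V.tl_node, V.spine_una]
    rw [h1]
    have key : ∀ T : ℕ, ((lstep C)^[T] p).2.length = C.κ ∧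
        G^[T] (.node w (enc p)) = .node w (enc ((lstep C)^[T] p)) := by
      intro T
      induction T with
      | zero => exact ⟨hp, rfl⟩
      | succ T ih =>
        rw [Function.iterate_succ_apply', Function.iterate_succ_apply']
        refine ⟨by rw [length_lstep]; exact ih.1, ?_⟩
        rw [ih.2, hG]
        simp only [V.hd_node, V.tl_node]
        rw [hFv _ ih.1]
    exact (key T).2

end Pool.Agent.BPD
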